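import Pool.Agent.H58.CE.Base

/-! [H58 CE CERT] Decision trees have few pairs of coordinates with interaction.

PROOF of `cert_of_dt`. Induction on `t` (definition of `Dt`). If `f` is constant take `C = ∅`.
Otherwise there is `i` such that `f' := fun σ => f (Function.update σ i (σ₀ i))` satisfies `Dt t f'`
(`σ₀` is the given point); take the certificate `C'` of `f'` at `σ₀` and `C = insert i C'`: if `τ`
agrees with `σ₀` on `C` then `Function.update τ i (σ₀ i) = τ`, so `f τ = f' τ = f' σ₀ = f σ₀`.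
PROOF of `pc_le_of_dt`. For every point `τ` let `C τ` be a certificate of size `≤ t` for `f` at `τ`
(`cert_of_dt`). Let `(i, j)` be a pair with `i ≠ j` and `¬ Uni4` at `σ`. Then
`i ∈ C σ ∧ (j ∈ C σ ∨ j ∈ C (flip σ i))` or `j ∈ C σ ∧ i ∈ C (flip σ j)`: if `i, j ∉ C σ` then all
four values are equal to `f σ` (all four points agree with `σ` on `C σ`). If `i ∈ C σ` and
`j ∉ C σ`, then `f σ = f (flip σ j)`; if moreover `j ∉ C (flip σ i)` then
`f (flip σ i) = f (flip (flip σ i) j)`, so the second alternative of `Uni4` holds, contradiction.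
The same for `j ∈ C σ`, `i ∉ C σ` with the first alternative and
`flip (flip σ i) j = flip (flip σ j) i`. So the set of pairs is contained in
`C σ ×ˢ C σ ∪ (C σ).biUnion (fun i => {i} ×ˢ C (flip σ i)) ∪ (C σ).biUnion (fun j => C (flip σ j) ×ˢ {j})`,
which has at most `3 t²` elements. (`flip` is `Pool.Agent.H58.OVPR.flip`.) -/

set_option autoImplicit false
set_option maxHeartbeats 4000000

namespace Pool.Agent.H58.CE

open Pool.Agent.H58.OVAC Pool.Agent.H58.OVPR Pool.Agent.H58.OVT Pool.Agent.H58.CD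

theorem cert_of_dt {V Y : Type} [DecidableEq V] {t : ℕ} : ∀ {f : (V → Bool) → Y} (_ : Dt t f)
    (σ : V → Bool), ∃ C : Finset V, C.card ≤ t ∧ ∀ τ : V → Bool, (∀ i ∈ C, τ i = σ i) → f τ = f σ := by
  induction t with
  | zero =>
    intro f hf σ
    exact ⟨∅, le_refl _, fun τ _ => hf τ σ⟩
  | succ t ih =>
    intro f hf σ
    rcases hf with hf | ⟨i, hi⟩
    · exact ⟨∅, by simp, fun τ _ => hf τ σ⟩
    · obtain ⟨C, hC, hC2⟩ := ih (hi (σ i)) σ
      refine ⟨insert i C, (Finset.card_insert_le _ _).trans (by omega), fun τ hτ => ?_⟩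
      have h1 : Function.update τ i (σ i) = τ := by
        rw [← hτ i (Finset.mem_insert_self _ _)]
        exact Function.update_eq_self _ _
      have h2 : Function.update σ i (σ i) = σ := Function.update_eq_self _ _
      have h3 := hC2 τ fun j hj => hτ j (Finset.mem_insert_of_mem hj)
      simp only [h1, h2] at h3
      exact h3

private theorem flip_ne {V : Type} (σ : V → Bool) {i j : V} (h : j ≠ i) :
    Pool.Agent.H58.OVPR.flip σ i j = σ j := by
  simp [Pool.Agent.H58.OVPR.flip, h]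

private theorem flip_eq {V : Type} (σ : V → Bool) (i : V) :
    Pool.Agent.H58.OVPR.flip σ i i = !σ i := by
  simp [Pool.Agent.H58.OVPR.flip]

private theorem flip_comm {V : Type} (σ : V → Bool) {i j : V} (h : i ≠ j) :
    Pool.Agent.H58.OVPR.flip (Pool.Agent.H58.OVPR.flip σ i) j =
      Pool.Agent.H58.OVPR.flip (Pool.Agent.H58.OVPR.flip σ j) i := by
  funext l
  by_cases hi : l = i
  · subst hi
    rw [flip_ne _ h, flip_eq, flip_eq, flip_ne _ h]
  · by_cases hj : l = j
    · subst hj
      rw [flip_eq, flip_ne _ hi, flip_ne _ hi, flip_eq]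
    · rw [flip_ne _ hj, flip_ne _ hi, flip_ne _ hi, flip_ne _ hj]

private theorem pc_le_card {V Y : Type} [Fintype V] (f : (V → Bool) → Y) (σ : V → Bool)
    (S : Finset (V × V)) (hS : ∀ q : V × V, q.1 ≠ q.2 →
      ¬ Uni4 (f σ) (f (Pool.Agent.H58.OVPR.flip σ q.1)) (f (Pool.Agent.H58.OVPR.flip σ q.2))
        (f (Pool.Agent.H58.OVPR.flip (Pool.Agent.H58.OVPR.flip σ q.1) q.2)) → q ∈ S) :
    pc f σ ≤ S.card := by
  classical
  unfold pc
  refine Finset.card_le_card fun q hq => ?_
  obtain ⟨-, h1, h2⟩ := Finset.mem_filter.1 hq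
  exact hS q h1 h2

theorem pc_le_of_dt {V Y : Type} [Fintype V] [DecidableEq V] {t : ℕ} {f : (V → Bool) → Y}
    (h : Dt t f) (σ : V → Bool) : pc f σ ≤ 3 * t ^ 2 := by
  choose C hC hC2 using fun τ => cert_of_dt h τ
  have hCσ := hC σ
  have k1 : (C σ ×ˢ C σ).card ≤ t ^ 2 := by
    rw [Finset.card_product, pow_two]
    exact Nat.mul_le_mul hCσ hCσ
  have k2 : ((C σ).biUnion (fun i => {i} ×ˢ C (Pool.Agent.H58.OVPR.flip σ i))).card ≤ t ^ 2 := by
    refine (Finset.card_biUnion_le_card_mul _ _ t fun i _ => ?_).trans ?_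
    · rw [Finset.card_product, Finset.card_singleton, one_mul]
      exact hC _
    · rw [pow_two]
      exact Nat.mul_le_mul_right _ hCσ
  have k3 : ((C σ).biUnion (fun j => C (Pool.Agent.H58.OVPR.flip σ j) ×ˢ {j})).card ≤ t ^ 2 := by
    refine (Finset.card_biUnion_le_card_mul _ _ t fun j _ => ?_).trans ?_
    · rw [Finset.card_product, Finset.card_singleton, mul_one]
      exact hC _
    · rw [pow_two]
      exact Nat.mul_le_mul_right _ hCσ
  have k4 := Finset.card_union_le (C σ ×ˢ C σ ∪ (C σ).biUnion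
    (fun i => {i} ×ˢ C (Pool.Agent.H58.OVPR.flip σ i)))
    ((C σ).biUnion (fun j => C (Pool.Agent.H58.OVPR.flip σ j) ×ˢ {j}))
  have k5 := Finset.card_union_le (C σ ×ˢ C σ)
    ((C σ).biUnion (fun i => {i} ×ˢ C (Pool.Agent.H58.OVPR.flip σ i)))
  have hsub : pc f σ ≤ ((C σ ×ˢ C σ ∪ (C σ).biUnion
      (fun i => {i} ×ˢ C (Pool.Agent.H58.OVPR.flip σ i))) ∪
        (C σ).biUnion (fun j => C (Pool.Agent.H58.OVPR.flip σ j) ×ˢ {j})).card := by
    refine pc_le_card f σ _ ?_
    rintro ⟨i, j⟩ hij hU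
    -- agreement off a coordinate
    have hag : ∀ (τ : V → Bool) (l : V), l ∉ C τ → f (Pool.Agent.H58.OVPR.flip τ l) = f τ := by
      intro τ l hl
      refine hC2 τ _ fun l' hl' => flip_ne τ ?_
      rintro rfl
      exact hl hl'
    by_contra hcon
    simp only [Finset.mem_union, Finset.mem_product, Finset.mem_biUnion, Finset.mem_singleton] at hcon
    push Not at hcon
    obtain ⟨⟨h1, h2⟩, h3⟩ := hcon
    apply hU
    by_cases hi : i ∈ C σ
    · have hj : j ∉ C σ := h1 hi
      have hj' : j ∉ C (Pool.Agent.H58.OVPR.flip σ i) := fun hj' => h2 i hi rfl hj'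
      right
      exact ⟨(hag σ j hj).symm, (hag _ j hj').symm⟩
    · by_cases hj : j ∈ C σ
      · have hi' : i ∉ C (Pool.Agent.H58.OVPR.flip σ j) := fun hi' => h3 j hj hi' rfl
        left
        refine ⟨(hag σ i hi).symm, ?_⟩
        show f (Pool.Agent.H58.OVPR.flip σ j) =
          f (Pool.Agent.H58.OVPR.flip (Pool.Agent.H58.OVPR.flip σ i) j)
        rw [flip_comm σ hij]
        exact (hag _ i hi').symm
      · left
        refine ⟨(hag σ i hi).symm, ?_⟩
        show f (Pool.Agent.H58.OVPR.flip σ j) =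
          f (Pool.Agent.H58.OVPR.flip (Pool.Agent.H58.OVPR.flip σ i) j)
        rw [hag σ j hj]
        refine (hC2 σ _ fun l hl => ?_).symm
        have hli : l ≠ i := by
          rintro rfl
          exact hi hl
        have hlj : l ≠ j := by
          rintro rfl
          exact hj hl
        rw [flip_ne _ hlj, flip_ne _ hli]
  omega

end Pool.Agent.H58.CE
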