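import Pool.Agent.H58.CE.Base

/-! [H58 CE PART] The partition trick for pairs: many interacting pairs show up within one
colour class.

PROOF. Write `N` colours; a colouring is `c : V → Fin N`. For a point `x : V → Bool` and a colour
`j` let `a j c x` be the number of pairs `q : V × V` with `q.1 ≠ q.2`, `c q.1 = c q.2 = j` and
`¬ Uni4` (on the square of `q` at `x`, as in `pc f x`).
(1) For `ω : V → Fin N × Bool` and `σ`, with `c = fun i => (ω i).1` and
`x = fun i => if (ω i).1 = j then σ i else (ω i).2` (so that `restr ω j f σ = f x` by definition):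
`a j c x ≤ pc (restr ω j f) σ`, since for `i, i'` of colour `j`, flipping `σ` at `i`, `i'` flips `x`
at `i`, `i'` (compare `OVPR.alive_le_sens`).
(2) For fixed `j` and `c` the point `x` is uniform: `av_mix` (the bits of `ω` and `σ` are independent;
split `ω = (c, β)` by `Equiv.arrowProdEquivProdArrow`, and `x = mix {i | c i = j} σ β`). So
`av_c pr_x (P < a j c x) ≤ av_ω pr_σ (P < pc (restr ω j f) σ) ≤ δ`.
(3) Let `Q c x := ∃ j, P < a j c x`. Claim: if `2 * N ^ 2 * P < pc f x` then
`pr_c (Q c x) ≥ 1 / (2 N)`. Let `b = pc f x > 0`. For a pair `i ≠ i'` the probability of `c i = c i'`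
is `1/N` (`OVPR.pr_eq_pair`), so `b / N = av_c (∑ j, a j c x)`. If `¬ Q c x` the sum is `≤ N * P`,
otherwise it is `≤ b`. So `b / N ≤ N * P + b * pr_c (Q c x)`, and `N * P / b ≤ 1 / (2 N)`.
(4) So `pr_x (2 N² P < pc f x) * (1/(2N)) ≤ av_x pr_c (Q c x) ≤ ∑ j, av_c pr_x (P < a j c x) ≤ N δ`. -/

set_option autoImplicit false
set_option maxHeartbeats 4000000

namespace Pool.Agent.H58.CE

open Pool.Agent.H58.OVAC Pool.Agent.H58.OVPR Pool.Agent.H58.OVT Pool.Agent.H58.CD

open Classical in
/-- The bad pairs at `x`. -/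
private noncomputable def bp {V Y : Type} [Fintype V] (f : (V → Bool) → Y) (x : V → Bool) :
    Finset (V × V) :=
  Finset.univ.filter fun q : V × V => q.1 ≠ q.2 ∧ ¬ Uni4 (f x) (f (Pool.Agent.H58.OVPR.flip x q.1))
    (f (Pool.Agent.H58.OVPR.flip x q.2))
    (f (Pool.Agent.H58.OVPR.flip (Pool.Agent.H58.OVPR.flip x q.1) q.2))

private theorem bp_card {V Y : Type} [Fintype V] (f : (V → Bool) → Y) (x : V → Bool) :
    (bp f x).card = pc f x := rfl

open Classical in
private theorem bp_ne {V Y : Type} [Fintype V] (f : (V → Bool) → Y) (x : V → Bool) {q : V × V}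
    (hq : q ∈ bp f x) : q.1 ≠ q.2 := by
  unfold bp at hq
  exact (Finset.mem_filter.1 hq).2.1

open Classical in
/-- The number of bad pairs of colour `j`. -/
private noncomputable def aj {V Y : Type} [Fintype V] {N : ℕ} (f : (V → Bool) → Y) (j : Fin N)
    (c : V → Fin N) (x : V → Bool) : ℕ :=
  ((bp f x).filter fun q => c q.1 = j ∧ c q.2 = j).card

open Classical in
private theorem flip_restr {V : Type} {N : ℕ} (ω : V → Fin N × Bool) (j : Fin N) (σ : V → Bool)
    (i : V) (hi : (ω i).1 = j) :
    (fun k => if (ω k).1 = j then Pool.Agent.H58.OVPR.flip σ i k else (ω k).2) =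
      Pool.Agent.H58.OVPR.flip (fun k => if (ω k).1 = j then σ k else (ω k).2) i := by
  funext k
  by_cases hk : k = i
  · subst hk
    simp [Pool.Agent.H58.OVPR.flip, hi]
  · simp [Pool.Agent.H58.OVPR.flip, hk]

open Classical in
private theorem aj_le {V Y : Type} [Fintype V] {N : ℕ} (f : (V → Bool) → Y) (j : Fin N)
    (ω : V → Fin N × Bool) (σ : V → Bool) :
    aj f j (fun k => (ω k).1) (fun k => if (ω k).1 = j then σ k else (ω k).2) ≤
      pc (restr ω j f) σ := by
  unfold aj pc
  apply Finset.card_le_card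
  intro q hq
  obtain ⟨h1, h2, h3⟩ := Finset.mem_filter.1 hq
  unfold bp at h1
  obtain ⟨_, h4, h5⟩ := Finset.mem_filter.1 h1
  refine Finset.mem_filter.2 ⟨Finset.mem_univ _, h4, ?_⟩
  have e0 : ∀ τ : V → Bool, restr ω j f τ = f (fun k => if (ω k).1 = j then τ k else (ω k).2) :=
    fun τ => rfl
  rw [e0, e0, e0, e0, flip_restr ω j _ _ h3, flip_restr ω j _ _ h2, flip_restr ω j _ _ h3,
    flip_restr ω j _ _ h2]
  exact h5

theorem pc_part {V Y : Type} [Fintype V] [DecidableEq V] {N : ℕ} (hN : 1 ≤ N)
    (f : (V → Bool) → Y) (P : ℕ) {δ : ℝ}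
    (h : ∀ j : Fin N, (av fun ω : V → Fin N × Bool => pr fun σ : V → Bool =>
      P < pc (restr ω j f) σ) ≤ δ) :
    pr (fun σ : V → Bool => 2 * N ^ 2 * P < pc f σ) ≤ 2 * N ^ 2 * δ := by
  classical
  have hNe : Nonempty (Fin N) := ⟨⟨0, by omega⟩⟩
  have hN0 : (0 : ℝ) < N := by exact_mod_cast (by omega : 0 < N)
  have hone : ∀ j : Fin N, (av fun c : V → Fin N => pr fun σ : V → Bool => P < aj f j c σ) ≤ δ := by
    intro j
    have h2 : (av fun c : V → Fin N => pr fun σ : V → Bool => P < aj f j c σ) =
        av fun ω : V → Fin N × Bool => pr fun σ : V → Bool =>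
          P < aj f j (fun k => (ω k).1) (fun k => if (ω k).1 = j then σ k else (ω k).2) := by
      have h3 := av_equiv (Equiv.arrowProdEquivProdArrow V (fun _ => Fin N) (fun _ => Bool))
        (fun z : (V → Fin N) × (V → Bool) => pr fun σ : V → Bool =>
          P < aj f j z.1 (fun k => if z.1 k = j then σ k else z.2 k))
      refine Eq.trans ?_ h3.symm
      rw [av_prod fun (c : V → Fin N) (σ0 : V → Bool) => pr fun σ : V → Bool =>
          P < aj f j c (fun k => if c k = j then σ k else σ0 k)]
      apply av_congr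
      intro c
      rw [← pr_mix (Finset.univ.filter fun k => c k ≠ j)]
      apply av_congr
      intro σ0
      apply pr_congr
      intro σ
      have : mix (Finset.univ.filter fun k => c k ≠ j) σ0 σ =
          fun k => if c k = j then σ k else σ0 k := by
        funext k
        unfold mix
        by_cases hk : c k = j <;> simp [hk]
      rw [this]
    rw [h2]
    refine le_trans (av_mono fun ω => pr_mono fun σ hσ => ?_) (h j)
    exact lt_of_lt_of_le hσ (aj_le f j ω σ)
  -- the sum over the colours
  have hsum : ∀ (c : V → Fin N) (x : V → Bool), ∑ j : Fin N, aj f j c x =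
      ((bp f x).filter fun q => c q.1 = c q.2).card := by
    intro c x
    rw [Finset.card_eq_sum_card_fiberwise (f := fun q : V × V => c q.1) (t := Finset.univ)
      (fun _ _ => Finset.mem_univ _)]
    apply Finset.sum_congr rfl
    intro j _
    unfold aj
    congr 1
    ext q
    simp only [Finset.mem_filter]
    constructor
    · rintro ⟨h1, h2, h3⟩
      exact ⟨⟨h1, by rw [h2, h3]⟩, h2⟩
    · rintro ⟨⟨h1, h2⟩, h3⟩
      exact ⟨h1, h3, by rw [← h2, h3]⟩
  have hav : ∀ x : V → Bool, (av fun c : V → Fin N => ((∑ j : Fin N, aj f j c x : ℕ) : ℝ)) =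
      (pc f x : ℝ) * (1 / N) := by
    intro x
    have e1 : ∀ c : V → Fin N, ((∑ j : Fin N, aj f j c x : ℕ) : ℝ) =
        ∑ q ∈ bp f x, if c q.1 = c q.2 then (1 : ℝ) else 0 := by
      intro c
      rw [hsum c x, Finset.card_filter]
      push_cast
      rfl
    rw [av_congr e1, av_sum]
    have e2 : ∀ q ∈ bp f x, (av fun c : V → Fin N => if c q.1 = c q.2 then (1 : ℝ) else 0) =
        1 / N := by
      intro q hq
      have h4 := bp_ne f x hq
      have h5 := pr_eq_pair (X := Fin N) q.1 q.2 h4
      rw [Fintype.card_fin] at h5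
      rw [← h5]
      unfold pr
      exact av_congr fun c => by congr
    rw [Finset.sum_congr rfl e2, Finset.sum_const, nsmul_eq_mul, bp_card]
  have hkey : ∀ x : V → Bool, 2 * N ^ 2 * P < pc f x →
      1 / (2 * (N : ℝ)) ≤ pr fun c : V → Fin N => ∃ j ∈ (Finset.univ : Finset (Fin N)),
        P < aj f j c x := by
    intro x hx
    have hb : (0 : ℝ) < pc f x := by exact_mod_cast (by omega : 0 < pc f x)
    have h1 : (pc f x : ℝ) * (1 / N) ≤ N * P + pc f x * pr fun c : V → Fin N =>
        ∃ j ∈ (Finset.univ : Finset (Fin N)), P < aj f j c x := by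
      rw [← hav x]
      unfold pr
      rw [← av_mul_left]
      have h2 : ((N : ℝ) * P) = av fun _ : V → Fin N => ((N : ℝ) * P) := (av_const _).symm
      rw [h2, ← av_add]
      refine av_mono fun c => ?_
      by_cases hq : ∃ j ∈ (Finset.univ : Finset (Fin N)), P < aj f j c x
      · rw [if_pos hq]
        have h3 : ∑ j : Fin N, aj f j c x ≤ pc f x := by
          rw [hsum c x, ← bp_card]
          exact Finset.card_le_card (Finset.filter_subset _ _)
        have h4 : ((∑ j : Fin N, aj f j c x : ℕ) : ℝ) ≤ pc f x := by exact_mod_cast h3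
        have h5 : (0 : ℝ) ≤ N * P := by positivity
        linarith
      · rw [if_neg hq]
        have h3 : ∑ j : Fin N, aj f j c x ≤ ∑ _j : Fin N, P := by
          refine Finset.sum_le_sum fun j hj => ?_
          by_contra hc
          exact hq ⟨j, hj, not_le.1 hc⟩
        rw [Finset.sum_const, Finset.card_univ, Fintype.card_fin, smul_eq_mul] at h3
        have h4 : ((∑ j : Fin N, aj f j c x : ℕ) : ℝ) ≤ ((N * P : ℕ) : ℝ) := by exact_mod_cast h3
        push_cast at h4 ⊢
        linarith
    have h6 : (2 * (N : ℝ) ^ 2 * P) ≤ pc f x := by exact_mod_cast hx.le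
    set p := pr fun c : V → Fin N => ∃ j ∈ (Finset.univ : Finset (Fin N)), P < aj f j c x with hp
    have h7 : (N : ℝ) * P ≤ pc f x * (1 / (2 * N)) := by
      rw [mul_one_div, le_div_iff₀ (by positivity)]
      nlinarith [h6]
    have h8 : (pc f x : ℝ) * (1 / N) = pc f x * (1 / (2 * N)) + pc f x * (1 / (2 * N)) := by
      field_simp
      norm_num
    have h9 : (pc f x : ℝ) * (1 / (2 * N)) ≤ pc f x * p := by linarith
    exact le_of_mul_le_mul_left h9 hb
  have h10 : pr (fun σ : V → Bool => 2 * N ^ 2 * P < pc f σ) * (1 / (2 * (N : ℝ))) ≤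
      av fun x : V → Bool => pr fun c : V → Fin N => ∃ j ∈ (Finset.univ : Finset (Fin N)),
        P < aj f j c x := by
    unfold pr
    rw [← av_mul_right]
    refine av_mono fun x => ?_
    by_cases hx : 2 * N ^ 2 * P < pc f x
    · rw [if_pos hx, one_mul]
      exact hkey x hx
    · rw [if_neg hx, zero_mul]
      exact pr_nonneg _
  have h11 : (av fun x : V → Bool => pr fun c : V → Fin N => ∃ j ∈ (Finset.univ : Finset (Fin N)),
      P < aj f j c x) ≤ N * δ := by
    calc (av fun x : V → Bool => pr fun c : V → Fin N => ∃ j ∈ (Finset.univ : Finset (Fin N)),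
          P < aj f j c x)
        ≤ av fun x : V → Bool => ∑ j : Fin N, pr fun c : V → Fin N => P < aj f j c x :=
          av_mono fun x => pr_exists_le _ _
      _ = ∑ j : Fin N, av fun x : V → Bool => pr fun c : V → Fin N => P < aj f j c x :=
          av_sum _ _
      _ = ∑ j : Fin N, av fun c : V → Fin N => pr fun x : V → Bool => P < aj f j c x := by
          refine Finset.sum_congr rfl fun j _ => ?_
          unfold pr
          exact av_comm _
      _ ≤ ∑ _j : Fin N, δ := Finset.sum_le_sum fun j _ => hone j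
      _ = N * δ := by rw [Finset.sum_const, Finset.card_univ, Fintype.card_fin, nsmul_eq_mul]
  have h12 := h10.trans h11
  rw [mul_one_div, div_le_iff₀ (by positivity)] at h12
  calc pr (fun σ : V → Bool => 2 * N ^ 2 * P < pc f σ) ≤ N * δ * (2 * N) := h12
    _ = 2 * N ^ 2 * δ := by ring

end Pool.Agent.H58.CE
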