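import Pool.Agent.H58.CE.Base

/-! [H58 CE PAR2] The parameters, and the tails.

NOTATION. `Λ = h + L`, `s₁ = 1024 Λ`, `S = 2 s₁ (32 s₁)^T`, `k = 100000 (T+2) (S+2)`,
`D = k (2 l + 5)`, `G = s (2 (2 n D k + 1 + s)) + (2 n D k + 1 + s)`,
`tailB T s₁ G = T (32 s₁)^T G / 2^s₁`, `tailP T s₁ G = T (2 (32 s₁)^2)^T G / 2^s₁`,
`pB T s₁ = 12 s₁^2 (2 (32 s₁)^2)^T`. See CD/Par.lean for very similar proofs (they can be copied and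
adapted).
Let `b = 2^Λ ≥ 2`, `B = 2^(64 Λ) = b^64`, so `2^s₁ = 2^(1024 Λ) = B^16`.
PROOF of `qnum_tail` (work in ℕ, cast at the end). From `hT`: `S ≤ (32 s₁)^(T+1) ≤ B`,
`T + 2 ≤ 2^(T+1) ≤ B`, `(32 s₁)^T ≤ B`, `(2 (32 s₁)^2)^T ≤ ((32 s₁)^3)^T ≤ B^3`;
`k ≤ 2^17 B (B + 2) ≤ 2^19 B^2`; `2 l + 5 ≤ 7 b`, `D ≤ 2^22 B^2 b`; `n, s + 1, 2^h ≤ b`;
`G = (2 s + 1)(2 n D k + 1 + s) ≤ 2 b (2 b * 2^22 B^2 b * 2^19 B^2 + b) ≤ 2^44 B^4 b^3`.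
First: `2 D s D T (32 s₁)^T G ≤ 2 (2^22 B^2 b)^2 b * B * B * 2^44 B^4 b^3 = 2^89 B^10 b^6 ≤ B^16`
(`B^6 = b^384`). Second: `8^(2 l + 5) = 2^(6 l + 15) ≤ b^21`;
`100 (T+2) 8^(2l+5) 4 2^h s T (32 s₁)^T G ≤ 2^9 B b^21 b b B B 2^44 B^4 b^3 = 2^53 B^7 b^26 ≤ B^16`.
Third: `1000 (T+2) 2^h s T (2 (32 s₁)^2)^T G ≤ 2^10 B b b B B^3 2^44 B^4 b^3 = 2^54 B^9 b^5 ≤ B^16`. -/

set_option autoImplicit false
set_option maxHeartbeats 4000000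

namespace Pool.Agent.H58.CE

open Pool.Agent.H58.OVAC Pool.Agent.H58.OVPR Pool.Agent.H58.OVT Pool.Agent.H58.CD

def qS₁ (Λ : ℕ) : ℕ := 1024 * Λ

def qK (T Λ : ℕ) : ℕ := 100000 * (T + 2) * (snB T (qS₁ Λ) + 2)

def qD (T Λ l : ℕ) : ℕ := qK T Λ * (2 * l + 5)

def qG (n s T Λ l : ℕ) : ℕ :=
  s * (2 * (2 * n * qD T Λ l * qK T Λ + 1 + s)) + (2 * n * qD T Λ l * qK T Λ + 1 + s)

def qM (T h H J : ℕ) : ℕ := 100 * (T + 2) * 2 ^ h * (h + H) * (J + 1)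

def qL (T h H J : ℕ) : ℕ := h + (h + H) * Nat.clog 2 (2 * qM T h H J + 1) + 1

def qm (T h H J : ℕ) : ℕ := 100000000 * (T + 2) ^ 2 * qL T h H J

private theorem q_nat {n s T h L l : ℕ} (hnL : n ≤ 2 ^ L) (hs : s + 1 ≤ 2 ^ L) (hl : l ≤ L)
    (hL : 1 ≤ L) (hT : (32 * qS₁ (h + L)) ^ (T + 1) ≤ 2 ^ (64 * (h + L))) :
    2 * (qD T (h + L) l * (s * (qD T (h + L) l *
      (T * (32 * qS₁ (h + L)) ^ T * qG n s T (h + L) l)))) ≤ 2 ^ qS₁ (h + L) ∧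
    100 * ((T + 2) * (8 ^ (2 * l + 5) * (4 * (2 ^ h * (s *
      (T * (32 * qS₁ (h + L)) ^ T * qG n s T (h + L) l)))))) ≤ 2 ^ qS₁ (h + L) ∧
    100 * (10 * (T + 2) * (2 ^ h * (s *
      (T * (2 * (32 * qS₁ (h + L)) ^ 2) ^ T * qG n s T (h + L) l)))) ≤ 2 ^ qS₁ (h + L) := by
  obtain ⟨Λ, hΛ⟩ : ∃ Λ, Λ = h + L := ⟨_, rfl⟩
  rw [← hΛ] at hT ⊢
  obtain ⟨b, hb⟩ : ∃ b, b = 2 ^ Λ := ⟨_, rfl⟩
  obtain ⟨B, hB⟩ : ∃ B, B = 2 ^ (64 * Λ) := ⟨_, rfl⟩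
  have hBb : B = b ^ 64 := by rw [hB, hb, ← pow_mul, mul_comm]
  have hΛ1 : 1 ≤ Λ := by omega
  have hb2 : 2 ≤ b := by
    rw [hb]
    calc 2 = 2 ^ 1 := rfl
      _ ≤ 2 ^ Λ := Nat.pow_le_pow_right (by norm_num) hΛ1
  have hLb : 2 ^ L ≤ b := by rw [hb]; exact Nat.pow_le_pow_right (by norm_num) (by omega)
  have hhb : 2 ^ h ≤ b := by rw [hb]; exact Nat.pow_le_pow_right (by norm_num) (by omega)
  have hB1 : 1 ≤ B := by rw [hB]; exact Nat.one_le_two_pow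
  have hnb : n ≤ b := hnL.trans hLb
  have hsb : s + 1 ≤ b := hs.trans hLb
  have hlb : l ≤ b := hl.trans (Nat.lt_two_pow_self.le.trans hLb)
  rw [← hB] at hT
  have hy : 2 ≤ 32 * qS₁ Λ := by unfold qS₁; omega
  have hPB : (32 * qS₁ Λ) ^ T ≤ B := (Nat.pow_le_pow_right (by omega) (Nat.le_succ T)).trans hT
  have h1 : snB T (qS₁ Λ) ≤ B := by
    refine le_trans ?_ hT
    unfold snB
    rw [pow_succ, mul_comm ((32 * qS₁ Λ) ^ T)]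
    exact Nat.mul_le_mul_right _ (by omega)
  have hTB2 : T + 2 ≤ B + 1 := by
    have e : T + 1 < 2 ^ (T + 1) := Nat.lt_two_pow_self
    have e2 : 2 ^ (T + 1) ≤ (32 * qS₁ Λ) ^ (T + 1) := Nat.pow_le_pow_left hy _
    omega
  have hT2 : T + 2 ≤ B := by
    have e : T + 1 < 2 ^ (T + 1) := Nat.lt_two_pow_self
    have e2 : 2 ^ (T + 1) ≤ (32 * qS₁ Λ) ^ (T + 1) := Nat.pow_le_pow_left hy _
    omega
  have hTB : T ≤ B := by omega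
  have h2 : qK T Λ ≤ 2 ^ 19 * B ^ 2 := by
    unfold qK
    have e1 : snB T (qS₁ Λ) + 2 ≤ 3 * B := by omega
    calc 100000 * (T + 2) * (snB T (qS₁ Λ) + 2) ≤ 100000 * B * (3 * B) :=
          Nat.mul_le_mul (Nat.mul_le_mul_left _ hT2) e1
      _ = 300000 * B ^ 2 := by ring
      _ ≤ 2 ^ 19 * B ^ 2 := Nat.mul_le_mul_right _ (by norm_num)
  have h3 : 2 * l + 5 ≤ 7 * b := by omega
  have h4 : qD T Λ l ≤ 2 ^ 22 * B ^ 2 * b := by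
    unfold qD
    calc qK T Λ * (2 * l + 5) ≤ (2 ^ 19 * B ^ 2) * (7 * b) := Nat.mul_le_mul h2 h3
      _ = (2 ^ 19 * 7) * (B ^ 2 * b) := by ring
      _ ≤ 2 ^ 22 * (B ^ 2 * b) := Nat.mul_le_mul_right _ (by norm_num)
      _ = _ := by ring
  have hA : 2 * n * qD T Λ l * qK T Λ + 1 + s ≤ 2 ^ 43 * B ^ 4 * b ^ 2 := by
    have e1 : 2 * n * qD T Λ l * qK T Λ ≤ 2 * b * (2 ^ 22 * B ^ 2 * b) * (2 ^ 19 * B ^ 2) :=
      Nat.mul_le_mul (Nat.mul_le_mul (Nat.mul_le_mul_left 2 hnb) h4) h2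
    have e2 : 2 * b * (2 ^ 22 * B ^ 2 * b) * (2 ^ 19 * B ^ 2) = 2 ^ 42 * (B ^ 4 * b ^ 2) := by ring
    have e3 : 2 ^ 43 * B ^ 4 * b ^ 2 = 2 ^ 42 * (B ^ 4 * b ^ 2) + 2 ^ 42 * (B ^ 4 * b ^ 2) := by ring
    have e4 : b ≤ 2 ^ 42 * (B ^ 4 * b ^ 2) := by
      have : 1 ≤ B ^ 4 := Nat.one_le_pow _ _ hB1
      nlinarith
    omega
  have hG : qG n s T Λ l ≤ 2 ^ 44 * B ^ 4 * b ^ 3 := by
    have e1 : qG n s T Λ l = (2 * s + 1) * (2 * n * qD T Λ l * qK T Λ + 1 + s) := by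
      unfold qG; ring
    rw [e1]
    calc (2 * s + 1) * (2 * n * qD T Λ l * qK T Λ + 1 + s) ≤ (2 * b) * (2 ^ 43 * B ^ 4 * b ^ 2) :=
          Nat.mul_le_mul (by omega) hA
      _ = 2 ^ 44 * B ^ 4 * b ^ 3 := by ring
  have hW : T * (32 * qS₁ Λ) ^ T * qG n s T Λ l ≤ 2 ^ 44 * B ^ 6 * b ^ 3 := by
    calc T * (32 * qS₁ Λ) ^ T * qG n s T Λ l ≤ B * B * (2 ^ 44 * B ^ 4 * b ^ 3) :=
          Nat.mul_le_mul (Nat.mul_le_mul hTB hPB) hG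
      _ = 2 ^ 44 * B ^ 6 * b ^ 3 := by ring
  have hP3 : (2 * (32 * qS₁ Λ) ^ 2) ^ T ≤ B ^ 3 := by
    calc (2 * (32 * qS₁ Λ) ^ 2) ^ T ≤ ((32 * qS₁ Λ) * (32 * qS₁ Λ) ^ 2) ^ T :=
          Nat.pow_le_pow_left (Nat.mul_le_mul_right _ hy) T
      _ = ((32 * qS₁ Λ) ^ T) ^ 3 := by
          rw [← pow_succ', ← pow_mul, ← pow_mul]
          congr 1
          omega
      _ ≤ B ^ 3 := Nat.pow_le_pow_left hPB 3
  have hW3 : T * (2 * (32 * qS₁ Λ) ^ 2) ^ T * qG n s T Λ l ≤ 2 ^ 44 * B ^ 8 * b ^ 3 := by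
    calc T * (2 * (32 * qS₁ Λ) ^ 2) ^ T * qG n s T Λ l ≤ B * B ^ 3 * (2 ^ 44 * B ^ 4 * b ^ 3) :=
          Nat.mul_le_mul (Nat.mul_le_mul hTB hP3) hG
      _ = 2 ^ 44 * B ^ 8 * b ^ 3 := by ring
  have hend : 2 ^ 100 * b ^ 100 * B ^ 10 ≤ 2 ^ qS₁ Λ := by
    have e1 : 2 ^ qS₁ Λ = B ^ 10 * B ^ 6 := by
      rw [← pow_add, hB, ← pow_mul]
      unfold qS₁
      congr 1
      ring
    rw [e1, mul_comm (B ^ 10)]
    refine Nat.mul_le_mul_right _ ?_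
    have e2 : B ^ 6 = b ^ 100 * b ^ 100 * b ^ 184 := by
      rw [hBb]; ring
    rw [e2]
    calc 2 ^ 100 * b ^ 100 ≤ b ^ 100 * b ^ 100 := Nat.mul_le_mul_right _ (Nat.pow_le_pow_left hb2 100)
      _ ≤ b ^ 100 * b ^ 100 * b ^ 184 := Nat.le_mul_of_pos_right _ (pow_pos (by omega) _)
  have h8 : 8 ^ (2 * l + 5) ≤ b ^ 21 := by
    have e0 : (8 : ℕ) = 2 ^ 3 := by norm_num
    rw [e0, ← pow_mul, hb, ← pow_mul]
    exact Nat.pow_le_pow_right (by norm_num) (by omega)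
  have hgen : ∀ {a c d : ℕ}, a ≤ 100 → c ≤ 100 → d ≤ 10 →
      2 ^ a * b ^ c * B ^ d ≤ 2 ^ qS₁ Λ := by
    intro a c d ha hc hd
    refine le_trans ?_ hend
    exact Nat.mul_le_mul (Nat.mul_le_mul (Nat.pow_le_pow_right (by norm_num) ha)
      (Nat.pow_le_pow_right (by omega) hc)) (Nat.pow_le_pow_right hB1 hd)
  have hs' : s ≤ b := by omega
  refine ⟨?_, ?_, ?_⟩
  · calc 2 * (qD T Λ l * (s * (qD T Λ l * (T * (32 * qS₁ Λ) ^ T * qG n s T Λ l)))) ≤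
        2 * ((2 ^ 22 * B ^ 2 * b) * (b * ((2 ^ 22 * B ^ 2 * b) * (2 ^ 44 * B ^ 6 * b ^ 3)))) :=
          Nat.mul_le_mul_left _ (Nat.mul_le_mul h4 (Nat.mul_le_mul hs' (Nat.mul_le_mul h4 hW)))
      _ = 2 ^ 89 * b ^ 6 * B ^ 10 := by ring
      _ ≤ _ := hgen (by norm_num) (by norm_num) (by norm_num)
  · calc 100 * ((T + 2) * (8 ^ (2 * l + 5) * (4 * (2 ^ h * (s *
        (T * (32 * qS₁ Λ) ^ T * qG n s T Λ l)))))) ≤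
        2 ^ 7 * (B * (b ^ 21 * (4 * (b * (b * (2 ^ 44 * B ^ 6 * b ^ 3)))))) :=
          Nat.mul_le_mul (by norm_num) (Nat.mul_le_mul hT2 (Nat.mul_le_mul h8
            (Nat.mul_le_mul_left _ (Nat.mul_le_mul hhb (Nat.mul_le_mul hs' hW)))))
      _ = 2 ^ 53 * b ^ 26 * B ^ 7 := by ring
      _ ≤ _ := hgen (by norm_num) (by norm_num) (by norm_num)
  · calc 100 * (10 * (T + 2) * (2 ^ h * (s *
        (T * (2 * (32 * qS₁ Λ) ^ 2) ^ T * qG n s T Λ l)))) ≤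
        100 * (10 * B * (b * (b * (2 ^ 44 * B ^ 8 * b ^ 3)))) :=
          Nat.mul_le_mul_left _ (Nat.mul_le_mul (Nat.mul_le_mul_left _ hT2)
            (Nat.mul_le_mul hhb (Nat.mul_le_mul hs' hW3)))
      _ = 1000 * (2 ^ 44 * b ^ 5 * B ^ 9) := by ring
      _ ≤ 2 ^ 10 * (2 ^ 44 * b ^ 5 * B ^ 9) := Nat.mul_le_mul_right _ (by norm_num)
      _ = 2 ^ 54 * b ^ 5 * B ^ 9 := by ring
      _ ≤ _ := hgen (by norm_num) (by norm_num) (by norm_num)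

theorem qnum_tail {n s T h L l : ℕ} (hnL : n ≤ 2 ^ L) (hs : s + 1 ≤ 2 ^ L) (hl : l ≤ L)
    (hL : 1 ≤ L) (hT : (32 * qS₁ (h + L)) ^ (T + 1) ≤ 2 ^ (64 * (h + L))) :
    2 * ((qD T (h + L) l : ℝ) * (s * ((qD T (h + L) l : ℝ) *
      tailB T (qS₁ (h + L)) (qG n s T (h + L) l)))) ≤ 1 ∧
    ((T : ℝ) + 2) * (8 ^ (2 * l + 5) * (4 * (2 ^ h * (s *
      tailB T (qS₁ (h + L)) (qG n s T (h + L) l))))) ≤ 1 / 100 ∧
    10 * ((T : ℝ) + 2) * (2 ^ h * (s * tailP T (qS₁ (h + L)) (qG n s T (h + L) l))) ≤ 1 / 100 := by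
  obtain ⟨h1, h2, h3⟩ := q_nat hnL hs hl hL hT
  have h1' : 2 * ((qD T (h + L) l : ℝ) * (s * ((qD T (h + L) l : ℝ) *
      (T * (32 * qS₁ (h + L)) ^ T * qG n s T (h + L) l)))) ≤ 2 ^ qS₁ (h + L) := by
    exact_mod_cast h1
  have h2' : 100 * (((T : ℝ) + 2) * (8 ^ (2 * l + 5) * (4 * (2 ^ h * (s *
      (T * (32 * qS₁ (h + L)) ^ T * qG n s T (h + L) l)))))) ≤ 2 ^ qS₁ (h + L) := by
    exact_mod_cast h2
  have h3' : 100 * (10 * ((T : ℝ) + 2) * (2 ^ h * (s *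
      (T * (2 * (32 * qS₁ (h + L) : ℝ) ^ 2) ^ T * qG n s T (h + L) l)))) ≤
      2 ^ qS₁ (h + L) := by
    exact_mod_cast h3
  have hp : (0 : ℝ) < 2 ^ qS₁ (h + L) := by positivity
  unfold tailB tailP
  refine ⟨?_, ?_, ?_⟩
  · calc _ = 2 * ((qD T (h + L) l : ℝ) * (s * ((qD T (h + L) l : ℝ) *
        (T * (32 * qS₁ (h + L)) ^ T * qG n s T (h + L) l)))) / 2 ^ qS₁ (h + L) := by ring
      _ ≤ 1 := by
          rw [div_le_one hp]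
          exact h1'
  · calc _ = (100 * (((T : ℝ) + 2) * (8 ^ (2 * l + 5) * (4 * (2 ^ h * (s *
        (T * (32 * qS₁ (h + L)) ^ T * qG n s T (h + L) l))))))) / 2 ^ qS₁ (h + L) / 100 := by ring
      _ ≤ 1 / 100 := by
          refine div_le_div_of_nonneg_right ?_ (by norm_num)
          rw [div_le_one hp]
          exact h2'
  · calc _ = (100 * (10 * ((T : ℝ) + 2) * (2 ^ h * (s *
        (T * (2 * (32 * qS₁ (h + L) : ℝ) ^ 2) ^ T * qG n s T (h + L) l))))) /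
          2 ^ qS₁ (h + L) / 100 := by ring
      _ ≤ 1 / 100 := by
          refine div_le_div_of_nonneg_right ?_ (by norm_num)
          rw [div_le_one hp]
          exact h3'

end Pool.Agent.H58.CE
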