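import Pool.Agent.H58.CE.Par2

/-! [H58 CE PAR3] The numerics, second part (notation in Par2.lean: `Λ = h + L`, `s₁ = 1024 Λ`,
`S = snB T s₁ = 2 s₁ (32 s₁)^T`, `k = qK = 100000 (T+2) (S+2)`, `D = k (2 l + 5)`,
`pB T s₁ = 12 s₁^2 (2 (32 s₁)^2)^T`, `M = qM`, `Lg = qL`, `m = qm`). See CD/Par.lean for very similar proofs.
Let `y = 2^20 Λ ≥ 2^20` and `W = y ^ (2^20 (T+1))`; `32 s₁ = 2^15 Λ ≤ y`.
PROOF of `qnum_dim`. `T + 2 ≤ 2^(T+1) ≤ y^(T+1)`, `S + 2 ≤ 2 y^(T+1)`, so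
`k ≤ 200000 y^(2 (T+1)) ≤ y^(2 T + 3)`, and `2 l + D k ≤ 9 Λ k^2 ≤ y^(4 T + 7) ≤ W`.
PROOF of `qnum_triv`. `n^2 ≤ 2^(2 L) ≤ 2^(64 Λ) < (2^15 Λ)^(T+1) ≤ W`.
PROOF of `qnum_fin`. `2 M + 1 ≤ 2 * 2^7 * 2^(T+2) * 2^Λ * 2^(Λ+1) * 2^Λ * 2 ≤ 2^(3 Λ + T + 12)`
(`M = 100 (T+2) 2^h (h+H) (J+1)`, `h ≤ 2^Λ`, `H, J+1, 2^h ≤ 2^Λ`), so
`clog 2 (2M+1) ≤ 3 Λ + T + 12 ≤ 16 Λ (T+1)`. `Lg = h + (h+H) clog + 1`, `h + H ≤ (h+1) H`,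
`h + 1 ≤ 2 Λ`: `Lg ≤ 36 H Λ^2 (T+1)`, `m = 10^8 (T+2)^2 Lg ≤ 2^32 H Λ^2 (T+2)^3 ≤ H y^2 (T+2)^3 ≤
H y^(3 T + 5)`. `S + 1 ≤ y^(T+2)`, `pB + 1 ≤ y^(2T+3)` (`12 s₁^2 ≤ y^2`, `2 (32 s₁)^2 ≤ y^2`). So both
left sides are `≤ H^2 y^(9 T + 30)` or smaller powers, `≤ H^2 W`.
PROOF of `qnum_log`. `log (2^h (2M+1)^e) = h log 2 + e log (2M+1) ≤ h + e clog` as in CD/Par
`num_log`, and `e ≤ h + H`. -/

set_option autoImplicit false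
set_option maxHeartbeats 4000000

namespace Pool.Agent.H58.CE

open Pool.Agent.H58.OVAC Pool.Agent.H58.OVPR Pool.Agent.H58.OVT Pool.Agent.H58.CD

private theorem S_le (T Λ : ℕ) : snB T (qS₁ Λ) ≤ (32 * qS₁ Λ) ^ (T + 1) := by
  unfold snB
  rw [pow_succ, mul_comm ((32 * qS₁ Λ) ^ T)]
  exact Nat.mul_le_mul_right _ (by omega)

private theorem s_le_y (Λ : ℕ) : 32 * qS₁ Λ ≤ 2 ^ 20 * Λ := by unfold qS₁; omega

private theorem T2_le {T y : ℕ} (hy : 2 ≤ y) : T + 2 ≤ y ^ (T + 1) := by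
  have h1 : T + 1 < 2 ^ (T + 1) := Nat.lt_two_pow_self
  have h2 : 2 ^ (T + 1) ≤ y ^ (T + 1) := Nat.pow_le_pow_left hy _
  omega

private theorem S2_le {T Λ : ℕ} (hΛ : 1 ≤ Λ) :
    snB T (qS₁ Λ) + 2 ≤ 2 * (2 ^ 20 * Λ) ^ (T + 1) := by
  have h1 := S_le T Λ
  have h2 : (32 * qS₁ Λ) ^ (T + 1) ≤ (2 ^ 20 * Λ) ^ (T + 1) := Nat.pow_le_pow_left (s_le_y Λ) _
  have h3 : 2 ≤ (2 ^ 20 * Λ) ^ (T + 1) := by
    calc 2 ≤ 2 ^ 20 * Λ := by omega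
      _ = (2 ^ 20 * Λ) ^ 1 := (pow_one _).symm
      _ ≤ (2 ^ 20 * Λ) ^ (T + 1) := Nat.pow_le_pow_right (by omega) (by omega)
  omega

theorem qnum_dim {T h L l : ℕ} (hl : l ≤ L) (hL : 1 ≤ L) :
    2 * l + qD T (h + L) l * qK T (h + L) ≤ (2 ^ 20 * (h + L)) ^ (2 ^ 20 * (T + 1)) := by
  obtain ⟨Λ, hΛ⟩ : ∃ Λ, Λ = h + L := ⟨_, rfl⟩
  have hΛ1 : 1 ≤ Λ := by omega
  have hlΛ : l ≤ Λ := by omega
  rw [← hΛ]
  obtain ⟨y, hy⟩ : ∃ y, y = 2 ^ 20 * Λ := ⟨_, rfl⟩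
  have h1 := S2_le (T := T) hΛ1
  rw [← hy] at h1 ⊢
  have hy1 : 200000 ≤ y := by omega
  have h0 : T + 2 ≤ y ^ (T + 1) := T2_le (by omega)
  have h2 : qK T Λ ≤ y ^ (2 * T + 3) := by
    unfold qK
    calc 100000 * (T + 2) * (snB T (qS₁ Λ) + 2) ≤ 100000 * y ^ (T + 1) * (2 * y ^ (T + 1)) :=
          Nat.mul_le_mul (Nat.mul_le_mul_left _ h0) h1
      _ = 200000 * y ^ (2 * T + 2) := by ring
      _ ≤ y * y ^ (2 * T + 2) := Nat.mul_le_mul_right _ hy1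
      _ = y ^ (2 * T + 3) := by ring
  have hK1 : 1 ≤ qK T Λ := by
    unfold qK
    exact Nat.mul_pos (Nat.mul_pos (by norm_num) (by omega)) (by omega)
  have h3 : 2 * l + qD T Λ l * qK T Λ ≤ 9 * Λ * qK T Λ ^ 2 := by
    unfold qD
    have e1 : 2 * l ≤ 2 * Λ * qK T Λ ^ 2 := by
      calc 2 * l ≤ 2 * Λ * 1 := by omega
        _ ≤ 2 * Λ * qK T Λ ^ 2 := Nat.mul_le_mul_left _ (Nat.one_le_pow _ _ hK1)
    have e2 : qK T Λ * (2 * l + 5) * qK T Λ ≤ 7 * Λ * qK T Λ ^ 2 := by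
      calc qK T Λ * (2 * l + 5) * qK T Λ = (2 * l + 5) * qK T Λ ^ 2 := by ring
        _ ≤ 7 * Λ * qK T Λ ^ 2 := Nat.mul_le_mul_right _ (by omega)
    calc _ ≤ 2 * Λ * qK T Λ ^ 2 + 7 * Λ * qK T Λ ^ 2 := Nat.add_le_add e1 e2
      _ = 9 * Λ * qK T Λ ^ 2 := by ring
  calc 2 * l + qD T Λ l * qK T Λ ≤ 9 * Λ * qK T Λ ^ 2 := h3
    _ ≤ y * (y ^ (2 * T + 3)) ^ 2 := Nat.mul_le_mul (by omega) (Nat.pow_le_pow_left h2 2)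
    _ = y ^ (4 * T + 7) := by ring
    _ ≤ y ^ (2 ^ 20 * (T + 1)) := Nat.pow_le_pow_right (by omega) (by omega)

theorem qnum_triv {n T h L : ℕ} (hnL : n ≤ 2 ^ L) (hL : 1 ≤ L)
    (hT : 2 ^ (64 * (h + L)) < (32 * qS₁ (h + L)) ^ (T + 1)) :
    n ^ 2 ≤ (2 ^ 20 * (h + L)) ^ (2 ^ 20 * (T + 1)) := by
  calc n ^ 2 ≤ (2 ^ L) ^ 2 := Nat.pow_le_pow_left hnL 2
    _ = 2 ^ (L * 2) := (pow_mul _ _ _).symm
    _ ≤ 2 ^ (64 * (h + L)) := Nat.pow_le_pow_right (by norm_num) (by omega)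
    _ ≤ (32 * qS₁ (h + L)) ^ (T + 1) := hT.le
    _ ≤ (2 ^ 20 * (h + L)) ^ (T + 1) := Nat.pow_le_pow_left (s_le_y (h + L)) _
    _ ≤ (2 ^ 20 * (h + L)) ^ (2 ^ 20 * (T + 1)) := Nat.pow_le_pow_right (by omega) (by omega)

private theorem clog_le {T h L H J : ℕ} (hL : 1 ≤ L) (hHL : H ≤ 2 ^ L) (hJ : J + 1 ≤ 2 ^ L) :
    Nat.clog 2 (2 * qM T h H J + 1) ≤ 13 * (h + L) * (T + 1) := by
  have hle : T + 2 * (h + L) + 11 ≤ 13 * (h + L) * (T + 1) := by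
    have h1 : 1 ≤ h + L := by omega
    have h2 : T ≤ (h + L) * T := Nat.le_mul_of_pos_left T (by omega)
    have h3 : 13 * (h + L) * (T + 1) = 12 * ((h + L) * T) + (h + L) * T + 13 * (h + L) := by ring
    have h4 : 0 ≤ 12 * ((h + L) * T) := Nat.zero_le _
    omega
  refine le_trans ?_ hle
  refine Nat.clog_le_of_le_pow ?_
  have a1 : T + 2 ≤ 2 ^ (T + 1) := T2_le (by norm_num)
  have a2 : h + H ≤ 2 ^ (h + L + 1) := by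
    have e1 : h ≤ 2 ^ h := Nat.lt_two_pow_self.le
    have e2 : 2 ^ h ≤ 2 ^ (h + L) := Nat.pow_le_pow_right (by norm_num) (by omega)
    have e3 : 2 ^ L ≤ 2 ^ (h + L) := Nat.pow_le_pow_right (by norm_num) (by omega)
    have e4 : 2 ^ (h + L + 1) = 2 * 2 ^ (h + L) := by ring
    omega
  have a3 : qM T h H J ≤ 2 ^ (T + 2 * (h + L) + 9) := by
    unfold qM
    calc 100 * (T + 2) * 2 ^ h * (h + H) * (J + 1)
        ≤ 2 ^ 7 * 2 ^ (T + 1) * 2 ^ h * 2 ^ (h + L + 1) * 2 ^ L :=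
          Nat.mul_le_mul (Nat.mul_le_mul (Nat.mul_le_mul_right _ (Nat.mul_le_mul (by norm_num) a1)) a2) hJ
      _ = 2 ^ (T + 2 * (h + L) + 9) := by
          rw [← pow_add, ← pow_add, ← pow_add, ← pow_add]
          congr 1
          ring
  have a4 : 2 ^ (T + 2 * (h + L) + 11) = 4 * 2 ^ (T + 2 * (h + L) + 9) := by ring
  have a5 : 1 ≤ 2 ^ (T + 2 * (h + L) + 9) := Nat.one_le_two_pow
  omega

private theorem m_le {T h L H J : ℕ} (hL : 1 ≤ L) (hH : 1 ≤ H) (hHL : H ≤ 2 ^ L)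
    (hJ : J + 1 ≤ 2 ^ L) : qm T h H J ≤ H * (2 ^ 20 * (h + L)) ^ (3 * T + 5) := by
  have hc := clog_le (T := T) (h := h) hL hHL hJ
  obtain ⟨Λ, hΛ⟩ : ∃ Λ, Λ = h + L := ⟨_, rfl⟩
  have hΛ1 : 1 ≤ Λ := by omega
  have hhΛ : h + 1 ≤ Λ := by omega
  rw [← hΛ] at hc ⊢
  have hhH : h + H ≤ Λ * H := by
    calc h + H ≤ h * H + H := Nat.add_le_add_right (Nat.le_mul_of_pos_right h (by omega)) _
      _ = (h + 1) * H := by ring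
      _ ≤ Λ * H := Nat.mul_le_mul_right _ hhΛ
  have hLq : qL T h H J ≤ 14 * (H * Λ ^ 2 * (T + 1)) := by
    unfold qL
    have e1 : (h + H) * Nat.clog 2 (2 * qM T h H J + 1) ≤ (Λ * H) * (13 * Λ * (T + 1)) :=
      Nat.mul_le_mul hhH hc
    have e2 : (Λ * H) * (13 * Λ * (T + 1)) = 13 * (H * Λ ^ 2 * (T + 1)) := by ring
    have e3 : Λ ≤ H * Λ ^ 2 * (T + 1) := by
      calc Λ = 1 * (Λ * 1) * 1 := by ring
        _ ≤ H * (Λ * Λ) * (T + 1) :=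
          Nat.mul_le_mul (Nat.mul_le_mul hH (Nat.mul_le_mul_left _ hΛ1)) (by omega)
        _ = H * Λ ^ 2 * (T + 1) := by ring
    omega
  obtain ⟨y, hy⟩ : ∃ y, y = 2 ^ 20 * Λ := ⟨_, rfl⟩
  rw [← hy]
  have h0 : T + 2 ≤ y ^ (T + 1) := T2_le (by omega)
  have hyy : 1400000000 * Λ ^ 2 ≤ y ^ 2 := by
    rw [hy]
    have : (2 ^ 20 * Λ) ^ 2 = 2 ^ 40 * Λ ^ 2 := by ring
    rw [this]
    exact Nat.mul_le_mul_right _ (by norm_num)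
  unfold qm
  calc 100000000 * (T + 2) ^ 2 * qL T h H J
      ≤ 100000000 * (T + 2) ^ 2 * (14 * (H * Λ ^ 2 * (T + 1))) := Nat.mul_le_mul_left _ hLq
    _ = 1400000000 * Λ ^ 2 * (H * ((T + 2) ^ 2 * (T + 1))) := by ring
    _ ≤ y ^ 2 * (H * ((y ^ (T + 1)) ^ 2 * y ^ (T + 1))) :=
        Nat.mul_le_mul hyy (Nat.mul_le_mul_left _
          (Nat.mul_le_mul (Nat.pow_le_pow_left h0 2) (by omega)))
    _ = H * y ^ (3 * T + 5) := by ring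

theorem qnum_fin {T h L H J : ℕ} (hL : 1 ≤ L) (hH : 1 ≤ H) (hHL : H ≤ 2 ^ L)
    (hJ : J + 1 ≤ 2 ^ L) :
    640000 * (T + 2) ^ 2 * (snB T (qS₁ (h + L)) + 1) ^ 2 * qm T h H J ^ 2 ≤
      H ^ 2 * (2 ^ 20 * (h + L)) ^ (2 ^ 20 * (T + 1)) ∧
    160 * qm T h H J ^ 2 * (T + 2) * (pB T (qS₁ (h + L)) + 1) ≤
      H ^ 2 * (2 ^ 20 * (h + L)) ^ (2 ^ 20 * (T + 1)) := by
  have hm := m_le (T := T) (h := h) hL hH hHL hJ
  obtain ⟨Λ, hΛ⟩ : ∃ Λ, Λ = h + L := ⟨_, rfl⟩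
  have hΛ1 : 1 ≤ Λ := by omega
  rw [← hΛ] at hm ⊢
  have h1 := S2_le (T := T) hΛ1
  have hp1 : 12 * qS₁ Λ ^ 2 ≤ (2 ^ 20 * Λ) ^ 2 := by
    unfold qS₁
    have e1 : 12 * (1024 * Λ) ^ 2 = 12582912 * Λ ^ 2 := by ring
    have e2 : (2 ^ 20 * Λ) ^ 2 = 2 ^ 40 * Λ ^ 2 := by ring
    rw [e1, e2]
    exact Nat.mul_le_mul_right _ (by norm_num)
  have hp2 : 2 * (32 * qS₁ Λ) ^ 2 ≤ (2 ^ 20 * Λ) ^ 2 := by
    unfold qS₁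
    have e1 : 2 * (32 * (1024 * Λ)) ^ 2 = 2147483648 * Λ ^ 2 := by ring
    have e2 : (2 ^ 20 * Λ) ^ 2 = 2 ^ 40 * Λ ^ 2 := by ring
    rw [e1, e2]
    exact Nat.mul_le_mul_right _ (by norm_num)
  obtain ⟨y, hy⟩ : ∃ y, y = 2 ^ 20 * Λ := ⟨_, rfl⟩
  rw [← hy] at hm h1 hp1 hp2 ⊢
  have hyl : 1048576 ≤ y := by omega
  have h0 : T + 2 ≤ y ^ (T + 1) := T2_le (by omega)
  have hS : snB T (qS₁ Λ) + 1 ≤ y ^ (T + 2) := by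
    calc snB T (qS₁ Λ) + 1 ≤ 2 * y ^ (T + 1) := by omega
      _ ≤ y * y ^ (T + 1) := Nat.mul_le_mul_right _ (by omega)
      _ = y ^ (T + 2) := by ring
  have hP : pB T (qS₁ Λ) + 1 ≤ y ^ (2 * T + 3) := by
    have e1 : pB T (qS₁ Λ) ≤ y ^ (2 * T + 2) := by
      unfold pB
      calc 12 * qS₁ Λ ^ 2 * (2 * (32 * qS₁ Λ) ^ 2) ^ T ≤ y ^ 2 * (y ^ 2) ^ T :=
            Nat.mul_le_mul hp1 (Nat.pow_le_pow_left hp2 T)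
        _ = y ^ (2 * T + 2) := by ring
    have e2 : 1 ≤ y ^ (2 * T + 2) := Nat.one_le_pow _ _ (by omega)
    calc pB T (qS₁ Λ) + 1 ≤ 2 * y ^ (2 * T + 2) := by omega
      _ ≤ y * y ^ (2 * T + 2) := Nat.mul_le_mul_right _ (by omega)
      _ = y ^ (2 * T + 3) := by ring
  have hm2 := Nat.pow_le_pow_left hm 2
  constructor
  · calc 640000 * (T + 2) ^ 2 * (snB T (qS₁ Λ) + 1) ^ 2 * qm T h H J ^ 2
        ≤ y * (y ^ (T + 1)) ^ 2 * (y ^ (T + 2)) ^ 2 * (H * y ^ (3 * T + 5)) ^ 2 :=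
          Nat.mul_le_mul (Nat.mul_le_mul (Nat.mul_le_mul (by omega) (Nat.pow_le_pow_left h0 2))
            (Nat.pow_le_pow_left hS 2)) hm2
      _ = H ^ 2 * y ^ (10 * T + 17) := by ring
      _ ≤ H ^ 2 * y ^ (2 ^ 20 * (T + 1)) :=
          Nat.mul_le_mul_left _ (Nat.pow_le_pow_right (by omega) (by omega))
  · calc 160 * qm T h H J ^ 2 * (T + 2) * (pB T (qS₁ Λ) + 1)
        ≤ y * (H * y ^ (3 * T + 5)) ^ 2 * y ^ (T + 1) * y ^ (2 * T + 3) :=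
          Nat.mul_le_mul (Nat.mul_le_mul (Nat.mul_le_mul (by omega) hm2) h0) hP
      _ = H ^ 2 * y ^ (9 * T + 15) := by ring
      _ ≤ H ^ 2 * y ^ (2 ^ 20 * (T + 1)) :=
          Nat.mul_le_mul_left _ (Nat.pow_le_pow_right (by omega) (by omega))

theorem qnum_log {T h H J e : ℕ} (he : e ≤ h + H) :
    Real.log (2 ^ h * (2 * (qM T h H J : ℝ) + 1) ^ e) + 1 ≤ qL T h H J := by
  have h1 : 2 * qM T h H J + 1 ≤ 2 ^ Nat.clog 2 (2 * qM T h H J + 1) :=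
    Nat.le_pow_clog (by norm_num) _
  obtain ⟨c, hc⟩ : ∃ c, c = Nat.clog 2 (2 * qM T h H J + 1) := ⟨_, rfl⟩
  unfold qL
  rw [← hc] at h1 ⊢
  have h2 : (2 * (qM T h H J : ℝ) + 1) ≤ 2 ^ c := by exact_mod_cast h1
  have h3 : Real.log (2 * (qM T h H J : ℝ) + 1) ≤ c * Real.log 2 := by
    have := Real.log_le_log (by positivity) h2
    rwa [Real.log_pow] at this
  have h4 := Real.log_two_lt_d9
  have h4' := Real.log_two_gt_d9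
  have hpos : (0 : ℝ) < 2 * (qM T h H J : ℝ) + 1 := by positivity
  rw [Real.log_mul (by positivity) (by positivity), Real.log_pow, Real.log_pow]
  have h5 : (e : ℝ) ≤ h + H := by exact_mod_cast he
  have h6 : (0 : ℝ) ≤ (c : ℝ) := Nat.cast_nonneg _
  have h7 : (0 : ℝ) ≤ (e : ℝ) := Nat.cast_nonneg _
  have h8 : (0 : ℝ) ≤ (h : ℝ) := Nat.cast_nonneg _
  have h9 : Real.log (2 * (qM T h H J : ℝ) + 1) ≤ c := by
    refine h3.trans ?_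
    nlinarith
  have h10 : (e : ℝ) * Real.log (2 * (qM T h H J : ℝ) + 1) ≤ (h + H) * c := by
    calc (e : ℝ) * Real.log (2 * (qM T h H J : ℝ) + 1) ≤ e * c :=
          mul_le_mul_of_nonneg_left h9 h7
      _ ≤ (h + H) * c := mul_le_mul_of_nonneg_right h5 h6
  have h11 : (h : ℝ) * Real.log 2 ≤ h := by nlinarith
  push_cast
  linarith

end Pool.Agent.H58.CE
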