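import Pool.Agent.H58.CD.Rand
import Pool.Agent.H58.CD.Geo
import Pool.Agent.H58.CD.Gap

/-! Definitions for circuits with step gates on every layer: pairs of coordinates, block cubes,
transversals, families of circuits, the two laws. -/

set_option autoImplicit false
set_option maxHeartbeats 4000000

namespace Pool.Agent.H58.CE

open Pool.Agent.H58.OVAC Pool.Agent.H58.OVPR Pool.Agent.H58.OVT Pool.Agent.H58.CD

open Classical in
/-- The number of pairs of coordinates on whose square at `σ` the function depends on both
moves. -/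
noncomputable def pc {V Y : Type} [Fintype V] (f : (V → Bool) → Y) (σ : V → Bool) : ℕ :=
  (Finset.univ.filter fun q : V × V => q.1 ≠ q.2 ∧ ¬ Uni4 (f σ) (f (Pool.Agent.H58.OVPR.flip σ q.1))
    (f (Pool.Agent.H58.OVPR.flip σ q.2))
    (f (Pool.Agent.H58.OVPR.flip (Pool.Agent.H58.OVPR.flip σ q.1) q.2))).card

/-- The bound for the number of pairs. -/
def pB (T s₁ : ℕ) : ℕ := 12 * s₁ ^ 2 * (2 * (32 * s₁) ^ 2) ^ T

/-- The bound for the sensitivity. -/
def snB (T s₁ : ℕ) : ℕ := 2 * s₁ * (32 * s₁) ^ T

/-- The bound for the tail of the number of pairs. -/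
noncomputable def tailP (T s₁ G : ℕ) : ℝ := T * (2 * (32 * s₁ : ℝ) ^ 2) ^ T * G / 2 ^ s₁

/-- The point of the block cube: the values `y'` on `F` and on the blocks where `ρ` is true, the
values `y` elsewhere. -/
def bpt {V K X : Type} [DecidableEq V] (blk : V → K) (F : Finset V) (y y' : V → X)
    (ρ : K → Bool) : V → X :=
  fun p => if p ∈ F then y' p else if ρ (blk p) = true then y' p else y p

/-- A choice of a row for every column of the two lists. -/
abbrev Tr (m : ℕ) (R : Type) : Type := Bool × Fin m → R

/-- The pairs of strings which differ everywhere. -/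
abbrev Op (k D : ℕ) : Type := {ab : Str k D × Str k D // Off ab.1 ab.2}

section

variable {n m : ℕ} {R : Type} (D : ℕ) (P : R → Fin m → Fin n)

open Classical in
/-- The coordinates of the transversal `x` in the list `b`. -/
noncomputable def tra (b : Bool) (x : Tr m R) : Finset (Co n D) :=
  Finset.univ.filter fun p => p.1.1 = b ∧ ∃ t, p.1.2 = P (x (b, t)) t

/-- The coordinates of the transversal `x`. -/
noncomputable def trb (x : Tr m R) : Finset (Co n D) := tra D P false x ∪ tra D P true x

open Classical in
/-- The coordinates of the transversal `x` outside the columns `tt`. -/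
noncomputable def tro (x : Tr m R) (tt : Bool → Fin m) : Finset (Co n D) :=
  Finset.univ.filter fun p => ∃ t, t ≠ tt p.1.1 ∧ p.1.2 = P (x (p.1.1, t)) t

end

section

variable {n m D : ℕ} {R : Type} [AddCommGroup R] (P : R → Fin m → Fin n)

open Classical in
/-- The block of a coordinate: the list and the shift of the transversal `x` which contains it. -/
noncomputable def bmp (x : Tr m R) (p : Co n D) : Option (Bool × R) :=
  if h : ∃ q : R × Fin m, p.1.2 = P q.1 q.2 then
    some (p.1.1, h.choose.1 - x (p.1.1, h.choose.2)) else none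

open Classical in
/-- The block of a coordinate outside the columns `tt`: the shift of the transversal `x` which
contains it. -/
noncomputable def bmo (tt : Bool → Fin m) (x : Tr m R) (p : Co n D) : Option R :=
  if h : ∃ q : R × Fin m, q.2 ≠ tt p.1.1 ∧ p.1.2 = P q.1 q.2 then
    some (h.choose.1 - x (p.1.1, h.choose.2)) else none

end

/-- The error of the comparison of the planted pair with an independent pair. -/
noncomputable def errB (k D s T s₁ G : ℕ) : ℝ :=
  2 / k * (4 * (snB T s₁ + 1) + 2 * (D * (s * (D * tailB T s₁ G))))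

/-- The error of the decoupling, for `e` step gates and `h` history gates. -/
noncomputable def decB (m M h e : ℕ) (l : ℝ) : ℝ :=
  4 * l / m + (Real.log (2 ^ h * (2 * M + 1) ^ e) + 1) / l

/-- The error of the exchange of the background. -/
noncomputable def insB (k D h s T s₁ G q : ℕ) : ℝ :=
  4 * (snB T s₁ / q) + ((k : ℝ) / (k - 1)) ^ D * (4 * (2 ^ h * (s * tailB T s₁ G)))

/-- The bound for the probability that a transversal is bad. -/
noncomputable def nuB (h s T s₁ G G2 q : ℕ) : ℝ :=
  G2 * pB T s₁ / (q : ℝ) ^ 2 + 2 ^ h * (s * tailP T s₁ G)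

/-- The entries of a transversal in the columns `tt`. -/
def cols {m : ℕ} (tt : Bool → Fin m) : Finset (Bool × Fin m) :=
  Finset.univ.filter fun q => q.2 = tt q.1

section

variable {n m : ℕ} {R : Type} (P : R → Fin m → Fin n)

open Classical in
/-- The point with the strings `α`, `β` on the two transversals and `y` elsewhere. -/
noncomputable def tp {D : ℕ} {X : Type} (x : Tr m R) (α β : Fin m → Fin D → X)
    (y : Co n D → X) : Co n D → X :=
  fun p => if h : ∃ t, p.1.2 = P (x (p.1.1, t)) t then
    (if p.1.1 = true then β h.choose p.2 else α h.choose p.2) else y p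

/-- The strings on the transversal in the list `b`. -/
def tg {D : ℕ} {X : Type} (b : Bool) (x : Tr m R) (y : Co n D → X) : Fin m → Fin D → X :=
  fun t c => y ((b, P (x (b, t)) t), c)

/-- The planted point. -/
def pl {D k : ℕ} (tt : Bool → Fin m) (x : Tr m R) (z : Co n D → Fin k) (w : Op k D) :
    Co n D → Fin k :=
  plant z (P (x (false, tt false)) (tt false)) (P (x (true, tt true)) (tt true)) w.1.1 w.1.2

end

/-- Circuits with step gates on every layer, given by the circuits `net γ` for the fixed values
`γ` of the step gates. -/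
structure SFam (ι : Type) (n D k s T h H J : ℕ) where
  /-- the circuit for given values of the step gates -/
  net : (Fin h → Bool) → Net ι (Co n D → Fin k) s T
  dep : ∀ γ i, DepOne ((net γ).inp i)
  /-- the layer of a step gate -/
  sl : Fin h → ℕ
  sl_lt : ∀ r, sl r < T
  /-- the sum of a step gate -/
  sm : (Fin h → Bool) → Fin h → (Co n D → Fin k) → ℝ
  /-- the step functions -/
  st : Fin h → ℝ → Bool
  st_step : ∀ r, IsStep J (st r)
  /-- the sum of a top gate -/
  tsm : (Fin h → Bool) → Fin H → (Co n D → Fin k) → ℝ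
  /-- the step functions of the top gates -/
  tst : Fin H → ℝ → ℕ
  tst_step : ∀ r, IsStep J (tst r)
  /-- the values of the step gates -/
  hs : (Co n D → Fin k) → Fin h → Bool
  hs_eq : ∀ z r, hs z r = st r (sm (hs z) r z)
  loc : ∀ γ γ' r, (∀ r', sl r' < sl r → γ r' = γ' r') → sm γ r = sm γ' r
  add : ∀ γ r (A B : Finset (Co n D)) (y y' : Co n D → Fin k), (∀ p ∈ A, p.1.1 = false) →
    (∀ p ∈ B, p.1.1 = true) → ¬ BadS (net γ) A B y y' →
    sm γ r (mix (A ∪ B) y' y) = sm γ r (mix A y' y) + (sm γ r (mix B y' y) - sm γ r y)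
  tadd : ∀ γ r (A B : Finset (Co n D)) (y y' : Co n D → Fin k), (∀ p ∈ A, p.1.1 = false) →
    (∀ p ∈ B, p.1.1 = true) → ¬ BadS (net γ) A B y y' →
    tsm γ r (mix (A ∪ B) y' y) = tsm γ r (mix A y' y) + (tsm γ r (mix B y' y) - tsm γ r y)
  /-- the answer -/
  dec : (Fin H → ℕ) → Bool

section

variable {ι R : Type} {n D k s T h H J m : ℕ}

/-- The truncation of a history: the layers `≥ l` are set to false. -/
def SFam.tr (S : SFam ι n D k s T h H J) (l : ℕ) (γ : Fin h → Bool) : Fin h → Bool :=
  fun r => if S.sl r < l then γ r else false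

/-- The true history of `z` up to the layer `l`. -/
def SFam.ht (S : SFam ι n D k s T h H J) (l : ℕ) (z : Co n D → Fin k) : Fin h → Bool :=
  S.tr l (S.hs z)

/-- The circuit accepts. -/
def SFam.acc (S : SFam ι n D k s T h H J) (z : Co n D → Fin k) : Prop :=
  S.dec (fun r => S.tst r (S.tsm (S.hs z) r z)) = true

/-- Some gate depends on both moves of the transversal `x`. -/
def SFam.Fail (S : SFam ι n D k s T h H J) (P : R → Fin m → Fin n) (γ : Fin h → Bool)
    (x : Tr m R) (z' z : Co n D → Fin k) : Prop :=
  BadS (S.net γ) (tra D P false x) (tra D P true x) z z'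

/-- The sum of the contributions of the two transversals. -/
noncomputable def SFam.xy (P : R → Fin m → Fin n) (f : (Co n D → Fin k) → ℝ)
    (x : Tr m R) (z' z : Co n D → Fin k) : ℝ :=
  f (mix (tra D P true x) z' z) + (f (mix (tra D P false x) z' z) - f (mix (trb D P x) z' z))

/-- The equations for the history `γ`. -/
def SFam.KE (S : SFam ι n D k s T h H J) (P : R → Fin m → Fin n) (l : ℕ) (γ : Fin h → Bool)
    (x : Tr m R) (z' z : Co n D → Fin k) : Prop :=
  (∀ r, S.sl r < l → S.st r (SFam.xy P (S.sm γ r) x z' z) = γ r) ∧ ∀ r, l ≤ S.sl r → γ r = false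

/-- The first false literal of some gate of `two` depends on both moves of the transversal `x'`,
at the point where the transversal `x` (outside the columns `tt`) has the values `z'`. -/
def SFam.FE [Fintype ι] (S : SFam ι n D k s T h H J) (P : R → Fin m → Fin n)
    (two : Finset (Fin s)) (γ : Fin h → Bool) (tt : Bool → Fin m) (x x' : Tr m R)
    (z' z : Co n D → Fin k) : Prop :=
  ∃ g ∈ two, ¬ Uni ((S.net γ).first g) (mix (tro D P x tt) z' z)
    (mix (tro D P x tt ∪ tra D P false x') z' z) (mix (tro D P x tt ∪ tra D P true x') z' z)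
    (mix (tro D P x tt ∪ trb D P x') z' z)

/-- The gates outside `two` depend only on one of the two lists, for every history. -/
def SFam.Two (S : SFam ι n D k s T h H J) (two : Finset (Fin s)) : Prop :=
  ∀ γ g, g ∉ two → OneSided ((S.net γ).val g)

end

section

variable (n D k m : ℕ) (R : Type) [Fintype R] [DecidableEq R]

/-- The sample space: columns, two transversals, reference values, values. -/
abbrev Om : Type :=
  (Bool → Fin m) × Tr m R × Tr m R × (Co n D → Fin k) × (Co n D → Fin k)

end

section

variable {n D k m : ℕ} {R : Type} [Fintype R] [DecidableEq R]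

/-- The probability of an event for random values. -/
noncomputable def RD (Q : (Bool → Fin m) → Tr m R → Tr m R → (Co n D → Fin k) →
    (Co n D → Fin k) → Prop) : ℝ :=
  pr fun ω : Om n D k m R => Q ω.1 ω.2.1 ω.2.2.1 ω.2.2.2.1 ω.2.2.2.2

/-- The probability of an event for the planted values. -/
noncomputable def PD (P : R → Fin m → Fin n) (Q : (Bool → Fin m) → Tr m R → Tr m R →
    (Co n D → Fin k) → (Co n D → Fin k) → Prop) : ℝ :=
  pr fun ω : Om n D k m R × Op k D => Q ω.1.1 ω.1.2.1 ω.1.2.2.1 ω.1.2.2.2.1
    (pl P ω.1.1 ω.1.2.1 ω.1.2.2.2.2 ω.2)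

end

end Pool.Agent.H58.CE
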