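import Pool.Agent.H58.CE.NetP

/-! [H58 CE BLK] Sensitivity and interacting pairs of the blocks at a random point.

PROOF of `sens_blk` and `pc_blk`. Fix `σ : K → Bool` and let `U` be the set of the `p ∉ F` with
`σ (blk p) = true`. For `y, y'` put `a = mix U y' y`, `b = mix U y y'`. Then for all `ρ`:
`bpt blk F a b ρ = bpt blk F y y' (fun κ => xor (ρ κ) (σ κ))` (at `p ∈ F` both are `y' p`, since
`p ∉ U`; at `p ∈ U` the left side is `if ρ (blk p) then y p else y' p`; at the other `p` it is
`if ρ (blk p) then y' p else y p` and `σ (blk p) = false`). The function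
`f' = fun ρ => f (fun κ => xor (ρ κ) (σ κ))` satisfies `sens f' 0 = sens f σ` and
`pc f' 0 = pc f σ` (for the points `0` and its flips: `xor (flip 0 κ) σ = flip σ κ` and so on).
By `av_mix₂ U` (with `a, b` exchanged suitably) the left side for the point `0` is, for every `σ`,
equal to `av_y pr_y' (S < sens (fun ρ => u (bpt blk F y y' ρ)) σ)`; average over `σ` (`av_comm`) and
use `h`. Compare the proof of `CD.sens_pick`.
PROOF of `net_sens_blk`, `net_pc_blk`. For all `y, y'` the net `N.comp (bpt blk F y y')` over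
`K → Bool` has inputs with `Dt 1`: `N.inp i` depends on at most one coordinate `p` (`DepOne`), so
its composition depends only on `ρ (blk p)` (`dt_of_isJunta_one`, or directly `Dt`). So `CD.net_tail`
and `net_pc` bound the probabilities over `σ` for all `y, y'`, and `(N.comp f).first g = N.first g ∘ f`
by `rfl` (`CD.first_comp`). -/

set_option autoImplicit false
set_option maxHeartbeats 4000000

namespace Pool.Agent.H58.CE

open Pool.Agent.H58.OVAC Pool.Agent.H58.OVPR Pool.Agent.H58.OVT Pool.Agent.H58.CD

private theorem blk_flip {K : Type} (x σ : K → Bool) (j : K) :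
    (fun κ => xor (Pool.Agent.H58.OVPR.flip x j κ) (σ κ)) =
      Pool.Agent.H58.OVPR.flip (fun κ => xor (x κ) (σ κ)) j := by
  classical
  funext κ
  unfold Pool.Agent.H58.OVPR.flip
  by_cases h : κ = j
  · subst h
    rw [Function.update_self, Function.update_self]
    show (!x κ ^^ σ κ) = !(x κ ^^ σ κ)
    cases x κ <;> cases σ κ <;> rfl
  · rw [Function.update_of_ne h, Function.update_of_ne h]

private theorem blk_zero {K : Type} (σ : K → Bool) :
    (fun κ => xor ((fun _ : K => false) κ) (σ κ)) = σ := by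
  funext κ
  exact Bool.false_xor _

private theorem blk_sens {K Y : Type} [Fintype K] (f : (K → Bool) → Y) (σ : K → Bool) :
    sens (fun ρ => f (fun κ => xor (ρ κ) (σ κ))) (fun _ => false) = sens f σ := by
  unfold sens
  congr 1
  ext i
  simp only [Finset.mem_filter, Finset.mem_univ, true_and]
  rw [blk_flip, blk_zero]

private theorem blk_pc {K Y : Type} [Fintype K] (f : (K → Bool) → Y) (σ : K → Bool) :
    pc (fun ρ => f (fun κ => xor (ρ κ) (σ κ))) (fun _ => false) = pc f σ := by
  unfold pc
  congr 1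
  ext q
  simp only [Finset.mem_filter, Finset.mem_univ, true_and]
  rw [blk_flip, blk_flip, blk_flip, blk_flip, blk_zero]

private theorem blk_aux {V K X Y : Type} [Fintype V] [DecidableEq V] [Fintype K] [DecidableEq K]
    [Fintype X] [Nonempty X] (blk : V → K) (F : Finset V) (u : (V → X) → Y)
    (Q : ((K → Bool) → Y) → (K → Bool) → Prop)
    (hQ : ∀ f σ, Q (fun ρ => f (fun κ => xor (ρ κ) (σ κ))) (fun _ => false) ↔ Q f σ) {δ : ℝ}
    (h : ∀ y y' : V → X, pr (fun σ : K → Bool => Q (fun ρ => u (bpt blk F y y' ρ)) σ) ≤ δ) :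
    (av fun y : V → X => pr fun y' : V → X =>
      Q (fun ρ : K → Bool => u (bpt blk F y y' ρ)) (fun _ => false)) ≤ δ := by
  classical
  have h2 : ∀ σ : K → Bool, (av fun a : V → X => pr fun b : V → X =>
      Q (fun ρ => u (bpt blk F a b ρ)) (fun _ => false)) =
      av fun a : V → X => pr fun b : V → X => Q (fun ρ => u (bpt blk F b a ρ)) σ := by
    intro σ
    have h3 := av_mix₂ (Finset.univ.filter fun p => p ∉ F ∧ σ (blk p) = true)
      (fun a b : V → X => if Q (fun ρ => u (bpt blk F a b ρ)) (fun _ => false)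
        then (1 : ℝ) else 0)
    unfold pr
    refine (Eq.trans ?_ h3.symm).trans ?_
    · exact av_congr fun a => av_congr fun b => by congr
    · refine av_congr fun a => av_congr fun b => ?_
      have h4 : (fun ρ : K → Bool => u (bpt blk F
          (mix (Finset.univ.filter fun p => p ∉ F ∧ σ (blk p) = true) a b)
          (mix (Finset.univ.filter fun p => p ∉ F ∧ σ (blk p) = true) b a) ρ)) =
          fun ρ => (fun ρ => u (bpt blk F b a ρ)) (fun κ => xor (ρ κ) (σ κ)) := by
        funext ρ
        show _ = u (bpt blk F b a (fun κ => xor (ρ κ) (σ κ)))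
        congr 1
        funext p
        unfold bpt mix
        by_cases hF : p ∈ F
        · simp [hF]
        · cases hσ : σ (blk p) <;> cases hρ : ρ (blk p) <;> simp [hF, hσ, hρ]
      rw [h4]
      by_cases h5 : Q (fun ρ => u (bpt blk F b a ρ)) σ
      · rw [if_pos ((hQ _ _).2 h5), if_pos h5]
      · rw [if_neg (fun h6 => h5 ((hQ _ _).1 h6)), if_neg h5]
  have h4 : (av fun a : V → X => pr fun b : V → X =>
      Q (fun ρ => u (bpt blk F a b ρ)) (fun _ => false)) =
      av fun a : V → X => av fun b : V → X => pr fun σ : K → Bool =>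
        Q (fun ρ => u (bpt blk F b a ρ)) σ := by
    calc _ = av fun _ : K → Bool => (av fun a : V → X => pr fun b : V → X =>
            Q (fun ρ => u (bpt blk F a b ρ)) (fun _ => false)) := (av_const _).symm
      _ = av fun σ : K → Bool => av fun a : V → X => pr fun b : V → X =>
            Q (fun ρ => u (bpt blk F b a ρ)) σ := av_congr h2
      _ = _ := by
          rw [av_comm]
          refine av_congr fun a => ?_
          unfold pr
          rw [av_comm]
  rw [h4]
  exact av_le fun a => av_le fun b => h b a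

private theorem blk_dt {V K X : Type} [DecidableEq V] [DecidableEq K] {f : (V → X) → Bool}
    (hf : DepOne f) (blk : V → K) (F : Finset V) (y y' : V → X) :
    Dt 1 fun ρ : K → Bool => f (bpt blk F y y' ρ) := by
  obtain ⟨P, h1, h2⟩ := hf
  refine dt_of_isJunta_one ⟨P.image blk, Finset.card_image_le.trans h1, fun ρ ρ' h => h2 _ _ ?_⟩
  intro p hp
  unfold bpt
  rw [h (blk p) (Finset.mem_image_of_mem _ hp)]

theorem sens_blk {V K X Y : Type} [Fintype V] [DecidableEq V] [Fintype K] [DecidableEq K]
    [Fintype X] [Nonempty X] (blk : V → K) (F : Finset V) (u : (V → X) → Y) (S : ℕ) {δ : ℝ}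
    (h : ∀ y y' : V → X, pr (fun σ : K → Bool => S < sens (fun ρ => u (bpt blk F y y' ρ)) σ) ≤ δ) :
    (av fun y : V → X => pr fun y' : V → X =>
      S < sens (fun ρ : K → Bool => u (bpt blk F y y' ρ)) (fun _ => false)) ≤ δ := by
  exact blk_aux blk F u (fun f σ => S < sens f σ) (fun f σ => by rw [blk_sens]) h

theorem pc_blk {V K X Y : Type} [Fintype V] [DecidableEq V] [Fintype K] [DecidableEq K]
    [Fintype X] [Nonempty X] (blk : V → K) (F : Finset V) (u : (V → X) → Y) (S : ℕ) {δ : ℝ}
    (h : ∀ y y' : V → X, pr (fun σ : K → Bool => S < pc (fun ρ => u (bpt blk F y y' ρ)) σ) ≤ δ) :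
    (av fun y : V → X => pr fun y' : V → X =>
      S < pc (fun ρ : K → Bool => u (bpt blk F y y' ρ)) (fun _ => false)) ≤ δ := by
  exact blk_aux blk F u (fun f σ => S < pc f σ) (fun f σ => by rw [blk_pc]) h

theorem net_sens_blk {ι V K X : Type} [Fintype ι] [Fintype V] [DecidableEq V] [Fintype K]
    [DecidableEq K] [Fintype X] [Nonempty X] {s T : ℕ} (N : Net ι (V → X) s T)
    (hin : ∀ i, DepOne (N.inp i)) (blk : V → K) (F : Finset V) {s₁ G : ℕ} (hs₁ : 1 ≤ s₁)
    (hG : s * (2 * (Fintype.card ι + s)) + (Fintype.card ι + s) ≤ G) (g : Fin s) :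
    (av fun y : V → X => pr fun y' : V → X =>
      snB T s₁ < sens (fun ρ : K → Bool => N.first g (bpt blk F y y' ρ)) (fun _ => false)) ≤
      tailB T s₁ G := by
  refine sens_blk blk F (N.first g) (snB T s₁) fun y y' => ?_
  exact net_tail (N.comp (bpt blk F y y')) (fun i => blk_dt (hin i) blk F y y') hs₁ hG g

theorem net_pc_blk {ι V K X : Type} [Fintype ι] [Fintype V] [DecidableEq V] [Fintype K]
    [DecidableEq K] [Fintype X] [Nonempty X] {s T : ℕ} (N : Net ι (V → X) s T)
    (hin : ∀ i, DepOne (N.inp i)) (blk : V → K) (F : Finset V) {s₁ G : ℕ} (hs₁ : 1 ≤ s₁)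
    (hG : s * (2 * (Fintype.card ι + s)) + (Fintype.card ι + s) ≤ G) (g : Fin s) :
    (av fun y : V → X => pr fun y' : V → X =>
      pB T s₁ < pc (fun ρ : K → Bool => N.first g (bpt blk F y y' ρ)) (fun _ => false)) ≤
      tailP T s₁ G := by
  refine pc_blk blk F (N.first g) (pB T s₁) fun y y' => ?_
  exact net_pc (N.comp (bpt blk F y y')) (fun i => blk_dt (hin i) blk F y y') hs₁ hG g

end Pool.Agent.H58.CE
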