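import Pool.Agent.H58.CE.Base

/-! [H58 CE CNT] From the number of bad pairs of blocks to the probability of a bad transversal.

PROOF. Translations: for `r : Bool → R` let `x + r` be the transversal `q ↦ x q + r q.1`; this is a
bijection of `Tr m R`, so for every predicate `E`, `pr E = av_x pr_r (E (x + r))` (`av_equiv` for every
`r`, then `av_comm`). For `count_one` use `r : R` and `x + r := q ↦ x q + r`.
`count_pair`: fix `x` and let `f ρ = u (bpt (bmp P x) F y y' ρ)`. For `κ = some (b, r)` the set
`{p | bmp P x p = κ}` is `tra D P b (x + r)` for every `r : Bool → R` with the value `r` at `b` (by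
`hP` the pair `(a, t)` with `p.1.2 = P a t` is unique; `a - x (b, t) = r` iff `a = x (b, t) + r`). So
for `r : Bool → R`, `κ = some (false, r false)`, `κ' = some (true, r true)` (`κ ≠ κ'`) the four points
of the square of `(κ, κ')` at `0` are mapped by `bpt` to `mix F y' y`,
`mix (F ∪ tra D P false (x + r)) y' y`, `mix (F ∪ tra D P true (x + r)) y' y`,
`mix (F ∪ trb D P (x + r)) y' y`. So the number of the `r : Bool → R` for which the event holds at
`x + r` is at most `pc f 0` (the map `r ↦ (κ, κ')` is injective), and the number of all `r` is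
`(card R)^2`. If `pc f 0 ≤ B` then `pr_r ≤ B / (card R)^2`, otherwise `pr_r ≤ 1`. Average over `x`.
`count_one`: the same with `f ρ = u (bpt (bmo P tt x) F y y' ρ)`:
`{p | bmo P tt x p = some r} = tro D P (x + r) tt`, so the number of the bad `r` is at most
`sens f 0`. -/

set_option autoImplicit false
set_option maxHeartbeats 4000000

namespace Pool.Agent.H58.CE

open Pool.Agent.H58.OVAC Pool.Agent.H58.OVPR Pool.Agent.H58.OVT Pool.Agent.H58.CD

variable {n m D : ℕ} {R X Y : Type} [Fintype R] [DecidableEq R] [AddCommGroup R]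

private theorem avg_shift {Ω G : Type} [Fintype Ω] [Fintype G] [Nonempty G] (a : G → Ω ≃ Ω)
    (E : Ω → Prop) : pr E = av fun x => pr fun g => E (a g x) := by
  classical
  have h1 : pr E = av fun g : G => pr fun x => E (a g x) := by
    rw [← av_const (Ω := G) (pr E)]
    exact av_congr fun g => (pr_equiv (a g) E).symm
  rw [h1]
  unfold pr
  exact av_comm fun (g : G) (x : Ω) => if E (a g x) then (1 : ℝ) else 0

open Classical in
private theorem pr_card {G : Type} [Fintype G] (E : G → Prop) :
    pr E = ((Finset.univ.filter fun g => E g).card : ℝ) / Fintype.card G := by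
  unfold pr av
  beta_reduce
  rw [Finset.sum_boole]

private theorem memF {α : Type} {p : α → Prop} {inst : DecidablePred p} {s : Finset α} {a : α} :
    a ∈ @Finset.filter α p inst s ↔ a ∈ s ∧ p a := Finset.mem_filter

open Classical in
private theorem count_gen {Ω G : Type} [Fintype Ω] [Fintype G] [Nonempty G] [Nonempty Ω]
    (a : G → Ω ≃ Ω) (E : Ω → Prop) (c : Ω → ℕ) (B : ℕ)
    (h : ∀ x, ∀ S : Finset G, (∀ g ∈ S, E (a g x)) → S.card ≤ c x) :
    pr E ≤ (B : ℝ) / Fintype.card G + pr (fun x => B < c x) := by
  have hG : (0 : ℝ) < Fintype.card G := Nat.cast_pos.2 Fintype.card_pos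
  have hB : (0 : ℝ) ≤ (B : ℝ) / Fintype.card G := by positivity
  rw [avg_shift a E]
  have h1 : (B : ℝ) / Fintype.card G + pr (fun x => B < c x) =
      av fun x : Ω => (B : ℝ) / Fintype.card G + if B < c x then (1 : ℝ) else 0 := by
    have h2 : pr (fun x => B < c x) = av fun x : Ω => if B < c x then (1 : ℝ) else 0 := by
      unfold pr
      exact av_congr fun x => by by_cases hx : B < c x <;> simp [hx]
    rw [av_add, av_const, h2]
  rw [h1]
  refine av_mono fun x => ?_
  by_cases hx : B < c x
  · rw [if_pos hx]
    have := pr_le_one fun g => E (a g x)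
    linarith
  · rw [if_neg hx, add_zero, pr_card]
    refine div_le_div_of_nonneg_right ?_ hG.le
    exact_mod_cast (h x _ fun g hg => (memF.1 hg).2).trans (not_lt.1 hx)

private theorem flip_at {V : Type} (κ j : V) :
    Pool.Agent.H58.OVPR.flip (fun _ => false) κ j = true ↔ j = κ := by
  classical
  unfold Pool.Agent.H58.OVPR.flip
  by_cases h : j = κ
  · subst h
    simp
  · rw [Function.update_of_ne h]
    simp [h]

private theorem flip_at2 {V : Type} {κ κ' : V} (hne : κ ≠ κ') (j : V) :
    Pool.Agent.H58.OVPR.flip (Pool.Agent.H58.OVPR.flip (fun _ => false) κ) κ' j = true ↔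
      j = κ ∨ j = κ' := by
  classical
  have h0 : Pool.Agent.H58.OVPR.flip (fun _ => false) κ κ' = false := by
    rw [Bool.eq_false_iff]
    intro h
    exact hne ((flip_at κ κ').1 h).symm
  by_cases h : j = κ'
  · subst h
    have h1 : Pool.Agent.H58.OVPR.flip (Pool.Agent.H58.OVPR.flip (fun _ => false) κ) j j = true := by
      rw [Pool.Agent.H58.OVPR.flip, Function.update_self, h0]
      rfl
    rw [h1]
    simp
  · have h1 : Pool.Agent.H58.OVPR.flip (Pool.Agent.H58.OVPR.flip (fun _ => false) κ) κ' j =
        Pool.Agent.H58.OVPR.flip (fun _ => false) κ j := by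
      conv_lhs => rw [Pool.Agent.H58.OVPR.flip]
      rw [Function.update_of_ne h]
    rw [h1, flip_at]
    simp [h]

private theorem bpt_eq {V K X : Type} [DecidableEq V] (blk : V → K) (F J : Finset V)
    (y y' : V → X) (ρ : K → Bool) (h : ∀ p, ρ (blk p) = true ↔ p ∈ J) :
    bpt blk F y y' ρ = mix (F ∪ J) y' y := by
  funext p
  unfold bpt mix
  by_cases hF : p ∈ F
  · rw [if_pos hF, if_pos (Finset.mem_union_left _ hF)]
  · rw [if_neg hF]
    by_cases hJ : p ∈ J
    · rw [if_pos ((h p).2 hJ), if_pos (Finset.mem_union_right _ hJ)]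
    · rw [if_neg (fun h1 => hJ ((h p).1 h1)), if_neg]
      rw [Finset.mem_union]
      exact fun h1 => h1.elim hF hJ

omit [Fintype R] [DecidableEq R] in
private theorem bmp_iff {P : R → Fin m → Fin n}
    (hP : ∀ a t a' t', P a t = P a' t' → a = a' ∧ t = t') (x : Tr m R) (p : Co n D) (b : Bool)
    (ρ : R) : bmp P x p = some (b, ρ) ↔ p.1.1 = b ∧ ∃ t, p.1.2 = P (x (b, t) + ρ) t := by
  classical
  unfold bmp
  by_cases h : ∃ q : R × Fin m, p.1.2 = P q.1 q.2
  · rw [dif_pos h]
    have hs := h.choose_spec
    constructor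
    · intro h1
      have h2 := Option.some.inj h1
      have h3 : p.1.1 = b := congrArg Prod.fst h2
      have h4 : h.choose.1 - x (p.1.1, h.choose.2) = ρ := congrArg Prod.snd h2
      refine ⟨h3, h.choose.2, ?_⟩
      rw [← h3, ← h4, add_sub_cancel]
      exact hs
    · rintro ⟨h3, t, ht⟩
      obtain ⟨e1, e2⟩ := hP _ _ _ _ (ht.symm.trans hs)
      rw [← e1, ← e2, h3, add_sub_cancel_left]
  · rw [dif_neg h]
    constructor
    · intro h1
      exact absurd h1 (by simp)
    · rintro ⟨_, t, ht⟩
      exact absurd ⟨(_, t), ht⟩ h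

omit [Fintype R] [DecidableEq R] in
private theorem bmo_iff {P : R → Fin m → Fin n}
    (hP : ∀ a t a' t', P a t = P a' t' → a = a' ∧ t = t') (tt : Bool → Fin m) (x : Tr m R)
    (p : Co n D) (ρ : R) : bmo P tt x p = some ρ ↔
      ∃ t, t ≠ tt p.1.1 ∧ p.1.2 = P (x (p.1.1, t) + ρ) t := by
  classical
  unfold bmo
  by_cases h : ∃ q : R × Fin m, q.2 ≠ tt p.1.1 ∧ p.1.2 = P q.1 q.2
  · rw [dif_pos h]
    have hs := h.choose_spec
    constructor
    · intro h1
      have h4 : h.choose.1 - x (p.1.1, h.choose.2) = ρ := Option.some.inj h1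
      refine ⟨h.choose.2, hs.1, ?_⟩
      rw [← h4, add_sub_cancel]
      exact hs.2
    · rintro ⟨t, _, ht⟩
      obtain ⟨e1, e2⟩ := hP _ _ _ _ (ht.symm.trans hs.2)
      rw [← e1, ← e2, add_sub_cancel_left]
  · rw [dif_neg h]
    constructor
    · intro h1
      exact absurd h1 (by simp)
    · rintro ⟨t, h0, ht⟩
      exact absurd ⟨(_, t), h0, ht⟩ h

private theorem bpt_zero {V K X : Type} [DecidableEq V] (blk : V → K) (F : Finset V)
    (y y' : V → X) : bpt blk F y y' (fun _ => false) = mix F y' y := by
  have h := bpt_eq blk F ∅ y y' (fun _ => false) (fun p => by simp)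
  rw [Finset.union_empty] at h
  exact h

theorem count_pair (P : R → Fin m → Fin n)
    (hP : ∀ a t a' t', P a t = P a' t' → a = a' ∧ t = t') (u : (Co n D → X) → Y)
    (F : Finset (Co n D)) (y y' : Co n D → X) (B : ℕ) :
    pr (fun x : Tr m R => ¬ Uni u (mix F y' y) (mix (F ∪ tra D P false x) y' y)
      (mix (F ∪ tra D P true x) y' y) (mix (F ∪ trb D P x) y' y)) ≤
      (B : ℝ) / (Fintype.card R : ℝ) ^ 2 + pr (fun x : Tr m R =>
        B < pc (fun ρ => u (bpt (bmp P x) F y y' ρ)) (fun _ => false)) := by
  classical
  have h := count_gen (fun r : Bool → R => Equiv.addRight (fun q : Bool × Fin m => r q.1))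
    (fun x : Tr m R => ¬ Uni u (mix F y' y) (mix (F ∪ tra D P false x) y' y)
      (mix (F ∪ tra D P true x) y' y) (mix (F ∪ trb D P x) y' y))
    (fun x => pc (fun ρ => u (bpt (bmp P x) F y y' ρ)) (fun _ => false)) B (by
    intro x S hS
    unfold pc
    refine Finset.card_le_card_of_injOn
      (fun r => ((some (false, r false), some (true, r true)) :
        Option (Bool × R) × Option (Bool × R))) ?_ ?_
    · intro r hr
      rw [Finset.mem_coe, memF]
      have hne : (some (false, r false) : Option (Bool × R)) ≠ some (true, r true) := by simp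
      refine ⟨Finset.mem_univ _, hne, ?_⟩
      have hm : ∀ (b : Bool) (p : Co n D), bmp P x p = some (b, r b) ↔
          p ∈ tra D P b (x + fun q : Bool × Fin m => r q.1) := by
        intro b p
        rw [bmp_iff hP, tra, Finset.mem_filter]
        simp only [Finset.mem_univ, true_and, Pi.add_apply]
      have e1 := bpt_eq (bmp P x) F _ y y'
        (Pool.Agent.H58.OVPR.flip (fun _ => false) (some (false, r false)))
        (fun p => (flip_at _ _).trans (hm false p))
      have e2 := bpt_eq (bmp P x) F _ y y'
        (Pool.Agent.H58.OVPR.flip (fun _ => false) (some (true, r true)))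
        (fun p => (flip_at _ _).trans (hm true p))
      have e3 := bpt_eq (bmp P x) F (trb D P (x + fun q : Bool × Fin m => r q.1)) y y'
        (Pool.Agent.H58.OVPR.flip (Pool.Agent.H58.OVPR.flip (fun _ => false)
          (some (false, r false))) (some (true, r true)))
        (fun p => by
          rw [flip_at2 hne, hm false, hm true, trb, Finset.mem_union])
      have h0 := hS r (Finset.mem_coe.1 hr)
      unfold Uni at h0
      simp only [Equiv.coe_addRight] at h0
      rw [← e1, ← e2, ← e3, ← bpt_zero (bmp P x)] at h0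
      exact h0
    · intro r _ r' _ hrr
      have h1 : r false = r' false := by
        have := congrArg Prod.fst hrr
        simpa using this
      have h2 : r true = r' true := by
        have := congrArg Prod.snd hrr
        simpa using this
      funext b
      cases b
      · exact h1
      · exact h2)
  have hc : ((Fintype.card (Bool → R) : ℕ) : ℝ) = (Fintype.card R : ℝ) ^ 2 := by
    rw [Fintype.card_fun, Fintype.card_bool]
    push_cast
    ring
  rw [hc] at h
  exact h

theorem count_one (P : R → Fin m → Fin n)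
    (hP : ∀ a t a' t', P a t = P a' t' → a = a' ∧ t = t') (tt : Bool → Fin m)
    (u : (Co n D → X) → Y) (F : Finset (Co n D)) (y y' : Co n D → X) (B : ℕ) :
    pr (fun x : Tr m R => u (mix (F ∪ tro D P x tt) y' y) ≠ u (mix F y' y)) ≤
      (B : ℝ) / (Fintype.card R : ℝ) + pr (fun x : Tr m R =>
        B < sens (fun ρ => u (bpt (bmo P tt x) F y y' ρ)) (fun _ => false)) := by
  classical
  exact count_gen (fun r : R => Equiv.addRight (fun _ : Bool × Fin m => r))
    (fun x : Tr m R => u (mix (F ∪ tro D P x tt) y' y) ≠ u (mix F y' y))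
    (fun x => sens (fun ρ => u (bpt (bmo P tt x) F y y' ρ)) (fun _ => false)) B (by
    intro x S hS
    unfold Pool.Agent.H58.OVPR.sens
    refine Finset.card_le_card_of_injOn (fun r => (some r : Option R)) ?_ ?_
    · intro r hr
      rw [Finset.mem_coe, memF]
      refine ⟨Finset.mem_univ _, ?_⟩
      have hm : ∀ p : Co n D, bmo P tt x p = some r ↔
          p ∈ tro D P (x + fun _ : Bool × Fin m => r) tt := by
        intro p
        rw [bmo_iff hP, tro, Finset.mem_filter]
        simp only [Finset.mem_univ, true_and, Pi.add_apply]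
      have e1 := bpt_eq (bmo P tt x) F _ y y'
        (Pool.Agent.H58.OVPR.flip (fun _ => false) (some r))
        (fun p => (flip_at _ _).trans (hm p))
      have h0 := hS r (Finset.mem_coe.1 hr)
      rw [← bpt_zero (bmo P tt x)] at h0
      show u (bpt (bmo P tt x) F y y' (Pool.Agent.H58.OVPR.flip (fun _ => false) (some r))) ≠
        u (bpt (bmo P tt x) F y y' fun _ => false)
      rw [e1]
      exact h0
    · intro r _ r' _ hrr
      exact Option.some.inj hrr)

end Pool.Agent.H58.CE
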