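import Pool.Agent.H58.CE.Base

/-! [H58 CE COPY] Exchange of the two transversals.

PROOF of `copy`. Write both sides as nested averages (`PD` is `pr` on a product; use `pr_prod`,
`av_prod`; or use one bijection of the sample space and `pr_equiv`). The planted point
`pl P tt x z w` depends on `x` only through `x (false, tt false)`, `x (true, tt true)`, and
`mix (cols tt) x xh` has the same values there. For fixed `tt`, the map
`(x, xh) ↦ (mix (cols tt) x xh, mix (cols tt) xh x)` is a bijection (`OVAC.mixEquiv`), and with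
`x₁ = mix (cols tt) x xh`, `x₂ = mix (cols tt) xh x` one has `mix (cols tt) x₁ x₂ = x` (`mix_mix`).
So the left side, written for `(x₁, x₂)`, is the right side (`av_mix₂ (cols tt)`).
PROOF of `copy_off`. In the same way with `av_mix₂`: for fixed `tt, z', z` let
`f a b = if Q tt a b z' z then 1 else 0`. By `hQ`, `f x (mix (cols tt) x xh) =
f (mix (cols tt) xh x) (mix (cols tt) x xh)` (outside `cols tt` the transversals `x` and
`mix (cols tt) xh x` agree), and `av_mix₂ (cols tt)` (applied after exchanging the names of the two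
variables by `av_comm`) gives `av_a av_b f a b`.
PROOF of `pd_le`. For fixed `tt, x, xh, z'`: `av_z av_w 1[Q .. (pl P tt x z w)]`; by `avR_eq hk` the
average over `w` is `avR`, and `hdens` (`avR Φ ≤ c * av_u av_v Φ`) bounds it by
`c * av_z av_u av_v 1[Q .. (plant z i j u v)] = c * av_z 1[Q .. z]` (`OVPR`/`CD.av_pos` twice:
`plant z i j u v = pos (pos z (false, i) u) (true, j) v`). -/

set_option autoImplicit false
set_option maxHeartbeats 4000000

namespace Pool.Agent.H58.CE

open Pool.Agent.H58.OVAC Pool.Agent.H58.OVPR Pool.Agent.H58.OVT Pool.Agent.H58.CD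

variable {n D k m : ℕ} {R : Type} [Fintype R] [DecidableEq R]

private theorem cp_RD (Q : (Bool → Fin m) → Tr m R → Tr m R → (Co n D → Fin k) →
    (Co n D → Fin k) → Prop) :
    RD Q = av fun tt => av fun x => av fun xh => av fun z' => pr fun z => Q tt x xh z' z := by
  unfold RD
  refine (pr_prod (fun (tt : Bool → Fin m)
    (ω : Tr m R × Tr m R × (Co n D → Fin k) × (Co n D → Fin k)) =>
    Q tt ω.1 ω.2.1 ω.2.2.1 ω.2.2.2)).trans (av_congr fun tt => ?_)
  refine (pr_prod (fun (x : Tr m R) (ω : Tr m R × (Co n D → Fin k) × (Co n D → Fin k)) =>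
    Q tt x ω.1 ω.2.1 ω.2.2)).trans (av_congr fun x => ?_)
  refine (pr_prod (fun (xh : Tr m R) (ω : (Co n D → Fin k) × (Co n D → Fin k)) =>
    Q tt x xh ω.1 ω.2)).trans (av_congr fun xh => ?_)
  exact pr_prod (fun (z' : Co n D → Fin k) (z : Co n D → Fin k) => Q tt x xh z' z)

private theorem cp_PD (P : R → Fin m → Fin n) (Q : (Bool → Fin m) → Tr m R → Tr m R →
    (Co n D → Fin k) → (Co n D → Fin k) → Prop) :
    PD P Q = av fun tt => av fun x => av fun xh => av fun z' => av fun z =>
      pr fun w : Op k D => Q tt x xh z' (pl P tt x z w) := by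
  unfold PD
  refine (pr_prod (fun (o : Om n D k m R) (w : Op k D) =>
    Q o.1 o.2.1 o.2.2.1 o.2.2.2.1 (pl P o.1 o.2.1 o.2.2.2.2 w))).trans ?_
  refine (av_prod (fun (tt : Bool → Fin m)
    (ω : Tr m R × Tr m R × (Co n D → Fin k) × (Co n D → Fin k)) =>
    pr fun w : Op k D => Q tt ω.1 ω.2.1 ω.2.2.1 (pl P tt ω.1 ω.2.2.2 w))).trans
    (av_congr fun tt => ?_)
  refine (av_prod (fun (x : Tr m R) (ω : Tr m R × (Co n D → Fin k) × (Co n D → Fin k)) =>
    pr fun w : Op k D => Q tt x ω.1 ω.2.1 (pl P tt x ω.2.2 w))).trans (av_congr fun x => ?_)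
  refine (av_prod (fun (xh : Tr m R) (ω : (Co n D → Fin k) × (Co n D → Fin k)) =>
    pr fun w : Op k D => Q tt x xh ω.1 (pl P tt x ω.2 w))).trans (av_congr fun xh => ?_)
  exact av_prod (fun (z' : Co n D → Fin k) (z : Co n D → Fin k) =>
    pr fun w : Op k D => Q tt x xh z' (pl P tt x z w))

private theorem cp_mem (tt : Bool → Fin m) (b : Bool) : (b, tt b) ∈ cols tt := by
  unfold cols
  simp

private theorem cp_pl (P : R → Fin m → Fin n) (tt : Bool → Fin m) (x xh : Tr m R)
    (z : Co n D → Fin k) (w : Op k D) : pl P tt (mix (cols tt) x xh) z w = pl P tt x z w := by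
  have h : ∀ b, mix (cols tt) x xh (b, tt b) = x (b, tt b) := fun b => if_pos (cp_mem tt b)
  unfold pl
  rw [h, h]

theorem copy [Nonempty R] (P : R → Fin m → Fin n) (Q : (Bool → Fin m) → Tr m R → Tr m R →
    (Co n D → Fin k) → (Co n D → Fin k) → Prop) :
    PD P (fun tt x xh z' z => Q tt x (mix (cols tt) x xh) z' z) =
      PD P (fun tt x xh z' z => Q tt (mix (cols tt) x xh) x z' z) := by
  rw [cp_PD, cp_PD]
  refine av_congr fun tt => ?_
  rw [← av_mix₂ (cols tt) fun x xh => av fun z' : Co n D → Fin k => av fun z : Co n D → Fin k =>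
      pr fun w : Op k D => Q tt (mix (cols tt) x xh) x z' (pl P tt x z w)]
  refine av_congr fun x => av_congr fun xh => av_congr fun z' => av_congr fun z => ?_
  refine pr_congr fun w => ?_
  rw [mix_mix, cp_pl]

theorem copy_off [Nonempty R] (Q : (Bool → Fin m) → Tr m R → Tr m R →
    (Co n D → Fin k) → (Co n D → Fin k) → Prop)
    (hQ : ∀ tt x₁ x₂ x' z' z, (∀ q : Bool × Fin m, q ∉ cols tt → x₁ q = x₂ q) →
      (Q tt x₁ x' z' z ↔ Q tt x₂ x' z' z)) :
    RD (fun tt x xh z' z => Q tt x (mix (cols tt) x xh) z' z) =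
      RD (fun tt x xh z' z => Q tt x xh z' z) := by
  rw [cp_RD, cp_RD]
  refine av_congr fun tt => ?_
  rw [← av_mix₂ (cols tt) fun x xh => av fun z' : Co n D → Fin k => pr fun z : Co n D → Fin k =>
      Q tt x xh z' z, av_comm]
  refine av_congr fun x => av_congr fun xh => av_congr fun z' => pr_congr fun z => ?_
  refine hQ tt _ _ _ z' z fun q hq => ?_
  exact (if_neg hq).symm

theorem pd_le (hk : 2 ≤ k) [Nonempty R] (P : R → Fin m → Fin n) {c : ℝ}
    (hdens : ∀ Φ : Str k D → Str k D → ℝ, (∀ u v, 0 ≤ Φ u v) →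
      avR Φ ≤ c * av fun u => av fun v => Φ u v)
    (Q : (Bool → Fin m) → Tr m R → Tr m R → (Co n D → Fin k) → (Co n D → Fin k) → Prop) :
    PD P Q ≤ c * RD Q := by
  rw [cp_PD, cp_RD, ← av_mul_left]
  refine av_mono fun tt => ?_
  rw [← av_mul_left]
  refine av_mono fun x => ?_
  rw [← av_mul_left]
  refine av_mono fun xh => ?_
  rw [← av_mul_left]
  refine av_mono fun z' => ?_
  classical
  have hne : Nonempty (Fin k) := ⟨⟨0, by omega⟩⟩
  obtain ⟨F, hF⟩ : ∃ F : (Co n D → Fin k) → ℝ, ∀ z, F z = if Q tt x xh z' z then (1 : ℝ) else 0 :=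
    ⟨_, fun _ => rfl⟩
  have hF0 : ∀ z, 0 ≤ F z := fun z => by
    rw [hF]
    split_ifs <;> norm_num
  have h1 : ∀ z : Co n D → Fin k, (pr fun w : Op k D => Q tt x xh z' (pl P tt x z w)) ≤
      c * av fun u => av fun v => F (plant z (P (x (false, tt false)) (tt false))
        (P (x (true, tt true)) (tt true)) u v) := by
    intro z
    refine le_trans (le_of_eq ?_) (hdens (fun u v => F (plant z (P (x (false, tt false)) (tt false))
        (P (x (true, tt true)) (tt true)) u v)) fun u v => hF0 _)
    rw [avR_eq hk]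
    unfold pr
    refine av_congr fun w => ?_
    rw [hF]
    unfold pl
    congr 1
  refine (av_mono h1).trans (le_of_eq ?_)
  rw [av_mul_left]
  congr 1
  have h2 : (av fun z : Co n D → Fin k => av fun u : Str k D =>
      av fun v : Str k D => F (pos (pos z (false, P (x (false, tt false)) (tt false)) u)
        (true, P (x (true, tt true)) (tt true)) v)) = av F := by
    rw [av_pos (false, P (x (false, tt false)) (tt false))
      fun z : Co n D → Fin k => av fun v : Str k D => F (pos z (true, P (x (true, tt true)) (tt true)) v)]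
    exact av_pos (true, P (x (true, tt true)) (tt true)) F
  have h3 : av F = pr fun z => Q tt x xh z' z := by
    unfold pr
    refine av_congr fun z => ?_
    rw [hF]
  rw [← h3, ← h2]
  refine av_congr fun z => av_congr fun u => av_congr fun v => ?_
  congr 1
  funext q
  unfold plant pos
  by_cases hA : q.1 = (false, P (x (false, tt false)) (tt false))
  · rw [if_pos hA, if_neg (by rw [hA]; simp), if_pos hA]
  · rw [if_neg hA]
    by_cases hB : q.1 = (true, P (x (true, tt true)) (tt true))
    · rw [if_pos hB, if_pos hB]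
    · rw [if_neg hB, if_neg hB, if_neg hA]

end Pool.Agent.H58.CE
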