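import Pool.Agent.H58.CE.Dec1

/-! [H58 CE DEC] THE DECOUPLING LEMMA: disjoint rectangles do not see the planted pair.

PROOF. For `σ : S`, `t`, `t'` let `f u = pr_a (A σ (update a t u))`, `g v = pr_b (B σ (update b t' v))`;
by `av_update` `av f = pr (A σ) =: a σ` and `av g = pr (B σ) =: b σ`. Let `E t t'` be the term of the
left side. Pointwise the indicator of the event is at most `1[no σ] + ∑ σ, 1[A ∧ B ∧ W]`, and by
`hdisj` `1[no σ] + ∑ σ, 1[A ∧ B] = 1` (`no σ` is the negated existence). Exchanging the averages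
(`avR_eq hk` turns `avR` into an average; `av_comm`; for fixed `u, v` the events `A σ (update a t u)` and
`B σ (update b t' v)` are independent: product of averages) one gets
`E t t' ≤ 1 - ∑ σ, avR (f g) + ∑ σ, avR (f g 1_W)`. By `dec_one` for every `σ`:
`E t t' ≤ 1 + ∑ σ, (4 av_u av_v (f g 1_W') + 4 a b e - a b + 6 (b F + a G))` with
`F = av |f - a σ|`, `G = av |g - b σ|`. Here
`av_u av_v (f u g v 1_(W' u v)) = av_a pr_b (A σ a ∧ B σ b ∧ W' σ t t' (a t) (b t'))` by `av_update`
(`(update a t u) t = u`), and the sum over `σ` is `≤ av_a pr_b (∃ σ, ...)` by `hdisj`;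
`∑ a b ≤ 1`, and `1 - ∑ a b = av_a pr_b (¬ ∃ σ, A σ a ∧ B σ b)`.
Finally average over `t, t'`: by `smooth_event` `av_t F ≤ (a (4 l² / m) + negMulLog a) / l`, so
`∑ σ, b σ av_t F ≤ 4 l / m + (∑ σ, b negMulLog a) / l`, the same for `a av_t' G`, and
`∑ σ, (b negMulLog a + a negMulLog b) = ∑ σ, negMulLog (a b) ≤ log (card S) + 1`
(`Real.negMulLog_mul`, `ent_sub`; both single sums are nonnegative). In total
`6 (8 l / m + (log (card S) + 1) / l) ≤ 12 (4 l / m + (log (card S) + 1) / l)`. -/

set_option autoImplicit false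
set_option maxHeartbeats 4000000

namespace Pool.Agent.H58.CE

open Pool.Agent.H58.OVAC Pool.Agent.H58.OVPR Pool.Agent.H58.OVT Pool.Agent.H58.CD

open Classical in
private noncomputable def dind (p : Prop) : ℝ := if p then 1 else 0

private theorem dind_pos {p : Prop} (h : p) : dind p = 1 := if_pos h

private theorem dind_neg {p : Prop} (h : ¬ p) : dind p = 0 := if_neg h

private theorem dite_dind (p : Prop) [Decidable p] : (if p then (1 : ℝ) else 0) = dind p := by
  by_cases h : p
  · rw [if_pos h, dind_pos h]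
  · rw [if_neg h, dind_neg h]

private theorem pr_dind {Ω : Type} [Fintype Ω] (s : Ω → Prop) : pr s = av fun ω => dind (s ω) := by
  unfold pr
  exact av_congr fun ω => @dite_dind (s ω) (Classical.propDecidable _)

private theorem dind_nonneg (p : Prop) : 0 ≤ dind p := by
  by_cases h : p
  · rw [dind_pos h]; norm_num
  · rw [dind_neg h]

private theorem dind_sum {S : Type} [Fintype S] (P Q R : S → Prop)
    (hd : ∀ σ σ', P σ → Q σ → P σ' → Q σ' → σ = σ') :
    ∑ σ, dind (P σ) * dind (Q σ) * dind (R σ) = dind (∃ σ, P σ ∧ Q σ ∧ R σ) := by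
  classical
  by_cases h : ∃ σ, P σ ∧ Q σ ∧ R σ
  · rw [dind_pos h]
    obtain ⟨σ, h1, h2, h3⟩ := h
    rw [Finset.sum_eq_single σ, dind_pos h1, dind_pos h2, dind_pos h3]
    · norm_num
    · intro σ' _ hne
      by_cases h4 : P σ'
      · by_cases h5 : Q σ'
        · exact absurd (hd σ' σ h4 h5 h1 h2) hne
        · rw [dind_neg h5]; ring
      · rw [dind_neg h4]; ring
    · intro h4
      exact absurd (Finset.mem_univ σ) h4
  · rw [dind_neg h]
    refine Finset.sum_eq_zero fun σ _ => ?_
    by_cases h4 : P σ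
    · by_cases h5 : Q σ
      · have h6 : ¬ R σ := fun h6 => h ⟨σ, h4, h5, h6⟩
        rw [dind_neg h6]; ring
      · rw [dind_neg h5]; ring
    · rw [dind_neg h4]; ring

private theorem dind_sum' {S : Type} [Fintype S] (P Q : S → Prop)
    (hd : ∀ σ σ', P σ → Q σ → P σ' → Q σ' → σ = σ') :
    ∑ σ, dind (P σ) * dind (Q σ) = dind (∃ σ, P σ ∧ Q σ) := by
  have h := dind_sum P Q (fun _ => True) hd
  simp only [dind_pos trivial, mul_one, and_true] at h
  exact h

private theorem dind_pt {S : Type} [Fintype S] (P Q R : S → Prop)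
    (hd : ∀ σ σ', P σ → Q σ → P σ' → Q σ' → σ = σ') :
    dind ((¬ ∃ σ, P σ ∧ Q σ) ∨ ∃ σ, P σ ∧ Q σ ∧ R σ) ≤
      1 - ∑ σ, dind (P σ) * dind (Q σ) + ∑ σ, dind (P σ) * dind (Q σ) * dind (R σ) := by
  rw [dind_sum P Q R hd, dind_sum' P Q hd]
  by_cases h1 : ∃ σ, P σ ∧ Q σ
  · by_cases h2 : ∃ σ, P σ ∧ Q σ ∧ R σ
    · rw [dind_pos (Or.inr h2), dind_pos h1, dind_pos h2]; norm_num
    · rw [dind_neg (fun h3 => h3.elim (fun h4 => h4 h1) h2), dind_pos h1, dind_neg h2]; norm_num
  · rw [dind_pos (Or.inl h1), dind_neg h1]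
    have := dind_nonneg (∃ σ, P σ ∧ Q σ ∧ R σ)
    linarith

private theorem dec_aff {S Ω Ω' : Type} [Fintype S] [Fintype Ω] [Fintype Ω'] [Nonempty Ω]
    [Nonempty Ω'] (x : S → Ω → ℝ) (y : S → Ω' → ℝ) (w : S → ℝ) :
    (av fun a => av fun b => 1 - ∑ σ, x σ a * y σ b + ∑ σ, x σ a * y σ b * w σ) =
      1 - ∑ σ, av (x σ) * av (y σ) + ∑ σ, av (x σ) * av (y σ) * w σ := by
  have h1 : ∀ a, (av fun b => 1 - ∑ σ, x σ a * y σ b + ∑ σ, x σ a * y σ b * w σ) =
      1 - ∑ σ, x σ a * av (y σ) + ∑ σ, x σ a * av (y σ) * w σ := by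
    intro a
    rw [av_add, av_sub, av_const, av_sum, av_sum]
    have e1 : ∀ σ ∈ (Finset.univ : Finset S), (av fun b => x σ a * y σ b) = x σ a * av (y σ) :=
      fun σ _ => av_mul_left _ _
    have e2 : ∀ σ ∈ (Finset.univ : Finset S), (av fun b => x σ a * y σ b * w σ) =
        x σ a * av (y σ) * w σ := fun σ _ => by
      rw [av_mul_right, av_mul_left]
    rw [Finset.sum_congr rfl e1, Finset.sum_congr rfl e2]
  rw [av_congr h1, av_add, av_sub, av_const, av_sum, av_sum]
  have e1 : ∀ σ ∈ (Finset.univ : Finset S), (av fun a => x σ a * av (y σ)) =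
      av (x σ) * av (y σ) := fun σ _ => av_mul_right _ _
  have e2 : ∀ σ ∈ (Finset.univ : Finset S), (av fun a => x σ a * av (y σ) * w σ) =
      av (x σ) * av (y σ) * w σ := fun σ _ => by
    rw [av_mul_right, av_mul_right]
  rw [Finset.sum_congr rfl e1, Finset.sum_congr rfl e2]

private theorem dec_prod {Ω Ω' : Type} [Fintype Ω] [Fintype Ω'] (x : Ω → ℝ) (y : Ω' → ℝ) :
    (av fun a => av fun b => x a * y b) = av x * av y := by
  have h1 : ∀ a, (av fun b => x a * y b) = x a * av y := fun a => av_mul_left _ _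
  rw [av_congr h1, av_mul_right]

private theorem dec_upd {Z : Type} [Fintype Z] [Nonempty Z] {m : ℕ} (Φ : (Fin m → Z) → (Fin m → Z) → ℝ)
    (t t' : Fin m) : (av fun a => av fun b => Φ a b) =
      av fun u : Z => av fun v : Z => av fun a => av fun b =>
        Φ (Function.update a t u) (Function.update b t' v) := by
  have h1 := av_update t fun a : Fin m → Z => av fun b => Φ a b
  have h2 : ∀ (a : Fin m → Z) (u : Z), (av fun b => Φ (Function.update a t u) b) =
      av fun b : Fin m → Z => av fun v : Z => Φ (Function.update a t u) (Function.update b t' v) :=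
    fun a u => (av_update t' fun b : Fin m → Z => Φ (Function.update a t u) b).symm
  rw [← h1, av_comm]
  refine av_congr fun u => ?_
  rw [av_congr fun a => h2 a u]
  have h3 : ∀ a : Fin m → Z, (av fun b : Fin m → Z => av fun v : Z =>
      Φ (Function.update a t u) (Function.update b t' v)) = av fun v : Z => av fun b : Fin m → Z =>
      Φ (Function.update a t u) (Function.update b t' v) := fun a => av_comm _
  rw [av_congr h3, av_comm]

open Classical in
theorem dec {k D m : ℕ} (hk : 2 ≤ k) (hm : 1 ≤ m) {S : Type} [Fintype S] [Nonempty S]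
    (A B : S → (Fin m → Str k D) → Prop)
    (hdisj : ∀ σ σ' a b, A σ a → B σ b → A σ' a → B σ' b → σ = σ')
    (W W' : S → Fin m → Fin m → Str k D → Str k D → Prop) {e : ℝ} (he : 0 ≤ e)
    (hW : ∀ σ t t', avR (fun u v => if W σ t t' u v then (1 : ℝ) else 0) ≤
      (av fun u : Str k D => pr fun v : Str k D => W' σ t t' u v) + e)
    {l : ℝ} (hl : 0 < l) (hlm : 2 * l ≤ m) :
    (av fun t : Fin m => av fun t' : Fin m => av fun a : Fin m → Str k D =>
      av fun b : Fin m → Str k D => avR fun u v =>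
      if (¬ ∃ σ, A σ (Function.update a t u) ∧ B σ (Function.update b t' v)) ∨
        (∃ σ, A σ (Function.update a t u) ∧ B σ (Function.update b t' v) ∧ W σ t t' u v)
        then (1 : ℝ) else 0) ≤
      4 * (av fun t : Fin m => av fun t' : Fin m => av fun a : Fin m → Str k D =>
        pr fun b : Fin m → Str k D => ∃ σ, A σ a ∧ B σ b ∧ W' σ t t' (a t) (b t')) +
      (av fun a : Fin m → Str k D => pr fun b : Fin m → Str k D => ¬ ∃ σ, A σ a ∧ B σ b) +
      4 * e + 12 * (4 * l / m + (Real.log (Fintype.card S) + 1) / l) := by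
  have hZ : Nonempty (Str k D) := ⟨fun _ => ⟨0, by omega⟩⟩
  have hFm : Nonempty (Fin m) := ⟨⟨0, by omega⟩⟩
  have hm0 : (0 : ℝ) < m := by exact_mod_cast hm
  have hW2 : ∀ σ t t', avR (fun u v => if W σ t t' u v then (1 : ℝ) else 0) ≤
      (av fun u : Str k D => pr fun v : Str k D => W' σ t t' u v) + e := hW
  simp only [pr_dind, dite_dind]
  obtain ⟨f, hf⟩ : ∃ f : S → Fin m → Str k D → ℝ, ∀ σ t u, f σ t u =
    av fun a : Fin m → Str k D => dind (A σ (Function.update a t u)) := ⟨_, fun _ _ _ => rfl⟩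
  obtain ⟨g, hg⟩ : ∃ g : S → Fin m → Str k D → ℝ, ∀ σ t u, g σ t u =
    av fun a : Fin m → Str k D => dind (B σ (Function.update a t u)) := ⟨_, fun _ _ _ => rfl⟩
  obtain ⟨pa, hpa⟩ : ∃ pa : S → ℝ, ∀ σ, pa σ = av fun a => dind (A σ a) := ⟨_, fun _ => rfl⟩
  obtain ⟨pb, hpb⟩ : ∃ pb : S → ℝ, ∀ σ, pb σ = av fun a => dind (B σ a) := ⟨_, fun _ => rfl⟩
  have hpa0 : ∀ σ, 0 ≤ pa σ := fun σ => by
    rw [hpa]; exact av_nonneg fun _ => dind_nonneg _
  have hpb0 : ∀ σ, 0 ≤ pb σ := fun σ => by
    rw [hpb]; exact av_nonneg fun _ => dind_nonneg _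
  have hf0 : ∀ σ t u, 0 ≤ f σ t u := fun σ t u => by
    rw [hf]; exact av_nonneg fun _ => dind_nonneg _
  have hg0 : ∀ σ t u, 0 ≤ g σ t u := fun σ t u => by
    rw [hg]; exact av_nonneg fun _ => dind_nonneg _
  have haf : ∀ σ t, av (f σ t) = pa σ := by
    intro σ t
    rw [hpa, ← av_update t, av_comm]
    exact av_congr fun u => hf σ t u
  have hag : ∀ σ t, av (g σ t) = pb σ := by
    intro σ t
    rw [hpb, ← av_update t, av_comm]
    exact av_congr fun u => hg σ t u
  -- sums of the products
  have hab : ∑ σ, pa σ * pb σ = av fun a : Fin m → Str k D => av fun b : Fin m → Str k D =>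
      dind (∃ σ, A σ a ∧ B σ b) := by
    have h1 : ∀ a b, dind (∃ σ, A σ a ∧ B σ b) = ∑ σ, dind (A σ a) * dind (B σ b) := fun a b =>
      (dind_sum' (fun σ => A σ a) (fun σ => B σ b) fun σ σ' h2 h3 h4 h5 =>
        hdisj σ σ' a b h2 h3 h4 h5).symm
    have h2 : ∀ a : Fin m → Str k D, (av fun b : Fin m → Str k D => dind (∃ σ, A σ a ∧ B σ b)) =
        ∑ σ, av fun b => dind (A σ a) * dind (B σ b) := fun a => by
      rw [av_congr (h1 a), av_sum]
    rw [av_congr h2, av_sum]
    refine Finset.sum_congr rfl fun σ _ => ?_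
    rw [hpa, hpb]
    exact (dec_prod (fun a => dind (A σ a)) (fun b => dind (B σ b))).symm
  have hab1 : ∑ σ, pa σ * pb σ ≤ 1 := by
    rw [hab]
    refine av_le fun a => av_le fun b => ?_
    by_cases h : ∃ σ, A σ a ∧ B σ b
    · rw [dind_pos h]
    · rw [dind_neg h]; norm_num
  have hnab : (av fun a : Fin m → Str k D => av fun b : Fin m → Str k D =>
      dind (¬ ∃ σ, A σ a ∧ B σ b)) = 1 - ∑ σ, pa σ * pb σ := by
    have h1 : ∀ a b, dind (¬ ∃ σ, A σ a ∧ B σ b) = 1 - dind (∃ σ, A σ a ∧ B σ b) := by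
      intro a b
      by_cases h : ∃ σ, A σ a ∧ B σ b
      · rw [dind_neg (not_not.2 h), dind_pos h]; norm_num
      · rw [dind_pos h, dind_neg h]; norm_num
    have h2 : ∀ a : Fin m → Str k D, (av fun b : Fin m → Str k D => dind (¬ ∃ σ, A σ a ∧ B σ b)) =
        1 - av fun b : Fin m → Str k D => dind (∃ σ, A σ a ∧ B σ b) := fun a => by
      rw [av_congr (h1 a), av_sub, av_const]
    rw [av_congr h2, av_sub, av_const, ← hab]
  -- the events with W'
  obtain ⟨X, hX⟩ : ∃ X : Fin m → Fin m → ℝ, ∀ t t', X t t' = av fun a : Fin m → Str k D =>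
    av fun b : Fin m → Str k D => dind (∃ σ, A σ a ∧ B σ b ∧ W' σ t t' (a t) (b t')) :=
    ⟨_, fun _ _ => rfl⟩
  have hXs : ∀ t t', ∑ σ, (av fun u => av fun v => f σ t u * g σ t' v *
      dind (W' σ t t' u v)) = X t t' := by
    intro t t'
    have h1 : ∀ a b, dind (∃ σ, A σ a ∧ B σ b ∧ W' σ t t' (a t) (b t')) =
        ∑ σ, dind (A σ a) * dind (B σ b) * dind (W' σ t t' (a t) (b t')) := fun a b =>
      (dind_sum (fun σ => A σ a) (fun σ => B σ b) (fun σ => W' σ t t' (a t) (b t'))
        fun σ σ' h2 h3 h4 h5 => hdisj σ σ' a b h2 h3 h4 h5).symm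
    have h2 : ∀ a : Fin m → Str k D, (av fun b : Fin m → Str k D =>
        dind (∃ σ, A σ a ∧ B σ b ∧ W' σ t t' (a t) (b t'))) =
        ∑ σ, av fun b => dind (A σ a) * dind (B σ b) * dind (W' σ t t' (a t) (b t')) := fun a => by
      rw [av_congr (h1 a), av_sum]
    rw [hX, av_congr h2, av_sum]
    refine Finset.sum_congr rfl fun σ _ => ?_
    rw [dec_upd (fun a b => dind (A σ a) * dind (B σ b) * dind (W' σ t t' (a t) (b t'))) t t']
    refine av_congr fun u => av_congr fun v => ?_
    simp only [Function.update_self]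
    have h3 : ∀ a : Fin m → Str k D, (av fun b : Fin m → Str k D =>
        dind (A σ (Function.update a t u)) * dind (B σ (Function.update b t' v)) *
          dind (W' σ t t' u v)) = dind (A σ (Function.update a t u)) * g σ t' v *
          dind (W' σ t t' u v) := fun a => by
      rw [av_mul_right, av_mul_left, hg]
    rw [av_congr h3, av_mul_right, av_mul_right, hf]
  -- one pair of columns
  have hone : ∀ t t', (av fun a : Fin m → Str k D => av fun b : Fin m → Str k D =>
      avR fun u v => dind ((¬ ∃ σ, A σ (Function.update a t u) ∧ B σ (Function.update b t' v)) ∨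
        (∃ σ, A σ (Function.update a t u) ∧ B σ (Function.update b t' v) ∧ W σ t t' u v))) ≤
      4 * X t t' + (1 - ∑ σ, pa σ * pb σ) + 4 * e +
        6 * ∑ σ, (pb σ * (av fun u => |f σ t u - pa σ|) +
          pa σ * (av fun v => |g σ t' v - pb σ|)) := by
    intro t t'
    have h1 : (av fun a : Fin m → Str k D => av fun b : Fin m → Str k D =>
        avR fun u v => dind ((¬ ∃ σ, A σ (Function.update a t u) ∧ B σ (Function.update b t' v)) ∨
        (∃ σ, A σ (Function.update a t u) ∧ B σ (Function.update b t' v) ∧ W σ t t' u v))) ≤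
        av fun a : Fin m → Str k D => av fun b : Fin m → Str k D => avR fun u v =>
          1 - ∑ σ, dind (A σ (Function.update a t u)) * dind (B σ (Function.update b t' v)) +
          ∑ σ, dind (A σ (Function.update a t u)) * dind (B σ (Function.update b t' v)) *
            dind (W σ t t' u v) := by
      refine av_mono fun a => av_mono fun b => avR_mono hk fun u v _ => ?_
      exact dind_pt (fun σ => A σ (Function.update a t u)) (fun σ => B σ (Function.update b t' v))
        (fun σ => W σ t t' u v) fun σ σ' h2 h3 h4 h5 => hdisj σ σ' _ _ h2 h3 h4 h5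
    have h2 : (av fun a : Fin m → Str k D => av fun b : Fin m → Str k D => avR fun u v =>
          1 - ∑ σ, dind (A σ (Function.update a t u)) * dind (B σ (Function.update b t' v)) +
          ∑ σ, dind (A σ (Function.update a t u)) * dind (B σ (Function.update b t' v)) *
            dind (W σ t t' u v)) =
        1 - ∑ σ, avR (fun u v => f σ t u * g σ t' v) +
          ∑ σ, avR (fun u v => f σ t u * g σ t' v * dind (W σ t t' u v)) := by
      have e1 : ∀ a b : Fin m → Str k D, (avR fun u v =>
          1 - ∑ σ, dind (A σ (Function.update a t u)) * dind (B σ (Function.update b t' v)) +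
          ∑ σ, dind (A σ (Function.update a t u)) * dind (B σ (Function.update b t' v)) *
            dind (W σ t t' u v)) = av fun z : Op k D =>
          1 - ∑ σ, dind (A σ (Function.update a t z.1.1)) *
            dind (B σ (Function.update b t' z.1.2)) +
          ∑ σ, dind (A σ (Function.update a t z.1.1)) * dind (B σ (Function.update b t' z.1.2)) *
            dind (W σ t t' z.1.1 z.1.2) := fun a b => avR_eq hk _
      have e2 : ∀ a : Fin m → Str k D, (av fun b : Fin m → Str k D => avR fun u v =>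
          1 - ∑ σ, dind (A σ (Function.update a t u)) * dind (B σ (Function.update b t' v)) +
          ∑ σ, dind (A σ (Function.update a t u)) * dind (B σ (Function.update b t' v)) *
            dind (W σ t t' u v)) = av fun z : Op k D => av fun b : Fin m → Str k D =>
          1 - ∑ σ, dind (A σ (Function.update a t z.1.1)) *
            dind (B σ (Function.update b t' z.1.2)) +
          ∑ σ, dind (A σ (Function.update a t z.1.1)) * dind (B σ (Function.update b t' z.1.2)) *
            dind (W σ t t' z.1.1 z.1.2) := fun a => by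
        rw [av_congr (e1 a), av_comm]
      rw [av_congr e2, av_comm]
      have e3 : ∀ z : Op k D, (av fun a : Fin m → Str k D => av fun b : Fin m → Str k D =>
          1 - ∑ σ, dind (A σ (Function.update a t z.1.1)) *
            dind (B σ (Function.update b t' z.1.2)) +
          ∑ σ, dind (A σ (Function.update a t z.1.1)) * dind (B σ (Function.update b t' z.1.2)) *
            dind (W σ t t' z.1.1 z.1.2)) =
          1 - ∑ σ, f σ t z.1.1 * g σ t' z.1.2 +
            ∑ σ, f σ t z.1.1 * g σ t' z.1.2 * dind (W σ t t' z.1.1 z.1.2) := by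
        intro z
        rw [dec_aff (fun σ (a : Fin m → Str k D) => dind (A σ (Function.update a t z.1.1)))
          (fun σ (b : Fin m → Str k D) => dind (B σ (Function.update b t' z.1.2)))
          (fun σ => dind (W σ t t' z.1.1 z.1.2))]
        simp only [hf, hg]
      have hOp : Nonempty (Op k D) := ⟨⟨(fun _ => ⟨0, by omega⟩, fun _ => ⟨1, by omega⟩),
        fun c h => by simp at h⟩⟩
      rw [av_congr e3, av_add, av_sub, av_const, av_sum, av_sum]
      have e4 : ∀ σ ∈ (Finset.univ : Finset S), (av fun z : Op k D => f σ t z.1.1 * g σ t' z.1.2) =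
          avR (fun u v => f σ t u * g σ t' v) := fun σ _ =>
        (avR_eq hk fun u v => f σ t u * g σ t' v).symm
      have e5 : ∀ σ ∈ (Finset.univ : Finset S), (av fun z : Op k D => f σ t z.1.1 * g σ t' z.1.2 *
          dind (W σ t t' z.1.1 z.1.2)) =
          avR (fun u v => f σ t u * g σ t' v * dind (W σ t t' u v)) := fun σ _ =>
        (avR_eq hk fun u v => f σ t u * g σ t' v * dind (W σ t t' u v)).symm
      rw [Finset.sum_congr rfl e4, Finset.sum_congr rfl e5]
    have h3 : ∀ σ, avR (fun u v => f σ t u * g σ t' v * dind (W σ t t' u v)) ≤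
        4 * (av fun u => av fun v => f σ t u * g σ t' v * dind (W' σ t t' u v)) +
          4 * (pa σ * pb σ) * e + avR (fun u v => f σ t u * g σ t' v) - pa σ * pb σ +
          6 * (pb σ * (av fun u => |f σ t u - pa σ|) +
            pa σ * (av fun v => |g σ t' v - pb σ|)) := by
      intro σ
      have h4 := dec_one hk (f σ t) (g σ t') (hf0 σ t) (hg0 σ t') (W σ t t') (W' σ t t') he
        (hW2 σ t t')
      simp only [dite_dind, haf, hag] at h4
      exact h4
    refine h1.trans ?_
    rw [h2]
    have h5 := Finset.sum_le_sum fun σ (_ : σ ∈ (Finset.univ : Finset S)) => h3 σ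
    simp only [Finset.sum_add_distrib, Finset.sum_sub_distrib, ← Finset.mul_sum] at h5
    rw [hXs t t'] at h5
    have h6 : ∑ σ, 4 * (pa σ * pb σ) * e = 4 * (∑ σ, pa σ * pb σ) * e := by
      rw [Finset.mul_sum, Finset.sum_mul]
    rw [h6] at h5
    rw [Finset.sum_add_distrib]
    have h7 : 4 * (∑ σ, pa σ * pb σ) * e ≤ 4 * e := by nlinarith
    linarith
  -- average over the columns
  have hF : ∀ σ, (av fun t : Fin m => av fun u => |f σ t u - pa σ|) ≤
      (pa σ * (4 * l ^ 2 / m) + Real.negMulLog (pa σ)) / l := by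
    intro σ
    have h1 := smooth_event (A σ) hm hl hlm
    simp only [pr_dind] at h1
    simp only [← hf, ← hpa] at h1
    show (∑ t : Fin m, av fun u => |f σ t u - pa σ|) / (Fintype.card (Fin m) : ℝ) ≤ _
    rw [Fintype.card_fin, div_le_iff₀ hm0, mul_comm _ (m : ℝ)]
    exact h1
  have hG : ∀ σ, (av fun t : Fin m => av fun u => |g σ t u - pb σ|) ≤
      (pb σ * (4 * l ^ 2 / m) + Real.negMulLog (pb σ)) / l := by
    intro σ
    have h1 := smooth_event (B σ) hm hl hlm
    simp only [pr_dind] at h1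
    simp only [← hg, ← hpb] at h1
    show (∑ t : Fin m, av fun u => |g σ t u - pb σ|) / (Fintype.card (Fin m) : ℝ) ≤ _
    rw [Fintype.card_fin, div_le_iff₀ hm0, mul_comm _ (m : ℝ)]
    exact h1
  have hent := ent_sub (fun σ => pa σ * pb σ) (fun σ => mul_nonneg (hpa0 σ) (hpb0 σ)) hab1
  have hfin : 6 * ∑ σ, (pb σ * (av fun t : Fin m => av fun u => |f σ t u - pa σ|) +
      pa σ * (av fun t' : Fin m => av fun v => |g σ t' v - pb σ|)) ≤
      12 * (4 * l / m + (Real.log (Fintype.card S) + 1) / l) := by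
    have h1 : ∑ σ, (pb σ * (av fun t : Fin m => av fun u => |f σ t u - pa σ|) +
        pa σ * (av fun t' : Fin m => av fun v => |g σ t' v - pb σ|)) ≤
        ∑ σ, (pa σ * pb σ * (8 * l / m) + Real.negMulLog (pa σ * pb σ) / l) := by
      refine Finset.sum_le_sum fun σ _ => ?_
      have e1 := mul_le_mul_of_nonneg_left (hF σ) (hpb0 σ)
      have e2 := mul_le_mul_of_nonneg_left (hG σ) (hpa0 σ)
      refine (add_le_add e1 e2).trans (le_of_eq ?_)
      rw [Real.negMulLog_mul]
      field_simp
      ring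
    have h0 : ∑ σ, (pa σ * pb σ * (8 * l / m) + Real.negMulLog (pa σ * pb σ) / l) =
        (∑ σ, pa σ * pb σ) * (8 * l / m) + (∑ σ, Real.negMulLog (pa σ * pb σ)) / l := by
      rw [Finset.sum_add_distrib, ← Finset.sum_mul, ← Finset.sum_div]
    rw [h0] at h1
    have h2 : (∑ σ, pa σ * pb σ) * (8 * l / m) ≤ 8 * l / m := by
      have h3 : 0 ≤ 8 * l / m := by positivity
      nlinarith
    have h3 : (∑ σ, Real.negMulLog (pa σ * pb σ)) / l ≤ (Real.log (Fintype.card S) + 1) / l :=
      div_le_div_of_nonneg_right hent hl.le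
    have h4 : 0 ≤ (Real.log (Fintype.card S) + 1) / l := by
      have h5 : 0 ≤ Real.log (Fintype.card S) := Real.log_natCast_nonneg _
      positivity
    have h5 : 8 * l / (m : ℝ) = 2 * (4 * l / m) := by ring
    rw [h5] at h1 h2
    linarith
  rw [hnab]
  refine (av_mono fun t => av_mono fun t' => hone t t').trans ?_
  have h1 : ∀ t : Fin m, (av fun t' : Fin m => 4 * X t t' + (1 - ∑ σ, pa σ * pb σ) + 4 * e +
        6 * ∑ σ, (pb σ * (av fun u => |f σ t u - pa σ|) +
          pa σ * (av fun v => |g σ t' v - pb σ|))) =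
      4 * (av fun t' : Fin m => X t t') + (1 - ∑ σ, pa σ * pb σ) + 4 * e +
        6 * ∑ σ, (pb σ * (av fun u => |f σ t u - pa σ|) +
          pa σ * (av fun t' : Fin m => av fun v => |g σ t' v - pb σ|)) := by
    intro t
    rw [av_add, av_add, av_add, av_const, av_const, av_mul_left, av_mul_left, av_sum]
    congr 2
    refine Finset.sum_congr rfl fun σ _ => ?_
    rw [av_add, av_const, av_mul_left]
  rw [av_congr h1, av_add, av_add, av_add, av_const, av_const, av_mul_left, av_mul_left, av_sum]
  have h2 : ∀ σ ∈ (Finset.univ : Finset S), (av fun t : Fin m =>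
      pb σ * (av fun u => |f σ t u - pa σ|) +
          pa σ * (av fun t' : Fin m => av fun v => |g σ t' v - pb σ|)) =
      pb σ * (av fun t : Fin m => av fun u => |f σ t u - pa σ|) +
          pa σ * (av fun t' : Fin m => av fun v => |g σ t' v - pb σ|) := by
    intro σ _
    rw [av_add, av_const, av_mul_left]
  rw [Finset.sum_congr rfl h2]
  have h3 : (av fun t : Fin m => av fun t' : Fin m => X t t') =
      av fun t : Fin m => av fun t' : Fin m => av fun a : Fin m → Str k D =>
        av fun b : Fin m → Str k D => dind (∃ σ, A σ a ∧ B σ b ∧ W' σ t t' (a t) (b t')) :=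
    av_congr fun t => av_congr fun t' => hX t t'
  rw [← h3]
  linarith

end Pool.Agent.H58.CE
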