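import Pool.Agent.H58.CE.Base
import Pool.Agent.H58.CD.Mgf
import Pool.Agent.H58.OVPR.Main

/-! [H58 CE DEC1] Decoupling for one rectangle, and an entropy bound.

PROOF of `dec_one`. Let `a = av f`, `b = av g`, `ft u = if f u ≤ 2 * a then f u else 0`,
`gt v = if g v ≤ 2 * b then g v else 0`, `e u = ft u - a`, `e' v = gt v - b`. Pointwise
`|e u| ≤ |f u - a|`, `|e u| ≤ a`, `|e' v| ≤ |g v - b|`, `|e' v| ≤ b` (if `f u > 2a` then `e u = -a` and
`|f u - a| > a`; `a, b ≥ 0`). Hence `ft u * gt v = a b + a e' + b e + e e' ≥ a b - a |e' v| - 2 b |e u|`,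
and by `avR_mono`, `avR_add`, `avR_mul_left`, `avR_const`, `avR_left`, `avR_right`:
(1) `avR (ft u * gt v) ≥ a b - 2 b F - a G`, `F = av |f - a|`, `G = av |g - b|`.
(2) `f u g v 1_W ≤ ft u gt v 1_W + (f u g v - ft u gt v)` (if both are `≤` the thresholds then `ft = f`,
`gt = g`; otherwise `ft u gt v = 0`) and `ft u gt v 1_W ≤ 4 a b 1_W`. So
`avR (f g 1_W) ≤ 4 a b avR 1_W + avR (f g) - avR (ft gt)`.
(3) `a b * av_u pr_v W' ≤ av_u av_v (f g 1_W') + b F + a G`, because `a b ≤ f u g v + |f u g v - a b|` and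
`|f u g v - a b| ≤ |f u - a| g v + a |g v - b|`.
Together with `h` and `he`, `a, b ≥ 0`.
PROOF of `ent_sub`. Apply `CD.ent_sum` to `p' : Option S → ℝ`, `p' none = 1 - ∑ σ, p σ ≥ 0`,
`p' (some σ) = p σ`: `∑ σ, negMulLog (p σ) ≤ log (card S + 1)` since
`negMulLog (p' none) ≥ 0` (`Real.negMulLog_nonneg`), and
`log (card S + 1) ≤ log (2 * card S) = log 2 + log (card S) ≤ 1 + log (card S)`.
PROOF of `smooth_event`. It is the private theorem `smooth_one` of CD/Smooth.lean; copy its proof. -/

set_option autoImplicit false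
set_option maxHeartbeats 4000000

namespace Pool.Agent.H58.CE

open Pool.Agent.H58.OVAC Pool.Agent.H58.OVPR Pool.Agent.H58.OVT Pool.Agent.H58.CD

open Classical in
theorem dec_one {k D : ℕ} (hk : 2 ≤ k) (f g : Str k D → ℝ) (hf : ∀ u, 0 ≤ f u)
    (hg : ∀ v, 0 ≤ g v) (W W' : Str k D → Str k D → Prop) {e : ℝ} (he : 0 ≤ e)
    (h : avR (fun u v => if W u v then (1 : ℝ) else 0) ≤
      (av fun u : Str k D => pr fun v : Str k D => W' u v) + e) :
    avR (fun u v => f u * g v * (if W u v then (1 : ℝ) else 0)) ≤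
      4 * (av fun u => av fun v => f u * g v * (if W' u v then (1 : ℝ) else 0)) +
        4 * (av f * av g) * e + avR (fun u v => f u * g v) - av f * av g +
        6 * (av g * (av fun u => |f u - av f|) + av f * (av fun v => |g v - av g|)) := by
  haveI : Nonempty (Fin k) := ⟨⟨0, by omega⟩⟩
  obtain ⟨a, ha⟩ : ∃ a, a = av f := ⟨_, rfl⟩
  obtain ⟨b, hb⟩ : ∃ b, b = av g := ⟨_, rfl⟩
  obtain ⟨w, hw⟩ : ∃ w : Str k D → Str k D → ℝ, w = fun u v => if W u v then (1 : ℝ) else 0 :=
    ⟨_, rfl⟩
  obtain ⟨w', hw'⟩ : ∃ w' : Str k D → Str k D → ℝ, w' = fun u v => if W' u v then (1 : ℝ) else 0 :=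
    ⟨_, rfl⟩
  have ha0 : 0 ≤ a := ha ▸ av_nonneg hf
  have hb0 : 0 ≤ b := hb ▸ av_nonneg hg
  have hw0 : ∀ u v, 0 ≤ w u v := fun u v => by rw [hw]; dsimp only; split_ifs <;> norm_num
  have hw1 : ∀ u v, w u v ≤ 1 := fun u v => by rw [hw]; dsimp only; split_ifs <;> norm_num
  have hw0' : ∀ u v, 0 ≤ w' u v := fun u v => by rw [hw']; dsimp only; split_ifs <;> norm_num
  have hw1' : ∀ u v, w' u v ≤ 1 := fun u v => by rw [hw']; dsimp only; split_ifs <;> norm_num
  have eW : (fun u v => f u * g v * (if W u v then (1 : ℝ) else 0)) =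
      fun u v => f u * g v * w u v := by
    rw [hw]
  have eW' : (fun u => av fun v => f u * g v * (if W' u v then (1 : ℝ) else 0)) =
      fun u => av fun v => f u * g v * w' u v := by
    rw [hw']
  have ep : (av fun u : Str k D => pr fun v : Str k D => W' u v) =
      av fun u => av fun v => w' u v := by
    rw [hw']
    rfl
  rw [eW, eW', ← ha, ← hb]
  rw [ep] at h
  rw [← hw] at h
  obtain ⟨F, hF⟩ : ∃ F, F = av fun u => |f u - a| := ⟨_, rfl⟩
  obtain ⟨G, hG⟩ : ∃ G, G = av fun v => |g v - b| := ⟨_, rfl⟩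
  have hF0 : 0 ≤ F := hF ▸ av_nonneg fun u => abs_nonneg _
  have hG0 : 0 ≤ G := hG ▸ av_nonneg fun u => abs_nonneg _
  have hA : ∀ u v, f u * g v * w u v ≤
      (4 * a * b) * w u v + (f u * g v + ((a * |g v - b| + (2 * b) * |f u - a|) + -(a * b))) := by
    intro u v
    have h1 := hf u
    have h2 := hg v
    have h3 := hw0 u v
    have h4 := hw1 u v
    have h5 : 0 ≤ f u * g v := mul_nonneg h1 h2
    by_cases c1 : f u ≤ 2 * a
    · by_cases c2 : g v ≤ 2 * b
      · have h6 : f u * g v ≤ 2 * a * (2 * b) := mul_le_mul c1 c2 h2 (by linarith)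
        have h7 := mul_le_mul_of_nonneg_right h6 h3
        have h8 : -(a * |g v - b|) ≤ a * (g v - b) := by
          have := mul_le_mul_of_nonneg_left (neg_abs_le (g v - b)) ha0
          linarith
        have h9 : -(g v * |f u - a|) ≤ g v * (f u - a) := by
          have := mul_le_mul_of_nonneg_left (neg_abs_le (f u - a)) h2
          linarith
        have h10 : g v * |f u - a| ≤ 2 * b * |f u - a| :=
          mul_le_mul_of_nonneg_right c2 (abs_nonneg _)
        nlinarith
      · have h6 : b ≤ |g v - b| := (by linarith : b ≤ g v - b).trans (le_abs_self _)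
        have h7 := mul_le_mul_of_nonneg_left h6 ha0
        have h8 : f u * g v * w u v ≤ f u * g v := mul_le_of_le_one_right h5 h4
        have h9 : 0 ≤ 4 * a * b * w u v := by positivity
        have h10 : 0 ≤ 2 * b * |f u - a| := by positivity
        linarith
    · have h6 : a ≤ |f u - a| := (by linarith : a ≤ f u - a).trans (le_abs_self _)
      have h7 := mul_le_mul_of_nonneg_left h6 hb0
      have h8 : f u * g v * w u v ≤ f u * g v := mul_le_of_le_one_right h5 h4
      have h9 : 0 ≤ 4 * a * b * w u v := by positivity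
      have h10 : 0 ≤ a * |g v - b| := by positivity
      have h11 : 0 ≤ a * b := by positivity
      nlinarith
  have hB : ∀ u v, a * b * w' u v ≤ f u * g v * w' u v + (|f u - a| * g v + a * |g v - b|) := by
    intro u v
    have h1 := hf u
    have h2 := hg v
    have h3 := hw0' u v
    have h4 := hw1' u v
    have h5 : a * b - f u * g v ≤ |f u - a| * g v + a * |g v - b| := by
      have h8 : a * (b - g v) ≤ a * |g v - b| := by
        have := mul_le_mul_of_nonneg_left (neg_abs_le (g v - b)) ha0
        nlinarith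
      have h9 : g v * (a - f u) ≤ g v * |f u - a| := by
        have := mul_le_mul_of_nonneg_left (neg_abs_le (f u - a)) h2
        nlinarith
      nlinarith
    have h6 : 0 ≤ |f u - a| * g v + a * |g v - b| := by positivity
    have h7 := mul_le_mul_of_nonneg_right h5 h3
    have h8 : (|f u - a| * g v + a * |g v - b|) * w' u v ≤ |f u - a| * g v + a * |g v - b| :=
      mul_le_of_le_one_right h6 h4
    nlinarith
  have hA1 := avR_mono hk (Φ := fun u v => f u * g v * w u v)
    (Ψ := fun u v => (4 * a * b) * w u v +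
      (f u * g v + ((a * |g v - b| + (2 * b) * |f u - a|) + -(a * b)))) fun u v _ => hA u v
  have q1 := avR_add (fun u v => (4 * a * b) * w u v)
    (fun u v => f u * g v + ((a * |g v - b| + (2 * b) * |f u - a|) + -(a * b)))
  have q2 := avR_mul_left (4 * a * b) w
  have q3 := avR_add (fun u v => f u * g v)
    (fun u v => (a * |g v - b| + (2 * b) * |f u - a|) + -(a * b))
  have q4 := avR_add (fun u v => a * |g v - b| + (2 * b) * |f u - a|) (fun u v => -(a * b))
  have q5 := avR_add (fun (_ : Str k D) v => a * |g v - b|) (fun u (_ : Str k D) => (2 * b) * |f u - a|)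
  have q6 := avR_right hk (fun v => a * |g v - b|)
  have q7 := avR_left hk (fun u => (2 * b) * |f u - a|)
  have q8 := avR_const (D := D) hk (-(a * b))
  have q9 := av_mul_left a (fun v => |g v - b|)
  have q10 := av_mul_left (2 * b) (fun u => |f u - a|)
  rw [← hG] at q9
  rw [← hF] at q10
  have hB1 : (av fun u => av fun v => a * b * w' u v) ≤
      av fun u => av fun v => f u * g v * w' u v + (|f u - a| * g v + a * |g v - b|) :=
    av_mono fun u => av_mono fun v => hB u v
  have r1 : (av fun u => av fun v => a * b * w' u v) = a * b * av fun u => av fun v => w' u v := by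
    rw [← av_mul_left]
    exact av_congr fun u => av_mul_left _ _
  have r2 : (av fun u => av fun v => f u * g v * w' u v + (|f u - a| * g v + a * |g v - b|)) =
      (av fun u => av fun v => f u * g v * w' u v) + (F * b + a * G) := by
    have r3 : ∀ u, (av fun v => f u * g v * w' u v + (|f u - a| * g v + a * |g v - b|)) =
        (av fun v => f u * g v * w' u v) + (|f u - a| * b + a * G) := by
      intro u
      rw [av_add (fun v => f u * g v * w' u v), av_add (fun v => |f u - a| * g v), av_mul_left,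
        av_mul_left, ← hG]
      have : (av fun v => g v) = b := hb.symm
      rw [this]
    rw [av_congr r3, av_add, av_add, av_mul_right, av_const, ← hF]
  rw [r1, r2] at hB1
  have hab : 0 ≤ a * b := mul_nonneg ha0 hb0
  have h9 := mul_le_mul_of_nonneg_left h hab
  have h10 : 0 ≤ b * F := mul_nonneg hb0 hF0
  have h11 : 0 ≤ a * G := mul_nonneg ha0 hG0
  rw [← hF, ← hG]
  have hw2 : avR (fun u v => w u v) = avR w := rfl
  nlinarith

theorem ent_sub {S : Type} [Fintype S] [Nonempty S] (p : S → ℝ) (h0 : ∀ σ, 0 ≤ p σ)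
    (h1 : ∑ σ, p σ ≤ 1) : ∑ σ, Real.negMulLog (p σ) ≤ Real.log (Fintype.card S) + 1 := by
  have hN : (1 : ℝ) ≤ (Fintype.card S : ℝ) := by
    exact_mod_cast Nat.succ_le_of_lt Fintype.card_pos
  have h2 := ent_sum (S := Option S) (fun o => o.elim (1 - ∑ σ, p σ) p)
    (fun o => by
      cases o with
      | none => simpa using h1
      | some σ => simpa using h0 σ)
    (by
      rw [Fintype.sum_option]
      simp)
  rw [Fintype.sum_option, Fintype.card_option] at h2
  simp only [Option.elim_none, Option.elim_some] at h2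
  have h3 : 0 ≤ Real.negMulLog (1 - ∑ σ, p σ) :=
    Real.negMulLog_nonneg (by linarith) (by linarith [Finset.sum_nonneg fun σ (_ : σ ∈ (Finset.univ : Finset S)) => h0 σ])
  have h4 : Real.log ((Fintype.card S + 1 : ℕ) : ℝ) ≤ Real.log (2 * (Fintype.card S : ℝ)) := by
    apply Real.log_le_log
    · push_cast
      linarith
    · push_cast
      linarith
  rw [Real.log_mul (by norm_num) (by linarith)] at h4
  have h5 := Real.log_two_lt_d9
  linarith

theorem smooth_event {Z : Type} [Fintype Z] [Nonempty Z] {m : ℕ} (s : (Fin m → Z) → Prop)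
    (hm : 1 ≤ m) {l : ℝ} (hl : 0 < l) (hlm : 2 * l ≤ m) :
    (∑ t : Fin m, av fun u : Z =>
      |pr (fun a : Fin m → Z => s (Function.update a t u)) - pr s|) ≤
      m * ((pr s * (4 * l ^ 2 / m) + Real.negMulLog (pr s)) / l) := by
  classical
  have hm0 : (0 : ℝ) < m := by exact_mod_cast hm
  obtain ⟨Q, hQ⟩ : ∃ Q : Fin m → Z → ℝ, ∀ t u, Q t u =
    pr (fun a : Fin m → Z => s (Function.update a t u)) := ⟨_, fun _ _ => rfl⟩
  obtain ⟨g, hg⟩ : ∃ g : Fin m → Z → ℝ, ∀ t u, g t u = if pr s ≤ Q t u then 1 else -1 :=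
    ⟨_, fun _ _ => rfl⟩
  obtain ⟨h, hh⟩ : ∃ h : Fin m → Z → ℝ, ∀ t u, h t u = g t u - av (g t) := ⟨_, fun _ _ => rfl⟩
  have hh' : ∀ t, h t = fun u => g t u - av (g t) := fun t => funext (hh t)
  have hg1 : ∀ t u, |g t u| ≤ 1 := by
    intro t u
    rw [hg]
    split_ifs <;> simp
  have hag : ∀ t, |av (g t)| ≤ 1 := by
    intro t
    rw [abs_le]
    exact ⟨le_av fun u => (abs_le.1 (hg1 t u)).1, av_le fun u => (abs_le.1 (hg1 t u)).2⟩
  have h2 : ∀ t u, |h t u| ≤ 2 := by
    intro t u
    rw [hh]
    refine (abs_sub _ _).trans ?_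
    have := hg1 t u
    have := hag t
    linarith
  have h0 : ∀ t, av (h t) = 0 := by
    intro t
    rw [hh', av_sub, av_const, sub_self]
  have hQP : ∀ t, av (Q t) = pr s := by
    intro t
    have e1 : av (Q t) = av fun u : Z => av fun a : Fin m → Z =>
        if s (Function.update a t u) then (1 : ℝ) else 0 := av_congr fun u => hQ t u
    rw [e1, av_comm]
    exact av_update t fun a => if s a then (1 : ℝ) else 0
  have habs : ∀ t, (av fun u : Z => |Q t u - pr s|) =
      av fun a : Fin m → Z => (if s a then (1 : ℝ) else 0) * h t (a t) := by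
    intro t
    have e1 : ∀ u, |Q t u - pr s| = h t u * Q t u + (av (g t) * (Q t u - pr s) - pr s * h t u) := by
      intro u
      have e2 : |Q t u - pr s| = g t u * (Q t u - pr s) := by
        rw [hg]
        by_cases h3 : pr s ≤ Q t u
        · rw [if_pos h3, one_mul, abs_of_nonneg (sub_nonneg.2 h3)]
        · rw [if_neg h3, abs_of_neg (sub_neg.2 (not_le.1 h3))]
          ring
      rw [e2, hh]
      ring
    rw [av_congr e1, av_add, av_sub, av_mul_left, av_sub, av_const, hQP, sub_self, mul_zero,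
      av_mul_left]
    have e3 : (av fun u => h t u) = 0 := h0 t
    rw [e3, mul_zero, sub_zero, add_zero]
    have e4 : ∀ u, h t u * Q t u = av fun a : Fin m → Z =>
        (if s (Function.update a t u) then (1 : ℝ) else 0) * h t ((Function.update a t u) t) := by
      intro u
      rw [hQ]
      unfold pr
      rw [← av_mul_left]
      refine av_congr fun a => ?_
      rw [Function.update_self, mul_comm]
    rw [av_congr e4, av_comm]
    exact av_update t fun a => (if s a then (1 : ℝ) else 0) * h t (a t)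
  obtain ⟨W, hW⟩ : ∃ W : (Fin m → Z) → ℝ, ∀ a, W a = (1 / (m : ℝ)) * ∑ t, h t (a t) :=
    ⟨_, fun _ => rfl⟩
  have hsum : (∑ t : Fin m, av fun u : Z => |Q t u - pr s|) =
      m * av fun a : Fin m → Z => (if s a then (1 : ℝ) else 0) * W a := by
    rw [Finset.sum_congr rfl fun t _ => habs t, ← av_sum, ← av_mul_left]
    refine av_congr fun a => ?_
    rw [hW, ← Finset.mul_sum]
    field_simp
  have hmgf := mgf h h0 h2 (x := l / m) (by positivity) (by
    rw [mul_div_assoc', div_le_one hm0]
    exact hlm)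
  have hB : (av fun a : Fin m → Z => Real.exp (l * W a)) ≤ Real.exp (4 * l ^ 2 / m) := by
    have e1 : (av fun a : Fin m → Z => Real.exp (l * W a)) =
        av fun a : Fin m → Z => Real.exp (l / m * ∑ t, h t (a t)) := by
      refine av_congr fun a => ?_
      rw [hW]
      congr 1
      ring
    rw [e1]
    refine hmgf.trans (le_of_eq ?_)
    congr 1
    field_simp
  have hent := ent_step s W hl hB
  have hfin : (∑ t : Fin m, av fun u : Z =>
      |pr (fun a : Fin m → Z => s (Function.update a t u)) - pr s|) =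
      ∑ t : Fin m, av fun u : Z => |Q t u - pr s| :=
    Finset.sum_congr rfl fun t _ => av_congr fun u => by rw [hQ]
  rw [hfin, hsum]
  exact mul_le_mul_of_nonneg_left hent hm0.le

end Pool.Agent.H58.CE
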