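import Pool.Agent.H58.CE.Base

/-! [H58 CE DENS] The density of the planted pair.

PROOF of `dens`. By definition `avR Φ = (∑ over off pairs Φ) / (k (k-1))^D` and
`av_u av_v Φ = (∑ over all pairs Φ) / (k^D)^2` (`Fintype.card (Str k D) = k^D`);
`(k/(k-1))^D / (k^D)^2 = 1 / (k (k-1))^D`, and the sum over all pairs is larger.
PROOF of `dens_num`. `k / (k-1) = 1 + 1/(k-1) ≤ exp (1/(k-1))`, so the left side is at most
`exp (k (2l+5) / (k-1)) ≤ exp (2 (2l+5)) = (exp 2)^(2l+5) ≤ 8^(2l+5)` (`exp 1 < 2.7182818286`,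
`2.7182818286^2 < 8`). -/

set_option autoImplicit false
set_option maxHeartbeats 4000000

namespace Pool.Agent.H58.CE

open Pool.Agent.H58.OVAC Pool.Agent.H58.OVPR Pool.Agent.H58.OVT Pool.Agent.H58.CD

theorem dens {k D : ℕ} (hk : 2 ≤ k) (Φ : Str k D → Str k D → ℝ) (h0 : ∀ u v, 0 ≤ Φ u v) :
    avR Φ ≤ ((k : ℝ) / (k - 1)) ^ D * av fun u => av fun v => Φ u v := by
  have hk2 : (2 : ℝ) ≤ k := by exact_mod_cast hk
  have hk0 : (0 : ℝ) < k := by linarith
  have hk1 : (0 : ℝ) < (k : ℝ) - 1 := by linarith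
  have h1 : (∑ a : Str k D, ∑ b, if Off a b then Φ a b else 0) ≤ ∑ a, ∑ b, Φ a b := by
    refine Finset.sum_le_sum fun a _ => Finset.sum_le_sum fun b _ => ?_
    split_ifs
    · exact le_rfl
    · exact h0 a b
  have h2 : (av fun u : Str k D => av fun v => Φ u v) =
      (∑ a, ∑ b, Φ a b) / ((k : ℝ) ^ D) ^ 2 := by
    unfold av
    rw [← Finset.sum_div]
    simp only [Fintype.card_fun, Fintype.card_fin]
    push_cast
    rw [div_div, pow_two]
  rw [h2]
  unfold avR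
  refine (div_le_div_of_nonneg_right h1 (by positivity)).trans (le_of_eq ?_)
  rw [div_pow, mul_pow]
  have e1 : (k : ℝ) ^ D ≠ 0 := (pow_pos hk0 D).ne'
  have e2 : ((k : ℝ) - 1) ^ D ≠ 0 := (pow_pos hk1 D).ne'
  field_simp

theorem dens_num {k : ℕ} (hk : 2 ≤ k) (l : ℕ) :
    ((k : ℝ) / (k - 1)) ^ (k * (2 * l + 5)) ≤ 8 ^ (2 * l + 5) := by
  have hk2 : (2 : ℝ) ≤ k := by exact_mod_cast hk
  have hk0 : (0 : ℝ) < k := by linarith
  have hk1 : (0 : ℝ) < (k : ℝ) - 1 := by linarith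
  have h1 : (k : ℝ) / (k - 1) ≤ Real.exp (1 / ((k : ℝ) - 1)) := by
    have h2 := Real.add_one_le_exp (1 / ((k : ℝ) - 1))
    have h3 : (k : ℝ) / (k - 1) = 1 / ((k : ℝ) - 1) + 1 := by
      field_simp
      ring
    rw [h3]
    exact h2
  have h2 : ((k : ℝ) / (k - 1)) ^ k ≤ 8 := by
    have h3 : ((k : ℝ) / (k - 1)) ^ k ≤ Real.exp (1 / ((k : ℝ) - 1)) ^ k :=
      pow_le_pow_left₀ (by positivity) h1 k
    rw [← Real.exp_nat_mul] at h3
    have h4 : (k : ℝ) * (1 / ((k : ℝ) - 1)) ≤ 2 := by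
      rw [mul_one_div, div_le_iff₀ hk1]
      linarith
    have h5 : Real.exp 2 ≤ 8 := by
      have h6 : Real.exp 2 = Real.exp 1 ^ 2 := by
        rw [← Real.exp_nat_mul]
        norm_num
      rw [h6]
      have h7 := Real.exp_one_lt_d9.le
      have h8 := (Real.exp_pos 1).le
      nlinarith
    exact h3.trans ((Real.exp_le_exp.2 h4).trans h5)
  rw [pow_mul]
  exact pow_le_pow_left₀ (by positivity) h2 _

end Pool.Agent.H58.CE
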