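import Pool.Agent.H58.CE.EndB
import Pool.Agent.H58.CE.Par3

/-! [H58 CE DETQ] The bound for one circuit, with the parameters.

PROOF. Let `k = qK`, `D = qD`, `G = qG`, `M = qM`, `m = qm`, `n' = n / m`, `s₁ = qS₁ (h + L)`,
`e = 10000 * (T + 2) * qL` (real), `Λ = h + L`. `k ≥ 2`, `m ≥ 1`, `M ≥ 1` (`H ≥ 1`), `s₁ ≥ 1`,
`2 e ≤ m`, `G` is exactly the number in the hypothesis `hG` for
`card (Option (Co n D × Fin k)) = 2 n D k + 1`. `R = Fin n'` is a group because `n' ≠ 0`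
(`haveI : NeZero n'`); `hP` for `P = pos` from `hpos` (`a * m + t = a' * m + t'` with `t, t' < m`).
`end_all` and `pd_test` give
`pr (τ : S.acc (τ.y pos)) ≤ pr S.acc + nuB + 2^h ((h+H) (J/M)) + 12 decB (h+H) + (T+1) stepErr`,
and `pr_not` turns the left side into `1 - pr (¬ ...)` (the space of tests is not empty).
Bounds: `decB m M h e' e ≤ 5 / (10000 (T+2))` for `e' = h` and `e' = h + H` (`qnum_log`;
`4 e / m = 4 / (10000 (T+2))`, `(log + 1)/e ≤ qL / e = 1 / (10000 (T+2))`), so all `12 decB` terms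
together (`T + 2` of them) are `≤ 6/1000`; `2^h ((h+H) (J/M)) ≤ 1 / (100 (T+2))`, and the same for
`2^h (h (J/M))`: together `≤ 1/100`; `errB ≤ (2/k) (4 (S+1) + 1) ≤ 10 (S+2) / k = 1 / (10000 (T+2))`
by the first part of `qnum_tail`: together `≤ 4 / 10000`; `insB`: `4 S / n' ≤ 4 S / (400 (T+2) (S+1)) ≤
1 / (100 (T+2))`, and by `dens_num` and the second part of `qnum_tail` the other term times `T + 1` is
`≤ 1/100`: together `≤ 2/100`; the tails in the `nuB` terms (`9 (T+1) + 1 ≤ 10 (T+2)` of them) are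
together `≤ 1/100` by the third part. The sum of all these is `≤ 1/20`. The remaining part of the
`nuB` terms is `≤ 10 (T+2) * two.card * pB / n'^2`. -/

set_option autoImplicit false
set_option maxHeartbeats 4000000

namespace Pool.Agent.H58.CE

open Pool.Agent.H58.OVAC Pool.Agent.H58.OVPR Pool.Agent.H58.OVT Pool.Agent.H58.CD

private theorem num_sum {t A B decH dech jH jh er in1 in2 : ℝ} (ht : 2 ≤ t) (hA : 0 ≤ A)
    (hB : 0 ≤ B) (hin2 : 0 ≤ in2) (h1 : decH ≤ 5 / 10000 * (1 / t))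
    (h2 : dech ≤ 5 / 10000 * (1 / t)) (h3 : jH ≤ 1 / 100 * (1 / t)) (h4 : jh ≤ 1 / 100 * (1 / t))
    (h5 : er ≤ 1 / 10000 * (1 / t)) (h6 : in1 ≤ 1 / 100 * (1 / t)) (h7 : t * in2 ≤ 1 / 100)
    (h8 : 10 * t * B ≤ 1 / 100) :
    (A + B) + jH + 12 * decH + (t - 1) * ((in1 + in2) + 9 * (A + B) + jh + 4 * er + 12 * dech) ≤
      1 / 20 + 10 * t * A := by
  obtain ⟨u, hu⟩ : ∃ u, u = 1 / t := ⟨_, rfl⟩
  rw [← hu] at h1 h2 h3 h4 h5 h6
  have ht0 : 0 < t := by linarith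
  have htu : t * u = 1 := by
    rw [hu]
    field_simp
  have hu0 : 0 < u := by
    rw [hu]
    positivity
  have hτ : 0 ≤ t - 1 := by linarith
  have k2 := mul_le_mul_of_nonneg_left h2 hτ
  have k4 := mul_le_mul_of_nonneg_left h4 hτ
  have k5 := mul_le_mul_of_nonneg_left h5 hτ
  have k6 := mul_le_mul_of_nonneg_left h6 hτ
  have k9 : 0 ≤ t * A := mul_nonneg ht0.le hA
  have k10 : 0 ≤ t * B := mul_nonneg ht0.le hB
  nlinarith [k2, k4, k5, k6, k9, k10, h7, h8, h1, h3, htu, hu0, hA, hB, hin2]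

private theorem decB_le {T h H J e' : ℕ} (hH : 1 ≤ H) (he' : e' ≤ h + H) :
    decB (qm T h H J) (qM T h H J) h e' (10000 * ((T : ℝ) + 2) * qL T h H J) ≤
      5 / 10000 * (1 / ((T : ℝ) + 2)) := by
  have hL : (1 : ℝ) ≤ qL T h H J := by
    have : 1 ≤ qL T h H J := by
      unfold qL
      omega
    exact_mod_cast this
  have ht : (0 : ℝ) < (T : ℝ) + 2 := by positivity
  have h1 := qnum_log (T := T) (J := J) he'
  unfold decB
  have h2 : (4 : ℝ) * (10000 * ((T : ℝ) + 2) * qL T h H J) / (qm T h H J : ℕ) =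
      4 / 10000 * (1 / ((T : ℝ) + 2)) := by
    unfold qm
    push_cast
    field_simp
    norm_num
  have h3 : (Real.log (2 ^ h * (2 * (qM T h H J : ℝ) + 1) ^ e') + 1) /
      (10000 * ((T : ℝ) + 2) * qL T h H J) ≤ 1 / 10000 * (1 / ((T : ℝ) + 2)) := by
    rw [div_le_iff₀ (by positivity)]
    refine h1.trans (le_of_eq ?_)
    field_simp
  rw [h2]
  refine (add_le_add_right h3 _).trans (le_of_eq ?_)
  ring

private theorem er_le {t K S X : ℝ} (ht : 0 < t) (hS : 0 ≤ S) (hK : K = 100000 * t * (S + 2))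
    (hX : 2 * X ≤ 1) : 2 / K * (4 * (S + 1) + 2 * X) ≤ 1 / 10000 * (1 / t) := by
  have hK0 : 0 < K := by
    rw [hK]
    positivity
  have h1 : 2 / K * (4 * (S + 1) + 2 * X) ≤ 2 / K * (5 * (S + 2)) :=
    mul_le_mul_of_nonneg_left (by linarith) (by positivity)
  refine h1.trans (le_of_eq ?_)
  rw [hK]
  field_simp
  norm_num

private theorem in1_le {t S q : ℝ} (ht : 0 < t) (hS : 0 ≤ S) (hq : 400 * t * (S + 1) ≤ q) :
    4 * (S / q) ≤ 1 / 100 * (1 / t) := by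
  have h1 : 0 < 400 * t * (S + 1) := by positivity
  have h2 : S / q ≤ S / (400 * t * (S + 1)) := div_le_div_of_nonneg_left hS h1 hq
  have h3 : 4 * (S / (400 * t * (S + 1))) = 1 / 100 * (1 / t) * (S / (S + 1)) := by
    field_simp
    ring
  calc 4 * (S / q) ≤ 4 * (S / (400 * t * (S + 1))) := by linarith
    _ = _ := h3
    _ ≤ 1 / 100 * (1 / t) := by
        refine mul_le_of_le_one_right (by positivity) ?_
        rw [div_le_one (by positivity)]
        linarith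

private theorem j_le {t x y J p M : ℝ} (ht : 0 < t) (hx : 0 < x) (hyx : y ≤ x)
    (hJ : 0 ≤ J) (hp : 0 < p) (hM : M = 100 * t * p * x * (J + 1)) :
    p * (y * (J / M)) ≤ 1 / 100 * (1 / t) := by
  have hM0 : 0 < M := by
    rw [hM]
    positivity
  have h0 : p * (y * (J / M)) ≤ p * (x * (J / M)) :=
    mul_le_mul_of_nonneg_left (mul_le_mul_of_nonneg_right hyx (by positivity)) hp.le
  refine h0.trans ?_
  have h1 : p * (x * (J / M)) = 1 / 100 * (1 / t) * (J / (J + 1)) := by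
    rw [hM]
    field_simp
  rw [h1]
  refine mul_le_of_le_one_right (by positivity) ?_
  rw [div_le_one (by positivity)]
  linarith

private theorem tailB_nonneg (T s₁ G : ℕ) : 0 ≤ tailB T s₁ G := by
  unfold tailB
  positivity

private theorem tailP_nonneg (T s₁ G : ℕ) : 0 ≤ tailP T s₁ G := by
  unfold tailP
  positivity

private theorem two_e_le (t Lg : ℕ) : 2 * (10000 * (t + 2) * Lg) ≤ 100000000 * (t + 2) ^ 2 * Lg := by
  rw [← mul_assoc]
  refine Nat.mul_le_mul_right _ ?_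
  nlinarith

private theorem pr_bound {X A Z : ℝ} {a b : ℝ} (h : a ≤ b + X) (hX : X ≤ 1 / 20 + Z) (hA : A = Z) :
    19 / 20 ≤ 1 - a + b + A := by
  linarith

theorem det_q {n s T h H J L l : ℕ} (hH : 1 ≤ H) (hL : 1 ≤ L) (hl : l ≤ L)
    (hnL : n ≤ 2 ^ L) (hs : s + 1 ≤ 2 ^ L)
    (hT : (32 * qS₁ (h + L)) ^ (T + 1) ≤ 2 ^ (64 * (h + L)))
    (hn' : 400 * (T + 2) * (snB T (qS₁ (h + L)) + 1) ≤ n / qm T h H J)
    (pos : Fin (n / qm T h H J) → Fin (qm T h H J) → Fin n)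
    (hpos : ∀ a t, (pos a t : ℕ) = a * qm T h H J + t)
    (S : SFam (Option (Co n (qD T (h + L) l) × Fin (qK T (h + L)))) n (qD T (h + L) l)
      (qK T (h + L)) s T h H J) (two : Finset (Fin s)) (htwo : S.Two two) :
    (19 / 20 : ℝ) ≤
      pr (fun τ : PTest n (qK T (h + L)) (qD T (h + L) l) (n / qm T h H J) (qm T h H J) =>
        ¬ S.acc (τ.y pos)) + pr S.acc +
      10 * ((T : ℝ) + 2) * pB T (qS₁ (h + L)) / ((n / qm T h H J : ℕ) : ℝ) ^ 2 * two.card := by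
  obtain ⟨t1, t2, t3⟩ := qnum_tail (n := n) (s := s) (T := T) (h := h) hnL hs hl hL hT
  have hD : qD T (h + L) l = qK T (h + L) * (2 * l + 5) := rfl
  have hk2 : 2 ≤ qK T (h + L) := by
    unfold qK
    have h1 : 1 * 2 ≤ (T + 2) * (snB T (qS₁ (h + L)) + 2) :=
      Nat.mul_le_mul (by omega) (by omega)
    calc 2 ≤ 100000 * ((T + 2) * (snB T (qS₁ (h + L)) + 2)) := by omega
      _ = _ := by ring
  have hkS : (qK T (h + L) : ℝ) = 100000 * ((T : ℝ) + 2) * ((snB T (qS₁ (h + L)) : ℝ) + 2) := by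
    unfold qK
    push_cast
    ring
  have hLg : 1 ≤ qL T h H J := by
    unfold qL
    omega
  have hm1 : 1 ≤ qm T h H J := by
    unfold qm
    have h1 : 0 < 100000000 * (T + 2) ^ 2 := by positivity
    exact Nat.mul_pos h1 hLg
  have hM1 : 1 ≤ qM T h H J := by
    unfold qM
    have h1 : 0 < h + H := by omega
    exact Nat.succ_le_of_lt (by positivity)
  have hs₁ : 1 ≤ qS₁ (h + L) := by
    unfold qS₁
    omega
  have hn1 : 1 ≤ n / qm T h H J := by
    refine le_trans ?_ hn'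
    have h1 : 0 < 400 * (T + 2) * (snB T (qS₁ (h + L)) + 1) := by positivity
    exact h1
  have hnR : (400 : ℝ) * ((T : ℝ) + 2) * ((snB T (qS₁ (h + L)) : ℝ) + 1) ≤
      ((n / qm T h H J : ℕ) : ℝ) := by exact_mod_cast hn'
  have hMR : (qM T h H J : ℝ) = 100 * ((T : ℝ) + 2) * 2 ^ h * ((h : ℝ) + H) * ((J : ℝ) + 1) := by
    unfold qM
    push_cast
    ring
  have hcard : Fintype.card (Option (Co n (qD T (h + L) l) × Fin (qK T (h + L)))) =
      2 * n * qD T (h + L) l * qK T (h + L) + 1 := by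
    simp [Fintype.card_prod]
  have hG : s * (2 * (Fintype.card (Option (Co n (qD T (h + L) l) × Fin (qK T (h + L)))) + s)) +
      (Fintype.card (Option (Co n (qD T (h + L) l) × Fin (qK T (h + L)))) + s) ≤
      qG n s T (h + L) l := by
    rw [hcard]
    exact le_refl _
  have hHR : (1 : ℝ) ≤ H := by exact_mod_cast hH
  have hLgR : (1 : ℝ) ≤ qL T h H J := by exact_mod_cast hLg
  have hT0 : (0 : ℝ) ≤ (T : ℝ) := Nat.cast_nonneg _
  have ht : (0 : ℝ) < (T : ℝ) + 2 := by linarith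
  have he0 : (0 : ℝ) < 10000 * ((T : ℝ) + 2) * qL T h H J :=
    mul_pos (mul_pos (by norm_num) ht) (by linarith)
  have hem : 2 * (10000 * ((T : ℝ) + 2) * qL T h H J) ≤ (qm T h H J : ℕ) := by
    have h1 : 2 * (10000 * (T + 2) * qL T h H J) ≤ qm T h H J := two_e_le T (qL T h H J)
    have h2 : ((2 * (10000 * (T + 2) * qL T h H J) : ℕ) : ℝ) ≤ (qm T h H J : ℕ) :=
      Nat.cast_le.2 h1
    push_cast at h2
    exact h2
  haveI : NeZero (n / qm T h H J) := ⟨by omega⟩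
  have hP : ∀ a t a' t', pos a t = pos a' t' → a = a' ∧ t = t' := by
    intro a t a' t' hat
    have h1 : (a : ℕ) * qm T h H J + t = a' * qm T h H J + t' := by
      rw [← hpos, ← hpos, hat]
    have h2 := t.2
    have h3 := t'.2
    have h4 : (a : ℕ) = a' := by
      have e1 : ((a : ℕ) * qm T h H J + t) / qm T h H J = a := by
        rw [mul_comm, Nat.mul_add_div (by omega), Nat.div_eq_of_lt h2, add_zero]
      have e2 : ((a' : ℕ) * qm T h H J + t') / qm T h H J = a' := by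
        rw [mul_comm, Nat.mul_add_div (by omega), Nat.div_eq_of_lt h3, add_zero]
      rw [← e1, ← e2, h1]
    refine ⟨Fin.ext h4, Fin.ext ?_⟩
    rw [h4] at h1
    omega
  have hall := end_all (M := qM T h H J) hk2 hm1 S pos hP two htwo hs₁ hM1 hG he0 hem
  rw [pd_test hk2 hm1 hn1 pos S.acc, Fintype.card_fin] at hall
  haveI hneK : Nonempty (Fin (qK T (h + L))) := ⟨⟨0, by omega⟩⟩
  haveI : Nonempty (PTest n (qK T (h + L)) (qD T (h + L) l) (n / qm T h H J) (qm T h H J)) := by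
    refine ⟨(fun _ => ⟨0, by omega⟩, ((⟨0, by omega⟩, ⟨0, by omega⟩), (⟨0, by omega⟩,
      ⟨0, by omega⟩)), ⟨(fun _ => ⟨0, by omega⟩, fun _ => ⟨1, by omega⟩), fun c h => ?_⟩)⟩
    simp at h
  rw [pr_not]
  -- the terms
  have hS0 : (0 : ℝ) ≤ (snB T (qS₁ (h + L)) : ℝ) := Nat.cast_nonneg _
  have d1 := decB_le (T := T) (h := h) (J := J) hH (le_refl (h + H))
  have d2 := decB_le (T := T) (h := h) (J := J) hH (Nat.le_add_right h H)
  have hh0 : (0 : ℝ) ≤ (h : ℝ) := Nat.cast_nonneg _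
  have hJ0 : (0 : ℝ) ≤ (J : ℝ) := Nat.cast_nonneg _
  have hhH : (0 : ℝ) < (h : ℝ) + H := by linarith
  have hp0 : (0 : ℝ) < 2 ^ h := by positivity
  have jH := j_le ht hhH (le_refl _) hJ0 hp0 hMR
  have jh := j_le (y := (h : ℝ)) ht hhH (by linarith) hJ0 hp0 hMR
  have er : errB (qK T (h + L)) (qD T (h + L) l) s T (qS₁ (h + L)) (qG n s T (h + L) l) ≤
      1 / 10000 * (1 / ((T : ℝ) + 2)) := by
    unfold errB
    exact er_le ht hS0 hkS t1
  have in1 := in1_le ht hS0 hnR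
  have htB := tailB_nonneg T (qS₁ (h + L)) (qG n s T (h + L) l)
  have htP := tailP_nonneg T (qS₁ (h + L)) (qG n s T (h + L) l)
  have hs0 : (0 : ℝ) ≤ (s : ℝ) := Nat.cast_nonneg _
  have hq0 : (0 : ℝ) ≤ 4 * (2 ^ h * (s * tailB T (qS₁ (h + L)) (qG n s T (h + L) l))) :=
    mul_nonneg (by norm_num) (mul_nonneg hp0.le (mul_nonneg hs0 htB))
  have hdn := dens_num hk2 l
  have hk2R : (2 : ℝ) ≤ (qK T (h + L) : ℝ) := by exact_mod_cast hk2
  have hk1 : (0 : ℝ) < (qK T (h + L) : ℝ) - 1 := by linarith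
  have in2 : ((T : ℝ) + 2) * (((qK T (h + L) : ℝ) / ((qK T (h + L) : ℝ) - 1)) ^ (qD T (h + L) l) *
      (4 * (2 ^ h * (s * tailB T (qS₁ (h + L)) (qG n s T (h + L) l))))) ≤ 1 / 100 := by
    refine le_trans ?_ t2
    refine mul_le_mul_of_nonneg_left ?_ ht.le
    refine mul_le_mul_of_nonneg_right ?_ hq0
    rw [hD]
    exact hdn
  have hin2 : (0 : ℝ) ≤ ((qK T (h + L) : ℝ) / ((qK T (h + L) : ℝ) - 1)) ^ (qD T (h + L) l) *
      (4 * (2 ^ h * (s * tailB T (qS₁ (h + L)) (qG n s T (h + L) l)))) :=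
    mul_nonneg (pow_nonneg (div_nonneg (by linarith) hk1.le) _) hq0
  have hA : (0 : ℝ) ≤ (two.card : ℝ) * pB T (qS₁ (h + L)) / ((n / qm T h H J : ℕ) : ℝ) ^ 2 :=
    div_nonneg (mul_nonneg (Nat.cast_nonneg _) (Nat.cast_nonneg _)) (pow_nonneg (Nat.cast_nonneg _) _)
  have hB : (0 : ℝ) ≤ 2 ^ h * (s * tailP T (qS₁ (h + L)) (qG n s T (h + L) l)) :=
    mul_nonneg hp0.le (mul_nonneg hs0 htP)
  have key := num_sum (t := (T : ℝ) + 2) (by linarith) hA hB hin2 d1 d2 jH jh er in1 in2 t3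
  unfold stepErr nuB insB at hall
  have e1 : (10 : ℝ) * ((T : ℝ) + 2) * pB T (qS₁ (h + L)) / ((n / qm T h H J : ℕ) : ℝ) ^ 2 *
      two.card = 10 * ((T : ℝ) + 2) * ((two.card : ℝ) * pB T (qS₁ (h + L)) /
        ((n / qm T h H J : ℕ) : ℝ) ^ 2) := by ring
  have e2 : (T : ℝ) + 1 = (T : ℝ) + 2 - 1 := by ring
  rw [e2] at hall
  refine pr_bound ?_ key e1
  refine hall.trans (le_of_eq ?_)
  ring

end Pool.Agent.H58.CE
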