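import Pool.Agent.H58.CE.Base
import Pool.Agent.H58.CD.Emb

/-! [H58 CE EMB2] Restriction of a circuit with fixed step gates to the coded inputs.

PROOF. Copy the proof of `CD.embed_net` (CD/Emb.lean; copy also the private `inpf` and `key`). The
only change: a literal `(inl (inr r), b)` (the step gate `r`, whose value is the constant `γ r`) is
translated to `(inl none, γ r ^^ b)` (the input `none` is the constant `false`, and
`false = (γ r ^^ b)` iff `γ r = b`). -/

set_option autoImplicit false
set_option maxHeartbeats 4000000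

namespace Pool.Agent.H58.CE

open Pool.Agent.H58.OVAC Pool.Agent.H58.OVPR Pool.Agent.H58.OVT Pool.Agent.H58.CD

private def inpf {n D k : ℕ} (i : Option (Co n D × Fin k)) (y : Co n D → Fin k) : Bool :=
  match i with
  | none => false
  | some (q, a) => decide (y q = a)

private theorem key {n d D k l : ℕ} (code : Fin n → Fin l → Bool) (q : OVAC.Pos n × Fin d) :
    ∃ (α : Option (Co n D × Fin k)) (β : Bool), ∀ y : Co n D → Fin k,
      code₁ (d := d) code y q.1 q.2 = (β ^^ inpf α y) := by
  obtain ⟨p, x⟩ := q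
  unfold code₁ OVAC.emb
  by_cases h1 : x.1 < l
  · refine ⟨none, if p.1 = false then code p.2 ⟨x.1, h1⟩ else false, fun y => ?_⟩
    simp only [h1, dif_pos, inpf, Bool.xor_false]
  · by_cases h2 : x.1 < 2 * l
    · refine ⟨none, if p.1 = false then false else code p.2 ⟨x.1 - l, by omega⟩, fun y => ?_⟩
      simp only [h1, h2, dif_pos, dif_neg, not_false_iff, inpf, Bool.xor_false]
    · by_cases h3 : x.1 < 2 * l + D * k
      · refine ⟨some ((p, (finProdFinEquiv.symm (⟨x.1 - 2 * l, by omega⟩ : Fin (D * k))).1),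
          (finProdFinEquiv.symm (⟨x.1 - 2 * l, by omega⟩ : Fin (D * k))).2), false, fun y => ?_⟩
        simp only [h1, h2, h3, dif_pos, dif_neg, not_false_iff, inpf, Bool.false_xor]
      · refine ⟨none, false, fun y => ?_⟩
        simp only [h1, h2, h3, dif_neg, not_false_iff, inpf, Bool.xor_false]

theorem embed_net2 {n d D k l s T h : ℕ} (code : Fin n → Fin l → Bool) (γ : Fin h → Bool)
    (C : Net ((OVAC.Pos n × Fin d) ⊕ Fin h) (OVAC.Input n d) s T)
    (hC : ∀ q x, C.inp (Sum.inl q) x = x q.1 q.2) (hγ : ∀ r x, C.inp (Sum.inr r) x = γ r) :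
    ∃ N : Net (Option (Co n D × Fin k)) (Co n D → Fin k) s T,
      (∀ i, DepOne (N.inp i)) ∧ ∀ g y, N.val g y = C.val g (code₁ code y) := by
  classical
  have key' : ∀ z : (OVAC.Pos n × Fin d) ⊕ Fin h, ∃ (α : Option (Co n D × Fin k)) (β : Bool),
      ∀ y : Co n D → Fin k, C.inp z (code₁ (d := d) code y) = (β ^^ inpf α y) := by
    intro z
    rcases z with z | r
    · obtain ⟨α, β, h⟩ := key (n := n) (d := d) (D := D) (k := k) (l := l) code z
      exact ⟨α, β, fun y => by rw [hC, h]⟩
    · exact ⟨none, γ r, fun y => by rw [hγ, inpf, Bool.xor_false]⟩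
  choose α β hαβ using key'
  obtain ⟨τ, hτ⟩ : ∃ τ : (((OVAC.Pos n × Fin d) ⊕ Fin h) ⊕ Fin s) × Bool →
      (Option (Co n D × Fin k) ⊕ Fin s) × Bool,
      ∀ q, τ q = Sum.elim (fun z => ((Sum.inl (α z) : Option (Co n D × Fin k) ⊕ Fin s), (β z ^^ q.2)))
        (fun h => (Sum.inr h, q.2)) q.1 := ⟨_, fun _ => rfl⟩
  refine ⟨⟨inpf, fun g => (C.lits g).image τ, C.layer, ?_, fun g y => C.val g (code₁ code y), ?_⟩, ?_, ?_⟩
  · intro g q hq h hqh
    obtain ⟨q', hq', rfl⟩ := Finset.mem_image.1 hq
    refine C.lower g q' hq' h ?_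
    obtain ⟨z, b⟩ := q'
    rw [hτ] at hqh
    rcases z with z | z
    · simp at hqh
    · simpa using hqh
  · intro g y
    rw [C.val_iff]
    rw [Finset.forall_mem_image]
    refine forall_congr' fun q => forall_congr' fun _ => ?_
    obtain ⟨z, b⟩ := q
    rw [hτ]
    rcases z with z | z
    · show C.inp z (code₁ code y) = b ↔ inpf (α z) y = (β z ^^ b)
      rw [hαβ z y]
      cases β z <;> cases inpf (α z) y <;> cases b <;> simp
    · rfl
  · intro i
    cases i with
    | none => exact ⟨∅, by simp, fun _ _ _ => rfl⟩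
    | some z =>
      obtain ⟨q, a⟩ := z
      refine ⟨{q}, by simp, fun x y h => ?_⟩
      show decide (x q = a) = decide (y q = a)
      rw [h q (Finset.mem_singleton_self q)]
  · intro g y
    rfl

end Pool.Agent.H58.CE
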