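import Pool.Agent.H58.CE.Base

/-! [H58 CE RECT] Rectangles from quantile labels.

PROOF. For every `γ, i` take `lab γ i` from `quant (X γ i) hM` (Quant.lean) and let
`c γ a = fun i => lab γ i (X γ i a)`. If `Q γ (values at a, b)` but there is `a'` with `c γ a' = c γ a`
and not `Q γ (values at a', b)`, then for some `i`,
`f i (X γ i a' + Y γ i b) ≠ f i (X γ i a + Y γ i b)` and `lab γ i (X γ i a') = lab γ i (X γ i a)`. So the
event is contained in the union over `γ, i` of these events; for fixed `b` each of them has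
probability `≤ J / M` by `bad_class` (exchange the averages by `av_comm`). Compare the proof of
`gap_bad` in CD/Gap.lean. -/

set_option autoImplicit false
set_option maxHeartbeats 4000000

namespace Pool.Agent.H58.CE

open Pool.Agent.H58.OVAC Pool.Agent.H58.OVPR Pool.Agent.H58.OVT Pool.Agent.H58.CD

theorem rects {A B Γ I α : Type} [Fintype A] [Nonempty A] [Fintype B] [Nonempty B] [Fintype Γ]
    [Fintype I] {J M : ℕ} (hM : 1 ≤ M) (X : Γ → I → A → ℝ) (Y : Γ → I → B → ℝ) (f : I → ℝ → α)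
    (hf : ∀ i, IsStep J (f i)) (Q : Γ → (I → α) → Prop) :
    ∃ c : Γ → A → (I → Fin (2 * M + 1)),
      (av fun a : A => pr fun b : B => (∃ γ, Q γ fun i => f i (X γ i a + Y γ i b)) ∧
        ¬ ∃ γ, ∀ a', c γ a' = c γ a → Q γ fun i => f i (X γ i a' + Y γ i b)) ≤
      Fintype.card Γ * (Fintype.card I * ((J : ℝ) / M)) := by
  classical
  choose lab hmono hmass using fun (γ : Γ) (i : I) => quant (X γ i) hM
  refine ⟨fun γ a i => lab γ i (X γ i a), ?_⟩
  have h1 : ∀ a : A, (pr fun b : B => (∃ γ, Q γ fun i => f i (X γ i a + Y γ i b)) ∧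
      ¬ ∃ γ, ∀ a', (fun i => lab γ i (X γ i a')) = (fun i => lab γ i (X γ i a)) →
        Q γ fun i => f i (X γ i a' + Y γ i b)) ≤
      ∑ z : Γ × I, pr fun b : B => ∃ a' : A, lab z.1 z.2 (X z.1 z.2 a') = lab z.1 z.2 (X z.1 z.2 a) ∧
        f z.2 (X z.1 z.2 a' + Y z.1 z.2 b) ≠ f z.2 (X z.1 z.2 a + Y z.1 z.2 b) := by
    intro a
    refine le_trans (pr_mono fun b => ?_) (pr_exists_le Finset.univ
      fun (z : Γ × I) (b : B) => ∃ a' : A, lab z.1 z.2 (X z.1 z.2 a') = lab z.1 z.2 (X z.1 z.2 a) ∧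
        f z.2 (X z.1 z.2 a' + Y z.1 z.2 b) ≠ f z.2 (X z.1 z.2 a + Y z.1 z.2 b))
    rintro ⟨⟨γ, hγ⟩, h2⟩
    push Not at h2
    obtain ⟨a', h3, h4⟩ := h2 γ
    by_cases h5 : ∃ i, f i (X γ i a' + Y γ i b) ≠ f i (X γ i a + Y γ i b)
    · obtain ⟨i, hi⟩ := h5
      exact ⟨(γ, i), Finset.mem_univ _, a', congrFun h3 i, hi⟩
    · push Not at h5
      refine absurd ?_ h4
      rw [funext h5]
      exact hγ
  refine (av_mono h1).trans ?_
  rw [av_sum]
  have h2 : ∀ z ∈ (Finset.univ : Finset (Γ × I)), (av fun a : A => pr fun b : B => ∃ a' : A,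
      lab z.1 z.2 (X z.1 z.2 a') = lab z.1 z.2 (X z.1 z.2 a) ∧
        f z.2 (X z.1 z.2 a' + Y z.1 z.2 b) ≠ f z.2 (X z.1 z.2 a + Y z.1 z.2 b)) ≤
      (J : ℝ) / M := by
    intro z _
    have e1 : (av fun a : A => pr fun b : B => ∃ a' : A,
      lab z.1 z.2 (X z.1 z.2 a') = lab z.1 z.2 (X z.1 z.2 a) ∧
        f z.2 (X z.1 z.2 a' + Y z.1 z.2 b) ≠ f z.2 (X z.1 z.2 a + Y z.1 z.2 b)) =
      av fun b : B => pr fun a : A => ∃ a' : A,
      lab z.1 z.2 (X z.1 z.2 a') = lab z.1 z.2 (X z.1 z.2 a) ∧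
        f z.2 (X z.1 z.2 a' + Y z.1 z.2 b) ≠ f z.2 (X z.1 z.2 a + Y z.1 z.2 b) := by
      unfold pr
      exact av_comm _
    rw [e1]
    exact av_le fun b => bad_class (X z.1 z.2) hM (lab z.1 z.2) (hmono z.1 z.2) (hmass z.1 z.2)
      (f z.2) (hf z.2) (Y z.1 z.2 b)
  refine (Finset.sum_le_sum h2).trans (le_of_eq ?_)
  rw [Finset.sum_const, Finset.card_univ, Fintype.card_prod, nsmul_eq_mul]
  push_cast
  ring

end Pool.Agent.H58.CE
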