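import Pool.Agent.H58.CE.Base
import Pool.Agent.H58.CD.Put

/-! [H58 CE TPM] Points with given strings on a transversal.

PROOF. Everything is pointwise. By `hP`, for a coordinate `p = ((b, i), c)` with
`i = P (x (b, t)) t` the `t` is unique, so `tp P x α β y ((b, P (x (b, t)) t), c)` is `β t c` or
`α t c`, and `tp P x α β y p = y p` for the other `p`. `mix J z' z` takes `z'` on `J` and `z` elsewhere;
`tg P b x z' t c = z' ((b, P (x (b, t)) t), c)`. For `tp_plant`: the positions
`(false, P (x (false, tt false)) (tt false))`, `(true, ...)` are on the transversal in the columns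
`tt`. For `mix_tro`: `tro` is the transversal without the columns `tt`, so at these two positions the
value is the string of `tp`, on the rest of the transversal it is `z'`, elsewhere `y`.
`av_tp`: the map `(y, y') ↦ mix (trb D P x) y' y` has `av_y av_y' F (mix J y' y) = av F` (`av_mix`), and
`mix (trb D P x) y' y = tp P x (tg P false x y') (tg P true x y') y`; the strings
`(tg P false x y', tg P true x y')` are uniform and independent (`CD.av_inj` for the injection
`Bool × Fin m × Fin D → Co n D`, `(b, t, c) ↦ ((b, P (x (b, t)) t), c)`, and the bijection with pairs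
of families of strings; compare `CD.av_get`). -/

set_option autoImplicit false
set_option maxHeartbeats 4000000

namespace Pool.Agent.H58.CE

open Pool.Agent.H58.OVAC Pool.Agent.H58.OVPR Pool.Agent.H58.OVT Pool.Agent.H58.CD

variable {n m D : ℕ} {R X : Type}

private theorem tp_pos (P : R → Fin m → Fin n)
    (hP : ∀ a t a' t', P a t = P a' t' → a = a' ∧ t = t')
    (x : Tr m R) (α β : Fin m → Fin D → X) (y : Co n D → X) (b : Bool) (t : Fin m) (c : Fin D) :
    tp P x α β y ((b, P (x (b, t)) t), c) = if b = true then β t c else α t c := by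
  have h : ∃ t', P (x (b, t)) t = P (x (b, t')) t' := ⟨t, rfl⟩
  have hc : h.choose = t := ((hP _ _ _ _ h.choose_spec).2).symm
  unfold tp
  rw [dif_pos h]
  show (if b = true then β h.choose c else α h.choose c) = _
  rw [hc]

private theorem tp_neg (P : R → Fin m → Fin n)
    (x : Tr m R) (α β : Fin m → Fin D → X) (y : Co n D → X) (b : Bool) (i : Fin n) (c : Fin D)
    (h : ¬ ∃ t, i = P (x (b, t)) t) :
    tp P x α β y ((b, i), c) = y ((b, i), c) := by
  unfold tp
  rw [dif_neg h]

private theorem mem_tra (P : R → Fin m → Fin n) (x : Tr m R) (b b' : Bool) (i : Fin n)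
    (c : Fin D) : ((b', i), c) ∈ tra D P b x ↔ b' = b ∧ ∃ t, i = P (x (b', t)) t := by
  unfold tra
  simp only [Finset.mem_filter, Finset.mem_univ, true_and]
  constructor
  · rintro ⟨rfl, h⟩
    exact ⟨rfl, h⟩
  · rintro ⟨rfl, h⟩
    exact ⟨rfl, h⟩

private theorem mem_trb (P : R → Fin m → Fin n) (x : Tr m R) (b' : Bool) (i : Fin n)
    (c : Fin D) : ((b', i), c) ∈ trb D P x ↔ ∃ t, i = P (x (b', t)) t := by
  unfold trb
  rw [Finset.mem_union, mem_tra, mem_tra]
  cases b' <;> simp

private theorem mem_tro (P : R → Fin m → Fin n) (x : Tr m R) (tt : Bool → Fin m) (b' : Bool)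
    (i : Fin n) (c : Fin D) :
    ((b', i), c) ∈ tro D P x tt ↔ ∃ t, t ≠ tt b' ∧ i = P (x (b', t)) t := by
  unfold tro
  simp only [Finset.mem_filter, Finset.mem_univ, true_and]

private theorem mix_pos {V X : Type} [DecidableEq V] {J : Finset V} (a b : V → X) {p : V}
    (h : p ∈ J) : mix J a b p = a p := by
  unfold mix
  rw [if_pos h]

private theorem mix_neg {V X : Type} [DecidableEq V] {J : Finset V} (a b : V → X) {p : V}
    (h : p ∉ J) : mix J a b p = b p := by
  unfold mix
  rw [if_neg h]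

theorem tp_false (P : R → Fin m → Fin n) (hP : ∀ a t a' t', P a t = P a' t' → a = a' ∧ t = t')
    (x : Tr m R) (α β : Fin m → Fin D → X) (y : Co n D → X) (t : Fin m) (c : Fin D) :
    tp P x α β y ((false, P (x (false, t)) t), c) = α t c := by
  rw [tp_pos P hP, if_neg (by decide)]

theorem tp_true (P : R → Fin m → Fin n) (hP : ∀ a t a' t', P a t = P a' t' → a = a' ∧ t = t')
    (x : Tr m R) (α β : Fin m → Fin D → X) (y : Co n D → X) (t : Fin m) (c : Fin D) :
    tp P x α β y ((true, P (x (true, t)) t), c) = β t c := by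
  rw [tp_pos P hP, if_pos rfl]

theorem mix_tra_false (P : R → Fin m → Fin n)
    (hP : ∀ a t a' t', P a t = P a' t' → a = a' ∧ t = t') (x : Tr m R)
    (α β : Fin m → Fin D → X) (y z' : Co n D → X) :
    mix (tra D P false x) z' (tp P x α β y) = tp P x (tg P false x z') β y := by
  funext p
  obtain ⟨⟨b, i⟩, c⟩ := p
  by_cases h : ∃ t, i = P (x (b, t)) t
  · obtain ⟨t, rfl⟩ := h
    cases b
    · rw [mix_pos _ _ ((mem_tra P x false false _ c).2 ⟨rfl, t, rfl⟩), tp_false P hP]
      rfl
    · rw [mix_neg _ _ (fun h => by simpa using ((mem_tra P x false true _ c).1 h).1),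
        tp_true P hP, tp_true P hP]
  · rw [mix_neg _ _ (fun h1 => h ((mem_tra P x false b i c).1 h1).2), tp_neg _ _ _ _ _ _ _ _ h,
      tp_neg _ _ _ _ _ _ _ _ h]

theorem mix_tra_true (P : R → Fin m → Fin n)
    (hP : ∀ a t a' t', P a t = P a' t' → a = a' ∧ t = t') (x : Tr m R)
    (α β : Fin m → Fin D → X) (y z' : Co n D → X) :
    mix (tra D P true x) z' (tp P x α β y) = tp P x α (tg P true x z') y := by
  funext p
  obtain ⟨⟨b, i⟩, c⟩ := p
  by_cases h : ∃ t, i = P (x (b, t)) t
  · obtain ⟨t, rfl⟩ := h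
    cases b
    · rw [mix_neg _ _ (fun h => by simpa using ((mem_tra P x true false _ c).1 h).1),
        tp_false P hP, tp_false P hP]
    · rw [mix_pos _ _ ((mem_tra P x true true _ c).2 ⟨rfl, t, rfl⟩), tp_true P hP]
      rfl
  · rw [mix_neg _ _ (fun h1 => h ((mem_tra P x true b i c).1 h1).2), tp_neg _ _ _ _ _ _ _ _ h,
      tp_neg _ _ _ _ _ _ _ _ h]

theorem mix_trb (P : R → Fin m → Fin n)
    (hP : ∀ a t a' t', P a t = P a' t' → a = a' ∧ t = t') (x : Tr m R)
    (α β : Fin m → Fin D → X) (y z' : Co n D → X) :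
    mix (trb D P x) z' (tp P x α β y) = tp P x (tg P false x z') (tg P true x z') y := by
  funext p
  obtain ⟨⟨b, i⟩, c⟩ := p
  by_cases h : ∃ t, i = P (x (b, t)) t
  · obtain ⟨t, rfl⟩ := h
    rw [mix_pos _ _ ((mem_trb P x b _ c).2 ⟨t, rfl⟩)]
    cases b
    · rw [tp_false P hP]
      rfl
    · rw [tp_true P hP]
      rfl
  · rw [mix_neg _ _ (fun h1 => h ((mem_trb P x b i c).1 h1)), tp_neg _ _ _ _ _ _ _ _ h,
      tp_neg _ _ _ _ _ _ _ _ h]

theorem tp_plant (P : R → Fin m → Fin n)
    (hP : ∀ a t a' t', P a t = P a' t' → a = a' ∧ t = t') (x : Tr m R) (tt : Bool → Fin m)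
    (α β : Fin m → Fin D → X) (y : Co n D → X) (u v : Fin D → X) :
    plant (tp P x α β y) (P (x (false, tt false)) (tt false)) (P (x (true, tt true)) (tt true))
      u v = tp P x (Function.update α (tt false) u) (Function.update β (tt true) v) y := by
  funext p
  obtain ⟨⟨b, i⟩, c⟩ := p
  unfold plant
  by_cases h : ∃ t, i = P (x (b, t)) t
  · obtain ⟨t, rfl⟩ := h
    cases b
    · rw [tp_false P hP, tp_false P hP]
      by_cases ht : t = tt false
      · subst ht
        rw [if_pos rfl, Function.update_self]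
      · rw [if_neg, if_neg (by simp), Function.update_of_ne ht]
        intro h1
        exact ht (hP _ _ _ _ (Prod.mk.inj h1).2).2
    · rw [tp_true P hP, tp_true P hP, if_neg (by simp)]
      by_cases ht : t = tt true
      · subst ht
        rw [if_pos rfl, Function.update_self]
      · rw [if_neg, Function.update_of_ne ht]
        intro h1
        exact ht (hP _ _ _ _ (Prod.mk.inj h1).2).2
  · rw [tp_neg _ _ _ _ _ _ _ _ h, tp_neg _ _ _ _ _ _ _ _ h, if_neg, if_neg]
    · intro h1
      obtain ⟨rfl, h2⟩ := Prod.mk.inj h1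
      exact h ⟨tt true, h2⟩
    · intro h1
      obtain ⟨rfl, h2⟩ := Prod.mk.inj h1
      exact h ⟨tt false, h2⟩

theorem mix_tro (P : R → Fin m → Fin n)
    (hP : ∀ a t a' t', P a t = P a' t' → a = a' ∧ t = t') (x : Tr m R) (tt : Bool → Fin m)
    (α β : Fin m → Fin D → X) (y z' : Co n D → X) :
    mix (tro D P x tt) z' (tp P x α β y) =
      plant (mix (trb D P x) z' y) (P (x (false, tt false)) (tt false))
        (P (x (true, tt true)) (tt true)) (α (tt false)) (β (tt true)) := by
  funext p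
  obtain ⟨⟨b, i⟩, c⟩ := p
  unfold plant
  by_cases h : ∃ t, i = P (x (b, t)) t
  · obtain ⟨t, rfl⟩ := h
    have hb : ((b, P (x (b, t)) t), c) ∈ trb D P x := (mem_trb P x b _ c).2 ⟨t, rfl⟩
    by_cases ht : t = tt b
    · subst ht
      have hn : ((b, P (x (b, tt b)) (tt b)), c) ∉ tro D P x tt := by
        intro h1
        obtain ⟨t', h2, h3⟩ := (mem_tro P x tt b _ c).1 h1
        exact h2 (hP _ _ _ _ h3).2.symm
      rw [mix_neg _ _ hn]
      cases b
      · rw [tp_false P hP, if_pos rfl]
      · rw [tp_true P hP, if_neg (by simp), if_pos rfl]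
    · have hn : ((b, P (x (b, t)) t), c) ∈ tro D P x tt := (mem_tro P x tt b _ c).2 ⟨t, ht, rfl⟩
      rw [mix_pos _ _ hn, mix_pos _ _ hb, if_neg, if_neg]
      · intro h1
        obtain ⟨rfl, h2⟩ := Prod.mk.inj h1
        exact ht (hP _ _ _ _ h2).2
      · intro h1
        obtain ⟨rfl, h2⟩ := Prod.mk.inj h1
        exact ht (hP _ _ _ _ h2).2
  · have hn : ((b, i), c) ∉ tro D P x tt := by
      intro h1
      obtain ⟨t, _, h3⟩ := (mem_tro P x tt b _ c).1 h1
      exact h ⟨t, h3⟩
    rw [mix_neg _ _ hn, mix_neg _ _ (fun h1 => h ((mem_trb P x b i c).1 h1)),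
      tp_neg _ _ _ _ _ _ _ _ h, if_neg, if_neg]
    · intro h1
      obtain ⟨rfl, h2⟩ := Prod.mk.inj h1
      exact h ⟨tt true, h2⟩
    · intro h1
      obtain ⟨rfl, h2⟩ := Prod.mk.inj h1
      exact h ⟨tt false, h2⟩

private theorem av_tg [Fintype X] [Nonempty X] (P : R → Fin m → Fin n)
    (hP : ∀ a t a' t', P a t = P a' t' → a = a' ∧ t = t') (x : Tr m R)
    (F : (Fin m → Fin D → X) → (Fin m → Fin D → X) → ℝ) :
    (av fun y' : Co n D → X => F (tg P false x y') (tg P true x y')) =
      av fun z : Fin m → Fin D → X => av fun w : Fin m → Fin D → X => F z w := by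
  classical
  obtain ⟨φ, hφ⟩ : ∃ φ : (Fin m × Fin D) ⊕ (Fin m × Fin D) → Co n D, φ = Sum.elim
      (fun z => ((false, P (x (false, z.1)) z.1), z.2))
      (fun z => ((true, P (x (true, z.1)) z.1), z.2)) :=
    ⟨_, rfl⟩
  have hinj : Function.Injective φ := by
    rw [hφ]
    rintro (⟨t, c⟩ | ⟨t, c⟩) (⟨t', c'⟩ | ⟨t', c'⟩) h
    · simp only [Sum.elim_inl, Prod.mk.injEq, true_and] at h
      rw [(hP _ _ _ _ h.1).2, h.2]
    · simp at h
    · simp at h
    · simp only [Sum.elim_inr, Prod.mk.injEq, true_and] at h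
      rw [(hP _ _ _ _ h.1).2, h.2]
  have e1 := av_inj (X := X) φ hinj
    (fun g => F (fun t c => g (Sum.inl (t, c))) (fun t c => g (Sum.inr (t, c))))
  have e2 : (fun y' : Co n D → X => F (tg P false x y') (tg P true x y')) =
      fun y' : Co n D → X =>
        F (fun t c => y' (φ (Sum.inl (t, c)))) (fun t c => y' (φ (Sum.inr (t, c)))) := by
    funext y'
    rw [hφ]
    rfl
  rw [e2, e1]
  rw [← av_prod F]
  have e3 := av_equiv ((Equiv.sumArrowEquivProdArrow (Fin m × Fin D) (Fin m × Fin D) X).trans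
    (Equiv.prodCongr (Equiv.curry (Fin m) (Fin D) X) (Equiv.curry (Fin m) (Fin D) X)))
    (fun z : (Fin m → Fin D → X) × (Fin m → Fin D → X) => F z.1 z.2)
  rw [← e3]
  rfl

theorem av_tp [Fintype X] [Nonempty X] (P : R → Fin m → Fin n)
    (hP : ∀ a t a' t', P a t = P a' t' → a = a' ∧ t = t') (x : Tr m R)
    (F : (Co n D → X) → ℝ) :
    (av fun y : Co n D → X => av fun α : Fin m → Fin D → X => av fun β : Fin m → Fin D → X =>
      F (tp P x α β y)) = av F := by
  rw [← av_mix (trb D P x) F, av_comm (fun (a b : Co n D → X) => F (mix (trb D P x) a b))]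
  refine av_congr fun y => ?_
  rw [← av_tg P hP x fun α β => F (tp P x α β y)]
  refine av_congr fun y' => ?_
  have e1 : tp P x (tg P false x y) (tg P true x y) y = y := by
    have h1 := mix_trb P hP x (tg P false x y) (tg P true x y) y y
    rw [← h1]
    funext p
    obtain ⟨⟨b, i⟩, c⟩ := p
    by_cases h : ∃ t, i = P (x (b, t)) t
    · rw [mix_pos _ _ ((mem_trb P x b i c).2 h)]
    · rw [mix_neg _ _ (fun h2 => h ((mem_trb P x b i c).1 h2)), tp_neg _ _ _ _ _ _ _ _ h]
  have e2 := mix_trb P hP x (tg P false x y) (tg P true x y) y y'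
  rw [e1] at e2
  rw [e2]

end Pool.Agent.H58.CE
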