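import Pool.Agent.H58.CE.Base

/-! [H58 CE UNIQ] The equations determine the history.

PROOF of `ke_uniq`. Suppose `γ ≠ γ'` and let `r` be with `γ r ≠ γ' r` and `S.sl r` minimal. Then
`S.sl r < l` (otherwise both are false), `S.sm γ r = S.sm γ' r` by `S.loc` (minimality), and the two
equations for `r` give `γ r = γ' r`.
PROOF of `xy_eq`. `S.add` (resp. `S.tadd`) with `A = tra D P false x`, `B = tra D P true x`, base point
`z`, values `z'`: `f (mix (A ∪ B) z' z) = f (mix A z' z) + (f (mix B z' z) - f z)`; `trb` is the union.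
PROOF of `ke_of_not_fail`. Let `γ = S.ht (l+1) z`. If `S.sl r < l + 1` then
`S.sm γ r = S.sm (S.ht l z) r = S.sm (S.hs z) r` by `S.loc` (for `S.sl r' < S.sl r ≤ l` all three have
the value `S.hs z r'` at `r'`). So `S.st r (xy (S.sm γ r)) = S.st r (xy (S.sm (S.ht l z) r)) =
S.st r (S.sm (S.ht l z) r z)` (`xy_eq`) `= S.st r (S.sm (S.hs z) r z) = S.hs z r = γ r`. The second part
is the definition of `S.tr`. `ke_zero` is trivial. `ht_top`: `S.ht T z = S.hs z` by `S.sl_lt`. -/

set_option autoImplicit false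
set_option maxHeartbeats 4000000

namespace Pool.Agent.H58.CE

open Pool.Agent.H58.OVAC Pool.Agent.H58.OVPR Pool.Agent.H58.OVT Pool.Agent.H58.CD

variable {ι R : Type} {n D k s T h H J m : ℕ}

theorem ke_uniq (S : SFam ι n D k s T h H J) (P : R → Fin m → Fin n) {l : ℕ}
    {γ γ' : Fin h → Bool} {x : Tr m R} {z' z : Co n D → Fin k} (h1 : S.KE P l γ x z' z)
    (h2 : S.KE P l γ' x z' z) : γ = γ' := by
  have key : ∀ d r, S.sl r = d → γ r = γ' r := by
    intro d
    induction d using Nat.strong_induction_on with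
    | _ d ih =>
      intro r hr
      by_cases hl : S.sl r < l
      · have e : S.sm γ r = S.sm γ' r :=
          S.loc γ γ' r fun r' hr' => ih (S.sl r') (hr ▸ hr') r' rfl
        have e1 := h1.1 r hl
        have e2 := h2.1 r hl
        rw [e] at e1
        exact e1.symm.trans e2
      · exact (h1.2 r (not_lt.1 hl)).trans (h2.2 r (not_lt.1 hl)).symm
  funext r
  exact key _ r rfl

theorem xy_eq (S : SFam ι n D k s T h H J) (P : R → Fin m → Fin n) {γ : Fin h → Bool}
    {x : Tr m R} {z' z : Co n D → Fin k} (h1 : ¬ S.Fail P γ x z' z) :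
    (∀ r, SFam.xy P (S.sm γ r) x z' z = S.sm γ r z) ∧
      ∀ r, SFam.xy P (S.tsm γ r) x z' z = S.tsm γ r z := by
  have hA : ∀ p ∈ tra D P false x, p.1.1 = false := fun p hp => (Finset.mem_filter.1 hp).2.1
  have hB : ∀ p ∈ tra D P true x, p.1.1 = true := fun p hp => (Finset.mem_filter.1 hp).2.1
  constructor
  · intro r
    have h2 := S.add γ r _ _ z z' hA hB h1
    unfold SFam.xy trb
    rw [h2]
    ring
  · intro r
    have h2 := S.tadd γ r _ _ z z' hA hB h1
    unfold SFam.xy trb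
    rw [h2]
    ring

theorem ke_of_not_fail (S : SFam ι n D k s T h H J) (P : R → Fin m → Fin n) {l : ℕ}
    {x : Tr m R} {z' z : Co n D → Fin k} (h1 : ¬ S.Fail P (S.ht l z) x z' z) :
    S.KE P (l + 1) (S.ht (l + 1) z) x z' z := by
  have ht : ∀ (l' : ℕ) (r : Fin h), S.sl r < l' → S.ht l' z r = S.hs z r := by
    intro l' r hr
    unfold SFam.ht SFam.tr
    rw [if_pos hr]
  refine ⟨fun r hr => ?_, fun r hr => ?_⟩
  · have e1 : S.sm (S.ht (l + 1) z) r = S.sm (S.ht l z) r :=
      S.loc _ _ r fun r' hr' => by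
        rw [ht (l + 1) r' (by omega), ht l r' (by omega)]
    have e2 : S.sm (S.ht l z) r = S.sm (S.hs z) r :=
      S.loc _ _ r fun r' hr' => ht l r' (by omega)
    rw [e1, (xy_eq S P h1).1 r, e2, ht (l + 1) r hr]
    exact (S.hs_eq z r).symm
  · unfold SFam.ht SFam.tr
    rw [if_neg (not_lt.2 hr)]

theorem ke_zero (S : SFam ι n D k s T h H J) (P : R → Fin m → Fin n)
    {x : Tr m R} {z' z : Co n D → Fin k} : S.KE P 0 (S.ht 0 z) x z' z := by
  refine ⟨fun r hr => absurd hr (Nat.not_lt_zero _), fun r _ => ?_⟩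
  unfold SFam.ht SFam.tr
  rw [if_neg (Nat.not_lt_zero _)]

theorem ht_top (S : SFam ι n D k s T h H J) (z : Co n D → Fin k) : S.ht T z = S.hs z := by
  funext r
  unfold SFam.ht SFam.tr
  rw [if_pos (S.sl_lt r)]

end Pool.Agent.H58.CE
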