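import Pool.Agent.H58.CE.Dec
import Pool.Agent.H58.CE.Rect
import Pool.Agent.H58.CE.Uniq
import Pool.Agent.H58.CE.Tpm

/-! [H58 CE ENDA] The answer does not see the planted pair, for fixed transversals and background.

Notation: `z = tp P x α β y`, `z° = pl P tt x (tp P x α β y) w`.
PROOF. As in StepA (read its header), with the index set `I = Fin h ⊕ Fin H` and values in
`Bool ⊕ ℕ`: `f (inl r) a = Sum.inl (S.st r a)`, `f (inr r) a = Sum.inr (S.tst r a)` (step functions with
`≤ J` jumps by `S.st_step`, `S.tst_step`), `X γ (inl r) α = S.sm γ r (tp P x α (tg P true x z') y)`,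
`X γ (inr r) α = S.tsm γ r (tp P x α (tg P true x z') y)`, `Y γ i β` the corresponding difference,
`Q γ v := (∀ r, v (inl r) = Sum.inl (γ r)) ∧ S.dec (fun r => (v (inr r)).elim (fun _ => 0) id) = false`.
By `mix_tra_false`, `mix_tra_true`, `mix_trb`, `Q γ (values at α, β)` says
`(∀ r, S.st r (xy (S.sm γ r)) = γ r) ∧ S.dec (fun r => S.tst r (xy (S.tsm γ r))) = false`, all `xy` at
the point `tp P x α β y`; the first part is `S.KE P T γ x z' z` (all `S.sl r < T`). Take `c` from `rects`
and apply `dec` with the index set `(Fin h → Bool) × (Fin h ⊕ Fin H → Fin (2M+1))` (cardinality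
`2^h (2M+1)^(h+H)`), `A (γ, σ) α := c γ α = σ`, `B (γ, σ) β := ∀ α', c γ α' = σ → Q γ (values at α', β)`,
`W = W' = False`, `e = 0` (`avR 0 = 0`).
LEFT SIDE: suppose `S.acc z°` and `¬ S.Fail P (S.hs z°) x z' z°` and some `(γ, σ)` contains the pair of
`z° = tp P x (update α t w.1.1) (update β t' w.1.2) y` (`tp_plant`). By `xy_eq` and `S.hs_eq`,
`S.KE P T (S.hs z°) x z' z°`, so `γ = S.hs z°` (`ke_uniq`), and by `xy_eq` the second part of `Q` says
`S.dec (fun r => S.tst r (S.tsm (S.hs z°) r z°)) = false`, contradiction to `S.acc z°`. So no rectangle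
contains it.
RIGHT SIDE: if no rectangle contains `(α, β)`, then `S.acc z`, or `S.Fail P (S.hs z) x z' z`, or
`Q (S.hs z)` holds by `xy_eq` and the event of `rects` holds. -/

set_option autoImplicit false
set_option maxHeartbeats 4000000

namespace Pool.Agent.H58.CE

open Pool.Agent.H58.OVAC Pool.Agent.H58.OVPR Pool.Agent.H58.OVT Pool.Agent.H58.CD

variable {ι R : Type} {n D k s T h H J m : ℕ} [Fintype R] [DecidableEq R]

private theorem av_tt {m : ℕ} (F : Fin m → Fin m → ℝ) :
    (av fun t => av fun t' => F t t') = av fun tt : Bool → Fin m => F (tt false) (tt true) := by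
  rw [← av_prod F]
  exact (av_equiv (Equiv.boolArrowEquivProd (Fin m)) (fun q => F q.1 q.2)).symm

open Classical in
theorem end_fix (hk : 2 ≤ k) (hm : 1 ≤ m) (S : SFam ι n D k s T h H J) (P : R → Fin m → Fin n)
    (hP : ∀ a t a' t', P a t = P a' t' → a = a' ∧ t = t') {M : ℕ} (hM : 1 ≤ M)
    {e : ℝ} (he : 0 < e) (hem : 2 * e ≤ m) (x : Tr m R) (z' y : Co n D → Fin k) :
    (av fun tt : Bool → Fin m => av fun α : Fin m → Str k D => av fun β : Fin m → Str k D =>
      av fun w : Op k D =>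
      if S.acc (pl P tt x (tp P x α β y) w) ∧ ¬ S.Fail P (S.hs (pl P tt x (tp P x α β y) w)) x z'
        (pl P tt x (tp P x α β y) w) then (1 : ℝ) else 0) ≤
      (av fun α : Fin m → Str k D => pr fun β : Fin m → Str k D =>
        S.acc (tp P x α β y) ∨ S.Fail P (S.hs (tp P x α β y)) x z' (tp P x α β y)) +
      2 ^ h * ((h + H) * ((J : ℝ) / M)) + 12 * decB m M h (h + H) e := by
  have hstr : Nonempty (Str k D) := ⟨fun _ => ⟨0, by omega⟩⟩
  obtain ⟨X, hX⟩ : ∃ X : (Fin h → Bool) → (Fin h ⊕ Fin H) → (Fin m → Str k D) → ℝ, X =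
      fun γ i α => i.elim (fun r => S.sm γ r (tp P x α (tg P true x z') y))
        (fun r => S.tsm γ r (tp P x α (tg P true x z') y)) := ⟨_, rfl⟩
  obtain ⟨Y, hY⟩ : ∃ Y : (Fin h → Bool) → (Fin h ⊕ Fin H) → (Fin m → Str k D) → ℝ, Y =
      fun γ i β => i.elim (fun r => S.sm γ r (tp P x (tg P false x z') β y) -
          S.sm γ r (tp P x (tg P false x z') (tg P true x z') y))
        (fun r => S.tsm γ r (tp P x (tg P false x z') β y) -
          S.tsm γ r (tp P x (tg P false x z') (tg P true x z') y)) := ⟨_, rfl⟩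
  obtain ⟨f, hfd⟩ : ∃ f : (Fin h ⊕ Fin H) → ℝ → Bool ⊕ ℕ, f =
      fun i a => i.elim (fun r => Sum.inl (S.st r a)) (fun r => Sum.inr (S.tst r a)) := ⟨_, rfl⟩
  obtain ⟨Q, hQd⟩ : ∃ Q : (Fin h → Bool) → ((Fin h ⊕ Fin H) → Bool ⊕ ℕ) → Prop, Q =
      fun γ v => (∀ r, v (Sum.inl r) = Sum.inl (γ r)) ∧
        S.dec (fun r => (v (Sum.inr r)).elim (fun _ => 0) id) = false := ⟨_, rfl⟩
  have hf : ∀ i, IsStep J (f i) := by
    rw [hfd]
    rintro (r | r)
    · obtain ⟨D', h1, h2⟩ := S.st_step r
      exact ⟨D', h1, fun a b hab hy => congrArg Sum.inl (h2 a b hab hy)⟩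
    · obtain ⟨D', h1, h2⟩ := S.tst_step r
      exact ⟨D', h1, fun a b hab hy => congrArg Sum.inr (h2 a b hab hy)⟩
  obtain ⟨c, hc⟩ := rects hM X Y f hf Q
  -- the values
  have hxy : ∀ (g : (Co n D → Fin k) → ℝ) (α β : Fin m → Str k D),
      SFam.xy P g x z' (tp P x α β y) = g (tp P x α (tg P true x z') y) +
        (g (tp P x (tg P false x z') β y) -
          g (tp P x (tg P false x z') (tg P true x z') y)) := by
    intro g α β
    unfold SFam.xy
    rw [mix_tra_true P hP, mix_tra_false P hP, mix_trb P hP]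
  have hQ : ∀ γ (α β : Fin m → Str k D), Q γ (fun i => f i (X γ i α + Y γ i β)) ↔
      (∀ r, S.st r (SFam.xy P (S.sm γ r) x z' (tp P x α β y)) = γ r) ∧
        S.dec (fun r => S.tst r (SFam.xy P (S.tsm γ r) x z' (tp P x α β y))) = false := by
    intro γ α β
    rw [hQd, hfd, hX, hY]
    simp only [Sum.elim_inl, Sum.elim_inr, Sum.inl.injEq, id_eq, hxy]
  have hKE : ∀ γ z, S.KE P T γ x z' z ↔ ∀ r, S.st r (SFam.xy P (S.sm γ r) x z' z) = γ r := by
    intro γ z
    unfold SFam.KE
    constructor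
    · intro h1 r
      exact h1.1 r (S.sl_lt r)
    · intro h1
      exact ⟨fun r _ => h1 r, fun r hr => absurd (S.sl_lt r) (not_lt.2 hr)⟩
  -- the rectangles
  obtain ⟨A, hA⟩ : ∃ A : ((Fin h → Bool) × (Fin h ⊕ Fin H → Fin (2 * M + 1))) →
      (Fin m → Str k D) → Prop, A = fun σ α => c σ.1 α = σ.2 := ⟨_, rfl⟩
  obtain ⟨B, hB⟩ : ∃ B : ((Fin h → Bool) × (Fin h ⊕ Fin H → Fin (2 * M + 1))) →
      (Fin m → Str k D) → Prop, B = fun σ β => ∀ α', c σ.1 α' = σ.2 →
        Q σ.1 (fun i => f i (X σ.1 i α' + Y σ.1 i β)) := ⟨_, rfl⟩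
  have hAB : ∀ σ a b, A σ a → B σ b →
      (∀ r, S.st r (SFam.xy P (S.sm σ.1 r) x z' (tp P x a b y)) = σ.1 r) ∧
        S.dec (fun r => S.tst r (SFam.xy P (S.tsm σ.1 r) x z' (tp P x a b y))) = false := by
    intro σ a b h1 h2
    rw [hA] at h1
    rw [hB] at h2
    exact (hQ σ.1 a b).1 (h2 a h1)
  have hdisj : ∀ σ σ' a b, A σ a → B σ b → A σ' a → B σ' b → σ = σ' := by
    intro σ σ' a b h1 h2 h3 h4
    have h5 := (hKE σ.1 (tp P x a b y)).2 (hAB σ a b h1 h2).1
    have h6 := (hKE σ'.1 (tp P x a b y)).2 (hAB σ' a b h3 h4).1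
    have h7 : σ.1 = σ'.1 := ke_uniq S P h5 h6
    rw [hA] at h1 h3
    refine Prod.ext h7 ?_
    rw [← h1, ← h3, h7]
  obtain ⟨W, hW⟩ : ∃ W : ((Fin h → Bool) × (Fin h ⊕ Fin H → Fin (2 * M + 1))) → Fin m → Fin m →
      Str k D → Str k D → Prop, ∀ σ t t' u v, ¬ W σ t t' u v :=
    ⟨fun _ _ _ _ _ => False, fun _ _ _ _ _ => id⟩
  have hdec := dec hk hm A B hdisj W W (e := 0) le_rfl (by
      intro σ t t'
      simp only [hW, if_false]
      rw [avR_const hk, add_zero]
      exact av_nonneg fun _ => pr_nonneg _) he hem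
  -- the left side
  have hleft : ∀ (tt : Bool → Fin m) (α β : Fin m → Str k D) (w : Op k D),
      (if S.acc (pl P tt x (tp P x α β y) w) ∧ ¬ S.Fail P (S.hs (pl P tt x (tp P x α β y) w)) x z'
        (pl P tt x (tp P x α β y) w) then (1 : ℝ) else 0) ≤
      if (¬ ∃ σ, A σ (Function.update α (tt false) w.1.1) ∧
          B σ (Function.update β (tt true) w.1.2)) ∨
        (∃ σ, A σ (Function.update α (tt false) w.1.1) ∧
          B σ (Function.update β (tt true) w.1.2) ∧
          W σ (tt false) (tt true) w.1.1 w.1.2) then (1 : ℝ) else 0 := by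
    intro tt α β w
    have hz : pl P tt x (tp P x α β y) w = tp P x (Function.update α (tt false) w.1.1)
        (Function.update β (tt true) w.1.2) y := tp_plant P hP x tt α β y w.1.1 w.1.2
    rw [hz]
    by_cases hcond : S.acc (tp P x (Function.update α (tt false) w.1.1)
        (Function.update β (tt true) w.1.2) y) ∧
        ¬ S.Fail P (S.hs (tp P x (Function.update α (tt false) w.1.1)
        (Function.update β (tt true) w.1.2) y)) x z'
        (tp P x (Function.update α (tt false) w.1.1) (Function.update β (tt true) w.1.2) y)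
    · rw [if_pos hcond, if_pos]
      left
      rintro ⟨σ, h1, h2⟩
      obtain ⟨h3, h4⟩ := hAB σ _ _ h1 h2
      obtain ⟨h5, h6⟩ := xy_eq S P hcond.2
      have h7 : S.KE P T (S.hs (tp P x (Function.update α (tt false) w.1.1)
        (Function.update β (tt true) w.1.2) y)) x z' (tp P x (Function.update α (tt false) w.1.1)
        (Function.update β (tt true) w.1.2) y) := by
        rw [hKE]
        intro r
        rw [h5, ← S.hs_eq]
      have h8 := ke_uniq S P ((hKE _ _).2 h3) h7
      rw [h8] at h4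
      have h9 := hcond.1
      unfold SFam.acc at h9
      simp only [h6] at h4
      rw [h9] at h4
      exact Bool.noConfusion h4
    · rw [if_neg hcond]
      split_ifs <;> norm_num
  -- the right side
  have hright : ∀ α β : Fin m → Str k D, (¬ ∃ σ, A σ α ∧ B σ β) →
      (S.acc (tp P x α β y) ∨ S.Fail P (S.hs (tp P x α β y)) x z' (tp P x α β y)) ∨
      ((∃ γ, Q γ fun i => f i (X γ i α + Y γ i β)) ∧
        ¬ ∃ γ, ∀ a', c γ a' = c γ α → Q γ fun i => f i (X γ i a' + Y γ i β)) := by
    intro α β h1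
    by_cases h2 : S.acc (tp P x α β y) ∨ S.Fail P (S.hs (tp P x α β y)) x z' (tp P x α β y)
    · exact Or.inl h2
    · right
      push Not at h2
      obtain ⟨h5, h6⟩ := xy_eq S P h2.2
      constructor
      · refine ⟨S.hs (tp P x α β y), (hQ _ _ _).2 ⟨fun r => ?_, ?_⟩⟩
        · rw [h5, ← S.hs_eq]
        · simp only [h6]
          have h9 := h2.1
          unfold SFam.acc at h9
          exact Bool.eq_false_iff.2 h9
      · rintro ⟨γ, h3⟩
        apply h1
        refine ⟨(γ, c γ α), ?_, ?_⟩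
        · rw [hA]
        · rw [hB]
          exact h3
  have hR : (av fun a : Fin m → Str k D => pr fun b : Fin m → Str k D => ¬ ∃ σ, A σ a ∧ B σ b) ≤
      (av fun α : Fin m → Str k D => pr fun β : Fin m → Str k D =>
        S.acc (tp P x α β y) ∨ S.Fail P (S.hs (tp P x α β y)) x z' (tp P x α β y)) +
      2 ^ h * ((h + H) * ((J : ℝ) / M)) := by
    calc (av fun a : Fin m → Str k D => pr fun b : Fin m → Str k D => ¬ ∃ σ, A σ a ∧ B σ b)
        ≤ av fun a : Fin m → Str k D =>
          (pr fun b : Fin m → Str k D =>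
            S.acc (tp P x a b y) ∨ S.Fail P (S.hs (tp P x a b y)) x z' (tp P x a b y)) +
          pr fun b : Fin m → Str k D => ((∃ γ, Q γ fun i => f i (X γ i a + Y γ i b)) ∧
            ¬ ∃ γ, ∀ a', c γ a' = c γ a → Q γ fun i => f i (X γ i a' + Y γ i b)) :=
          av_mono fun a => (pr_mono fun b hb => hright a b hb).trans (pr_or_le _ _)
      _ = (av fun α : Fin m → Str k D => pr fun β : Fin m → Str k D =>
            S.acc (tp P x α β y) ∨ S.Fail P (S.hs (tp P x α β y)) x z' (tp P x α β y)) +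
          av fun a : Fin m → Str k D => pr fun b : Fin m → Str k D =>
            ((∃ γ, Q γ fun i => f i (X γ i a + Y γ i b)) ∧
            ¬ ∃ γ, ∀ a', c γ a' = c γ a → Q γ fun i => f i (X γ i a' + Y γ i b)) := av_add _ _
      _ ≤ _ := by
          refine add_le_add le_rfl (hc.trans (le_of_eq ?_))
          simp
  have hcard : (Fintype.card ((Fin h → Bool) × (Fin h ⊕ Fin H → Fin (2 * M + 1))) : ℝ) =
      2 ^ h * (2 * M + 1) ^ (h + H) := by
    simp
  have hL : (av fun tt : Bool → Fin m => av fun α : Fin m → Str k D =>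
      av fun β : Fin m → Str k D => av fun w : Op k D =>
      if S.acc (pl P tt x (tp P x α β y) w) ∧ ¬ S.Fail P (S.hs (pl P tt x (tp P x α β y) w)) x z'
        (pl P tt x (tp P x α β y) w) then (1 : ℝ) else 0) ≤
      av fun t : Fin m => av fun t' : Fin m => av fun a : Fin m → Str k D =>
      av fun b : Fin m → Str k D => avR fun u v =>
      if (¬ ∃ σ, A σ (Function.update a t u) ∧ B σ (Function.update b t' v)) ∨
        (∃ σ, A σ (Function.update a t u) ∧ B σ (Function.update b t' v) ∧ W σ t t' u v)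
        then (1 : ℝ) else 0 := by
    rw [av_tt (fun t t' => av fun a : Fin m → Str k D =>
      av fun b : Fin m → Str k D => avR fun u v =>
      if (¬ ∃ σ, A σ (Function.update a t u) ∧ B σ (Function.update b t' v)) ∨
        (∃ σ, A σ (Function.update a t u) ∧ B σ (Function.update b t' v) ∧ W σ t t' u v)
        then (1 : ℝ) else 0)]
    refine av_mono fun tt => av_mono fun α => av_mono fun β => ?_
    rw [avR_eq hk]
    exact av_mono fun w => hleft tt α β w
  refine hL.trans (hdec.trans ?_)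
  have h0 : (av fun t : Fin m => av fun t' : Fin m => av fun a : Fin m → Str k D =>
        pr fun b : Fin m → Str k D => ∃ σ, A σ a ∧ B σ b ∧ W σ t t' (a t) (b t')) = 0 := by
    have hz : ∀ (t t' : Fin m) (a : Fin m → Str k D),
        (pr fun b : Fin m → Str k D => ∃ σ, A σ a ∧ B σ b ∧ W σ t t' (a t) (b t')) = 0 :=
      fun t t' a => pr_eq_zero fun b hb => by
        obtain ⟨σ, -, -, h⟩ := hb
        exact hW _ _ _ _ _ h
    simp only [hz]
    unfold av
    simp
  rw [h0, hcard]
  unfold decB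
  linarith

end Pool.Agent.H58.CE
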