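import Pool.Agent.H58.CE.Blk
import Pool.Agent.H58.CE.Cnt
import Pool.Agent.H58.CE.Copy
import Pool.Agent.H58.CE.Dens

/-! [H58 CE INS] Under the planted law the background can be exchanged.

PROOF. Write `xt = mix (cols tt) x xh`, and let `Fs` be the four sets
`∅, tra D P false xt, tra D P true xt, trb D P xt`. `S.Fail P γ xt z' z` says that some gate `g` has
`¬ Uni (val g)` on the four points `mix F z' z`, `F ∈ Fs` (`mix ∅ z' z = z`), and for the point
`mix (tro D P x tt) z' z` instead of `z` the four points are `mix (F ∪ tro D P x tt) z' z`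
(`mix F z' (mix O z' z) = mix (F ∪ O) z' z`). Choose `g₀ = g₀ (tt, xt, z', z)` with `¬ Uni` on the first
four points (it does not depend on `x` outside `cols tt`). If the event of the theorem holds, then
for some `F ∈ Fs` the value of `g₀` at `mix (F ∪ tro D P x tt) z' z` differs from the one at
`mix F z' z` (otherwise `¬ Uni` also for the second four points).
Average over `x` outside `cols tt`: by `av_mix (cols tt)` replace `x` by `mix (cols tt) x₁ x₂`; then
`pl P tt x z w`, `xt` depend only on `x₁` (and `xh`), `tro D P x tt` and `bmo P tt x` depend only on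
`x₂`. For fixed `tt, x₁, xh, z', z, w` use `count_one` with `u = (S.net γ).val g₀`, `B = snB T s₁`
for the four `F`, for the transversal `x₂`: the probability over `x₂` is at most
`4 * (snB / card R) + ∑ F ∈ Fs, pr_x₂ (snB < sens (fun ρ => val g₀ (bpt (bmo P tt x₂) F z° z' ρ)) 0)`,
where `z° = pl P tt x z w`. The sensitivity of `val g₀` is at most the one of `first g₀`
(`Net.first_eq_none_iff`), and the last events are contained in the event `E F`:
`∃ γ' g, snB < sens (fun ρ => (S.net γ').first g (bpt (bmo P tt x) F z° z' ρ)) 0`. So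
`PD (event) ≤ 4 * (snB / card R) + ∑ F, PD P (E F)`, by `pd_le` with `hdens = dens hk` each
`PD P (E F) ≤ (k/(k-1))^D * RD (E F)`, and `RD (E F) ≤ 2^h * (s * tailB T s₁ G)` by `net_sens_blk` for
every `γ', g` and fixed `tt, x, xh` (`K = Option R`, `y = z`, `y' = z'`). -/

set_option autoImplicit false
set_option maxHeartbeats 4000000

namespace Pool.Agent.H58.CE

open Pool.Agent.H58.OVAC Pool.Agent.H58.OVPR Pool.Agent.H58.OVT Pool.Agent.H58.CD

variable {ι R : Type} {n D k s T h H J m : ℕ} [Fintype ι] [Fintype R] [DecidableEq R]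
  [AddCommGroup R]

private theorem ins_comm {Ω Ω' : Type} [Fintype Ω] [Fintype Ω'] (s : Ω → Ω' → Prop) :
    (av fun a => pr fun b => s a b) = av fun b => pr fun a => s a b := by
  unfold pr
  exact av_comm _

private theorem ins_av0 {Ω : Type} [Fintype Ω] {f : Ω → ℝ} {c : ℝ} (hc : 0 ≤ c)
    (h : ∀ ω, f ω ≤ c) : av f ≤ c := by
  rcases isEmpty_or_nonempty Ω with h0 | h0
  · unfold av
    simp
    exact hc
  · exact av_le h

/-- The sample space without the columns and the first transversal. -/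
private abbrev Xi (n D k m : ℕ) (R : Type) : Type :=
  Tr m R × (Co n D → Fin k) × (Co n D → Fin k) × Op k D

private def insEq (n D k m : ℕ) (R : Type) [Fintype R] [DecidableEq R] :
    (Om n D k m R × Op k D) ≃ ((Bool → Fin m) × (Tr m R × Xi n D k m R)) where
  toFun ω := (ω.1.1, (ω.1.2.1, (ω.1.2.2.1, ω.1.2.2.2.1, ω.1.2.2.2.2, ω.2)))
  invFun a := ((a.1, a.2.1, a.2.2.1, a.2.2.2.1, a.2.2.2.2.1), a.2.2.2.2.2)
  left_inv _ := rfl
  right_inv _ := rfl

private theorem ins_pd {n D k m : ℕ} {R : Type} [Fintype R] [DecidableEq R]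
    (P : R → Fin m → Fin n)
    (Q : (Bool → Fin m) → Tr m R → Tr m R → (Co n D → Fin k) → (Co n D → Fin k) → Prop) :
    PD P Q = av fun tt : Bool → Fin m => av fun x : Tr m R => pr fun ξ : Xi n D k m R =>
      Q tt x ξ.1 ξ.2.1 (pl P tt x ξ.2.2.1 ξ.2.2.2) := by
  have h1 := pr_equiv (insEq n D k m R) fun a : (Bool → Fin m) × (Tr m R × Xi n D k m R) =>
    Q a.1 a.2.1 a.2.2.1 a.2.2.2.1 (pl P a.1 a.2.1 a.2.2.2.2.1 a.2.2.2.2.2)
  refine Eq.trans (Eq.trans rfl h1) ?_
  refine (pr_prod (fun (a : Bool → Fin m) (b : Tr m R × Xi n D k m R) =>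
    Q a b.1 b.2.1 b.2.2.1 (pl P a b.1 b.2.2.2.1 b.2.2.2.2))).trans (av_congr fun tt => ?_)
  exact pr_prod (fun (a : Tr m R) (ξ : Xi n D k m R) =>
    Q tt a ξ.1 ξ.2.1 (pl P tt a ξ.2.2.1 ξ.2.2.2))

private theorem ins_mono {m : ℕ} {R Ξ : Type} [Fintype R] [Nonempty R] [Fintype Ξ]
    (J : Finset (Bool × Fin m)) (A : Tr m R → Ξ → Prop) (B : Tr m R → Ξ → ℝ)
    (h : ∀ x₁ ξ, (pr fun x₂ : Tr m R => A (mix J x₁ x₂) ξ) ≤
      av fun x₂ : Tr m R => B (mix J x₁ x₂) ξ) :
    (av fun x => pr fun ξ => A x ξ) ≤ av fun x => av fun ξ => B x ξ := by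
  rw [← av_mix J (fun x => pr fun ξ => A x ξ), ← av_mix J (fun x => av fun ξ => B x ξ)]
  refine av_mono fun x₁ => ?_
  rw [ins_comm, av_comm]
  exact av_mono fun ξ => h x₁ ξ

private theorem ins_pl {n D k m : ℕ} {R : Type} (P : R → Fin m → Fin n) (tt : Bool → Fin m)
    (x₁ x₂ : Tr m R) (z : Co n D → Fin k) (w : Op k D) :
    pl P tt (mix (cols tt) x₁ x₂) z w = pl P tt x₁ z w := by
  have e : ∀ b, mix (cols tt) x₁ x₂ (b, tt b) = x₁ (b, tt b) := by
    intro b
    unfold mix
    rw [if_pos]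
    simp [cols]
  unfold pl
  rw [e, e]

private theorem ins_mixc {m : ℕ} {R : Type} (tt : Bool → Fin m) (x₁ x₂ xh : Tr m R) :
    mix (cols tt) (mix (cols tt) x₁ x₂) xh = mix (cols tt) x₁ xh := by
  funext q
  unfold mix
  by_cases h : q ∈ cols tt <;> simp [h]

private theorem ins_off {m : ℕ} {R : Type} (tt : Bool → Fin m) (x₁ x₂ : Tr m R) {b : Bool}
    {t : Fin m} (ht : t ≠ tt b) : mix (cols tt) x₁ x₂ (b, t) = x₂ (b, t) := by
  unfold mix
  rw [if_neg]
  simp only [cols, Finset.mem_filter, Finset.mem_univ, true_and]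
  exact ht

private theorem ins_tro {n D m : ℕ} {R : Type} (P : R → Fin m → Fin n) (tt : Bool → Fin m)
    (x₁ x₂ : Tr m R) : tro D P (mix (cols tt) x₁ x₂) tt = tro D P x₂ tt := by
  unfold tro
  ext p
  simp only [Finset.mem_filter, Finset.mem_univ, true_and]
  constructor
  · rintro ⟨t, ht, h1⟩
    exact ⟨t, ht, by rw [ins_off tt x₁ x₂ ht] at h1; exact h1⟩
  · rintro ⟨t, ht, h1⟩
    exact ⟨t, ht, by rw [ins_off tt x₁ x₂ ht]; exact h1⟩

private theorem ins_bmo {n D m : ℕ} {R : Type} [AddCommGroup R] (P : R → Fin m → Fin n)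
    (tt : Bool → Fin m) (x₁ x₂ : Tr m R) :
    bmo (D := D) P tt (mix (cols tt) x₁ x₂) = bmo P tt x₂ := by
  funext p
  unfold bmo
  by_cases h : ∃ q : R × Fin m, q.2 ≠ tt p.1.1 ∧ p.1.2 = P q.1 q.2
  · rw [dif_pos h, dif_pos h, ins_off tt x₁ x₂ h.choose_spec.1]
  · rw [dif_neg h, dif_neg h]

private theorem ins_mixu {n D k : ℕ} (F O : Finset (Co n D)) (z' z : Co n D → Fin k) :
    mix F z' (mix O z' z) = mix (F ∪ O) z' z := by
  funext p
  unfold mix
  by_cases h1 : p ∈ F <;> by_cases h2 : p ∈ O <;> simp [h1, h2]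

private theorem ins_sens0 {K Y Z : Type} [Fintype K] (f : (K → Bool) → Y) (g : (K → Bool) → Z)
    (h : ∀ a b, g a = g b → f a = f b) (σ : K → Bool) : sens f σ ≤ sens g σ := by
  classical
  unfold sens
  refine Finset.card_le_card fun i hi => ?_
  obtain ⟨-, hi2⟩ := Finset.mem_filter.1 hi
  exact Finset.mem_filter.2 ⟨Finset.mem_univ _, fun h1 => hi2 (h _ _ h1)⟩

private theorem ins_sens {ι V K : Type} [Fintype ι] [Fintype K] {Ω : Type} {s T : ℕ}
    (N : Net ι Ω s T) (g : Fin s) (φ : (K → Bool) → Ω) (σ : K → Bool) :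
    sens (fun ρ => N.val g (φ ρ)) σ ≤ sens (fun ρ => N.first g (φ ρ)) σ := by
  refine ins_sens0 _ _ (fun a b h0 => ?_) σ
  have h0' : N.first g (φ a) = N.first g (φ b) := h0
  have h1 := N.first_eq_none_iff g (φ a)
  have h2 := N.first_eq_none_iff g (φ b)
  rw [h0'] at h1
  have h3 := h1.symm.trans h2
  show N.val g (φ a) = N.val g (φ b)
  cases h4 : N.val g (φ a) <;> cases h5 : N.val g (φ b)
  · rfl
  · exact absurd (h3.2 h5) (by rw [h4]; exact Bool.false_ne_true)
  · exact absurd (h3.1 h4) (by rw [h5]; exact Bool.false_ne_true)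
  · rfl

open Classical in
private noncomputable def iind (p : Prop) : ℝ := if p then 1 else 0

private theorem pr_iind {Ω : Type} [Fintype Ω] (s : Ω → Prop) : pr s = av fun ω => iind (s ω) :=
  rfl

/-- The four sets. -/
private noncomputable def Fs {n D m : ℕ} {R : Type} (P : R → Fin m → Fin n) (xt : Tr m R) :
    Fin 4 → Finset (Co n D) :=
  ![∅, tra D P false xt, tra D P true xt, trb D P xt]

/-- The event for one of the four sets. -/
private def EFs (S : SFam ι n D k s T h H J) (P : R → Fin m → Fin n) (s₁ : ℕ) (i : Fin 4)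
    (tt : Bool → Fin m) (x xh : Tr m R) (z' z : Co n D → Fin k) : Prop :=
  ∃ γ' ∈ (Finset.univ : Finset (Fin h → Bool)), ∃ g ∈ (Finset.univ : Finset (Fin s)),
    snB T s₁ < sens (fun ρ => (S.net γ').first g
      (bpt (bmo P tt x) (Fs P (mix (cols tt) x xh) i) z z' ρ)) (fun _ => false)

private theorem ins_rd (hk : 2 ≤ k) (S : SFam ι n D k s T h H J) (P : R → Fin m → Fin n)
    {s₁ G : ℕ} (hs₁ : 1 ≤ s₁) (hG : s * (2 * (Fintype.card ι + s)) + (Fintype.card ι + s) ≤ G)
    (i : Fin 4) : RD (EFs S P s₁ i) ≤ 2 ^ h * (s * tailB T s₁ G) := by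
  have hX : Nonempty (Fin k) := ⟨⟨0, by omega⟩⟩
  have htB : 0 ≤ (2 : ℝ) ^ h * (s * tailB T s₁ G) := by
    have := tailB_nonneg T s₁ G
    positivity
  have e0 : RD (EFs S P s₁ i) = av fun tt : Bool → Fin m => av fun x : Tr m R =>
      av fun xh : Tr m R => av fun z' : Co n D → Fin k => pr fun z : Co n D → Fin k =>
        EFs S P s₁ i tt x xh z' z := by
    unfold RD
    refine (pr_prod (fun (a : Bool → Fin m) (b : Tr m R × Tr m R × (Co n D → Fin k) ×
      (Co n D → Fin k)) => EFs S P s₁ i a b.1 b.2.1 b.2.2.1 b.2.2.2)).trans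
      (av_congr fun tt => ?_)
    refine (pr_prod (fun (a : Tr m R) (b : Tr m R × (Co n D → Fin k) ×
      (Co n D → Fin k)) => EFs S P s₁ i tt a b.1 b.2.1 b.2.2)).trans (av_congr fun x => ?_)
    refine (pr_prod (fun (a : Tr m R) (b : (Co n D → Fin k) ×
      (Co n D → Fin k)) => EFs S P s₁ i tt x a b.1 b.2)).trans (av_congr fun xh => ?_)
    exact pr_prod fun (a : Co n D → Fin k) (b : Co n D → Fin k) => EFs S P s₁ i tt x xh a b
  rw [e0]
  refine ins_av0 htB fun tt => ins_av0 htB fun x => ins_av0 htB fun xh => ?_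
  rw [ins_comm]
  have h1 : ∀ z : Co n D → Fin k, (pr fun z' : Co n D → Fin k => EFs S P s₁ i tt x xh z' z) ≤
      ∑ γ' : Fin h → Bool, ∑ g : Fin s, pr fun z' : Co n D → Fin k =>
        snB T s₁ < sens (fun ρ => (S.net γ').first g
          (bpt (bmo P tt x) (Fs P (mix (cols tt) x xh) i) z z' ρ)) (fun _ => false) := by
    intro z
    refine (pr_exists_le Finset.univ _).trans (Finset.sum_le_sum fun γ' _ => ?_)
    exact pr_exists_le Finset.univ _
  refine (av_mono h1).trans ?_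
  rw [av_sum]
  have h2 : ∀ γ' : Fin h → Bool, (av fun z : Co n D → Fin k => ∑ g : Fin s,
      pr fun z' : Co n D → Fin k => snB T s₁ < sens (fun ρ => (S.net γ').first g
          (bpt (bmo P tt x) (Fs P (mix (cols tt) x xh) i) z z' ρ)) (fun _ => false)) ≤
      s * tailB T s₁ G := by
    intro γ'
    rw [av_sum]
    refine (Finset.sum_le_sum fun g _ => net_sens_blk (S.net γ') (S.dep γ') (bmo P tt x)
      (Fs P (mix (cols tt) x xh) i) hs₁ hG g).trans (le_of_eq ?_)
    rw [Finset.sum_const, Finset.card_univ, Fintype.card_fin, nsmul_eq_mul]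
  refine (Finset.sum_le_sum fun γ' _ => h2 γ').trans (le_of_eq ?_)
  rw [Finset.sum_const, Finset.card_univ, Fintype.card_fun, Fintype.card_fin,
    Fintype.card_bool, nsmul_eq_mul]
  push_cast
  ring

private theorem ins_core (S : SFam ι n D k s T h H J) (P : R → Fin m → Fin n)
    (hP : ∀ a t a' t', P a t = P a' t' → a = a' ∧ t = t')
    (γ : (Co n D → Fin k) → (Fin h → Bool)) (s₁ : ℕ) (tt : Bool → Fin m) (x₁ xh : Tr m R)
    (z' z : Co n D → Fin k) :
    (pr fun x₂ : Tr m R => S.Fail P (γ z) (mix (cols tt) x₁ xh) z' z ∧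
        ¬ S.Fail P (γ z) (mix (cols tt) x₁ xh) z' (mix (tro D P x₂ tt) z' z)) ≤
      4 * ((snB T s₁ : ℝ) / Fintype.card R) + ∑ i : Fin 4, pr fun x₂ : Tr m R =>
        EFs S P s₁ i tt (mix (cols tt) x₁ x₂) xh z' z := by
  obtain ⟨xt, hxt⟩ : ∃ xt, xt = mix (cols tt) x₁ xh := ⟨_, rfl⟩
  rw [← hxt]
  by_cases hF : S.Fail P (γ z) xt z' z
  · obtain ⟨g₀, hg₀⟩ := hF
    have h1 : (pr fun x₂ : Tr m R => S.Fail P (γ z) xt z' z ∧
        ¬ S.Fail P (γ z) xt z' (mix (tro D P x₂ tt) z' z)) ≤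
        pr fun x₂ : Tr m R => ∃ i ∈ (Finset.univ : Finset (Fin 4)), (S.net (γ z)).val g₀
          (mix (Fs P xt i ∪ tro D P x₂ tt) z' z) ≠ (S.net (γ z)).val g₀ (mix (Fs P xt i) z' z) := by
      refine pr_mono fun x₂ hx₂ => ?_
      by_contra hcon
      push Not at hcon
      apply hg₀
      have h2 : Uni ((S.net (γ z)).val g₀) (mix (tro D P x₂ tt) z' z)
          (mix (tra D P false xt) z' (mix (tro D P x₂ tt) z' z))
          (mix (tra D P true xt) z' (mix (tro D P x₂ tt) z' z))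
          (mix (tra D P false xt ∪ tra D P true xt) z' (mix (tro D P x₂ tt) z' z)) := by
        by_contra h3
        exact hx₂.2 ⟨g₀, h3⟩
      rw [ins_mixu, ins_mixu, ins_mixu] at h2
      have e0 := hcon 0 (Finset.mem_univ _)
      have e1 := hcon 1 (Finset.mem_univ _)
      have e2 := hcon 2 (Finset.mem_univ _)
      have e3 := hcon 3 (Finset.mem_univ _)
      have e4 : mix (∅ : Finset (Co n D)) z' z = z := by
        funext p
        simp [mix]
      change (S.net (γ z)).val g₀ (mix (∅ ∪ tro D P x₂ tt) z' z) =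
        (S.net (γ z)).val g₀ (mix ∅ z' z) at e0
      rw [Finset.empty_union, e4] at e0
      change (S.net (γ z)).val g₀ (mix (tra D P false xt ∪ tro D P x₂ tt) z' z) =
        (S.net (γ z)).val g₀ (mix (tra D P false xt) z' z) at e1
      change (S.net (γ z)).val g₀ (mix (tra D P true xt ∪ tro D P x₂ tt) z' z) =
        (S.net (γ z)).val g₀ (mix (tra D P true xt) z' z) at e2
      change (S.net (γ z)).val g₀ (mix ((tra D P false xt ∪ tra D P true xt) ∪
        tro D P x₂ tt) z' z) = (S.net (γ z)).val g₀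
          (mix (tra D P false xt ∪ tra D P true xt) z' z) at e3
      unfold Uni at h2 ⊢
      rw [e0, e1, e2, e3] at h2
      exact h2
    refine h1.trans ((pr_exists_le Finset.univ _).trans ?_)
    have h2 : ∀ i : Fin 4, (pr fun x₂ : Tr m R => (S.net (γ z)).val g₀
          (mix (Fs P xt i ∪ tro D P x₂ tt) z' z) ≠ (S.net (γ z)).val g₀ (mix (Fs P xt i) z' z)) ≤
        (snB T s₁ : ℝ) / Fintype.card R + pr fun x₂ : Tr m R =>
        EFs S P s₁ i tt (mix (cols tt) x₁ x₂) xh z' z := by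
      intro i
      refine (count_one P hP tt ((S.net (γ z)).val g₀) (Fs P xt i) z z' (snB T s₁)).trans ?_
      refine add_le_add le_rfl (pr_mono fun x₂ hx₂ => ?_)
      refine ⟨γ z, Finset.mem_univ _, g₀, Finset.mem_univ _, ?_⟩
      rw [ins_bmo, ins_mixc, ← hxt]
      exact lt_of_lt_of_le hx₂ (ins_sens (V := Unit) (S.net (γ z)) g₀ _ _)
    refine (Finset.sum_le_sum fun i _ => h2 i).trans (le_of_eq ?_)
    rw [Finset.sum_add_distrib, Finset.sum_const, Finset.card_univ, Fintype.card_fin,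
      nsmul_eq_mul]
    push_cast
    ring
  · have h1 : (pr fun x₂ : Tr m R => S.Fail P (γ z) xt z' z ∧
        ¬ S.Fail P (γ z) xt z' (mix (tro D P x₂ tt) z' z)) = 0 :=
      pr_eq_zero fun x₂ hx₂ => hF hx₂.1
    rw [h1]
    have h2 : 0 ≤ ∑ i : Fin 4, pr fun x₂ : Tr m R =>
        EFs S P s₁ i tt (mix (cols tt) x₁ x₂) xh z' z :=
      Finset.sum_nonneg fun _ _ => pr_nonneg _
    positivity

theorem insens (hk : 2 ≤ k) (S : SFam ι n D k s T h H J) (P : R → Fin m → Fin n)
    (hP : ∀ a t a' t', P a t = P a' t' → a = a' ∧ t = t')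
    (γ : (Co n D → Fin k) → (Fin h → Bool))
    {s₁ G : ℕ} (hs₁ : 1 ≤ s₁) (hG : s * (2 * (Fintype.card ι + s)) + (Fintype.card ι + s) ≤ G) :
    PD P (fun (tt : Bool → Fin m) (x xh : Tr m R) (z' z : Co n D → Fin k) =>
      S.Fail P (γ z) (mix (cols tt) x xh) z' z ∧
        ¬ S.Fail P (γ z) (mix (cols tt) x xh) z' (mix (tro D P x tt) z' z)) ≤
      insB k D h s T s₁ G (Fintype.card R) := by
  have hR : Nonempty R := ⟨0⟩
  have hX : Nonempty (Fin k) := ⟨⟨0, by omega⟩⟩
  have hOp : Nonempty (Op k D) := ⟨⟨(fun _ => ⟨0, by omega⟩, fun _ => ⟨1, by omega⟩),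
    fun c h => by simp at h⟩⟩
  have hk1 : (0 : ℝ) ≤ (k : ℝ) - 1 := by
    have : (2 : ℝ) ≤ k := by exact_mod_cast hk
    linarith
  have htB := tailB_nonneg T s₁ G
  have hins : (0 : ℝ) ≤ insB k D h s T s₁ G (Fintype.card R) := by
    unfold insB
    positivity
  rcases isEmpty_or_nonempty (Bool → Fin m) with h0 | h0
  · rw [ins_pd]
    unfold av
    simp
    exact hins
  have hmain : PD P (fun (tt : Bool → Fin m) (x xh : Tr m R) (z' z : Co n D → Fin k) =>
      S.Fail P (γ z) (mix (cols tt) x xh) z' z ∧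
        ¬ S.Fail P (γ z) (mix (cols tt) x xh) z' (mix (tro D P x tt) z' z)) ≤
      4 * ((snB T s₁ : ℝ) / Fintype.card R) + ∑ i : Fin 4, PD P (EFs S P s₁ i) := by
    have e1 : (4 * ((snB T s₁ : ℝ) / Fintype.card R) + ∑ i : Fin 4, PD P (EFs S P s₁ i)) =
        av fun tt : Bool → Fin m => av fun x : Tr m R => av fun ξ : Xi n D k m R =>
          (4 * ((snB T s₁ : ℝ) / Fintype.card R) + ∑ i : Fin 4, 
            iind (EFs S P s₁ i tt x ξ.1 ξ.2.1 (pl P tt x ξ.2.2.1 ξ.2.2.2))) := by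
      simp only [av_add, av_const, av_sum]
      congr 1
      refine Finset.sum_congr rfl fun i _ => ?_
      rw [ins_pd]
      exact av_congr fun tt => av_congr fun x => pr_iind _
    rw [e1, ins_pd]
    refine av_mono fun tt => ?_
    refine ins_mono (cols tt) _ _ fun x₁ ξ => ?_
    have h1 := ins_core S P hP γ s₁ tt x₁ ξ.1 ξ.2.1 (pl P tt x₁ ξ.2.2.1 ξ.2.2.2)
    simp only [ins_pl, ins_mixc, ins_tro]
    refine h1.trans (le_of_eq ?_)
    rw [av_add, av_const, av_sum]
    rfl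
  refine hmain.trans ?_
  have h2 : ∀ i : Fin 4, PD P (EFs S P s₁ i) ≤
      ((k : ℝ) / (k - 1)) ^ D * (2 ^ h * (s * tailB T s₁ G)) := by
    intro i
    refine (pd_le hk P (fun Φ h3 => dens hk Φ h3) _).trans ?_
    exact mul_le_mul_of_nonneg_left (ins_rd hk S P hs₁ hG i) (by positivity)
  have h3 := Finset.sum_le_sum fun i (_ : i ∈ (Finset.univ : Finset (Fin 4))) => h2 i
  rw [Finset.sum_const, Finset.card_univ, Fintype.card_fin, nsmul_eq_mul] at h3
  unfold insB
  push_cast at h3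
  linarith

end Pool.Agent.H58.CE
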