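import Pool.Agent.H58.CE.Blk
import Pool.Agent.H58.CE.Cnt
import Pool.Agent.H58.CE.Copy
import Pool.Agent.H58.CE.Uniq

/-! [H58 CE RND] Random values: transversals are rarely bad, for every history which may depend on
the values.

PROOF of `rand_pair`. For fixed `z', z` (so the history `γ z' z` is fixed) and `g ∈ two` use
`count_pair` with `u = (S.net (γ z' z)).first g`, `y = z`, `y' = z'`, `B = pB T s₁`: the probability
over `x` is at most `pB / (card R)^2 + pr_x (pB < pc (...) 0)`. Sum over `g ∈ two`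
(`pr_exists_le`); the last term is at most
`∑ γ' : Fin h → Bool, ∑ g ∈ two, pr_x (pB < pc (fun ρ => (S.net γ').first g (bpt (bmp P x) F z z' ρ)) 0)`.
Average over `z', z`, exchange with `x` (`av_comm`) and use `net_pc_blk` for every `γ', g, x`
(`V = Co n D`, `K = Option (Bool × R)`, classical `DecidableEq`; there `y` is averaged outside and `y'`
inside, `av_comm`): each term is `≤ tailP T s₁ G`, and there are at most `2^h * s` terms.
PROOF of `rand_fail`. By `CD.badS_first` (with `S.dep`, `y = z`, `y' = z'`) and `htwo`, `S.Fail` implies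
`∃ g ∈ two, ¬ Uni (first g) z (mix (tra D P false x) z' z) (mix (tra D P true x) z' z)
(mix (trb D P x) z' z)`, which is the event of `rand_pair` for `F = ∅` (`mix ∅ z' z = z`,
`∅ ∪ A = A`); write `RD` as nested averages (`pr_prod`, `av_prod`; the variables `tt`, `xh` do not
occur, `av_const`) and exchange.
PROOF of `rand_ke`. `l = 0`: `ke_zero`, the probability is `0`. `l + 1`: by `ke_of_not_fail` the
event implies `S.Fail P (S.ht l z) x z' z`; use `rand_fail`.
PROOF of `rand_first`. By `copy_off` (the predicate depends on its first transversal only through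
`tro D P x tt`, which does not depend on the values on `cols tt`) one may replace
`mix (cols tt) x xh` by `xh`; then for fixed `tt, x` use `rand_pair` with `F = tro D P x tt` for the
transversal `xh`. -/

set_option autoImplicit false
set_option maxHeartbeats 4000000

namespace Pool.Agent.H58.CE

open Pool.Agent.H58.OVAC Pool.Agent.H58.OVPR Pool.Agent.H58.OVT Pool.Agent.H58.CD

variable {ι R : Type} {n D k s T h H J m : ℕ} [Fintype ι] [Fintype R] [DecidableEq R]
  [AddCommGroup R]

private theorem rnd_comm {Ω Ω' : Type} [Fintype Ω] [Fintype Ω'] (s : Ω → Ω' → Prop) :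
    (av fun a => pr fun b => s a b) = av fun b => pr fun a => s a b := by
  unfold pr
  exact av_comm _

private theorem rnd_le {Ω : Type} [Fintype Ω] {f : Ω → ℝ} {c : ℝ} (hc : 0 ≤ c)
    (h : ∀ ω, f ω ≤ c) : av f ≤ c := by
  rcases isEmpty_or_nonempty Ω with h0 | h0
  · unfold av
    simp
    exact hc
  · exact av_le h

omit [Fintype ι] [Fintype R] [DecidableEq R] [AddCommGroup R] in
private theorem rnd_rd {n D k m : ℕ} {R : Type} [Fintype R] [DecidableEq R]
    (Q : (Bool → Fin m) → Tr m R → Tr m R → (Co n D → Fin k) → (Co n D → Fin k) → Prop) :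
    RD Q = av fun tt : Bool → Fin m => av fun x : Tr m R => av fun xh : Tr m R =>
      av fun z' : Co n D → Fin k => pr fun z : Co n D → Fin k => Q tt x xh z' z := by
  unfold RD
  refine (pr_prod (fun (a : Bool → Fin m) (b : Tr m R × Tr m R × (Co n D → Fin k) ×
    (Co n D → Fin k)) => Q a b.1 b.2.1 b.2.2.1 b.2.2.2)).trans (av_congr fun tt => ?_)
  refine (pr_prod (fun (a : Tr m R) (b : Tr m R × (Co n D → Fin k) ×
    (Co n D → Fin k)) => Q tt a b.1 b.2.1 b.2.2)).trans (av_congr fun x => ?_)
  refine (pr_prod (fun (a : Tr m R) (b : (Co n D → Fin k) ×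
    (Co n D → Fin k)) => Q tt x a b.1 b.2)).trans (av_congr fun xh => ?_)
  exact pr_prod fun (a : Co n D → Fin k) (b : Co n D → Fin k) => Q tt x xh a b

private theorem nuB_nonneg (h s T s₁ G G2 q : ℕ) : 0 ≤ nuB h s T s₁ G G2 q := by
  unfold nuB tailP
  positivity

theorem rand_pair (hk : 2 ≤ k) (S : SFam ι n D k s T h H J) (P : R → Fin m → Fin n)
    (hP : ∀ a t a' t', P a t = P a' t' → a = a' ∧ t = t') (F : Finset (Co n D))
    (two : Finset (Fin s)) (γ : (Co n D → Fin k) → (Co n D → Fin k) → (Fin h → Bool))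
    {s₁ G : ℕ} (hs₁ : 1 ≤ s₁) (hG : s * (2 * (Fintype.card ι + s)) + (Fintype.card ι + s) ≤ G) :
    (av fun z' : Co n D → Fin k => av fun z : Co n D → Fin k => pr fun x : Tr m R =>
      ∃ g ∈ two, ¬ Uni ((S.net (γ z' z)).first g) (mix F z' z) (mix (F ∪ tra D P false x) z' z)
        (mix (F ∪ tra D P true x) z' z) (mix (F ∪ trb D P x) z' z)) ≤
      nuB h s T s₁ G two.card (Fintype.card R) := by
  have hX : Nonempty (Fin k) := ⟨⟨0, by omega⟩⟩
  have hR : Nonempty R := ⟨0⟩
  obtain ⟨c0, hc0⟩ : ∃ c0 : ℝ, c0 = (pB T s₁ : ℝ) / (Fintype.card R : ℝ) ^ 2 := ⟨_, rfl⟩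
  obtain ⟨E, hE⟩ : ∃ E : Fin s → (Fin h → Bool) → (Co n D → Fin k) → (Co n D → Fin k) →
      Tr m R → Prop, ∀ g γ' z' z x, E g γ' z' z x ↔
        pB T s₁ < pc (fun ρ => (S.net γ').first g (bpt (bmp P x) F z z' ρ)) (fun _ => false) :=
    ⟨_, fun _ _ _ _ _ => Iff.rfl⟩
  have h1 : ∀ z' z : Co n D → Fin k, (pr fun x : Tr m R =>
      ∃ g ∈ two, ¬ Uni ((S.net (γ z' z)).first g) (mix F z' z) (mix (F ∪ tra D P false x) z' z)
        (mix (F ∪ tra D P true x) z' z) (mix (F ∪ trb D P x) z' z)) ≤
      two.card * c0 + ∑ g : Fin s, ∑ γ' : Fin h → Bool, pr fun x : Tr m R => E g γ' z' z x := by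
    intro z' z
    refine (pr_exists_le two (fun g x => ¬ Uni ((S.net (γ z' z)).first g) (mix F z' z)
      (mix (F ∪ tra D P false x) z' z) (mix (F ∪ tra D P true x) z' z)
      (mix (F ∪ trb D P x) z' z))).trans ?_
    refine (Finset.sum_le_sum fun g _ =>
      count_pair P hP ((S.net (γ z' z)).first g) F z z' (pB T s₁)).trans ?_
    rw [Finset.sum_add_distrib, Finset.sum_const, nsmul_eq_mul, ← hc0]
    refine add_le_add le_rfl ?_
    calc ∑ g ∈ two, pr (fun x : Tr m R => pB T s₁ <
          pc (fun ρ => (S.net (γ z' z)).first g (bpt (bmp P x) F z z' ρ)) (fun _ => false))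
        = ∑ g ∈ two, pr (fun x : Tr m R => E g (γ z' z) z' z x) :=
          Finset.sum_congr rfl fun g _ => pr_congr fun x => (hE g _ z' z x).symm
      _ ≤ ∑ g : Fin s, pr (fun x : Tr m R => E g (γ z' z) z' z x) :=
          Finset.sum_le_sum_of_subset_of_nonneg (Finset.subset_univ _)
            fun _ _ _ => pr_nonneg _
      _ ≤ ∑ g : Fin s, ∑ γ' : Fin h → Bool, pr fun x : Tr m R => E g γ' z' z x :=
          Finset.sum_le_sum fun g _ => Finset.single_le_sum
            (f := fun γ' : Fin h → Bool => pr fun x : Tr m R => E g γ' z' z x)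
            (fun _ _ => pr_nonneg _) (Finset.mem_univ (γ z' z))
  refine (av_mono fun z' => av_mono fun z => h1 z' z).trans ?_
  have h2 : ∀ z' : Co n D → Fin k, (av fun z : Co n D → Fin k => (two.card * c0 +
      ∑ g : Fin s, ∑ γ' : Fin h → Bool, pr fun x : Tr m R => E g γ' z' z x)) =
      two.card * c0 + ∑ g : Fin s, ∑ γ' : Fin h → Bool, av fun z : Co n D → Fin k =>
        pr fun x : Tr m R => E g γ' z' z x := by
    intro z'
    rw [av_add, av_const, av_sum]
    congr 1
    exact Finset.sum_congr rfl fun g _ => av_sum _ _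
  rw [av_congr h2, av_add, av_const, av_sum]
  have h3 : ∀ g γ', (av fun z' : Co n D → Fin k => av fun z : Co n D → Fin k =>
      pr fun x : Tr m R => E g γ' z' z x) ≤ tailP T s₁ G := by
    intro g γ'
    have e1 : (av fun z' : Co n D → Fin k => av fun z : Co n D → Fin k =>
        pr fun x : Tr m R => E g γ' z' z x) = av fun x : Tr m R =>
        av fun z : Co n D → Fin k => pr fun z' : Co n D → Fin k => E g γ' z' z x := by
      have e2 : ∀ z' : Co n D → Fin k, (av fun z : Co n D → Fin k =>
          pr fun x : Tr m R => E g γ' z' z x) = av fun x : Tr m R =>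
          pr fun z : Co n D → Fin k => E g γ' z' z x := fun z' => rnd_comm _
      rw [av_congr e2, av_comm]
      exact av_congr fun x => rnd_comm _
    rw [e1]
    refine av_le fun x => ?_
    have e3 := net_pc_blk (S.net γ') (S.dep γ') (bmp P x) F hs₁ hG g
    refine le_trans (le_of_eq ?_) e3
    exact av_congr fun z => pr_congr fun z' => hE g γ' z' z x
  have h4 : ∑ g : Fin s, av (fun z' : Co n D → Fin k => ∑ γ' : Fin h → Bool,
      av fun z : Co n D → Fin k => pr fun x : Tr m R => E g γ' z' z x) ≤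
      2 ^ h * (s * tailP T s₁ G) := by
    calc ∑ g : Fin s, av (fun z' : Co n D → Fin k => ∑ γ' : Fin h → Bool,
          av fun z : Co n D → Fin k => pr fun x : Tr m R => E g γ' z' z x)
        = ∑ g : Fin s, ∑ γ' : Fin h → Bool, av (fun z' : Co n D → Fin k =>
          av fun z : Co n D → Fin k => pr fun x : Tr m R => E g γ' z' z x) :=
          Finset.sum_congr rfl fun g _ => av_sum _ _
      _ ≤ ∑ _g : Fin s, ∑ _γ' : Fin h → Bool, tailP T s₁ G :=
          Finset.sum_le_sum fun g _ => Finset.sum_le_sum fun γ' _ => h3 g γ'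
      _ = 2 ^ h * (s * tailP T s₁ G) := by
          rw [Finset.sum_const, Finset.sum_const, Finset.card_univ, Finset.card_univ,
            Fintype.card_fin, Fintype.card_fun, Fintype.card_fin, Fintype.card_bool,
            nsmul_eq_mul, nsmul_eq_mul]
          push_cast
          ring
  unfold nuB
  rw [hc0, mul_div_assoc]
  exact add_le_add le_rfl h4

theorem rand_fail (hk : 2 ≤ k) (S : SFam ι n D k s T h H J) (P : R → Fin m → Fin n)
    (hP : ∀ a t a' t', P a t = P a' t' → a = a' ∧ t = t') (two : Finset (Fin s))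
    (htwo : S.Two two) (γ : (Co n D → Fin k) → (Fin h → Bool))
    {s₁ G : ℕ} (hs₁ : 1 ≤ s₁) (hG : s * (2 * (Fintype.card ι + s)) + (Fintype.card ι + s) ≤ G) :
    RD (fun (_ : Bool → Fin m) (x _ : Tr m R) (z' z : Co n D → Fin k) =>
      S.Fail P (γ z) x z' z) ≤ nuB h s T s₁ G two.card (Fintype.card R) := by
  have hR : Nonempty R := ⟨0⟩
  have hX : Nonempty (Fin k) := ⟨⟨0, by omega⟩⟩
  have hpair := rand_pair hk S P hP ∅ two (fun _ z => γ z) hs₁ hG
  rw [rnd_rd]
  refine rnd_le (nuB_nonneg _ _ _ _ _ _ _) fun tt => ?_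
  have e0 : ∀ x : Tr m R, (av fun _xh : Tr m R => av fun z' : Co n D → Fin k =>
      pr fun z : Co n D → Fin k => S.Fail P (γ z) x z' z) = av fun z' : Co n D → Fin k =>
      pr fun z : Co n D → Fin k => S.Fail P (γ z) x z' z := fun x => av_const _
  rw [av_congr e0, av_comm]
  have e1 : ∀ z' : Co n D → Fin k, (av fun x : Tr m R =>
      pr fun z : Co n D → Fin k => S.Fail P (γ z) x z' z) = av fun z : Co n D → Fin k =>
      pr fun x : Tr m R => S.Fail P (γ z) x z' z := fun z' => rnd_comm _
  rw [av_congr e1]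
  refine (av_mono fun z' => av_mono fun z => pr_mono fun x hx => ?_).trans hpair
  obtain ⟨g, hg1, hg2⟩ := badS_first (S.net (γ z)) (S.dep (γ z))
    (A := tra D P false x) (B := tra D P true x)
    (fun p hp => (Finset.mem_filter.1 hp).2.1) (fun p hp => (Finset.mem_filter.1 hp).2.1) z z' hx
  have e2 : mix (∅ : Finset (Co n D)) z' z = z := by
    funext p
    simp [mix]
  refine ⟨g, ?_, ?_⟩
  · by_contra h3
    exact hg1 (htwo _ _ h3)
  · rw [e2, Finset.empty_union, Finset.empty_union, Finset.empty_union]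
    exact hg2

theorem rand_ke (hk : 2 ≤ k) (S : SFam ι n D k s T h H J) (P : R → Fin m → Fin n)
    (hP : ∀ a t a' t', P a t = P a' t' → a = a' ∧ t = t') (two : Finset (Fin s))
    (htwo : S.Two two) (l : ℕ)
    {s₁ G : ℕ} (hs₁ : 1 ≤ s₁) (hG : s * (2 * (Fintype.card ι + s)) + (Fintype.card ι + s) ≤ G) :
    RD (fun (_ : Bool → Fin m) (x _ : Tr m R) (z' z : Co n D → Fin k) =>
      ¬ S.KE P l (S.ht l z) x z' z) ≤ nuB h s T s₁ G two.card (Fintype.card R) := by
  cases l with
  | zero =>
    have e1 : RD (fun (_ : Bool → Fin m) (x _ : Tr m R) (z' z : Co n D → Fin k) =>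
        ¬ S.KE P 0 (S.ht 0 z) x z' z) = 0 := by
      unfold RD
      exact pr_eq_zero fun ω => not_not.2 (ke_zero S P)
    rw [e1]
    exact nuB_nonneg _ _ _ _ _ _ _
  | succ l =>
    refine le_trans ?_ (rand_fail hk S P hP two htwo (fun z => S.ht l z) hs₁ hG)
    unfold RD
    refine pr_mono fun ω hω => ?_
    by_contra h1
    exact hω (ke_of_not_fail S P h1)

theorem rand_first (hk : 2 ≤ k) (S : SFam ι n D k s T h H J) (P : R → Fin m → Fin n)
    (hP : ∀ a t a' t', P a t = P a' t' → a = a' ∧ t = t') (two : Finset (Fin s))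
    (γ : (Co n D → Fin k) → (Fin h → Bool))
    {s₁ G : ℕ} (hs₁ : 1 ≤ s₁) (hG : s * (2 * (Fintype.card ι + s)) + (Fintype.card ι + s) ≤ G) :
    RD (fun (tt : Bool → Fin m) (x xh : Tr m R) (z' z : Co n D → Fin k) =>
      S.FE P two (γ z) tt x (mix (cols tt) x xh) z' z) ≤
      nuB h s T s₁ G two.card (Fintype.card R) := by
  have hR : Nonempty R := ⟨0⟩
  have hX : Nonempty (Fin k) := ⟨⟨0, by omega⟩⟩
  have hoff := copy_off (fun (tt : Bool → Fin m) (x x' : Tr m R) (z' z : Co n D → Fin k) =>
    S.FE P two (γ z) tt x x' z' z) (by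
      intro tt x₁ x₂ x' z' z hx
      have e1 : tro D P x₁ tt = tro D P x₂ tt := by
        unfold tro
        ext p
        simp only [Finset.mem_filter, Finset.mem_univ, true_and]
        have e2 : ∀ t, t ≠ tt p.1.1 → x₁ (p.1.1, t) = x₂ (p.1.1, t) := by
          intro t ht
          apply hx
          unfold cols
          simp only [Finset.mem_filter, Finset.mem_univ, true_and]
          exact ht
        constructor
        · rintro ⟨t, ht, h1⟩
          exact ⟨t, ht, by rw [← e2 t ht]; exact h1⟩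
        · rintro ⟨t, ht, h1⟩
          exact ⟨t, ht, by rw [e2 t ht]; exact h1⟩
      unfold SFam.FE
      rw [e1])
  refine hoff.trans_le ?_
  rw [rnd_rd]
  refine rnd_le (nuB_nonneg _ _ _ _ _ _ _) fun tt => av_le fun x => ?_
  have hpair := rand_pair hk S P hP (tro D P x tt) two (fun _ z => γ z) hs₁ hG
  rw [av_comm]
  have e1 : ∀ z' : Co n D → Fin k, (av fun xh : Tr m R =>
      pr fun z : Co n D → Fin k => S.FE P two (γ z) tt x xh z' z) = av fun z : Co n D → Fin k =>
      pr fun xh : Tr m R => S.FE P two (γ z) tt x xh z' z := fun z' => rnd_comm _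
  rw [av_congr e1]
  exact hpair

end Pool.Agent.H58.CE
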