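import Pool.Agent.H58.CE.StepA
import Pool.Agent.H58.CE.Rnd
import Pool.Agent.H58.CE.Ins

/-! [H58 CE STEPB] One step of the induction over the layers.

PROOF of `step_av`. Average `step_fix` over `x, xh, z', y`. Left side: `PD` as nested averages
(`pr_prod`, `av_prod`), then for fixed `tt, x, xh, z', w` replace `av_z F z` by
`av_y av_α av_β F (tp P x α β y)` (`av_tp`), and exchange the averages. Right side: in the same way
(`av_tp` backwards) the first average becomes `RD (¬ KE ∨ FE) ≤ RD (¬ KE) + RD (FE) ≤ 2 nuB`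
(`pr_or_le`, `rand_ke`, `rand_first` with `γ z = S.ht l z`), the second one `RD (¬ KE) ≤ nuB`
(`rand_ke`). Total `8 nuB + nuB + ...`.
PROOF of `step_one`. By `copy` (applied to `Q tt x x' z' z := S.Fail P (S.ht l z) x z' z`, which uses
only one transversal) the left side equals
`PD P (S.Fail P (S.ht l z) (mix (cols tt) x xh) z' z)`. This event implies
`¬ S.KE P l (S.ht l z) x z' z`, or the event of `insens` (with `γ z = S.ht l z`), or the event of
`step_av`. Union bound.
PROOF of `loop`. Induction on `l`. `l = 0`: `step_one` and `ke_zero` (the first probability is `0`).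
`l + 1`: by `ke_of_not_fail`, `¬ S.KE P (l+1) (S.ht (l+1) z) x z' z` implies
`S.Fail P (S.ht l z) x z' z`, so the first probability in `step_one` is at most the one for `l`. -/

set_option autoImplicit false
set_option maxHeartbeats 4000000

namespace Pool.Agent.H58.CE

open Pool.Agent.H58.OVAC Pool.Agent.H58.OVPR Pool.Agent.H58.OVT Pool.Agent.H58.CD

variable {ι R : Type} {n D k s T h H J m : ℕ} [Fintype ι] [Fintype R] [DecidableEq R]
  [AddCommGroup R]

/-- The error of one step. -/
noncomputable def stepErr (k D s T h J m M s₁ G G2 q : ℕ) (e : ℝ) : ℝ :=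
  insB k D h s T s₁ G q + 9 * nuB h s T s₁ G G2 q + 2 ^ h * (h * ((J : ℝ) / M)) +
    4 * errB k D s T s₁ G + 12 * decB m M h h e

section

variable {R' : Type} [Fintype R']

private theorem pr_ite {Ω : Type} [Fintype Ω] (s : Ω → Prop) [DecidablePred s] :
    pr s = av fun ω => if s ω then (1 : ℝ) else 0 := by
  unfold pr
  exact av_congr fun ω => by congr

private theorem pd_eq [DecidableEq R'] (P : R' → Fin m → Fin n) (Q : (Bool → Fin m) → Tr m R' → Tr m R' →
    (Co n D → Fin k) → (Co n D → Fin k) → Prop) :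
    PD P Q = av fun tt : Bool → Fin m => av fun x : Tr m R' => av fun xh : Tr m R' =>
      av fun z' : Co n D → Fin k => av fun z : Co n D → Fin k => pr fun w : Op k D =>
        Q tt x xh z' (pl P tt x z w) := by
  refine Eq.trans (pr_prod fun (ω : Om n D k m R') (w : Op k D) =>
    Q ω.1 ω.2.1 ω.2.2.1 ω.2.2.2.1 (pl P ω.1 ω.2.1 ω.2.2.2.2 w)) ?_
  refine Eq.trans (av_prod fun (tt : Bool → Fin m)
    (r : Tr m R' × Tr m R' × (Co n D → Fin k) × (Co n D → Fin k)) => pr fun w : Op k D =>
    Q tt r.1 r.2.1 r.2.2.1 (pl P tt r.1 r.2.2.2 w)) ?_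
  refine av_congr fun tt => ?_
  refine Eq.trans (av_prod fun (x : Tr m R')
    (r : Tr m R' × (Co n D → Fin k) × (Co n D → Fin k)) => pr fun w : Op k D =>
    Q tt x r.1 r.2.1 (pl P tt x r.2.2 w)) ?_
  refine av_congr fun x => ?_
  refine Eq.trans (av_prod fun (xh : Tr m R')
    (r : (Co n D → Fin k) × (Co n D → Fin k)) => pr fun w : Op k D =>
    Q tt x xh r.1 (pl P tt x r.2 w)) ?_
  refine av_congr fun xh => ?_
  exact av_prod fun (z' : Co n D → Fin k) (z : Co n D → Fin k) => pr fun w : Op k D =>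
    Q tt x xh z' (pl P tt x z w)

private theorem rd_eq [DecidableEq R'] (Q : (Bool → Fin m) → Tr m R' → Tr m R' →
    (Co n D → Fin k) → (Co n D → Fin k) → Prop) :
    RD Q = av fun tt : Bool → Fin m => av fun x : Tr m R' => av fun xh : Tr m R' =>
      av fun z' : Co n D → Fin k => pr fun z : Co n D → Fin k => Q tt x xh z' z := by
  refine Eq.trans (pr_prod fun (tt : Bool → Fin m)
    (r : Tr m R' × Tr m R' × (Co n D → Fin k) × (Co n D → Fin k)) =>
    Q tt r.1 r.2.1 r.2.2.1 r.2.2.2) ?_
  refine av_congr fun tt => ?_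
  refine Eq.trans (pr_prod fun (x : Tr m R')
    (r : Tr m R' × (Co n D → Fin k) × (Co n D → Fin k)) => Q tt x r.1 r.2.1 r.2.2) ?_
  refine av_congr fun x => ?_
  refine Eq.trans (pr_prod fun (xh : Tr m R')
    (r : (Co n D → Fin k) × (Co n D → Fin k)) => Q tt x xh r.1 r.2) ?_
  refine av_congr fun xh => ?_
  exact pr_prod fun (z' : Co n D → Fin k) (z : Co n D → Fin k) => Q tt x xh z' z

private theorem gen_tp [Nonempty (Fin k)] (P : R' → Fin m → Fin n)
    (hP : ∀ a t a' t', P a t = P a' t' → a = a' ∧ t = t')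
    (F : (Bool → Fin m) → Tr m R' → Tr m R' → (Co n D → Fin k) → (Co n D → Fin k) → ℝ) :
    (av fun tt : Bool → Fin m => av fun x : Tr m R' => av fun xh : Tr m R' =>
      av fun z' : Co n D → Fin k => av fun z : Co n D → Fin k => F tt x xh z' z) =
    av fun x : Tr m R' => av fun xh : Tr m R' => av fun z' : Co n D → Fin k =>
      av fun y : Co n D → Fin k => av fun tt : Bool → Fin m =>
      av fun α : Fin m → Str k D => av fun β : Fin m → Str k D =>
        F tt x xh z' (tp P x α β y) := by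
  have h1 : (av fun tt : Bool → Fin m => av fun x : Tr m R' => av fun xh : Tr m R' =>
      av fun z' : Co n D → Fin k => av fun z : Co n D → Fin k => F tt x xh z' z) =
      av fun tt : Bool → Fin m => av fun x : Tr m R' => av fun xh : Tr m R' =>
      av fun z' : Co n D → Fin k => av fun y : Co n D → Fin k =>
      av fun α : Fin m → Str k D => av fun β : Fin m → Str k D => F tt x xh z' (tp P x α β y) :=
    av_congr fun tt => av_congr fun x => av_congr fun xh => av_congr fun z' =>
      (av_tp P hP x (F tt x xh z')).symm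
  rw [h1, av_comm]
  refine av_congr fun x => ?_
  rw [av_comm]
  refine av_congr fun xh => ?_
  rw [av_comm]
  refine av_congr fun z' => ?_
  rw [av_comm]

end

theorem step_av (hk : 2 ≤ k) (hm : 1 ≤ m) (S : SFam ι n D k s T h H J) (P : R → Fin m → Fin n)
    (hP : ∀ a t a' t', P a t = P a' t' → a = a' ∧ t = t') (two : Finset (Fin s))
    (htwo : S.Two two) (l : ℕ) {s₁ G M : ℕ} (hs₁ : 1 ≤ s₁) (hM : 1 ≤ M)
    (hG : s * (2 * (Fintype.card ι + s)) + (Fintype.card ι + s) ≤ G)
    {e : ℝ} (he : 0 < e) (hem : 2 * e ≤ m) :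
    PD P (fun (tt : Bool → Fin m) (x xh : Tr m R) (z' z : Co n D → Fin k) =>
      S.KE P l (S.ht l z) x z' z ∧
        S.Fail P (S.ht l z) (mix (cols tt) x xh) z' (mix (tro D P x tt) z' z)) ≤
      9 * nuB h s T s₁ G two.card (Fintype.card R) + 2 ^ h * (h * ((J : ℝ) / M)) +
        4 * errB k D s T s₁ G + 12 * decB m M h h e := by
  classical
  have hkn : Nonempty (Fin k) := ⟨⟨0, by omega⟩⟩
  have hmn : Nonempty (Fin m) := ⟨⟨0, by omega⟩⟩
  have hRn : Nonempty R := ⟨0⟩
  obtain ⟨c, hc⟩ : ∃ c : ℝ, c = 2 ^ h * (h * ((J : ℝ) / M)) + 4 * errB k D s T s₁ G +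
    12 * decB m M h h e := ⟨_, rfl⟩
  -- the two averages
  have hA : (av fun x : Tr m R => av fun xh : Tr m R => av fun z' : Co n D → Fin k =>
      av fun y : Co n D → Fin k => av fun tt : Bool → Fin m => av fun α : Fin m → Str k D =>
      pr fun β : Fin m → Str k D => ¬ S.KE P l (S.ht l (tp P x α β y)) x z' (tp P x α β y) ∨
        S.FE P two (S.ht l (tp P x α β y)) tt x (mix (cols tt) x xh) z' (tp P x α β y)) ≤
      2 * nuB h s T s₁ G two.card (Fintype.card R) := by
    have e1 := rd_eq (fun (tt : Bool → Fin m) (x xh : Tr m R) (z' z : Co n D → Fin k) =>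
      ¬ S.KE P l (S.ht l z) x z' z ∨ S.FE P two (S.ht l z) tt x (mix (cols tt) x xh) z' z)
    have e2 := gen_tp P hP (fun (tt : Bool → Fin m) (x xh : Tr m R) (z' z : Co n D → Fin k) =>
      if ¬ S.KE P l (S.ht l z) x z' z ∨ S.FE P two (S.ht l z) tt x (mix (cols tt) x xh) z' z
        then (1 : ℝ) else 0)
    simp only [← pr_ite] at e2
    rw [← e2, ← e1]
    have e3 : RD (fun (tt : Bool → Fin m) (x xh : Tr m R) (z' z : Co n D → Fin k) =>
        ¬ S.KE P l (S.ht l z) x z' z ∨
          S.FE P two (S.ht l z) tt x (mix (cols tt) x xh) z' z) ≤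
        RD (fun (_ : Bool → Fin m) (x _ : Tr m R) (z' z : Co n D → Fin k) =>
          ¬ S.KE P l (S.ht l z) x z' z) +
        RD (fun (tt : Bool → Fin m) (x xh : Tr m R) (z' z : Co n D → Fin k) =>
          S.FE P two (S.ht l z) tt x (mix (cols tt) x xh) z' z) := by
      unfold RD
      exact pr_or_le _ _
    have e4 := rand_ke hk S P hP two htwo l hs₁ hG
    have e5 := rand_first hk S P hP two (fun z => S.ht l z) hs₁ hG
    linarith
  have hB : (av fun x : Tr m R => av fun _ : Tr m R => av fun z' : Co n D → Fin k =>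
      av fun y : Co n D → Fin k => av fun α : Fin m → Str k D =>
      pr fun β : Fin m → Str k D => ¬ S.KE P l (S.ht l (tp P x α β y)) x z' (tp P x α β y)) ≤
      nuB h s T s₁ G two.card (Fintype.card R) := by
    have e1 := rd_eq (fun (_ : Bool → Fin m) (x _ : Tr m R) (z' z : Co n D → Fin k) =>
      ¬ S.KE P l (S.ht l z) x z' z)
    have e2 := gen_tp P hP (fun (_ : Bool → Fin m) (x _ : Tr m R) (z' z : Co n D → Fin k) =>
      if ¬ S.KE P l (S.ht l z) x z' z then (1 : ℝ) else 0)
    simp only [← pr_ite] at e2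
    have e3 : (av fun x : Tr m R => av fun _ : Tr m R => av fun z' : Co n D → Fin k =>
        av fun y : Co n D → Fin k => av fun _ : Bool → Fin m => av fun α : Fin m → Str k D =>
        pr fun β : Fin m → Str k D =>
          ¬ S.KE P l (S.ht l (tp P x α β y)) x z' (tp P x α β y)) =
        av fun x : Tr m R => av fun _ : Tr m R => av fun z' : Co n D → Fin k =>
        av fun y : Co n D → Fin k => av fun α : Fin m → Str k D =>
        pr fun β : Fin m → Str k D =>
          ¬ S.KE P l (S.ht l (tp P x α β y)) x z' (tp P x α β y) :=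
      av_congr fun x => av_congr fun _ => av_congr fun z' => av_congr fun y => av_const _
    rw [← e3, ← e2, ← e1]
    exact rand_ke hk S P hP two htwo l hs₁ hG
  -- the main inequality
  have e1 := pd_eq P (fun (tt : Bool → Fin m) (x xh : Tr m R) (z' z : Co n D → Fin k) =>
      S.KE P l (S.ht l z) x z' z ∧
        S.Fail P (S.ht l z) (mix (cols tt) x xh) z' (mix (tro D P x tt) z' z))
  have e2 := gen_tp P hP (fun (tt : Bool → Fin m) (x xh : Tr m R) (z' z : Co n D → Fin k) =>
      pr fun w : Op k D => S.KE P l (S.ht l (pl P tt x z w)) x z' (pl P tt x z w) ∧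
        S.Fail P (S.ht l (pl P tt x z w)) (mix (cols tt) x xh) z'
          (mix (tro D P x tt) z' (pl P tt x z w)))
  rw [e1, e2]
  have e3 : (av fun x : Tr m R => av fun xh : Tr m R => av fun z' : Co n D → Fin k =>
      av fun y : Co n D → Fin k => av fun tt : Bool → Fin m =>
      av fun α : Fin m → Str k D => av fun β : Fin m → Str k D =>
      pr fun w : Op k D => S.KE P l (S.ht l (pl P tt x (tp P x α β y) w)) x z'
          (pl P tt x (tp P x α β y) w) ∧
        S.Fail P (S.ht l (pl P tt x (tp P x α β y) w)) (mix (cols tt) x xh) z'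
          (mix (tro D P x tt) z' (pl P tt x (tp P x α β y) w))) ≤
      av fun x : Tr m R => av fun xh : Tr m R => av fun z' : Co n D → Fin k =>
      av fun y : Co n D → Fin k =>
        (4 * (av fun tt : Bool → Fin m => av fun α : Fin m → Str k D =>
          pr fun β : Fin m → Str k D =>
          ¬ S.KE P l (S.ht l (tp P x α β y)) x z' (tp P x α β y) ∨
          S.FE P two (S.ht l (tp P x α β y)) tt x (mix (cols tt) x xh) z' (tp P x α β y)) +
        (av fun α : Fin m → Str k D => pr fun β : Fin m → Str k D =>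
          ¬ S.KE P l (S.ht l (tp P x α β y)) x z' (tp P x α β y))) + c := by
    refine av_mono fun x => av_mono fun xh => av_mono fun z' => av_mono fun y => ?_
    have h1 := step_fix hk hm S P hP two htwo l hs₁ hM hG he hem x xh z' y
    have h2 : (av fun tt : Bool → Fin m => av fun α : Fin m → Str k D =>
        av fun β : Fin m → Str k D =>
        pr fun w : Op k D => S.KE P l (S.ht l (pl P tt x (tp P x α β y) w)) x z'
            (pl P tt x (tp P x α β y) w) ∧
          S.Fail P (S.ht l (pl P tt x (tp P x α β y) w)) (mix (cols tt) x xh) z'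
            (mix (tro D P x tt) z' (pl P tt x (tp P x α β y) w))) =
        (av fun tt : Bool → Fin m => av fun α : Fin m → Str k D =>
          av fun β : Fin m → Str k D => av fun w : Op k D =>
          if S.KE P l (S.ht l (pl P tt x (tp P x α β y) w)) x z'
              (pl P tt x (tp P x α β y) w) ∧
            S.Fail P (S.ht l (pl P tt x (tp P x α β y) w)) (mix (cols tt) x xh) z'
              (mix (tro D P x tt) z' (pl P tt x (tp P x α β y) w)) then (1 : ℝ) else 0) :=
      av_congr fun tt => av_congr fun α => av_congr fun β => pr_ite _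
    rw [h2, hc]
    refine le_trans (le_of_eq ?_) (h1.trans (le_of_eq ?_))
    · refine av_congr fun tt => av_congr fun α => av_congr fun β => av_congr fun w => ?_
      congr
    · ring
  refine e3.trans ?_
  simp only [av_const] at hB
  simp only [av_add, av_mul_left, av_const]
  rw [hc]
  linarith

theorem step_one (hk : 2 ≤ k) (hm : 1 ≤ m) (S : SFam ι n D k s T h H J) (P : R → Fin m → Fin n)
    (hP : ∀ a t a' t', P a t = P a' t' → a = a' ∧ t = t') (two : Finset (Fin s))
    (htwo : S.Two two) (l : ℕ) {s₁ G M : ℕ} (hs₁ : 1 ≤ s₁) (hM : 1 ≤ M)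
    (hG : s * (2 * (Fintype.card ι + s)) + (Fintype.card ι + s) ≤ G)
    {e : ℝ} (he : 0 < e) (hem : 2 * e ≤ m) :
    PD P (fun (_ : Bool → Fin m) (x _ : Tr m R) (z' z : Co n D → Fin k) =>
      S.Fail P (S.ht l z) x z' z) ≤
      PD P (fun (_ : Bool → Fin m) (x _ : Tr m R) (z' z : Co n D → Fin k) =>
        ¬ S.KE P l (S.ht l z) x z' z) +
      stepErr k D s T h J m M s₁ G two.card (Fintype.card R) e := by
  have hRn : Nonempty R := ⟨0⟩
  have e1 := copy P (fun (_ : Bool → Fin m) (x _ : Tr m R) (z' z : Co n D → Fin k) =>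
    S.Fail P (S.ht l z) x z' z)
  have e2 := step_av hk hm S P hP two htwo l hs₁ hM hG he hem
  have e3 := insens hk S P hP (fun z => S.ht l z) hs₁ hG
  have e4 : PD P (fun (tt : Bool → Fin m) (x xh : Tr m R) (z' z : Co n D → Fin k) =>
      S.Fail P (S.ht l z) (mix (cols tt) x xh) z' z) ≤
      PD P (fun (_ : Bool → Fin m) (x _ : Tr m R) (z' z : Co n D → Fin k) =>
        ¬ S.KE P l (S.ht l z) x z' z) +
      (PD P (fun (tt : Bool → Fin m) (x xh : Tr m R) (z' z : Co n D → Fin k) =>
        S.Fail P (S.ht l z) (mix (cols tt) x xh) z' z ∧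
          ¬ S.Fail P (S.ht l z) (mix (cols tt) x xh) z' (mix (tro D P x tt) z' z)) +
      PD P (fun (tt : Bool → Fin m) (x xh : Tr m R) (z' z : Co n D → Fin k) =>
        S.KE P l (S.ht l z) x z' z ∧
          S.Fail P (S.ht l z) (mix (cols tt) x xh) z' (mix (tro D P x tt) z' z))) := by
    unfold PD
    refine le_trans (pr_mono fun ω hω => ?_) (le_trans (pr_or_le _ _)
      (add_le_add le_rfl (pr_or_le _ _)))
    dsimp only at hω ⊢
    by_cases h1 : S.KE P l (S.ht l (pl P ω.1.1 ω.1.2.1 ω.1.2.2.2.2 ω.2)) ω.1.2.1 ω.1.2.2.2.1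
      (pl P ω.1.1 ω.1.2.1 ω.1.2.2.2.2 ω.2)
    · by_cases h2 : S.Fail P (S.ht l (pl P ω.1.1 ω.1.2.1 ω.1.2.2.2.2 ω.2))
        (mix (cols ω.1.1) ω.1.2.1 ω.1.2.2.1) ω.1.2.2.2.1
        (mix (tro D P ω.1.2.1 ω.1.1) ω.1.2.2.2.1 (pl P ω.1.1 ω.1.2.1 ω.1.2.2.2.2 ω.2))
      · exact Or.inr (Or.inr ⟨h1, h2⟩)
      · exact Or.inr (Or.inl ⟨hω, h2⟩)
    · exact Or.inl h1
  unfold stepErr
  rw [e1]
  linarith

theorem loop (hk : 2 ≤ k) (hm : 1 ≤ m) (S : SFam ι n D k s T h H J) (P : R → Fin m → Fin n)
    (hP : ∀ a t a' t', P a t = P a' t' → a = a' ∧ t = t') (two : Finset (Fin s))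
    (htwo : S.Two two) {s₁ G M : ℕ} (hs₁ : 1 ≤ s₁) (hM : 1 ≤ M)
    (hG : s * (2 * (Fintype.card ι + s)) + (Fintype.card ι + s) ≤ G)
    {e : ℝ} (he : 0 < e) (hem : 2 * e ≤ m) (l : ℕ) :
    PD P (fun (_ : Bool → Fin m) (x _ : Tr m R) (z' z : Co n D → Fin k) =>
      S.Fail P (S.ht l z) x z' z) ≤
      (l + 1) * stepErr k D s T h J m M s₁ G two.card (Fintype.card R) e := by
  induction l with
  | zero =>
    have h1 := step_one hk hm S P hP two htwo 0 hs₁ hM hG he hem
    have h2 : PD P (fun (_ : Bool → Fin m) (x _ : Tr m R) (z' z : Co n D → Fin k) =>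
        ¬ S.KE P 0 (S.ht 0 z) x z' z) = 0 := by
      unfold PD
      exact pr_eq_zero fun ω hω => hω (ke_zero S P)
    rw [h2] at h1
    push_cast
    linarith
  | succ l ih =>
    have h1 := step_one hk hm S P hP two htwo (l + 1) hs₁ hM hG he hem
    have h2 : PD P (fun (_ : Bool → Fin m) (x _ : Tr m R) (z' z : Co n D → Fin k) =>
        ¬ S.KE P (l + 1) (S.ht (l + 1) z) x z' z) ≤
        PD P (fun (_ : Bool → Fin m) (x _ : Tr m R) (z' z : Co n D → Fin k) =>
          S.Fail P (S.ht l z) x z' z) := by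
      unfold PD
      exact pr_mono fun ω hω => by
        by_contra hcon
        exact hω (ke_of_not_fail S P hcon)
    push_cast
    linarith

end Pool.Agent.H58.CE
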