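import Pool.Agent.H58.CE.EndA
import Pool.Agent.H58.CE.StepB
import Pool.Agent.H58.CD.Put

/-! [H58 CE ENDB] The planted law and the random law for the answer; the planted law as the tests.

PROOF of `end_all`. `PD P (S.acc z) ≤ PD P (S.acc z ∧ ¬ S.Fail P (S.hs z) x z' z) +
PD P (S.Fail P (S.hs z) x z' z)`. The second term is `≤ (T + 1) * stepErr ...` by `loop` with `l = T`
and `ht_top`. The first term: average `end_fix` over `x, xh, z', y` (`av_tp`, as in `step_av`):
`≤ RD (S.acc z ∨ S.Fail P (S.hs z) x z' z) + ... ≤ pr S.acc + nuB + ...` (`rand_fail`; `RD (S.acc z)` is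
`pr S.acc` by `av_const` for the other variables).
PROOF of `pd_test`. Write `PD` as nested averages; the event depends only on `tt, x, z, w`; the average
over `x : Tr m R` of a function of `x (false, t), x (true, t')` is the average over the two values
(`CD.av_inj` for `Bool → Bool × Fin m`, `b ↦ (b, tt b)`, and `Equiv.boolArrowEquivProd`); the average
over `tt` splits in the same way. The right side by `pr_prod`, `av_prod`
(`PTest = (Co n D → Fin k) × ((Fin n' × Fin n') × (Fin m × Fin m)) × Op k D`,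
`τ.y pos = plant τ.1 (pos a t) (pos b t') u v`). -/

set_option autoImplicit false
set_option maxHeartbeats 4000000

namespace Pool.Agent.H58.CE

open Pool.Agent.H58.OVAC Pool.Agent.H58.OVPR Pool.Agent.H58.OVT Pool.Agent.H58.CD

variable {ι R : Type} {n D k s T h H J m : ℕ} [Fintype ι]

section

variable {R' : Type} [Fintype R']

private theorem pr_ite {Ω : Type} [Fintype Ω] (s : Ω → Prop) [DecidablePred s] :
    pr s = av fun ω => if s ω then (1 : ℝ) else 0 := by
  unfold pr
  exact av_congr fun ω => by congr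

private theorem pd_eq [DecidableEq R'] (P : R' → Fin m → Fin n)
    (Q : (Bool → Fin m) → Tr m R' → Tr m R' →
    (Co n D → Fin k) → (Co n D → Fin k) → Prop) :
    PD P Q = av fun tt : Bool → Fin m => av fun x : Tr m R' => av fun xh : Tr m R' =>
      av fun z' : Co n D → Fin k => av fun z : Co n D → Fin k => pr fun w : Op k D =>
        Q tt x xh z' (pl P tt x z w) := by
  refine Eq.trans (pr_prod fun (ω : Om n D k m R') (w : Op k D) =>
    Q ω.1 ω.2.1 ω.2.2.1 ω.2.2.2.1 (pl P ω.1 ω.2.1 ω.2.2.2.2 w)) ?_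
  refine Eq.trans (av_prod fun (tt : Bool → Fin m)
    (r : Tr m R' × Tr m R' × (Co n D → Fin k) × (Co n D → Fin k)) => pr fun w : Op k D =>
    Q tt r.1 r.2.1 r.2.2.1 (pl P tt r.1 r.2.2.2 w)) ?_
  refine av_congr fun tt => ?_
  refine Eq.trans (av_prod fun (x : Tr m R')
    (r : Tr m R' × (Co n D → Fin k) × (Co n D → Fin k)) => pr fun w : Op k D =>
    Q tt x r.1 r.2.1 (pl P tt x r.2.2 w)) ?_
  refine av_congr fun x => ?_
  refine Eq.trans (av_prod fun (xh : Tr m R')
    (r : (Co n D → Fin k) × (Co n D → Fin k)) => pr fun w : Op k D =>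
    Q tt x xh r.1 (pl P tt x r.2 w)) ?_
  refine av_congr fun xh => ?_
  exact av_prod fun (z' : Co n D → Fin k) (z : Co n D → Fin k) => pr fun w : Op k D =>
    Q tt x xh z' (pl P tt x z w)

private theorem rd_eq [DecidableEq R'] (Q : (Bool → Fin m) → Tr m R' → Tr m R' →
    (Co n D → Fin k) → (Co n D → Fin k) → Prop) :
    RD Q = av fun tt : Bool → Fin m => av fun x : Tr m R' => av fun xh : Tr m R' =>
      av fun z' : Co n D → Fin k => pr fun z : Co n D → Fin k => Q tt x xh z' z := by
  refine Eq.trans (pr_prod fun (tt : Bool → Fin m)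
    (r : Tr m R' × Tr m R' × (Co n D → Fin k) × (Co n D → Fin k)) =>
    Q tt r.1 r.2.1 r.2.2.1 r.2.2.2) ?_
  refine av_congr fun tt => ?_
  refine Eq.trans (pr_prod fun (x : Tr m R')
    (r : Tr m R' × (Co n D → Fin k) × (Co n D → Fin k)) => Q tt x r.1 r.2.1 r.2.2) ?_
  refine av_congr fun x => ?_
  refine Eq.trans (pr_prod fun (xh : Tr m R')
    (r : (Co n D → Fin k) × (Co n D → Fin k)) => Q tt x xh r.1 r.2) ?_
  refine av_congr fun xh => ?_
  exact pr_prod fun (z' : Co n D → Fin k) (z : Co n D → Fin k) => Q tt x xh z' z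

private theorem gen_tp [Nonempty (Fin k)] (P : R' → Fin m → Fin n)
    (hP : ∀ a t a' t', P a t = P a' t' → a = a' ∧ t = t')
    (F : (Bool → Fin m) → Tr m R' → Tr m R' → (Co n D → Fin k) → (Co n D → Fin k) → ℝ) :
    (av fun tt : Bool → Fin m => av fun x : Tr m R' => av fun xh : Tr m R' =>
      av fun z' : Co n D → Fin k => av fun z : Co n D → Fin k => F tt x xh z' z) =
    av fun x : Tr m R' => av fun xh : Tr m R' => av fun z' : Co n D → Fin k =>
      av fun y : Co n D → Fin k => av fun tt : Bool → Fin m =>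
      av fun α : Fin m → Str k D => av fun β : Fin m → Str k D =>
        F tt x xh z' (tp P x α β y) := by
  have h1 : (av fun tt : Bool → Fin m => av fun x : Tr m R' => av fun xh : Tr m R' =>
      av fun z' : Co n D → Fin k => av fun z : Co n D → Fin k => F tt x xh z' z) =
      av fun tt : Bool → Fin m => av fun x : Tr m R' => av fun xh : Tr m R' =>
      av fun z' : Co n D → Fin k => av fun y : Co n D → Fin k =>
      av fun α : Fin m → Str k D => av fun β : Fin m → Str k D => F tt x xh z' (tp P x α β y) :=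
    av_congr fun tt => av_congr fun x => av_congr fun xh => av_congr fun z' =>
      (av_tp P hP x (F tt x xh z')).symm
  rw [h1, av_comm]
  refine av_congr fun x => ?_
  rw [av_comm]
  refine av_congr fun xh => ?_
  rw [av_comm]
  refine av_congr fun z' => ?_
  rw [av_comm]

end

theorem end_all [Fintype R] [DecidableEq R] [AddCommGroup R]
    (hk : 2 ≤ k) (hm : 1 ≤ m) (S : SFam ι n D k s T h H J) (P : R → Fin m → Fin n)
    (hP : ∀ a t a' t', P a t = P a' t' → a = a' ∧ t = t') (two : Finset (Fin s))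
    (htwo : S.Two two) {s₁ G M : ℕ} (hs₁ : 1 ≤ s₁) (hM : 1 ≤ M)
    (hG : s * (2 * (Fintype.card ι + s)) + (Fintype.card ι + s) ≤ G)
    {e : ℝ} (he : 0 < e) (hem : 2 * e ≤ m) :
    PD P (fun (_ : Bool → Fin m) (_ _ : Tr m R) (_ z : Co n D → Fin k) => S.acc z) ≤
      pr S.acc + nuB h s T s₁ G two.card (Fintype.card R) +
        2 ^ h * ((h + H) * ((J : ℝ) / M)) + 12 * decB m M h (h + H) e +
        (T + 1) * stepErr k D s T h J m M s₁ G two.card (Fintype.card R) e := by
  classical
  have hkn : Nonempty (Fin k) := ⟨⟨0, by omega⟩⟩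
  have hmn : Nonempty (Fin m) := ⟨⟨0, by omega⟩⟩
  have hRn : Nonempty R := ⟨0⟩
  obtain ⟨c, hc⟩ : ∃ c : ℝ, c = 2 ^ h * ((h + H) * ((J : ℝ) / M)) +
    12 * decB m M h (h + H) e := ⟨_, rfl⟩
  -- split off the bad event
  have h0 : PD P (fun (_ : Bool → Fin m) (_ _ : Tr m R) (_ z : Co n D → Fin k) => S.acc z) ≤
      PD P (fun (_ : Bool → Fin m) (x _ : Tr m R) (z' z : Co n D → Fin k) =>
        S.acc z ∧ ¬ S.Fail P (S.hs z) x z' z) +
      PD P (fun (_ : Bool → Fin m) (x _ : Tr m R) (z' z : Co n D → Fin k) =>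
        S.Fail P (S.hs z) x z' z) := by
    unfold PD
    refine le_trans (pr_mono fun ω hω => ?_) (pr_or_le _ _)
    dsimp only at hω ⊢
    by_cases h1 : S.Fail P (S.hs (pl P ω.1.1 ω.1.2.1 ω.1.2.2.2.2 ω.2)) ω.1.2.1 ω.1.2.2.2.1
        (pl P ω.1.1 ω.1.2.1 ω.1.2.2.2.2 ω.2)
    · exact Or.inr h1
    · exact Or.inl ⟨hω, h1⟩
  have hloop := loop hk hm S P hP two htwo hs₁ hM hG he hem T
  simp only [ht_top] at hloop
  -- the average of the right side of `end_fix`
  have hB : (av fun x : Tr m R => av fun _ : Tr m R => av fun z' : Co n D → Fin k =>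
      av fun y : Co n D → Fin k => av fun α : Fin m → Str k D =>
      pr fun β : Fin m → Str k D => S.acc (tp P x α β y) ∨
        S.Fail P (S.hs (tp P x α β y)) x z' (tp P x α β y)) ≤
      pr S.acc + nuB h s T s₁ G two.card (Fintype.card R) := by
    have e1 := rd_eq (fun (_ : Bool → Fin m) (x _ : Tr m R) (z' z : Co n D → Fin k) =>
      S.acc z ∨ S.Fail P (S.hs z) x z' z)
    have e2 := gen_tp P hP (fun (_ : Bool → Fin m) (x _ : Tr m R) (z' z : Co n D → Fin k) =>
      if S.acc z ∨ S.Fail P (S.hs z) x z' z then (1 : ℝ) else 0)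
    simp only [← pr_ite] at e2
    have e3 : (av fun x : Tr m R => av fun _ : Tr m R => av fun z' : Co n D → Fin k =>
        av fun y : Co n D → Fin k => av fun _ : Bool → Fin m => av fun α : Fin m → Str k D =>
        pr fun β : Fin m → Str k D => S.acc (tp P x α β y) ∨
          S.Fail P (S.hs (tp P x α β y)) x z' (tp P x α β y)) =
        av fun x : Tr m R => av fun _ : Tr m R => av fun z' : Co n D → Fin k =>
        av fun y : Co n D → Fin k => av fun α : Fin m → Str k D =>
        pr fun β : Fin m → Str k D => S.acc (tp P x α β y) ∨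
          S.Fail P (S.hs (tp P x α β y)) x z' (tp P x α β y) :=
      av_congr fun x => av_congr fun _ => av_congr fun z' => av_congr fun y => av_const _
    rw [← e3, ← e2, ← e1]
    have e4 : RD (fun (_ : Bool → Fin m) (x _ : Tr m R) (z' z : Co n D → Fin k) =>
        S.acc z ∨ S.Fail P (S.hs z) x z' z) ≤
        RD (fun (_ : Bool → Fin m) (_ _ : Tr m R) (_ z : Co n D → Fin k) => S.acc z) +
        RD (fun (_ : Bool → Fin m) (x _ : Tr m R) (z' z : Co n D → Fin k) =>
          S.Fail P (S.hs z) x z' z) := by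
      unfold RD
      exact pr_or_le _ _
    have e5 : RD (fun (_ : Bool → Fin m) (_ _ : Tr m R) (_ z : Co n D → Fin k) => S.acc z) =
        pr S.acc := by
      rw [rd_eq]
      simp only [av_const]
    have e6 := rand_fail hk S P hP two htwo S.hs hs₁ hG
    rw [e5] at e4
    linarith
  -- the main inequality
  have e1 := pd_eq P (fun (_ : Bool → Fin m) (x _ : Tr m R) (z' z : Co n D → Fin k) =>
      S.acc z ∧ ¬ S.Fail P (S.hs z) x z' z)
  have e2 := gen_tp P hP (fun (tt : Bool → Fin m) (x _ : Tr m R) (z' z : Co n D → Fin k) =>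
      pr fun w : Op k D => S.acc (pl P tt x z w) ∧
        ¬ S.Fail P (S.hs (pl P tt x z w)) x z' (pl P tt x z w))
  have e3 : (av fun x : Tr m R => av fun _ : Tr m R => av fun z' : Co n D → Fin k =>
      av fun y : Co n D → Fin k => av fun tt : Bool → Fin m =>
      av fun α : Fin m → Str k D => av fun β : Fin m → Str k D =>
      pr fun w : Op k D => S.acc (pl P tt x (tp P x α β y) w) ∧
        ¬ S.Fail P (S.hs (pl P tt x (tp P x α β y) w)) x z' (pl P tt x (tp P x α β y) w)) ≤
      av fun x : Tr m R => av fun _ : Tr m R => av fun z' : Co n D → Fin k =>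
      av fun y : Co n D → Fin k =>
        (av fun α : Fin m → Str k D => pr fun β : Fin m → Str k D =>
          S.acc (tp P x α β y) ∨ S.Fail P (S.hs (tp P x α β y)) x z' (tp P x α β y)) + c := by
    refine av_mono fun x => av_mono fun xh => av_mono fun z' => av_mono fun y => ?_
    have h1 := end_fix hk hm S P hP hM he hem x z' y
    have h2 : (av fun tt : Bool → Fin m => av fun α : Fin m → Str k D =>
        av fun β : Fin m → Str k D =>
        pr fun w : Op k D => S.acc (pl P tt x (tp P x α β y) w) ∧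
          ¬ S.Fail P (S.hs (pl P tt x (tp P x α β y) w)) x z' (pl P tt x (tp P x α β y) w)) =
        (av fun tt : Bool → Fin m => av fun α : Fin m → Str k D =>
          av fun β : Fin m → Str k D => av fun w : Op k D =>
          if S.acc (pl P tt x (tp P x α β y) w) ∧
            ¬ S.Fail P (S.hs (pl P tt x (tp P x α β y) w)) x z' (pl P tt x (tp P x α β y) w)
          then (1 : ℝ) else 0) :=
      av_congr fun tt => av_congr fun α => av_congr fun β => pr_ite _
    rw [h2, hc]
    refine le_trans (le_of_eq ?_) (h1.trans (le_of_eq ?_))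
    · refine av_congr fun tt => av_congr fun α => av_congr fun β => av_congr fun w => ?_
      congr
    · ring
  rw [← e2, ← e1] at e3
  simp only [av_const] at hB
  simp only [av_add, av_const] at e3
  rw [hc] at e3
  linarith

theorem pd_test {n' : ℕ} (hk : 2 ≤ k) (hm : 1 ≤ m) (hn' : 1 ≤ n') (P : Fin n' → Fin m → Fin n)
    (A : (Co n D → Fin k) → Prop) :
    PD P (fun (_ : Bool → Fin m) (_ _ : Tr m (Fin n')) (_ z : Co n D → Fin k) => A z) =
      pr (fun τ : PTest n k D n' m => A (τ.y P)) := by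
  classical
  have hkn : Nonempty (Fin k) := ⟨⟨0, by omega⟩⟩
  have hmn : Nonempty (Fin m) := ⟨⟨0, by omega⟩⟩
  have hRn : Nonempty (Fin n') := ⟨⟨0, by omega⟩⟩
  obtain ⟨G, hG⟩ : ∃ G : Fin n' → Fin n' → Fin m → Fin m → ℝ, G = fun a b t t' =>
    av fun z : Co n D → Fin k => pr fun w : Op k D =>
      A (plant z (P a t) (P b t') w.1.1 w.1.2) := ⟨_, rfl⟩
  have h1 : PD P (fun (_ : Bool → Fin m) (_ _ : Tr m (Fin n')) (_ z : Co n D → Fin k) => A z) =
      av fun tt : Bool → Fin m => av fun x : Tr m (Fin n') =>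
        G (x (false, tt false)) (x (true, tt true)) (tt false) (tt true) := by
    rw [pd_eq]
    simp only [av_const]
    rw [hG]
    rfl
  have h2 : ∀ tt : Bool → Fin m, (av fun x : Tr m (Fin n') =>
      G (x (false, tt false)) (x (true, tt true)) (tt false) (tt true)) =
      av fun r : Bool → Fin n' => G (r false) (r true) (tt false) (tt true) := by
    intro tt
    exact av_inj (fun b : Bool => (b, tt b)) (fun b b' hbb => congrArg Prod.fst hbb)
      (fun r : Bool → Fin n' => G (r false) (r true) (tt false) (tt true))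
  have h3 : pr (fun τ : PTest n k D n' m => A (τ.y P)) =
      av fun z : (Fin n' × Fin n') × (Fin m × Fin m) => G z.1.1 z.1.2 z.2.1 z.2.2 := by
    refine Eq.trans (pr_prod fun (y : Co n D → Fin k)
      (r : ((Fin n' × Fin n') × (Fin m × Fin m)) × {ab : Str k D × Str k D // Off ab.1 ab.2}) =>
      A (plant y (P r.1.1.1 r.1.2.1) (P r.1.1.2 r.1.2.2) r.2.1.1 r.2.1.2)) ?_
    have h4 : ∀ y : Co n D → Fin k,
        (pr fun r : ((Fin n' × Fin n') × (Fin m × Fin m)) ×
          {ab : Str k D × Str k D // Off ab.1 ab.2} =>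
          A (plant y (P r.1.1.1 r.1.2.1) (P r.1.1.2 r.1.2.2) r.2.1.1 r.2.1.2)) =
        av fun z : (Fin n' × Fin n') × (Fin m × Fin m) => pr fun w : Op k D =>
          A (plant y (P z.1.1 z.2.1) (P z.1.2 z.2.2) w.1.1 w.1.2) := fun y =>
      pr_prod fun (z : (Fin n' × Fin n') × (Fin m × Fin m))
        (w : {ab : Str k D × Str k D // Off ab.1 ab.2}) =>
        A (plant y (P z.1.1 z.2.1) (P z.1.2 z.2.2) w.1.1 w.1.2)
    rw [av_congr h4, av_comm, hG]
  rw [h1, av_congr h2, h3]
  rw [av_prod (fun (ab : Fin n' × Fin n') (t : Fin m × Fin m) => G ab.1 ab.2 t.1 t.2), av_comm,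
    ← av_equiv (Equiv.boolArrowEquivProd (Fin n'))]
  refine av_congr fun r => ?_
  rw [← av_equiv (Equiv.boolArrowEquivProd (Fin m))]
  rfl

end Pool.Agent.H58.CE
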