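import Pool.Agent.H58.CE.RunP
import Pool.Agent.H58.CD.Run

/-! [H58 CE NETP] The number of interacting pairs of the first false literal.

PROOF. Exactly as `CD.net_tail` in CD/Run.lean (copy the private constructions `rct`, `rbit`, `pg`,
`pq`, `rwr`, `nrun` and their lemmas from there, they are private), with `run_pc` (`r = 1`,
`s = s₁`, `N = 32 * s₁`; `3 * ((1+1) * s₁)^2 = 12 * s₁^2`) instead of `run_tail`, for the cell
`Sum.inr g` at time `T`; `pc (fun τ => Sum.inr (f τ)) σ = pc f σ` because `Sum.inr` is injective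
(`Uni4` of the images iff `Uni4`). -/

set_option autoImplicit false
set_option maxHeartbeats 4000000

namespace Pool.Agent.H58.CE

open Pool.Agent.H58.OVAC Pool.Agent.H58.OVPR Pool.Agent.H58.OVT Pool.Agent.H58.CD

section

variable {ι Ω : Type} [Fintype ι] {s T : ℕ}

/-- The contents of the cells. -/
private noncomputable def rct (N : Net ι Ω s T) (τ : ℕ) :
    ι ⊕ Fin s → Ω → Bool ⊕ Option ((ι ⊕ Fin s) × Bool)
  | Sum.inl i, x => Sum.inl (N.inp i x)
  | Sum.inr g, x => Sum.inr (if (N.layer g : ℕ) < τ then N.first g x else none)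

private def rbit {Q : Type} : Bool ⊕ Option Q → Bool
  | Sum.inl b => b
  | Sum.inr o => o.isNone

private noncomputable def pg (P : Fin (s * Fintype.card ((ι ⊕ Fin s) × Bool))) : Fin s :=
  (finProdFinEquiv.symm P).1

private noncomputable def pq (P : Fin (s * Fintype.card ((ι ⊕ Fin s) × Bool))) :
    (ι ⊕ Fin s) × Bool :=
  (Net.enum ι s).symm (finProdFinEquiv.symm P).2

private theorem pg_mk (g : Fin s) (q : (ι ⊕ Fin s) × Bool) :
    pg (finProdFinEquiv (g, Net.enum ι s q)) = g := by
  unfold pg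
  rw [Equiv.symm_apply_apply]

private theorem pq_mk (g : Fin s) (q : (ι ⊕ Fin s) × Bool) :
    pq (finProdFinEquiv (g, Net.enum ι s q)) = q := by
  unfold pq
  rw [Equiv.symm_apply_apply, Equiv.symm_apply_apply]

private theorem pgq (P : Fin (s * Fintype.card ((ι ⊕ Fin s) × Bool))) :
    P = finProdFinEquiv (pg P, Net.enum ι s (pq P)) := by
  unfold pg pq
  rw [Equiv.apply_symm_apply]
  exact (Equiv.apply_symm_apply finProdFinEquiv P).symm

private theorem lt_of_pgq {P P' : Fin (s * Fintype.card ((ι ⊕ Fin s) × Bool))}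
    (h : pg P = pg P') (hlt : P < P') : Net.enum ι s (pq P) < Net.enum ι s (pq P') := by
  have h1 := congrArg Fin.val (pgq P)
  have h2 := congrArg Fin.val (pgq P')
  rw [finProdFinEquiv_apply_val] at h1 h2
  simp only at h1 h2
  rw [h] at h1
  have h3 : (P : ℕ) < P' := hlt
  have h4 : ((Net.enum ι s (pq P) : Fin _) : ℕ) < (Net.enum ι s (pq P') : Fin _) := by omega
  exact h4

private theorem bit_rct (N : Net ι Ω s T) {g : Fin s} {q : (ι ⊕ Fin s) × Bool}
    (hq : q ∈ N.lits g) (x : Ω) : rbit (rct N (N.layer g) q.1 x) = N.ev q.1 x := by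
  obtain ⟨z, b⟩ := q
  cases z with
  | inl i => rfl
  | inr h =>
    have h1 : N.layer h < N.layer g := N.lower g _ hq h rfl
    have h2 : (N.layer h : ℕ) < N.layer g := h1
    show Option.isNone (if (N.layer h : ℕ) < N.layer g then N.first h x else none) = N.val h x
    rw [if_pos h2, Bool.eq_iff_iff, Option.isNone_iff_eq_none, N.first_eq_none_iff]

variable [DecidableEq ι]

private noncomputable def rwr (N : Net ι Ω s T) (τ : ℕ)
    (P : Fin (s * Fintype.card ((ι ⊕ Fin s) × Bool))) (b : Bool) :
    Option ((ι ⊕ Fin s) × (Bool ⊕ Option ((ι ⊕ Fin s) × Bool))) :=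
  if (N.layer (pg P) : ℕ) = τ ∧ pq P ∈ N.lits (pg P) ∧ b ≠ (pq P).2 then
    some (Sum.inr (pg P), Sum.inr (some (pq P))) else none

private theorem item_none (N : Net ι Ω s T) {τ : ℕ}
    {P : Fin (s * Fintype.card ((ι ⊕ Fin s) × Bool))} {b : Bool} {c : ι ⊕ Fin s}
    (h : Sum.inr (pg P) = c → ¬ ((N.layer (pg P) : ℕ) = τ ∧ pq P ∈ N.lits (pg P) ∧
      b ≠ (pq P).2)) : item (rwr N τ P b) c = none := by
  unfold rwr item
  split_ifs with h1
  · rw [Option.bind_some]
    simp only
    rw [if_neg fun h2 => h h2 h1]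
  · rfl

private theorem item_some (N : Net ι Ω s T) {τ : ℕ}
    {P : Fin (s * Fintype.card ((ι ⊕ Fin s) × Bool))} {b : Bool}
    (h : (N.layer (pg P) : ℕ) = τ ∧ pq P ∈ N.lits (pg P) ∧ b ≠ (pq P).2) :
    item (rwr N τ P b) (Sum.inr (pg P)) = some (Sum.inr (some (pq P))) := by
  unfold rwr item
  rw [if_pos h, Option.bind_some]
  exact if_pos rfl

private theorem run_hct (N : Net ι Ω s T) (τ : ℕ) (c : ι ⊕ Fin s) (x : Ω) :
    ((∀ k, item (rwr N τ k (rbit (rct N τ (pq k).1 x))) c = none) ∧
      rct N (τ + 1) c x = rct N τ c x) ∨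
    ∃ k, (∀ l < k, item (rwr N τ l (rbit (rct N τ (pq l).1 x))) c = none) ∧
      item (rwr N τ k (rbit (rct N τ (pq k).1 x))) c = some (rct N (τ + 1) c x) := by
  cases c with
  | inl i =>
    refine Or.inl ⟨fun k => item_none N fun h => ?_, rfl⟩
    exact absurd h Sum.inr_ne_inl
  | inr g =>
    by_cases hg : (N.layer g : ℕ) = τ
    · subst hg
      have hc1 : rct N ((N.layer g : ℕ) + 1) (Sum.inr g) x = Sum.inr (N.first g x) := by
        show Sum.inr (if (N.layer g : ℕ) < N.layer g + 1 then N.first g x else none) = _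
        rw [if_pos (Nat.lt_succ_self _)]
      cases hf : N.first g x with
      | none =>
        left
        have hv := (N.first_eq_none_iff g x).1 hf
        rw [N.val_iff] at hv
        refine ⟨fun k => item_none N fun h h' => ?_, ?_⟩
        · have h1 : pg k = g := Sum.inr_injective h
          rw [h1] at h'
          obtain ⟨-, h2, h3⟩ := h'
          rw [bit_rct N h2] at h3
          exact h3 (hv _ h2)
        · rw [hc1, hf]
          show _ = Sum.inr (if (N.layer g : ℕ) < N.layer g then N.first g x else none)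
          rw [if_neg (lt_irrefl _)]
      | some q =>
        right
        obtain ⟨⟨h1, h2⟩, h3⟩ := (first_eq_some_iff N g x q).1 hf
        obtain ⟨k, hk⟩ : ∃ k, k = finProdFinEquiv (g, Net.enum ι s q) := ⟨_, rfl⟩
        have hkg : pg k = g := by rw [hk, pg_mk]
        have hkq : pq k = q := by rw [hk, pq_mk]
        refine ⟨k, fun l hl => item_none N fun h h' => ?_, ?_⟩
        · have h4 : pg l = g := Sum.inr_injective h
          have h7 := lt_of_pgq (h4.trans hkg.symm) hl
          rw [hkq] at h7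
          rw [h4] at h'
          obtain ⟨-, h5, h6⟩ := h'
          rw [bit_rct N h5] at h6
          exact h6 (h3 _ h5 h7)
        · have h4 := item_some N (τ := (N.layer g : ℕ)) (P := k)
            (b := rbit (rct N (N.layer g) (pq k).1 x)) (by
              rw [hkg, hkq, bit_rct N h1]
              exact ⟨rfl, h1, h2⟩)
          rw [hc1, hf]
          rw [hkg] at h4
          rw [h4, hkq]
    · left
      refine ⟨fun k => item_none N fun h h' => ?_, ?_⟩
      · have h1 : pg k = g := Sum.inr_injective h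
        rw [h1] at h'
        exact hg h'.1
      · show Sum.inr (if (N.layer g : ℕ) < τ + 1 then N.first g x else none) =
          Sum.inr (if (N.layer g : ℕ) < τ then N.first g x else none)
        by_cases h1 : (N.layer g : ℕ) < τ
        · rw [if_pos h1, if_pos (by omega)]
        · rw [if_neg h1, if_neg (by omega)]

private noncomputable def nrun (N : Net ι Ω s T) :
    Run (s * Fintype.card ((ι ⊕ Fin s) × Bool)) (ι ⊕ Fin s) Bool
      (Bool ⊕ Option ((ι ⊕ Fin s) × Bool)) Ω where
  st τ P x := match τ with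
    | 0 => false
    | τ + 1 => rbit (rct N τ (pq P).1 x)
  ct := rct N
  read _ P _ := (pq P).1
  next _ _ _ w := rbit w
  write := rwr N
  hst _ _ _ := rfl
  hct := run_hct N

end

private theorem card_filter_iff {V : Type} (S : Finset V) (p q : V → Prop)
    (hp : DecidablePred p) (hq : DecidablePred q) (h : ∀ i, p i ↔ q i) :
    (@Finset.filter V p hp S).card = (@Finset.filter V q hq S).card := by
  obtain rfl : p = q := funext fun i => propext (h i)
  congr

private theorem uni4_inr {X Y : Type} (a b c d : Y) :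
    Uni4 (Sum.inr a : X ⊕ Y) (Sum.inr b) (Sum.inr c) (Sum.inr d) ↔ Uni4 a b c d := by
  unfold Uni4
  rw [Sum.inr_injective.eq_iff, Sum.inr_injective.eq_iff, Sum.inr_injective.eq_iff,
    Sum.inr_injective.eq_iff]

private theorem pc_inr {V X Y : Type} [Fintype V] (f : (V → Bool) → Y) (σ : V → Bool) :
    pc (fun τ => (Sum.inr (f τ) : X ⊕ Y)) σ = pc f σ := by
  unfold pc
  refine card_filter_iff _ _ _ _ _ fun q => ?_
  exact and_congr Iff.rfl (not_congr (uni4_inr _ _ _ _))

theorem net_pc {ι V : Type} [Fintype ι] [Fintype V] [DecidableEq V] {s T : ℕ}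
    (N : Net ι (V → Bool) s T) (hin : ∀ i, Dt 1 (N.inp i)) {s₁ G : ℕ} (hs₁ : 1 ≤ s₁)
    (hG : s * (2 * (Fintype.card ι + s)) + (Fintype.card ι + s) ≤ G) (g : Fin s) :
    pr (fun σ : V → Bool => pB T s₁ < pc (N.first g) σ) ≤ tailP T s₁ G := by
  classical
  have hq : Quiet 1 (nrun N) := fun τ hτ => absurd (one_dvd _) hτ
  have hs : ∀ P, Dt s₁ ((nrun N).st 0 P) := fun P => Dt.of_const fun _ _ => rfl
  have hc : ∀ c, Dt s₁ ((nrun N).ct 0 c) := by
    intro c
    cases c with
    | inl i =>
      have h1 := ((hin i).mono hs₁).comp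
        (fun b => (Sum.inl b : Bool ⊕ Option ((ι ⊕ Fin s) × Bool)))
      exact h1
    | inr g => exact Dt.of_const fun _ _ => rfl
  have hcard : s * Fintype.card ((ι ⊕ Fin s) × Bool) + Fintype.card (ι ⊕ Fin s) ≤ G := by
    rw [Fintype.card_prod, Fintype.card_sum, Fintype.card_bool, Fintype.card_fin,
      mul_comm (Fintype.card ι + s) 2]
    exact hG
  have h := run_pc (r := 1) (s := s₁) (N := 32 * s₁) le_rfl hs₁ (by omega) T V _ _ _ _
    (nrun N) hq hs hc G hcard T (by omega) (Sum.inr g)
  have h1 : (nrun N).ct T (Sum.inr g) = fun σ => Sum.inr (N.first g σ) := by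
    funext σ
    show Sum.inr (if (N.layer g : ℕ) < T then N.first g σ else none) = _
    rw [if_pos (N.layer g).2]
  have h2 : 3 * ((1 + 1) * s₁) ^ 2 * (2 * (32 * s₁) ^ 2) ^ T = pB T s₁ := by
    unfold pB
    ring
  rw [h1, h2] at h
  simp only [pc_inr] at h
  unfold tailP
  push_cast at h
  exact h

end Pool.Agent.H58.CE
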