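import Pool.Agent.H58.CE.Cert
import Pool.Agent.H58.CE.Part

/-! [H58 CE RUNP] The number of interacting pairs of the contents of a run.

PROOF. Copy the proof of `OVT.run_tail` (OVT/Tail.lean), only for the cells `c`, with `pc` instead of
`sens`, `pc_le_of_dt` instead of `sens_le_of_dt`, `pc_part` instead of `sens_part`. Induction on `T`.
`T = 0`: `τ = 0` and `pc (R.ct 0 c) σ ≤ 3 s² ≤ 3 ((r+1) s)²`. Step: as there, let
`shiftBy r R` composed with the restriction given by `ω, j`; it is quiet, and off a set of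
probability `≤ G / 2^s` of `ω` (`switch`, `dt_st`, `dt_ct`, `exists_list`) all its initial states and
contents satisfy `Dt s`. So with `P_T = 3 ((r+1) s)² (2 N²)^T` and `δ_T = T (2 N²)^T G / 2^s`:
`av_ω pr_σ (P_T < pc (restr ω j u) σ) ≤ G / 2^s + δ_T` for `u = R.ct (r + τ) c`, and `pc_part` gives
`pr (P_(T+1) < pc u σ) ≤ 2 N² (G / 2^s + δ_T) ≤ (T+1) (2 N²)^(T+1) G / 2^s`. For `τ < r` the content
is the one at time `0` (`Quiet.ct_zero`), which has `pc ≤ 3 s²`. -/

set_option autoImplicit false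
set_option maxHeartbeats 4000000

namespace Pool.Agent.H58.CE

open Pool.Agent.H58.OVAC Pool.Agent.H58.OVPR Pool.Agent.H58.OVT Pool.Agent.H58.CD

theorem run_pc {r s N : ℕ} (hr : 1 ≤ r) (hs1 : 1 ≤ s) (hN : 16 * ((r + 1) * s) ≤ N) (T : ℕ) :
    ∀ (V : Type) [Fintype V] [DecidableEq V] (p : ℕ) (Cell St Wd : Type) [Fintype Cell]
    [DecidableEq Cell] (R : Run p Cell St Wd (V → Bool)), Quiet r R →
    (∀ P, Dt s (R.st 0 P)) → (∀ c, Dt s (R.ct 0 c)) → ∀ G : ℕ, p + Fintype.card Cell ≤ G →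
    ∀ τ ≤ r * T, ∀ c,
    pr (fun σ : V → Bool => 3 * ((r + 1) * s) ^ 2 * (2 * N ^ 2) ^ T < pc (R.ct τ c) σ) ≤
      T * (2 * (N : ℝ) ^ 2) ^ T * G / 2 ^ s := by
  have hw1 : 1 ≤ (r + 1) * s := Nat.mul_pos (Nat.succ_pos r) hs1
  have hN2 : 2 ≤ N := by omega
  have hN1' : (1 : ℝ) ≤ N := by exact_mod_cast (by omega : 1 ≤ N)
  have hK1 : (1 : ℝ) ≤ 2 * (N : ℝ) ^ 2 := by nlinarith
  have hsw : s ≤ (r + 1) * s := by
    calc s = 1 * s := (one_mul s).symm
      _ ≤ (r + 1) * s := Nat.mul_le_mul_right _ (by omega)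
  have hsw2 : 3 * s ^ 2 ≤ 3 * ((r + 1) * s) ^ 2 :=
    Nat.mul_le_mul_left _ (Nat.pow_le_pow_left hsw 2)
  induction T with
  | zero =>
    intro V _ _ p Cell St Wd _ _ R hq hs hc G _ τ hτ c
    have hτ0 : τ = 0 := by simpa using hτ
    subst hτ0
    rw [pr_eq_zero]
    · positivity
    · intro σ hσ
      have := pc_le_of_dt (hc c) σ
      rw [pow_zero, mul_one] at hσ
      omega
  | succ T ih =>
    intro V _ _ p Cell St Wd _ _ R hq hs0 hc0 G hG τ hτ
    classical
    have hNe : Nonempty (Fin N) := ⟨⟨0, by omega⟩⟩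
    -- one colour
    have hgood : ∀ (j : Fin N) (ω : V → Fin N × Bool),
        (¬ ∃ z ∈ (Finset.univ : Finset (Fin p ⊕ Cell)),
          Sum.elim (fun P => ¬ Dt s (restr ω j (R.st r P)))
            (fun c => ¬ Dt s (restr ω j (R.ct r c))) z) →
        ∀ τ ≤ r * T, ∀ c, pr (fun σ : V → Bool => 3 * ((r + 1) * s) ^ 2 * (2 * N ^ 2) ^ T <
          pc (restr ω j (R.ct (r + τ) c)) σ) ≤ T * (2 * (N : ℝ) ^ 2) ^ T * G / 2 ^ s := by
      intro j ω hgood τ hτ
      push Not at hgood
      refine ih V p Cell St Wd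
        ((shiftBy r R).comp fun (τ : V → Bool) (i : V) => if (ω i).1 = j then τ i else (ω i).2)
        ?_ ?_ ?_ G hG τ hτ
      · exact hq.shiftBy
      · intro P
        have h1 : ¬¬ Dt s (restr ω j (R.st r P)) := hgood (Sum.inl P) (Finset.mem_univ _)
        exact not_not.1 h1
      · intro c
        have h1 : ¬¬ Dt s (restr ω j (R.ct r c)) := hgood (Sum.inr c) (Finset.mem_univ _)
        exact not_not.1 h1
    have hbad : ∀ j : Fin N, pr (fun ω : V → Fin N × Bool =>
        ∃ z ∈ (Finset.univ : Finset (Fin p ⊕ Cell)),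
          Sum.elim (fun P => ¬ Dt s (restr ω j (R.st r P)))
            (fun c => ¬ Dt s (restr ω j (R.ct r c))) z) ≤ (G : ℝ) / 2 ^ s := by
      intro j
      refine (pr_exists_le _ _).trans ?_
      have h3 : ∀ z ∈ (Finset.univ : Finset (Fin p ⊕ Cell)),
          pr (fun ω : V → Fin N × Bool => Sum.elim (fun P => ¬ Dt s (restr ω j (R.st r P)))
            (fun c => ¬ Dt s (restr ω j (R.ct r c))) z) ≤ (1 / 2) ^ s := by
        rintro (P | c) -
        · have h4 := dt_st hq hs0 hc0 r le_rfl P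
          obtain ⟨L, hL1, hL2⟩ := exists_list (p := 0) (fun k _ => Fin.elim0 k)
            (fun k => Fin.elim0 k) (R.st r P) h4 (R.st r P)
            fun σ => Or.inl ⟨fun k => Fin.elim0 k, rfl⟩
          have h5 : ∀ y0 : St, pr (fun ω : V → Fin N × Bool =>
              ¬ Dt s (restr ω j (R.st r P))) ≤ (1 / 2) ^ s := by
            intro y0
            have h6 := switch (s := s) hN hw1 j L hL1 y0
            rw [hL2 y0] at h6
            exact h6
          exact h5 (R.st r P fun _ => false)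
        · obtain ⟨L, hL1, hL2⟩ := dt_ct hr hq hs0 hc0 c
          have h6 := switch (s := s) hN hw1 j L hL1 (R.ct r c fun _ => false)
          rw [hL2] at h6
          exact h6
      refine (Finset.sum_le_sum h3).trans ?_
      rw [Finset.sum_const, nsmul_eq_mul, Finset.card_univ, Fintype.card_sum, Fintype.card_fin,
        one_div, inv_pow, ← div_eq_mul_inv]
      apply div_le_div_of_nonneg_right _ (by positivity)
      exact_mod_cast hG
    have hmix : ∀ {Y : Type} (u : (V → Bool) → Y),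
        (∀ (j : Fin N) (ω : V → Fin N × Bool),
          (¬ ∃ z ∈ (Finset.univ : Finset (Fin p ⊕ Cell)),
            Sum.elim (fun P => ¬ Dt s (restr ω j (R.st r P)))
              (fun c => ¬ Dt s (restr ω j (R.ct r c))) z) →
          pr (fun σ : V → Bool => 3 * ((r + 1) * s) ^ 2 * (2 * N ^ 2) ^ T <
            pc (restr ω j u) σ) ≤ T * (2 * (N : ℝ) ^ 2) ^ T * G / 2 ^ s) →
        pr (fun σ : V → Bool => 3 * ((r + 1) * s) ^ 2 * (2 * N ^ 2) ^ (T + 1) < pc u σ) ≤
          ((T + 1 : ℕ) : ℝ) * (2 * (N : ℝ) ^ 2) ^ (T + 1) * G / 2 ^ s := by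
      intro Y u hu
      have h1 : ∀ j : Fin N, (av fun ω : V → Fin N × Bool => pr fun σ : V → Bool =>
          3 * ((r + 1) * s) ^ 2 * (2 * N ^ 2) ^ T < pc (restr ω j u) σ) ≤
          (G : ℝ) / 2 ^ s + T * (2 * (N : ℝ) ^ 2) ^ T * G / 2 ^ s := by
        intro j
        have hω : ∀ ω : V → Fin N × Bool, (pr fun σ : V → Bool =>
            3 * ((r + 1) * s) ^ 2 * (2 * N ^ 2) ^ T < pc (restr ω j u) σ) ≤
            (if ∃ z ∈ (Finset.univ : Finset (Fin p ⊕ Cell)),
              Sum.elim (fun P => ¬ Dt s (restr ω j (R.st r P)))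
                (fun c => ¬ Dt s (restr ω j (R.ct r c))) z then (1 : ℝ) else 0) +
              T * (2 * (N : ℝ) ^ 2) ^ T * G / 2 ^ s := by
          intro ω
          by_cases hb : ∃ z ∈ (Finset.univ : Finset (Fin p ⊕ Cell)),
              Sum.elim (fun P => ¬ Dt s (restr ω j (R.st r P)))
                (fun c => ¬ Dt s (restr ω j (R.ct r c))) z
          · rw [if_pos hb]
            have h5 : (0 : ℝ) ≤ T * (2 * (N : ℝ) ^ 2) ^ T * G / 2 ^ s := by positivity
            have h6 := pr_le_one (fun σ : V → Bool => 3 * ((r + 1) * s) ^ 2 * (2 * N ^ 2) ^ T <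
              pc (restr ω j u) σ)
            linarith
          · rw [if_neg hb, zero_add]
            exact hu j ω hb
        refine (av_mono hω).trans ?_
        rw [av_add]
        have h8 : (av fun _ : V → Fin N × Bool => T * (2 * (N : ℝ) ^ 2) ^ T * G / 2 ^ s) =
            T * (2 * (N : ℝ) ^ 2) ^ T * G / 2 ^ s := av_const _
        rw [h8]
        have h9 := hbad j
        unfold pr at h9
        have h10 : (av fun ω : V → Fin N × Bool =>
            @ite ℝ (∃ z ∈ (Finset.univ : Finset (Fin p ⊕ Cell)),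
              Sum.elim (fun P => ¬ Dt s (restr ω j (R.st r P)))
                (fun c => ¬ Dt s (restr ω j (R.ct r c))) z) (Classical.propDecidable _) 1 0) ≤
            (G : ℝ) / 2 ^ s := h9
        refine add_le_add (le_of_eq_of_le (av_congr fun ω => ?_) h10) le_rfl
        congr
      have h2 := pc_part (by omega : 1 ≤ N) u (3 * ((r + 1) * s) ^ 2 * (2 * N ^ 2) ^ T) h1
      refine le_trans (pr_mono fun σ hσ => ?_) (h2.trans ?_)
      · calc 2 * N ^ 2 * (3 * ((r + 1) * s) ^ 2 * (2 * N ^ 2) ^ T) =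
            3 * ((r + 1) * s) ^ 2 * (2 * N ^ 2) ^ (T + 1) := by ring
          _ < _ := hσ
      · obtain ⟨K, hK⟩ : ∃ K : ℝ, K = 2 * (N : ℝ) ^ 2 := ⟨_, rfl⟩
        rw [← hK] at hK1 ⊢
        have h3 : (1 : ℝ) ≤ K ^ T := one_le_pow₀ hK1
        have h4 : (0 : ℝ) ≤ (G : ℝ) / 2 ^ s := by positivity
        have h5 : K * ((G : ℝ) / 2 ^ s + T * K ^ T * G / 2 ^ s) =
            (K + T * K ^ (T + 1)) * (G / 2 ^ s) := by ring
        have h6 : ((T + 1 : ℕ) : ℝ) * K ^ (T + 1) * G / 2 ^ s =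
            (K * K ^ T + T * K ^ (T + 1)) * (G / 2 ^ s) := by
          push_cast
          ring
        rw [h5, h6]
        apply mul_le_mul_of_nonneg_right _ h4
        have h7 : K * 1 ≤ K * K ^ T := mul_le_mul_of_nonneg_left h3 (by linarith)
        linarith
    have hzero : ∀ {Y : Type} (u : (V → Bool) → Y), Dt s u →
        pr (fun σ : V → Bool => 3 * ((r + 1) * s) ^ 2 * (2 * N ^ 2) ^ (T + 1) < pc u σ) ≤
          ((T + 1 : ℕ) : ℝ) * (2 * (N : ℝ) ^ 2) ^ (T + 1) * G / 2 ^ s := by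
      intro Y u hu
      rw [pr_eq_zero]
      · positivity
      · intro σ hσ
        have h1 := pc_le_of_dt hu σ
        have h2 : 1 ≤ (2 * N ^ 2) ^ (T + 1) := Nat.one_le_pow _ _ (by positivity)
        have h3 : 3 * ((r + 1) * s) ^ 2 ≤ 3 * ((r + 1) * s) ^ 2 * (2 * N ^ 2) ^ (T + 1) :=
          Nat.le_mul_of_pos_right _ (by omega)
        omega
    by_cases hlt : τ < r
    · intro c
      refine hzero _ ?_
      have h1 : R.ct τ c = R.ct 0 c := by
        funext σ
        exact hq.ct_zero c σ τ hlt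
      rw [h1]
      exact hc0 c
    · obtain ⟨τ', rfl⟩ : ∃ τ', τ = r + τ' := ⟨τ - r, by omega⟩
      have hτ' : τ' ≤ r * T := by
        rw [Nat.mul_succ] at hτ
        omega
      exact fun c => hmix _ fun j ω h => hgood j ω h τ' hτ' c

end Pool.Agent.H58.CE
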