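import Pool.Agent.H58.CE.Base
import Pool.Agent.H58.CD.Side

/-! [H58 CE SIDE2] The planted law against the product law for trouble at one pair of positions,
general form.

PROOF. Exactly as `CD.side` in CD/Side.lean (read its header; `fu u' = pos bA (false, i) u'`,
`fv v' = pos bB (true, j) v'` there with `bA = bB = x`; the only thing which is used of `fu` is that
`N.first g ∘ fu` has a small influence and that an input composed with `fu` depends on at most one
coordinate). The hypotheses `hA`, `hB` of `CD.side` are proved here for the nets `N.comp fu`,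
`N.comp fv` over `Fin D → Fin k` by `CD.net_infl` (`V = Fin D`; the inputs are `DepOne` by
`CD.depOne_pos`), with `η = D * tailB T s₁ G` and `S = snB T s₁`. -/

set_option autoImplicit false
set_option maxHeartbeats 4000000

namespace Pool.Agent.H58.CE

open Pool.Agent.H58.OVAC Pool.Agent.H58.OVPR Pool.Agent.H58.OVT Pool.Agent.H58.CD

private theorem sd_inp {ι : Type} [Fintype ι] {n D s T k : ℕ}
    (N : Net ι (Co n D → Fin k) s T) (hin : ∀ i, DepOne (N.inp i)) (x : Co n D → Fin k)
    (p : Bool × Fin n) (i : ι) (u : Str k D) :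
    infl (fun u' : Fin D → Fin k => N.inp i (pos x p u')) u ≤ 1 := by
  classical
  obtain ⟨P, hP, hd⟩ := hin i
  unfold infl
  calc _ ≤ ∑ l : Fin D, if ((p, l) : Co n D) ∈ P then (1 : ℝ) else 0 := by
        refine Finset.sum_le_sum fun l _ => ?_
        split_ifs with h
        · exact pr_le_one _
        · refine (pr_eq_zero fun c hc => hc ?_).le
          refine hd _ _ fun q hq => ?_
          unfold pos
          split_ifs with h1
          · rw [Function.update_of_ne]
            intro h2
            apply h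
            rw [← h1, ← h2]
            exact hq
          · rfl
    _ = ((Finset.univ.filter fun l : Fin D => ((p, l) : Co n D) ∈ P).card : ℝ) := by
        rw [Finset.sum_boole]
    _ ≤ (P.card : ℝ) := by
        have h1 : (Finset.univ.filter fun l : Fin D => ((p, l) : Co n D) ∈ P).card ≤ P.card := by
          refine Finset.card_le_card_of_injOn (fun l => ((p, l) : Co n D)) (fun l hl => ?_) ?_
          · exact (Finset.mem_filter.1 hl).2
          · intro l _ l' _ he
            exact (Prod.mk.inj he).2
        exact_mod_cast h1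
    _ ≤ 1 := by exact_mod_cast hP

private theorem sd_ev {ι : Type} [Fintype ι] {n D s T k : ℕ}
    (N : Net ι (Co n D → Fin k) s T) (hin : ∀ i, DepOne (N.inp i)) (x : Co n D → Fin k)
    (p : Bool × Fin n) {S : ℕ} {u : Str k D}
    (h : ∀ g, infl (fun u' : Fin D → Fin k => N.first g (pos x p u')) u ≤ (S : ℝ) + 1)
    (z : ι ⊕ Fin s) :
    (∑ l, pr fun c : Fin k => N.ev z (pos x p (Function.update u l c)) ≠ N.ev z (pos x p u)) ≤
      (S : ℝ) + 1 := by
  rcases z with i | g
  · have h1 := sd_inp N hin x p i u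
    have h2 : (0 : ℝ) ≤ S := Nat.cast_nonneg _
    refine le_trans (le_trans (le_of_eq rfl) h1) (by linarith)
  · refine le_trans ?_ (h g)
    unfold infl
    refine Finset.sum_le_sum fun l _ => pr_mono fun c hc he => hc ?_
    have e : ∀ w, N.ev (Sum.inr g) w = (N.first g w).isNone := by
      intro w
      show N.val g w = _
      have h2 := N.first_eq_none_iff g w
      cases h3 : N.first g w with
      | none =>
        rw [h3] at h2
        simpa using h2.1 rfl
      | some q =>
        rw [h3] at h2
        cases h4 : N.val g w with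
        | false => rfl
        | true => exact absurd (h2.2 h4) (by simp)
    have he' : N.first g (pos x p (Function.update u l c)) = N.first g (pos x p u) := he
    rw [e, e, he']

open Classical in
private theorem side_gen {ι : Type} [Fintype ι] {n D s T k : ℕ} (hk : 2 ≤ k)
    (N : Net ι (Co n D → Fin k) s T) (hin : ∀ i, DepOne (N.inp i)) (x : Co n D → Fin k)
    (bs : Bool × Fin n → Co n D → Fin k) (i j : Fin n) (two : Fin s → Prop) {S : ℕ} {η : ℝ}
    (hA : ∀ g, (pr fun u : Str k D => (S : ℝ) + 1 <
      infl (fun u' : Fin D → Fin k => N.first g (pos (bs (false, i)) (false, i) u')) u) ≤ η)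
    (hB : ∀ g, (pr fun v : Str k D => (S : ℝ) + 1 <
      infl (fun v' : Fin D → Fin k => N.first g (pos (bs (true, j)) (true, j) v')) v) ≤ η) :
    avR (fun u v : Str k D => if ∃ g, two g ∧
        Hit N g x (pos (bs (false, i)) (false, i) u) (pos (bs (true, j)) (true, j) v) then (1 : ℝ) else 0) ≤
      (av fun u : Str k D => pr fun v : Str k D => ∃ g, two g ∧
        Hit N g x (pos (bs (false, i)) (false, i) u) (pos (bs (true, j)) (true, j) v)) +
      2 / k * (4 * (S + 1) + 2 * (D * (s * η))) := by
  have hS : (0 : ℝ) ≤ S := Nat.cast_nonneg _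
  have hne : Nonempty (Fin k) := ⟨⟨0, by omega⟩⟩
  have hq0 : (0 : ℝ) < k := by
    have : 0 < k := by omega
    exact_mod_cast this
  -- the bad sets
  obtain ⟨BB, hBB⟩ : ∃ BB : Bool × Fin n → Str k D → Prop, BB = fun p u => ∃ g : Fin s,
      (S : ℝ) + 1 < infl (fun u' : Fin D → Fin k => N.first g (pos (bs p) p u')) u := ⟨_, rfl⟩
  obtain ⟨M, hM⟩ : ∃ M : Bool × Fin n → Str k D → ℝ, M = fun p u =>
      2 * ((S : ℝ) + 1) + D * (if BB p u then (1 : ℝ) else 0) := ⟨_, rfl⟩
  have hM1 : ∀ p u, BB p u → 2 * ((S : ℝ) + 1) + D ≤ M p u := by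
    intro p u h
    rw [hM]
    show _ ≤ 2 * ((S : ℝ) + 1) + D * (if BB p u then (1 : ℝ) else 0)
    rw [if_pos h, mul_one]
  have hM2 : ∀ p u, 2 * ((S : ℝ) + 1) ≤ M p u := by
    intro p u
    rw [hM]
    show _ ≤ 2 * ((S : ℝ) + 1) + D * (if BB p u then (1 : ℝ) else 0)
    have : (0 : ℝ) ≤ D * (if BB p u then (1 : ℝ) else 0) := by
      refine mul_nonneg (Nat.cast_nonneg _) ?_
      split_ifs <;> norm_num
    linarith
  have hMav : ∀ p, (∀ g, (pr fun u : Str k D => (S : ℝ) + 1 <
      infl (fun u' : Fin D → Fin k => N.first g (pos (bs p) p u')) u) ≤ η) →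
      av (M p) ≤ 2 * ((S : ℝ) + 1) + D * (s * η) := by
    intro p hp
    have h1 : av (M p) = 2 * ((S : ℝ) + 1) + D * pr (BB p) := by
      rw [hM]
      show (av fun u => 2 * ((S : ℝ) + 1) + D * (if BB p u then (1 : ℝ) else 0)) = _
      rw [av_add, av_const, av_mul_left]
      rfl
    have h2 : pr (BB p) ≤ s * η := by
      have h3 : pr (BB p) = pr fun u : Str k D => ∃ g ∈ (Finset.univ : Finset (Fin s)),
          (S : ℝ) + 1 < infl (fun u' : Fin D → Fin k => N.first g (pos (bs p) p u')) u := by
        refine pr_congr fun u => ?_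
        rw [hBB]
        simp
      rw [h3]
      refine (pr_exists_le _ _).trans ?_
      refine (Finset.sum_le_sum fun g _ => hp g).trans ?_
      rw [Finset.sum_const, Finset.card_univ, Fintype.card_fin, nsmul_eq_mul]
    rw [h1]
    have h4 : (0 : ℝ) ≤ D := Nat.cast_nonneg _
    have := mul_le_mul_of_nonneg_left h2 h4
    linarith
  have main := interp hk (fun u v : Str k D => ∃ g, two g ∧
    Hit N g x (pos (bs (false, i)) (false, i) u) (pos (bs (true, j)) (true, j) v)) (M (false, i)) (M (true, j))
    (fun u => le_trans (by linarith) (hM2 _ u)) (fun v => le_trans (by linarith) (hM2 _ v)) ?_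
  · have e0 : ∀ Φ Ψ : Str k D → Str k D → ℝ, (∀ u v, Φ u v = Ψ u v) → avR Φ = avR Ψ :=
      fun Φ Ψ h => by rw [funext fun u => funext fun v => h u v]
    refine (e0 _ _ fun u v => ?_).trans_le (main.trans ?_)
    · by_cases h : ∃ g, two g ∧ Hit N g x (pos (bs (false, i)) (false, i) u) (pos (bs (true, j)) (true, j) v)
      · rw [if_pos h, if_pos h]
      · rw [if_neg h, if_neg h]
    have h1 := hMav _ hA
    have h2 := hMav _ hB
    have h3 : 2 / (k : ℝ) * (av (M (false, i)) + av (M (true, j))) ≤
        2 / (k : ℝ) * (4 * (S + 1) + 2 * (D * (s * η))) := by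
      refine mul_le_mul_of_nonneg_left (by linarith) (by positivity)
    linarith
  intro u v hW
  -- bad strings
  have hbad : BB (false, i) u ∨ BB (true, j) v → (∑ l : Fin D, (pr fun c : Fin k =>
      ¬ ∃ g, two g ∧ Hit N g x (pos (bs (false, i)) (false, i) (Function.update u l c))
        (pos (bs (true, j)) (true, j) (Function.update v l c)))) ≤ M (false, i) u + M (true, j) v := by
    intro h
    have h1 : (∑ l : Fin D, (pr fun c : Fin k =>
        ¬ ∃ g, two g ∧ Hit N g x (pos (bs (false, i)) (false, i) (Function.update u l c))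
          (pos (bs (true, j)) (true, j) (Function.update v l c)))) ≤ (D : ℝ) := by
      refine (Finset.sum_le_sum fun l _ => pr_le_one _).trans ?_
      simp
    rcases h with h | h
    · have h2 := hM1 _ _ h
      have h3 := hM2 (true, j) v
      linarith
    · have h2 := hM1 _ _ h
      have h3 := hM2 (false, i) u
      linarith
  by_cases hb : BB (false, i) u ∨ BB (true, j) v
  · exact hbad hb
  push Not at hb
  obtain ⟨hb1, hb2⟩ := hb
  have hfA : ∀ g, infl (fun u' : Fin D → Fin k => N.first g (pos (bs (false, i)) (false, i) u')) u ≤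
      (S : ℝ) + 1 := by
    intro g
    by_contra h
    apply hb1
    rw [hBB]
    exact ⟨g, not_le.1 h⟩
  have hfB : ∀ g, infl (fun u' : Fin D → Fin k => N.first g (pos (bs (true, j)) (true, j) u')) v ≤
      (S : ℝ) + 1 := by
    intro g
    by_contra h
    apply hb2
    rw [hBB]
    exact ⟨g, not_le.1 h⟩
  have eA := sd_ev N hin (bs (false, i)) (false, i) hfA
  have eB := sd_ev N hin (bs (true, j)) (true, j) hfB
  have key : ∀ (CA CB : Fin D → Fin k → Prop), (∑ l, pr (CA l)) ≤ 2 * ((S : ℝ) + 1) →
      (∑ l, pr (CB l)) ≤ 2 * ((S : ℝ) + 1) →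
      (∀ l c, ¬ CA l c → ¬ CB l c → ∃ g, two g ∧
        Hit N g x (pos (bs (false, i)) (false, i) (Function.update u l c))
          (pos (bs (true, j)) (true, j) (Function.update v l c))) →
      (∑ l : Fin D, (pr fun c : Fin k =>
      ¬ ∃ g, two g ∧ Hit N g x (pos (bs (false, i)) (false, i) (Function.update u l c))
        (pos (bs (true, j)) (true, j) (Function.update v l c)))) ≤ M (false, i) u + M (true, j) v := by
    intro CA CB h1 h2 h3
    have h4 : (∑ l : Fin D, (pr fun c : Fin k =>
        ¬ ∃ g, two g ∧ Hit N g x (pos (bs (false, i)) (false, i) (Function.update u l c))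
          (pos (bs (true, j)) (true, j) (Function.update v l c)))) ≤ ∑ l, (pr (CA l) + pr (CB l)) := by
      refine Finset.sum_le_sum fun l _ => ?_
      refine le_trans (pr_mono fun c hc => ?_) (pr_or_le (CA l) (CB l))
      by_contra h5
      push Not at h5
      exact hc (h3 l c h5.1 h5.2)
    rw [Finset.sum_add_distrib] at h4
    have h5 := hM2 (false, i) u
    have h6 := hM2 (true, j) v
    linarith
  have two1 : ∀ a : ℝ, a ≤ (S : ℝ) + 1 → a ≤ 2 * ((S : ℝ) + 1) := fun a ha => by linarith
  obtain ⟨g, hg, hh⟩ := hW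
  rcases hh with ⟨a0, a1, a2⟩ | ⟨a0, a1, q, hq, a2, a3⟩ | ⟨a0, a1, q, hq, a2, a3⟩ |
    ⟨q₀, q, a0, a1, a2, a3⟩ | ⟨q₀, q, a0, a1, a2, a3⟩
  · refine key _ _ (two1 _ (eA (Sum.inr g))) (two1 _ (eB (Sum.inr g))) fun l c h1 h2 => ?_
    have h1' : N.val g (pos (bs (false, i)) (false, i) (Function.update u l c)) = N.val g (pos (bs (false, i)) (false, i) u) :=
      not_not.1 h1
    have h2' : N.val g (pos (bs (true, j)) (true, j) (Function.update v l c)) = N.val g (pos (bs (true, j)) (true, j) v) :=
      not_not.1 h2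
    exact ⟨g, hg, Or.inl ⟨a0, by rw [h1', a1], by rw [h2', a2]⟩⟩
  · refine key _ _ (two1 _ (eA (Sum.inr g))) (two1 _ (eB q.1)) fun l c h1 h2 => ?_
    have h1' : N.val g (pos (bs (false, i)) (false, i) (Function.update u l c)) = N.val g (pos (bs (false, i)) (false, i) u) :=
      not_not.1 h1
    have h2' := not_not.1 h2
    exact ⟨g, hg, Or.inr (Or.inl ⟨a0, by rw [h1', a1], q, hq, a2, by rw [h2']; exact a3⟩)⟩
  · refine key _ _ (two1 _ (eA q.1)) (two1 _ (eB (Sum.inr g))) fun l c h1 h2 => ?_
    have h1' := not_not.1 h1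
    have h2' : N.val g (pos (bs (true, j)) (true, j) (Function.update v l c)) = N.val g (pos (bs (true, j)) (true, j) v) :=
      not_not.1 h2
    exact ⟨g, hg, Or.inr (Or.inr (Or.inl
      ⟨a0, by rw [h2', a1], q, hq, a2, by rw [h1']; exact a3⟩))⟩
  · refine key (fun l c => (N.first g (pos (bs (false, i)) (false, i) (Function.update u l c)) ≠
        N.first g (pos (bs (false, i)) (false, i) u)) ∨ N.ev q₀.1 (pos (bs (false, i)) (false, i) (Function.update u l c)) ≠
        N.ev q₀.1 (pos (bs (false, i)) (false, i) u)) _ ?_ (two1 _ (eB q.1)) fun l c h1 h2 => ?_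
    · refine (Finset.sum_le_sum fun l _ => pr_or_le _ _).trans ?_
      rw [Finset.sum_add_distrib]
      have h1 := hfA g
      unfold infl at h1
      have h2 := eA q₀.1
      linarith
    · push Not at h1
      obtain ⟨h1, h3⟩ := h1
      have h2' := not_not.1 h2
      exact ⟨g, hg, Or.inr (Or.inr (Or.inr (Or.inl
        ⟨q₀, q, a0, by rw [h1, a1], by rw [h3, a2], by rw [h2']; exact a3⟩)))⟩
  · refine key _ (fun l c => (N.first g (pos (bs (true, j)) (true, j) (Function.update v l c)) ≠
        N.first g (pos (bs (true, j)) (true, j) v)) ∨ N.ev q₀.1 (pos (bs (true, j)) (true, j) (Function.update v l c)) ≠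
        N.ev q₀.1 (pos (bs (true, j)) (true, j) v)) (two1 _ (eA q.1)) ?_ fun l c h1 h2 => ?_
    · refine (Finset.sum_le_sum fun l _ => pr_or_le _ _).trans ?_
      rw [Finset.sum_add_distrib]
      have h1 := hfB g
      unfold infl at h1
      have h2 := eB q₀.1
      linarith
    · push Not at h2
      obtain ⟨h2, h3⟩ := h2
      have h1' := not_not.1 h1
      exact ⟨g, hg, Or.inr (Or.inr (Or.inr (Or.inr
        ⟨q₀, q, a0, by rw [h2, a1], by rw [h3, a2], by rw [h1']; exact a3⟩)))⟩

open Classical in
theorem side2 {ι : Type} [Fintype ι] {n D s T k : ℕ} (hk : 2 ≤ k)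
    (N : Net ι (Co n D → Fin k) s T) (hin : ∀ i, DepOne (N.inp i)) (x bA bB : Co n D → Fin k)
    (i j : Fin n) (two : Fin s → Prop) {s₁ G : ℕ} (hs₁ : 1 ≤ s₁)
    (hG : s * (2 * (Fintype.card ι + s)) + (Fintype.card ι + s) ≤ G) :
    avR (fun u v : Str k D => if ∃ g, two g ∧
        Hit N g x (pos bA (false, i) u) (pos bB (true, j) v) then (1 : ℝ) else 0) ≤
      (av fun u : Str k D => pr fun v : Str k D => ∃ g, two g ∧
        Hit N g x (pos bA (false, i) u) (pos bB (true, j) v)) +
      errB k D s T s₁ G := by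
  have hne : Nonempty (Fin k) := ⟨⟨0, by omega⟩⟩
  have h0 : ∀ (b : Co n D → Fin k) (p : Bool × Fin n) (g : Fin s), (pr fun u : Str k D => (snB T s₁ : ℝ) + 1 <
      infl (fun u' : Fin D → Fin k => N.first g (pos b p u')) u) ≤ D * tailB T s₁ G := by
    intro b p g
    have h1 := net_infl (V := Fin D) (N.comp (pos b p)) (fun i => depOne_pos (hin i) b p) hs₁ hG g
    rw [Fintype.card_fin] at h1
    exact h1
  exact side_gen hk N hin x (fun p => cond p.1 bB bA) i j two (fun g => h0 bA (false, i) g)
    (fun g => h0 bB (true, j) g)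

end Pool.Agent.H58.CE
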