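import Pool.Agent.H58.CE.Trb
import Pool.Agent.H58.CE.Dec
import Pool.Agent.H58.CE.Rect
import Pool.Agent.H58.CE.Side2
import Pool.Agent.H58.CE.Uniq
import Pool.Agent.H58.CE.Tpm

/-! [H58 CE STEPA] The decoupling lemma applied to the histories, for fixed transversals and
background.

Notation: `z = tp P x α β y`, `z° = pl P tt x (tp P x α β y) w`, `xt = mix (cols tt) x xh`,
`i = P (x (false, tt false)) (tt false)`, `j = P (x (true, tt true)) (tt true)`,
`y0 = mix (trb D P x) z' y`.
PROOF. For `γ`, `r` let `X γ r α = S.sm γ r (tp P x α (tg P true x z') y)`,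
`Y γ r β = S.sm γ r (tp P x (tg P false x z') β y) - S.sm γ r (tp P x (tg P false x z') (tg P true x z') y)`
and `Q γ v := (∀ r, S.sl r < l → v r = γ r) ∧ ∀ r, l ≤ S.sl r → γ r = false`. By `mix_tra_false`,
`mix_tra_true`, `mix_trb`: `S.KE P l γ x z' (tp P x α β y) ↔ Q γ (fun r => S.st r (X γ r α + Y γ r β))`
(*). Take `c` from `rects` (`I = Fin h`, values in `Bool`, `f = S.st`). Apply `dec` with the index set
`(Fin h → Bool) × (Fin h → Fin (2M+1))` (cardinality `2^h (2M+1)^h`), `A (γ, σ) α := c γ α = σ`,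
`B (γ, σ) β := ∀ α', c γ α' = σ → Q γ (values at α', β)`; `hdisj`: both rectangles contain `(a, b)`, so
`S.KE` holds at `tp P x a b y` for `γ` and `γ'`, `γ = γ'` by `ke_uniq`, and `σ = c γ a = σ'`.
`W (γ, σ) t t' u v := S.Fail P γ xt z' (plant y0 i j u v)` (with `tt = (t, t')`),
`W' (γ, σ) t t' u v := ∃ g, g ∈ two ∧ Hit (S.net γ) g (mix (trb D P xt) z' y0)
(pos (mix (tra D P true xt) z' y0) (false, i) u) (pos (mix (tra D P false xt) z' y0) (true, j) v)`.
`hW`: `W → W'` by `fail_hit` (`xt` has the same values as `x` in the columns `tt`, so `i`, `j` are on the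
transversal `xt`), `avR_mono`, then `side2`; `e = errB k D s T s₁ G ≥ 0`.
LEFT SIDE: `z° = tp P x (update α t w.1.1) (update β t' w.1.2) y` (`tp_plant`) and
`mix (tro D P x tt) z' z° = plant y0 i j w.1.1 w.1.2` (`mix_tro`). If the event holds, then either no
rectangle contains the pair, or some `(γ, σ)` does; then `S.KE P l γ x z' z°`, so
`γ = S.ht l z°` by `ke_uniq`, and `W` holds. (`avR_eq hk` turns the average over `w : Op k D` into
`avR`; `av_equiv` with `Equiv.boolArrowEquivProd` splits `tt` into `t, t'`.)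
RIGHT SIDE: if `(γ, σ)` contains `(α, β)` and `W'` holds for `u = α t`, `v = β t'`, then either
`¬ S.KE P l (S.ht l z) x z' z`, or `γ = S.ht l z` and by `hit_first` and
`plant y0 i j (α t) (β t') = mix (tro D P x tt) z' z` (`mix_tro`) the event `S.FE` holds
(`mix A z' (mix O z' z) = mix (O ∪ A) z' z`). If no rectangle contains `(α, β)` then either
`¬ S.KE P l (S.ht l z) x z' z` or the event of `rects` holds (by (*) with `γ = S.ht l z`; take
`σ = c γ α` in the negated existence). -/

set_option autoImplicit false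
set_option maxHeartbeats 4000000

namespace Pool.Agent.H58.CE

open Pool.Agent.H58.OVAC Pool.Agent.H58.OVPR Pool.Agent.H58.OVT Pool.Agent.H58.CD

variable {ι R : Type} {n D k s T h H J m : ℕ} [Fintype ι] [Fintype R] [DecidableEq R]

private theorem mix_un {V X : Type} [DecidableEq V] (O A : Finset V) (a b : V → X) :
    mix (O ∪ A) a b = mix A a (mix O a b) := by
  funext p
  unfold mix
  by_cases h1 : p ∈ A <;> by_cases h2 : p ∈ O <;> simp [h1, h2]

private theorem err_nonneg (k D s T s₁ G : ℕ) : 0 ≤ errB k D s T s₁ G := by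
  unfold errB tailB snB
  positivity

private theorem bool_av {m : ℕ} (G : Fin m → Fin m → ℝ) :
    (av fun tt : Bool → Fin m => G (tt false) (tt true)) =
      av fun t : Fin m => av fun t' : Fin m => G t t' := by
  rw [← av_prod G]
  exact av_equiv (Equiv.boolArrowEquivProd (Fin m)) (fun z => G z.1 z.2)

private theorem tt_eta {m : ℕ} (tt : Bool → Fin m) :
    (fun b : Bool => if b = true then tt true else tt false) = tt := by
  funext b
  cases b <;> rfl

open Classical in
theorem step_fix (hk : 2 ≤ k) (hm : 1 ≤ m) (S : SFam ι n D k s T h H J) (P : R → Fin m → Fin n)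
    (hP : ∀ a t a' t', P a t = P a' t' → a = a' ∧ t = t') (two : Finset (Fin s))
    (htwo : S.Two two) (l : ℕ) {s₁ G M : ℕ} (hs₁ : 1 ≤ s₁) (hM : 1 ≤ M)
    (hG : s * (2 * (Fintype.card ι + s)) + (Fintype.card ι + s) ≤ G)
    {e : ℝ} (he : 0 < e) (hem : 2 * e ≤ m) (x xh : Tr m R) (z' y : Co n D → Fin k) :
    (av fun tt : Bool → Fin m => av fun α : Fin m → Str k D => av fun β : Fin m → Str k D =>
      av fun w : Op k D =>
      if S.KE P l (S.ht l (pl P tt x (tp P x α β y) w)) x z' (pl P tt x (tp P x α β y) w) ∧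
        S.Fail P (S.ht l (pl P tt x (tp P x α β y) w)) (mix (cols tt) x xh) z'
          (mix (tro D P x tt) z' (pl P tt x (tp P x α β y) w)) then (1 : ℝ) else 0) ≤
      4 * (av fun tt : Bool → Fin m => av fun α : Fin m → Str k D => pr fun β : Fin m → Str k D =>
        ¬ S.KE P l (S.ht l (tp P x α β y)) x z' (tp P x α β y) ∨
        S.FE P two (S.ht l (tp P x α β y)) tt x (mix (cols tt) x xh) z' (tp P x α β y)) +
      (av fun α : Fin m → Str k D => pr fun β : Fin m → Str k D =>
        ¬ S.KE P l (S.ht l (tp P x α β y)) x z' (tp P x α β y)) +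
      2 ^ h * (h * ((J : ℝ) / M)) + 4 * errB k D s T s₁ G + 12 * decB m M h h e := by
  haveI : Nonempty (Fin m) := ⟨⟨0, hm⟩⟩
  haveI : Nonempty (Str k D) := ⟨fun _ => ⟨0, by omega⟩⟩
  obtain ⟨a0, ha0⟩ : ∃ a0, a0 = tg P false x z' := ⟨_, rfl⟩
  obtain ⟨b0, hb0⟩ : ∃ b0, b0 = tg P true x z' := ⟨_, rfl⟩
  obtain ⟨y0, hy0⟩ : ∃ y0, y0 = mix (trb D P x) z' y := ⟨_, rfl⟩
  obtain ⟨Xf, hXf⟩ : ∃ Xf : (Fin h → Bool) → Fin h → (Fin m → Str k D) → ℝ,
    Xf = fun γ r α => S.sm γ r (tp P x α b0 y) := ⟨_, rfl⟩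
  obtain ⟨Yf, hYf⟩ : ∃ Yf : (Fin h → Bool) → Fin h → (Fin m → Str k D) → ℝ,
    Yf = fun γ r β => S.sm γ r (tp P x a0 β y) - S.sm γ r (tp P x a0 b0 y) := ⟨_, rfl⟩
  obtain ⟨Q, hQ⟩ : ∃ Q : (Fin h → Bool) → (Fin h → Bool) → Prop,
    Q = fun γ v => (∀ r, S.sl r < l → v r = γ r) ∧ ∀ r, l ≤ S.sl r → γ r = false := ⟨_, rfl⟩
  have hstar : ∀ γ α β, S.KE P l γ x z' (tp P x α β y) ↔
      Q γ (fun r => S.st r (Xf γ r α + Yf γ r β)) := by
    intro γ α β
    unfold SFam.KE SFam.xy
    rw [mix_tra_false P hP, mix_tra_true P hP, mix_trb P hP, hQ, hXf, hYf, ← ha0, ← hb0]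
  obtain ⟨c, hc⟩ := rects (A := Fin m → Str k D) (B := Fin m → Str k D) hM Xf Yf S.st S.st_step Q
  obtain ⟨A, hA⟩ : ∃ A : ((Fin h → Bool) × (Fin h → Fin (2 * M + 1))) → (Fin m → Str k D) → Prop,
    A = fun σ α => c σ.1 α = σ.2 := ⟨_, rfl⟩
  obtain ⟨B, hB⟩ : ∃ B : ((Fin h → Bool) × (Fin h → Fin (2 * M + 1))) → (Fin m → Str k D) → Prop,
    B = fun σ β => ∀ α', c σ.1 α' = σ.2 → Q σ.1 (fun r => S.st r (Xf σ.1 r α' + Yf σ.1 r β)) :=
    ⟨_, rfl⟩
  have hKE : ∀ σ α β, A σ α → B σ β → S.KE P l σ.1 x z' (tp P x α β y) := by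
    intro σ α β h1 h2
    rw [hstar]
    rw [hA] at h1
    rw [hB] at h2
    exact h2 α h1
  have hdisj : ∀ σ σ' a b, A σ a → B σ b → A σ' a → B σ' b → σ = σ' := by
    intro σ σ' a b h1 h2 h3 h4
    have h5 := ke_uniq S P (hKE σ a b h1 h2) (hKE σ' a b h3 h4)
    refine Prod.ext h5 ?_
    rw [hA] at h1 h3
    have h6 : c σ.1 a = σ.2 := h1
    have h7 : c σ'.1 a = σ'.2 := h3
    rw [← h6, ← h7, h5]
  -- the transversal with exchanged columns
  obtain ⟨xt, hxt⟩ : ∃ xt : Fin m → Fin m → Tr m R, xt = fun t t' =>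
    mix (cols fun b : Bool => if b = true then t' else t) x xh := ⟨_, rfl⟩
  have hxt' : ∀ tt : Bool → Fin m, xt (tt false) (tt true) = mix (cols tt) x xh := by
    intro tt
    rw [hxt]
    show mix (cols fun b : Bool => if b = true then tt true else tt false) x xh = _
    rw [tt_eta]
  have hi : ∀ t t' (c : Fin D), (((false, P (x (false, t)) t), c) : Co n D) ∈
      tra D P false (xt t t') := by
    intro t t' c
    unfold tra
    rw [Finset.mem_filter]
    refine ⟨Finset.mem_univ _, rfl, t, ?_⟩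
    have h1 : ((false, t) : Bool × Fin m) ∈ cols fun b : Bool => if b = true then t' else t := by
      unfold cols
      simp
    rw [hxt]
    show P (x (false, t)) t = P (mix (cols fun b : Bool => if b = true then t' else t) x xh
      (false, t)) t
    unfold mix
    rw [if_pos h1]
  have hj : ∀ t t' (c : Fin D), (((true, P (x (true, t')) t'), c) : Co n D) ∈
      tra D P true (xt t t') := by
    intro t t' c
    unfold tra
    rw [Finset.mem_filter]
    refine ⟨Finset.mem_univ _, rfl, t', ?_⟩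
    have h1 : ((true, t') : Bool × Fin m) ∈ cols fun b : Bool => if b = true then t' else t := by
      unfold cols
      simp
    rw [hxt]
    show P (x (true, t')) t' = P (mix (cols fun b : Bool => if b = true then t' else t) x xh
      (true, t')) t'
    unfold mix
    rw [if_pos h1]
  obtain ⟨W, hW⟩ : ∃ W : ((Fin h → Bool) × (Fin h → Fin (2 * M + 1))) → Fin m → Fin m →
      Str k D → Str k D → Prop, W = fun σ t t' u v => S.Fail P σ.1 (xt t t') z'
        (plant y0 (P (x (false, t)) t) (P (x (true, t')) t') u v) := ⟨_, rfl⟩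
  obtain ⟨W', hW'⟩ : ∃ W' : ((Fin h → Bool) × (Fin h → Fin (2 * M + 1))) → Fin m → Fin m →
      Str k D → Str k D → Prop, W' = fun σ t t' u v => ∃ g, g ∈ two ∧ Hit (S.net σ.1) g
        (mix (trb D P (xt t t')) z' y0)
        (pos (mix (tra D P true (xt t t')) z' y0) (false, P (x (false, t)) t) u)
        (pos (mix (tra D P false (xt t t')) z' y0) (true, P (x (true, t')) t') v) := ⟨_, rfl⟩
  have hWW : ∀ σ t t', avR (fun u v => if W σ t t' u v then (1 : ℝ) else 0) ≤
      (av fun u : Str k D => pr fun v : Str k D => W' σ t t' u v) + errB k D s T s₁ G := by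
    intro σ t t'
    refine le_trans (avR_mono hk fun u v _ => ?_) (side2 hk (S.net σ.1) (S.dep σ.1)
      (mix (trb D P (xt t t')) z' y0) (mix (tra D P true (xt t t')) z' y0)
      (mix (tra D P false (xt t t')) z' y0) (P (x (false, t)) t) (P (x (true, t')) t')
      (fun g => g ∈ two) hs₁ hG |>.trans (le_of_eq (by rw [hW'])))
    by_cases h1 : W σ t t' u v
    · rw [if_pos h1]
      rw [hW] at h1
      rw [if_pos (fail_hit S P two htwo σ.1 (xt t t') z' y0 _ _ (hi t t') (hj t t') u v h1)]
    · rw [if_neg h1]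
      split_ifs <;> norm_num
  have hdec := dec hk hm A B hdisj W W' (err_nonneg k D s T s₁ G) hWW he hem
  -- the left side
  have hL : (av fun tt : Bool → Fin m => av fun α : Fin m → Str k D =>
      av fun β : Fin m → Str k D => av fun w : Op k D =>
      if S.KE P l (S.ht l (pl P tt x (tp P x α β y) w)) x z' (pl P tt x (tp P x α β y) w) ∧
        S.Fail P (S.ht l (pl P tt x (tp P x α β y) w)) (mix (cols tt) x xh) z'
          (mix (tro D P x tt) z' (pl P tt x (tp P x α β y) w)) then (1 : ℝ) else 0) ≤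
      (av fun t : Fin m => av fun t' : Fin m => av fun a : Fin m → Str k D =>
      av fun b : Fin m → Str k D => avR fun u v =>
      if (¬ ∃ σ, A σ (Function.update a t u) ∧ B σ (Function.update b t' v)) ∨
        (∃ σ, A σ (Function.update a t u) ∧ B σ (Function.update b t' v) ∧ W σ t t' u v)
        then (1 : ℝ) else 0) := by
    rw [← bool_av]
    refine av_mono fun tt => av_mono fun α => av_mono fun β => ?_
    rw [avR_eq hk]
    refine av_mono fun w => ?_
    have e1 : pl P tt x (tp P x α β y) w = tp P x (Function.update α (tt false) w.1.1)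
        (Function.update β (tt true) w.1.2) y := tp_plant P hP x tt α β y w.1.1 w.1.2
    rw [e1, mix_tro P hP, Function.update_self, Function.update_self, ← hy0]
    set α' := Function.update α (tt false) w.1.1 with hα'
    set β' := Function.update β (tt true) w.1.2 with hβ'
    by_cases hC : S.KE P l (S.ht l (tp P x α' β' y)) x z' (tp P x α' β' y) ∧
        S.Fail P (S.ht l (tp P x α' β' y)) (mix (cols tt) x xh) z'
          (plant y0 (P (x (false, tt false)) (tt false)) (P (x (true, tt true)) (tt true))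
            w.1.1 w.1.2)
    · rw [if_pos hC, if_pos]
      by_cases hex : ∃ σ, A σ α' ∧ B σ β'
      · right
        obtain ⟨σ, h1, h2⟩ := hex
        refine ⟨σ, h1, h2, ?_⟩
        have h3 := ke_uniq S P (hKE σ α' β' h1 h2) hC.1
        rw [hW]
        show S.Fail P σ.1 (xt (tt false) (tt true)) z' _
        rw [hxt', h3]
        exact hC.2
      · exact Or.inl hex
    · rw [if_neg hC]
      split_ifs <;> norm_num
  -- the first term of the right side
  have hR1 : (av fun t : Fin m => av fun t' : Fin m => av fun a : Fin m → Str k D =>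
        pr fun b : Fin m → Str k D => ∃ σ, A σ a ∧ B σ b ∧ W' σ t t' (a t) (b t')) ≤
      (av fun tt : Bool → Fin m => av fun α : Fin m → Str k D => pr fun β : Fin m → Str k D =>
        ¬ S.KE P l (S.ht l (tp P x α β y)) x z' (tp P x α β y) ∨
        S.FE P two (S.ht l (tp P x α β y)) tt x (mix (cols tt) x xh) z' (tp P x α β y)) := by
    rw [← bool_av]
    refine av_mono fun tt => av_mono fun α => pr_mono fun β => ?_
    rintro ⟨σ, h1, h2, h3⟩
    by_cases hC : S.KE P l (S.ht l (tp P x α β y)) x z' (tp P x α β y)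
    · right
      have h4 := ke_uniq S P (hKE σ α β h1 h2) hC
      rw [hW'] at h3
      obtain ⟨g, hg, h5⟩ := hit_first S P two htwo σ.1 (xt (tt false) (tt true)) z' y0 _ _
        (hi (tt false) (tt true)) (hj (tt false) (tt true)) (α (tt false)) (β (tt true)) h3
      refine ⟨g, hg, ?_⟩
      rw [mix_un, mix_un, mix_un, mix_tro P hP, ← hy0, ← h4, ← hxt' tt]
      exact h5
    · exact Or.inl hC
  -- the second term
  have hR2 : (av fun a : Fin m → Str k D => pr fun b : Fin m → Str k D => ¬ ∃ σ, A σ a ∧ B σ b) ≤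
      (av fun α : Fin m → Str k D => pr fun β : Fin m → Str k D =>
        ¬ S.KE P l (S.ht l (tp P x α β y)) x z' (tp P x α β y)) +
      2 ^ h * (h * ((J : ℝ) / M)) := by
    have hc' : (av fun a : Fin m → Str k D => pr fun b : Fin m → Str k D =>
        (∃ γ, Q γ fun i => S.st i (Xf γ i a + Yf γ i b)) ∧
        ¬ ∃ γ, ∀ a', c γ a' = c γ a → Q γ fun i => S.st i (Xf γ i a' + Yf γ i b)) ≤
        2 ^ h * (h * ((J : ℝ) / M)) := by
      refine hc.trans (le_of_eq ?_)
      rw [Fintype.card_fun, Fintype.card_bool, Fintype.card_fin]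
      push_cast
      rfl
    refine le_trans ?_ (add_le_add le_rfl hc')
    rw [← av_add]
    refine av_mono fun α => le_trans (pr_mono fun β => ?_) (pr_or_le _ _)
    intro h1
    by_cases hC : S.KE P l (S.ht l (tp P x α β y)) x z' (tp P x α β y)
    · right
      refine ⟨⟨_, (hstar _ α β).1 hC⟩, ?_⟩
      rintro ⟨γ, h2⟩
      apply h1
      refine ⟨(γ, c γ α), ?_, ?_⟩
      · rw [hA]
      · rw [hB]
        exact h2
    · exact Or.inl hC
  have hcard : ((Fintype.card ((Fin h → Bool) × (Fin h → Fin (2 * M + 1))) : ℕ) : ℝ) =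
      2 ^ h * (2 * M + 1) ^ h := by
    rw [Fintype.card_prod, Fintype.card_fun, Fintype.card_fun, Fintype.card_bool,
      Fintype.card_fin, Fintype.card_fin]
    push_cast
    rfl
  rw [hcard] at hdec
  unfold decB
  linarith [hL, hR1, hR2, hdec]

end Pool.Agent.H58.CE
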