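import Pool.Agent.H58.CE.Base

/-! [H58 CE TRB] Trouble at the planted pair, seen from the reference values.

PROOF. Write `A = tra D P false x`, `B = tra D P true x` (`trb D P x = A ∪ B`), `N = S.net γ`,
`q = plant y i j u v`, `x0 = mix (A ∪ B) z' y`, `xu = pos (mix B z' y) (false, i) u`,
`xv = pos (mix A z' y) (true, j) v`. Pointwise (by `hi`, `hj` the positions `i`, `j` are in `A`, `B`,
and `A`, `B` are in different lists): `mix (A ∪ B) z' q = x0`, `mix B z' q = xu`, `mix A z' q = xv`.
`Uni4 a b c d` is equivalent to `Uni4 d c b a`. So `S.Fail P γ x z' q` (definition: `BadS N A B q z'`)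
says that some gate has `¬ Uni` on `x0, xu, xv, q`. Now `CD.exists_hit` with `two g := g ∈ two`: `hin`
from `CD.uni_of_depOne` (base point `x0`, values `q`: `mix A q x0 = xu`, `mix B q x0 = xv`,
`mix (A ∪ B) q x0 = q`), `htwo` from `S.Two` and `CD.uni_of_oneSided` in the same way.
`hit_first`: `CD.exists_first_of_hit` with the same four points, then `Uni4 a b c d ↔ Uni4 d c b a`. -/

set_option autoImplicit false
set_option maxHeartbeats 4000000

namespace Pool.Agent.H58.CE

open Pool.Agent.H58.OVAC Pool.Agent.H58.OVPR Pool.Agent.H58.OVT Pool.Agent.H58.CD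

private theorem pts {n D : ℕ} {X : Type} {A B : Finset (Co n D)} (hA : ∀ p ∈ A, p.1.1 = false)
    (hB : ∀ p ∈ B, p.1.1 = true) (z' y : Co n D → X) (i j : Fin n)
    (hi : ∀ c, ((false, i), c) ∈ A) (hj : ∀ c, ((true, j), c) ∈ B) (u v : Fin D → X) :
    mix (A ∪ B) z' (plant y i j u v) = mix (A ∪ B) z' y ∧
    mix B z' (plant y i j u v) = pos (mix B z' y) (false, i) u ∧
    mix A z' (plant y i j u v) = pos (mix A z' y) (true, j) v ∧
    mix A (plant y i j u v) (mix (A ∪ B) z' y) = pos (mix B z' y) (false, i) u ∧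
    mix B (plant y i j u v) (mix (A ∪ B) z' y) = pos (mix A z' y) (true, j) v ∧
    mix (A ∪ B) (plant y i j u v) (mix (A ∪ B) z' y) = plant y i j u v := by
  have m1 : ∀ p : Co n D, p.1 = (false, i) → p ∈ A := fun p hp => by
    have h := hi p.2
    rw [← hp] at h
    exact h
  have m2 : ∀ p : Co n D, p.1 = (true, j) → p ∈ B := fun p hp => by
    have h := hj p.2
    rw [← hp] at h
    exact h
  have m3 : ∀ p : Co n D, p ∈ A → p ∉ B := fun p ha hb => by
    have h := hA p ha
    rw [hB p hb] at h
    exact absurd h (by decide)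
  have m5 : ∀ p : Co n D, p ∈ A → p.1 ≠ (true, j) := fun p ha hp => by
    have h := hA p ha
    rw [hp] at h
    exact absurd h (by simp)
  have m6 : ∀ p : Co n D, p ∈ B → p.1 ≠ (false, i) := fun p ha hp => by
    have h := hB p ha
    rw [hp] at h
    exact absurd h (by simp)
  refine ⟨?_, ?_, ?_, ?_, ?_, ?_⟩ <;>
  · funext p
    unfold mix
    try unfold pos
    try unfold plant
    by_cases a : p ∈ A
    · have b := m3 p a
      have d := m5 p a
      by_cases c : p.1 = (false, i)
      · simp [a, b, c]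
      · simp [a, b, c, d]
    · have c : p.1 ≠ (false, i) := fun h => a (m1 p h)
      by_cases b : p ∈ B
      · by_cases d : p.1 = (true, j)
        · simp [a, b, c, d]
        · simp [a, b, c, d]
      · have d : p.1 ≠ (true, j) := fun h => b (m2 p h)
        simp [a, b, c, d]

private theorem uni4_symm {Y : Type} {a b c d : Y} : Uni4 a b c d ↔ Uni4 d c b a := by
  unfold Uni4
  constructor
  · rintro (⟨h1, h2⟩ | ⟨h1, h2⟩)
    · exact Or.inl ⟨h2.symm, h1.symm⟩
    · exact Or.inr ⟨h2.symm, h1.symm⟩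
  · rintro (⟨h1, h2⟩ | ⟨h1, h2⟩)
    · exact Or.inl ⟨h2.symm, h1.symm⟩
    · exact Or.inr ⟨h2.symm, h1.symm⟩

variable {ι R : Type} {n D k s T h H J m : ℕ} [Fintype ι]

theorem fail_hit (S : SFam ι n D k s T h H J) (P : R → Fin m → Fin n) (two : Finset (Fin s))
    (htwo : S.Two two) (γ : Fin h → Bool) (x : Tr m R) (z' y : Co n D → Fin k) (i j : Fin n)
    (hi : ∀ c, ((false, i), c) ∈ tra D P false x) (hj : ∀ c, ((true, j), c) ∈ tra D P true x)
    (u v : Str k D) (h1 : S.Fail P γ x z' (plant y i j u v)) :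
    ∃ g, g ∈ two ∧ Hit (S.net γ) g (mix (trb D P x) z' y)
      (pos (mix (tra D P true x) z' y) (false, i) u)
      (pos (mix (tra D P false x) z' y) (true, j) v) := by
  have hA : ∀ p ∈ tra D P false x, p.1.1 = false := fun p hp => (Finset.mem_filter.1 hp).2.1
  have hB : ∀ p ∈ tra D P true x, p.1.1 = true := fun p hp => (Finset.mem_filter.1 hp).2.1
  obtain ⟨e0, e1, e2, f1, f2, f3⟩ := pts hA hB z' y i j hi hj u v
  have hin : ∀ l, Uni ((S.net γ).inp l) (mix (tra D P false x ∪ tra D P true x) z' y)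
      (pos (mix (tra D P true x) z' y) (false, i) u)
      (pos (mix (tra D P false x) z' y) (true, j) v) (plant y i j u v) := by
    intro l
    have h2 := uni_of_depOne (S.dep γ l) (disj_lists hA hB)
      (mix (tra D P false x ∪ tra D P true x) z' y) (plant y i j u v)
    rwa [f1, f2, f3] at h2
  have ht : ∀ g, ¬ g ∈ two → Uni ((S.net γ).val g) (mix (tra D P false x ∪ tra D P true x) z' y)
      (pos (mix (tra D P true x) z' y) (false, i) u)
      (pos (mix (tra D P false x) z' y) (true, j) v) (plant y i j u v) := by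
    intro g hg
    have h2 := uni_of_oneSided (htwo γ g hg) hA hB
      (mix (tra D P false x ∪ tra D P true x) z' y) (plant y i j u v)
    rwa [f1, f2, f3] at h2
  refine exists_hit (S.net γ) (fun g => g ∈ two) hin ht ?_
  obtain ⟨g, hg⟩ := h1
  refine ⟨g, fun h3 => hg ?_⟩
  rw [e0, e1, e2]
  exact uni4_symm.1 h3

theorem hit_first (S : SFam ι n D k s T h H J) (P : R → Fin m → Fin n) (two : Finset (Fin s))
    (htwo : S.Two two) (γ : Fin h → Bool) (x : Tr m R) (z' y : Co n D → Fin k) (i j : Fin n)
    (hi : ∀ c, ((false, i), c) ∈ tra D P false x) (hj : ∀ c, ((true, j), c) ∈ tra D P true x)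
    (u v : Str k D) (h1 : ∃ g, g ∈ two ∧ Hit (S.net γ) g (mix (trb D P x) z' y)
      (pos (mix (tra D P true x) z' y) (false, i) u)
      (pos (mix (tra D P false x) z' y) (true, j) v)) :
    ∃ g ∈ two, ¬ Uni ((S.net γ).first g) (plant y i j u v)
      (mix (tra D P false x) z' (plant y i j u v)) (mix (tra D P true x) z' (plant y i j u v))
      (mix (trb D P x) z' (plant y i j u v)) := by
  have hA : ∀ p ∈ tra D P false x, p.1.1 = false := fun p hp => (Finset.mem_filter.1 hp).2.1
  have hB : ∀ p ∈ tra D P true x, p.1.1 = true := fun p hp => (Finset.mem_filter.1 hp).2.1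
  obtain ⟨e0, e1, e2, f1, f2, f3⟩ := pts hA hB z' y i j hi hj u v
  have hin : ∀ l, Uni ((S.net γ).inp l) (mix (tra D P false x ∪ tra D P true x) z' y)
      (pos (mix (tra D P true x) z' y) (false, i) u)
      (pos (mix (tra D P false x) z' y) (true, j) v) (plant y i j u v) := by
    intro l
    have h2 := uni_of_depOne (S.dep γ l) (disj_lists hA hB)
      (mix (tra D P false x ∪ tra D P true x) z' y) (plant y i j u v)
    rwa [f1, f2, f3] at h2
  have ht : ∀ g, ¬ g ∈ two → Uni ((S.net γ).val g) (mix (tra D P false x ∪ tra D P true x) z' y)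
      (pos (mix (tra D P true x) z' y) (false, i) u)
      (pos (mix (tra D P false x) z' y) (true, j) v) (plant y i j u v) := by
    intro g hg
    have h2 := uni_of_oneSided (htwo γ g hg) hA hB
      (mix (tra D P false x ∪ tra D P true x) z' y) (plant y i j u v)
    rwa [f1, f2, f3] at h2
  obtain ⟨g, hg, hh⟩ := exists_first_of_hit (S.net γ) (fun g => g ∈ two) hin ht h1
  refine ⟨g, hg, fun h3 => hh ?_⟩
  unfold trb at h3
  rw [e0, e1, e2] at h3
  exact uni4_symm.1 h3

end Pool.Agent.H58.CE
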